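import Pool.Agent.H86.LU.Fin

/-!
# LU Base: the data with the whole boundary `D`; the part `P` with poles

The definitions are in `BaseDefs`, the proofs in `H86/LU`.
-/

set_option autoImplicit false

open Topology Filter Metric

namespace Pool.Agent.H18.LU

open Pool.Agent.H36.BP (EN fs wd IsGermChart)
open Pool.Agent.H14.PP (IsCone Chart Tan CurveAt)
open Pool.Agent.H62.EF (Lat MN pr TorusMap Sec Charts DU)
open Pool.Agent.H62.EL (Gd Ag BadSet IsNC TForm Per VanZero Thin)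

variable {N : ℕ} {X D : Set (EN N)} {Λ Γ : AddSubgroup ℂ} {u : EN N → ℂ} {B : Set ℂ} {δ : ℝ}

/-- **Extension of forms.** `D₀ ⊇ D` closed parts of `X`, the form on `X \ D₀` has an analytic coefficient near every point of `D₀ \ D`, in the coordinates of one
germ chart in which `D₀` is nowhere dense. -/
theorem tform_extend (hX : OCone X) (hc : Charts X) (hΛ : Dsc Λ) (hu : TorusMap X Λ u) {D₀ : Set (EN N)} (hD : D ⊆ D₀) (hD₀ : D₀ ⊆ X)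
    (hs : ∀ x ∈ D₀, ∀ c : ℂ, c ≠ 0 → c • x ∈ D₀) (hsD : ∀ x ∈ D, ∀ c : ℂ, c ≠ 0 → c • x ∈ D)
    (hcl : ∀ x ∈ X, x ∉ D₀ → ∀ᶠ y in 𝓝 x, y ∉ D₀) (hclD : ∀ x ∈ X, x ∉ D → ∀ᶠ y in 𝓝 x, y ∉ D) (α : TForm (X \ D₀) Λ u)
    (h : ∀ x ∈ D₀, x ∉ D → ∃ (σ : ℂ × ℂ → EN N) (τ : EN N → ℂ × ℂ) (υ : ℂ × ℂ → ℂ), IsGermChart X σ τ ∧ σ 0 = x ∧ AnalyticAt ℂ υ 0 ∧
      (∀ᶠ p in 𝓝 (0 : ℂ × ℂ), u (σ p) - υ p ∈ Λ) ∧ (∀ᶠ p in 𝓝 (0 : ℂ × ℂ), ∃ᶠ q in 𝓝 p, σ q ∉ D₀) ∧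
      ∀ l ∈ Λ, ∃ g : ℂ × ℂ → ℂ, AnalyticAt ℂ g 0 ∧ ∀ᶠ p in 𝓝 (0 : ℂ × ℂ), σ p ∉ D₀ →
        α.toFun (υ p + l) (σ p) (fderiv ℂ σ p (1, 0)) (fderiv ℂ σ p (0, 1)) = g p) :
    ∃ α' : TForm (X \ D) Λ u, ∀ z, ∀ x ∈ X, x ∉ D₀ → ∀ v w, α'.toFun z x v w = α.toFun z x v w := by
  exact Pool.Agent.H86.LU.tform_extend hX hc hΛ hu hD hD₀ hs hsD hcl hclD α h

theorem EBase.lbase (E : EBase X D Λ Γ u B δ) : LBase X D Λ Γ u B δ := by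
  exact Pool.Agent.H86.LU.lbase E

/-- in the compact case residues are bounded -/
theorem EBase.resBd (E : EBase X D Λ Γ u B δ) {α : TForm (X \ D) Λ u} (hlog : LogP α) (hper : Per α Γ) : ResBd α := by
  exact Pool.Agent.H86.LU.resBd E hlog hper

/-- the part `P` of `D` where the residue is not `0` contains no entire sections -/
theorem exists_P (E : LBase X D Λ Γ u B δ) (α : TForm (X \ D) Λ u) (hlog : LogP α) (hres : ResBd α) (hper : Per α Γ) (hvan : VanZero α)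
    (hthin : Thin α) : ∃ P : Set (EN N), LData X D P Λ Γ u B δ ∧ ∃ α' : TForm (X \ P) Λ u,
      (∀ z, ∀ x ∈ X, x ∉ D → ∀ v w, α'.toFun z x v w = α.toFun z x v w) ∧ LogP α' ∧ Per α' Γ ∧ VanZero α' ∧ Thin α' := by
  exact Pool.Agent.H86.LU.exists_P E α hlog hres hper hvan hthin

end Pool.Agent.H18.LU
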