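import Pool.Agent.H18.LU.Defs
import Pool.Agent.H62.EL.DyA

/-!
# LU Bas: basic facts

`nb_*`: `Nb Λ R` is the closed `R`-neighbourhood of `Λ`.  `isClosed_nb`: `Λ` is closed and discrete: if `z n → z`, `‖z n - l n‖ ≤ R` then the `l n` are bounded; a bounded sequence in `Λ` has a
constant subsequence (`Dsc`; or use compactness of `closedBall` and `Metric.isClosed_of_pairwise_le_dist` for `Λ`, see `isClosed_lat` in `H62/EL/Cst.lean`, and
`IsClosed.add_left_of_isCompact` for `closedBall 0 R + Λ`).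
`exists_rep`: `z` is at distance `≤ R` from `l ∈ Λ`, `l` at distance `≤ R₀` from `l' ∈ Γ` (`cof`).
`part_isCone`: `u (c • x) - u x ∈ Λ` (`TorusMap.smul`), so `part` is a cone.
`part_tor`: restrict (`loc` only speaks about points of `X`).
`part_unif`: `TorusMap.unif` (EF TorA) for the cone `part X Λ u R`.
`secAt_add`: compose with the translation (`F (· + l)`; `u - (w + l) ∈ Λ ↔ u - w ∈ Λ`).
`SecAt.mem`: `self_of_nhds`.
`SecAt.eventually`: an analytic function is analytic near the point (`AnalyticAt.eventually_analyticAt`), and `eventually_eventually_nhds`.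
-/

set_option autoImplicit false

open Topology Filter Metric

namespace Pool.Agent.H18.LU

open Pool.Agent.H36.BP (EN fs wd IsGermChart)
open Pool.Agent.H14.PP (IsCone Chart Tan CurveAt)
open Pool.Agent.H62.EF (Lat MN pr TorusMap Sec Charts DU)
open Pool.Agent.H62.EL (Gd Ag BadSet IsNC TForm)

variable {N : ℕ} {X D P : Set (EN N)} {Λ Γ : AddSubgroup ℂ} {u : EN N → ℂ} {B : Set ℂ} {δ : ℝ}

theorem nb_mono {R R' : ℝ} (h : R ≤ R') : Nb Λ R ⊆ Nb Λ R' := by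
  rintro z ⟨l, hl, h1⟩
  exact ⟨l, hl, h1.trans h⟩

theorem nb_add {R : ℝ} {z l : ℂ} (hl : l ∈ Λ) : z + l ∈ Nb Λ R ↔ z ∈ Nb Λ R := by
  constructor
  · rintro ⟨l', hl', h⟩
    refine ⟨l' - l, Λ.sub_mem hl' hl, ?_⟩
    have e : z - (l' - l) = z + l - l' := by ring
    rw [e]
    exact h
  · rintro ⟨l', hl', h⟩
    refine ⟨l' + l, Λ.add_mem hl' hl, ?_⟩
    have e : z + l - (l' + l) = z - l' := by ring
    rw [e]
    exact h

theorem nb_near {R r : ℝ} {z w : ℂ} (hz : z ∈ Nb Λ R) (hw : ‖w - z‖ ≤ r) : w ∈ Nb Λ (R + r) := by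
  obtain ⟨l, hl, h⟩ := hz
  refine ⟨l, hl, ?_⟩
  have e : w - l = (w - z) + (z - l) := by ring
  rw [e]
  exact (norm_add_le _ _).trans (by linarith)

theorem mem_nb_norm (z : ℂ) : z ∈ Nb Λ ‖z‖ := ⟨0, Λ.zero_mem, by rw [sub_zero]⟩

open Pointwise in
theorem isClosed_nb (hΛ : Dsc Λ) (R : ℝ) : IsClosed (Nb Λ R) := by
  obtain ⟨δ, hδ, hd⟩ := hΛ.discrete
  have h1 : IsClosed (Λ : Set ℂ) := by
    refine Metric.isClosed_of_pairwise_le_dist hδ ?_
    intro x hx y hy hxy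
    by_contra hlt
    push Not at hlt
    rw [dist_eq_norm] at hlt
    exact hxy (sub_eq_zero.mp (hd _ (Λ.sub_mem hx hy) hlt))
  have h2 : Nb Λ R = (Λ : Set ℂ) + closedBall (0 : ℂ) R := by
    ext z
    rw [Set.mem_add]
    constructor
    · rintro ⟨l, hl, h⟩
      exact ⟨l, hl, z - l, by rw [mem_closedBall_zero_iff]; exact h, by ring⟩
    · rintro ⟨l, hl, w, hw, rfl⟩
      refine ⟨l, hl, ?_⟩
      rw [mem_closedBall_zero_iff] at hw
      rw [add_sub_cancel_left]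
      exact hw
  rw [h2]
  exact h1.add_right_of_isCompact (isCompact_closedBall 0 R)

theorem LFib.exists_rep (E : LFib X D Λ Γ u B δ) (R : ℝ) : ∃ R₁ : ℝ, 0 < R₁ ∧ ∀ z ∈ Nb Λ R, ∃ l ∈ Γ, ‖z - l‖ ≤ R₁ := by
  obtain ⟨R₀, hR₀, hcof⟩ := E.cof
  refine ⟨|R| + R₀, by positivity, ?_⟩
  rintro z ⟨l, hl, h⟩
  obtain ⟨l', hl', h'⟩ := hcof l hl
  refine ⟨l', hl', ?_⟩
  have e : z - l' = (z - l) + (l - l') := by ring
  rw [e]
  have := le_abs_self R
  exact (norm_add_le _ _).trans (by linarith)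

theorem LFib.part_isCone (E : LFib X D Λ Γ u B δ) (R : ℝ) : IsCone (part X Λ u R) := by
  refine ⟨fun h => E.cone.zero_notMem h.1, ?_, E.closed R⟩
  intro x hx c hc
  refine ⟨E.cone.smul_mem x hx.1 c hc, ?_⟩
  have h1 := E.tor.smul x hx.1 c hc
  have e : u (c • x) = u x + (u (c • x) - u x) := by ring
  rw [e, nb_add h1]
  exact hx.2

theorem part_tor (hu : TorusMap X Λ u) (R : ℝ) : TorusMap (part X Λ u R) Λ u := by
  refine ⟨fun x hx c hc => hu.smul x hx.1 c hc, fun x hx => ?_⟩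
  obtain ⟨v, hv, h⟩ := hu.loc x hx.1
  exact ⟨v, hv, h.mono fun y hy hyp => hy hyp.1⟩

theorem LFib.part_unif (E : LFib X D Λ Γ u B δ) (R : ℝ) {ε : ℝ} (hε : 0 < ε) :
    ∃ η : ℝ, 0 < η ∧ ∀ x ∈ part X Λ u R, ∀ y ∈ part X Λ u R, dist (pr x) (pr y) < η → ∃ l ∈ Λ, ‖u x - u y - l‖ < ε :=
  Pool.Agent.H62.EF.TorusMap.unif (E.part_isCone R) (part_tor E.tor R) hε

/-- points of `X` near a point of `X` which is not in the closed part `T` are not in `T`, in terms of `pr` -/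
theorem pr_closed (hX : OCone X) {T : Set (EN N)} (hT : ∀ x ∈ T, ∀ c : ℂ, c ≠ 0 → c • x ∈ T) (hTX : T ⊆ X) {x : EN N} (hx : x ∈ X)
    (h : ∀ᶠ y in 𝓝 x, y ∉ T) : ∃ r : ℝ, 0 < r ∧ ∀ y ∈ T, r ≤ dist (pr y) (pr x) := by
  obtain ⟨r, hr, h1⟩ := Pool.Agent.H62.EF.near_of_pr (hX.ne_zero hx) h
  refine ⟨r, hr, fun y hy => ?_⟩
  by_contra hcon
  push Not at hcon
  obtain ⟨c, hc, h2⟩ := h1 y (hX.ne_zero (hTX hy)) hcon
  exact h2 (hT y hy c hc)

theorem part_mem_of_val {R : ℝ} {x : EN N} {z : ℂ} (hx : x ∈ X) (hz : z ∈ Nb Λ R) (h : u x - z ∈ Λ) : x ∈ part X Λ u R := by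
  refine ⟨hx, ?_⟩
  have e : u x = z + (u x - z) := by ring
  rw [e, nb_add h]
  exact hz

private theorem secAt_add' {F : ℂ → EN N} {z l : ℂ} (hl : l ∈ Λ) (h : SecAt X D Λ u F (z + l)) :
    SecAt X D Λ u (fun w => F (w + l)) z := by
  have ha : AnalyticAt ℂ (fun w : ℂ => w + l) z := analyticAt_id.add analyticAt_const
  refine ⟨AnalyticAt.comp (g := F) (f := fun w : ℂ => w + l) h.1 ha, ?_⟩
  have ht : Tendsto (fun w : ℂ => w + l) (𝓝 z) (𝓝 (z + l)) := ha.continuousAt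
  filter_upwards [ht.eventually h.2] with w hw
  obtain ⟨h1, h2, h3⟩ := hw
  refine ⟨h1, h2, ?_⟩
  have e : u (F (w + l)) - w = (u (F (w + l)) - (w + l)) + l := by ring
  rw [e]
  exact Λ.add_mem h3 hl

theorem secAt_add {F : ℂ → EN N} {z l : ℂ} (hl : l ∈ Λ) : SecAt X D Λ u (fun w => F (w + l)) z ↔ SecAt X D Λ u F (z + l) := by
  refine ⟨fun h => ?_, secAt_add' hl⟩
  have h1 : SecAt X D Λ u (fun w => F (w + l)) ((z + l) + -l) := by
    rwa [add_neg_cancel_right]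
  have h2 := secAt_add' (Λ.neg_mem hl) h1
  simpa only [neg_add_cancel_right] using h2

theorem SecAt.mem {F : ℂ → EN N} {z : ℂ} (h : SecAt X D Λ u F z) : F z ∈ X ∧ F z ∉ D ∧ u (F z) - z ∈ Λ :=
  h.2.self_of_nhds

theorem SecAt.eventually {F : ℂ → EN N} {z : ℂ} (h : SecAt X D Λ u F z) : ∀ᶠ w in 𝓝 z, SecAt X D Λ u F w := by
  filter_upwards [h.1.eventually_analyticAt, h.2.eventually_nhds] with w h1 h2
  exact ⟨h1, h2⟩

theorem SecAt.congr {F G : ℂ → EN N} {z : ℂ} (h : SecAt X D Λ u F z) (hG : ∀ᶠ w in 𝓝 z, G w = F w) : SecAt X D Λ u G z := by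
  refine ⟨h.1.congr (hG.mono fun w hw => hw.symm), ?_⟩
  filter_upwards [h.2, hG] with w h1 h2
  rw [h2]
  exact h1

end Pool.Agent.H18.LU
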