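import Pool.Agent.H18.LU.Defs

/-!
# LU BaseDefs: the data with the whole boundary `D`; the part `P` with poles; the limit sections

`LBase`: like `LData`, but the form lives on `X \ D` and all the points of `D` have adapted coordinates (`u = c + s ^ i`, `D = {t = 0}`).  `exists_P`: `P` is the part of `D`
where the residue of the form is not `0`.  `EBase` is the compact case (`Λ` a lattice).  `LSec`: the entire sections of `X` which are limits, outside a closed discrete set, of sections of `X \ D` over larger and larger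
discs.
-/

set_option autoImplicit false

open Topology Filter Metric

namespace Pool.Agent.H18.LU

open Pool.Agent.H36.BP (EN fs wd IsGermChart)
open Pool.Agent.H14.PP (IsCone Chart Tan CurveAt)
open Pool.Agent.H62.EF (Lat MN pr TorusMap Sec Charts DU)
open Pool.Agent.H62.EL (Gd Ag BadSet IsNC TForm Per VanZero Thin)

variable {N : ℕ}

/-- the geometric data, all of `D` -/
structure LBase (X D : Set (EN N)) (Λ Γ : AddSubgroup ℂ) (u : EN N → ℂ) (B : Set ℂ) (δ : ℝ) : Prop extends LFib X D Λ Γ u B δ where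
  horB : ∀ b ∈ B, ∀ x ∈ D, u x - b ∈ Λ → ∃ i : ℕ, 1 ≤ i ∧ HorAt X Λ u D x b i
  nc : ∀ b ∈ B, ∀ x ∈ X, x ∉ D → u x - b ∈ Λ → IsNC X Λ u x b

/-- the geometric data in the compact case -/
structure EBase (X D : Set (EN N)) (Λ Γ : AddSubgroup ℂ) (u : EN N → ℂ) (B : Set ℂ) (δ : ℝ) : Prop where
  cone : IsCone X
  charts : Charts X
  tor : TorusMap X Λ u
  lat : Lat Λ
  latΓ : Lat Γ
  le : Γ ≤ Λ
  bad : BadSet B Λ δ
  zero : ∀ b ∈ B, 4 * δ ≤ ‖b‖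
  D_sub : D ⊆ X
  D_smul : ∀ x ∈ D, ∀ c : ℂ, c ≠ 0 → c • x ∈ D
  D_closed : ∀ x ∈ X, x ∉ D → ∀ᶠ y in 𝓝 x, y ∉ D
  hor : ∀ x ∈ D, (∀ b ∈ B, u x - b ∉ Λ) → HorAt X Λ u D x (u x) 1
  horB : ∀ b ∈ B, ∀ x ∈ D, u x - b ∈ Λ → ∃ i : ℕ, 1 ≤ i ∧ HorAt X Λ u D x b i
  nc : ∀ b ∈ B, ∀ x ∈ X, x ∉ D → u x - b ∈ Λ → IsNC X Λ u x b
  fib : ∀ F : ℂ → EN N, Differentiable ℂ F → (∀ z, F z ∈ X ∧ F z ∉ D) → (∀ z w, u (F z) - u (F w) ∈ Λ) →
    (∃ z w, ∀ c : ℂ, F z ≠ c • F w) → ∃ b ∈ B, u (F 0) - b ∈ Λ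

variable {X D : Set (EN N)} {Λ Γ : AddSubgroup ℂ} {u : EN N → ℂ} {B : Set ℂ} {δ : ℝ}

/-- The residue of the form along every entire section `F` in `D` is a bounded function: in coordinates `s`, `t` at `F z₀` with `D = {t = 0}`, `u = z₀ + s` the
coefficient of the form (for the lift `z₀ + s` of `u`) is `g / t`, and `‖g 0‖ ≤ C`. -/
def ResBd (α : TForm (X \ D) Λ u) : Prop :=
  ∀ F : ℂ → EN N, Differentiable ℂ F → (∀ z, F z ∈ D) → (∀ z, u (F z) - z ∈ Λ) → ∃ C : ℝ, ∀ (z₀ : ℂ) (σ : ℂ × ℂ → EN N) (τ : EN N → ℂ × ℂ),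
    IsGermChart X σ τ → σ 0 = F z₀ → (∀ᶠ p in 𝓝 (0 : ℂ × ℂ), σ p ∈ D ↔ p.2 = 0) → (∀ᶠ p in 𝓝 (0 : ℂ × ℂ), u (σ p) - (z₀ + p.1) ∈ Λ) →
    ∃ g : ℂ × ℂ → ℂ, AnalyticAt ℂ g 0 ∧ ‖g 0‖ ≤ C ∧ ∀ᶠ p in 𝓝 (0 : ℂ × ℂ), p.2 ≠ 0 →
      p.2 * α.toFun (z₀ + p.1) (σ p) (fderiv ℂ σ p (1, 0)) (fderiv ℂ σ p (0, 1)) = g p

/-- entire sections of `X` which are limits, outside a closed discrete set `Z`, of sections of `X \ D` over larger and larger discs -/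
def LSec (X D : Set (EN N)) (Λ : AddSubgroup ℂ) (u : EN N → ℂ) : Set (ℂ → MN N) :=
  {f | (∃ F ∈ Sec X Λ u, ∀ z, pr (F z) = f z) ∧ ∃ Z : Set ℂ, IsClosed Z ∧ (∀ z, ∀ᶠ w in 𝓝[≠] z, w ∉ Z) ∧
    ∀ R ε : ℝ, 0 < ε → ∀ K : Set ℂ, IsCompact K → (∀ z ∈ K, z ∉ Z) →
      ∃ G : ℂ → EN N, (∀ z ∈ closedBall (0 : ℂ) R, SecAt X D Λ u G z) ∧ ∀ z ∈ K, ‖z‖ ≤ R → dist (pr (G z)) (f z) < ε}

end Pool.Agent.H18.LU
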