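import Pool.Agent.H18.LU.Pe

/-!
# LU Cm: the compactness principle

`so_unif`: suppose not; for every `n` take `r₁ = n + 1`, `r = 1 / (n + 1)`: there are `z n ∈ Gd B δ'`, `z n ∈ Nb Λ R`, `f n ∈ SO (ball (z n) (n + 1))` with `¬ Q (1/(n+1)) (z n) (f n (z n))`.  `so_centre`: `l n ∈ Γ`, `z n - l n → w`,
`f n (z n) → f w`, `f ∈ SO univ`.  `hloc` at `(f, w)`: `r > 0`; for large `n`: `z n - l n ∈ closedBall w r`, `dist (f n (z n)) (f w) ≤ r`, `1/(n+1) ≤ r`: `Q r (z n - l n) (f n (z n))`, `Q (1/(n+1)) (z n - l n) _` (`hanti`), and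
`Q (1/(n+1)) (z n) _` (`htr` with `l n`): contradiction.
`so_unifK`: the same over a compact set `K` without points of `B`, without translations: `z n ∈ K`, `z n → w ∈ K` along the ultrafilter, `f n ∈ SO (ball (z n) (n + 1))`; the balls contain `ball 0 R` eventually; `so_exists_lim`, `so_along`.
`deepP`: `so_unif` with `Q r z y := ∀ x ∈ P, r ≤ dist (pr x) y`.  `hloc`: `f w ∉ pr '' P` (`so_notP`), `f w = pr x₀` with `x₀ ∈ X` (`so_lift_at`), `x₀ ∉ P`, `P_closed`, `pr_closed`: `r₀ ≤ dist (pr x) (f w)` for `x ∈ P`; `r = r₀ / 2`.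
-/

set_option autoImplicit false

open Topology Filter Metric

namespace Pool.Agent.H18.LU

open Pool.Agent.H36.BP (EN fs wd IsGermChart)
open Pool.Agent.H14.PP (IsCone Chart Tan CurveAt)
open Pool.Agent.H62.EF (Lat MN pr TorusMap Sec Charts DU)
open Pool.Agent.H62.EL (Gd Ag BadSet IsNC TForm gd_notMem)

variable {N : ℕ} {X D P : Set (EN N)} {Λ Γ : AddSubgroup ℂ} {u : EN N → ℂ} {B : Set ℂ} {δ : ℝ}

/-- the hypotheses for large indices -/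
private theorem cm_eps (𝒰 : Ultrafilter ℕ) (h𝒰 : (𝒰 : Filter ℕ) ≤ atTop) {r : ℝ} (hr : 0 < r) :
    ∀ᶠ n : ℕ in (𝒰 : Filter ℕ), (1 : ℝ) / ((n : ℝ) + 1) ≤ r := by
  refine h𝒰 ?_
  have h : Tendsto (fun n : ℕ => (1 : ℝ) / ((n : ℝ) + 1)) atTop (𝓝 0) := tendsto_one_div_add_atTop_nhds_zero_nat
  exact (h.eventually (gt_mem_nhds hr)).mono fun n hn => le_of_lt hn

private theorem cm_large (𝒰 : Ultrafilter ℕ) (h𝒰 : (𝒰 : Filter ℕ) ≤ atTop) : Tendsto (fun n : ℕ => (n : ℝ) + 1) 𝒰 atTop :=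
  (tendsto_atTop_add_const_right _ _ tendsto_natCast_atTop_atTop).mono_left h𝒰

theorem so_unif (E : LData X D P Λ Γ u B δ) {δ' : ℝ} (hδ' : 0 < δ') (R : ℝ) (Q : ℝ → ℂ → MN N → Prop)
    (hanti : ∀ (r r' : ℝ) (z : ℂ) (y : MN N), 0 < r' → r' ≤ r → Q r z y → Q r' z y)
    (htr : ∀ (r : ℝ) (z : ℂ) (y : MN N), ∀ l ∈ Γ, Q r z y → Q r (z + l) y)
    (hloc : ∀ f ∈ SO X D Λ u B Set.univ, ∀ w ∈ Gd B δ', w ∈ Nb Λ R → ∃ r : ℝ, 0 < r ∧ ∀ z ∈ closedBall w r, ∀ y ∈ closedBall (f w) r, Q r z y) :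
    ∃ r₁ r : ℝ, 0 < r₁ ∧ 0 < r ∧ ∀ z ∈ Gd B δ', z ∈ Nb Λ R → ∀ f ∈ SO X D Λ u B (ball z r₁), Q r z (f z) := by
  by_contra hcon
  have hseq : ∀ n : ℕ, ∃ z ∈ Gd B δ', z ∈ Nb Λ R ∧ ∃ f ∈ SO X D Λ u B (ball z ((n : ℝ) + 1)), ¬ Q (1 / ((n : ℝ) + 1)) z (f z) := by
    intro n
    by_contra hn
    refine hcon ⟨(n : ℝ) + 1, 1 / ((n : ℝ) + 1), by positivity, by positivity, ?_⟩
    intro z hz hzR f hf
    by_contra hQ
    exact hn ⟨z, hz, hzR, f, hf, hQ⟩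
  choose z hz hzR F hF hQ using hseq
  have h𝒰 : ((hyperfilter ℕ : Ultrafilter ℕ) : Filter ℕ) ≤ atTop := Nat.hyperfilter_le_atTop
  obtain ⟨l, w, f, hl, hw, hwR, hzw, hf, -, -, hFw⟩ := so_centre E (δ' := δ') (R := R) (hyperfilter ℕ) z (fun n => (n : ℝ) + 1)
    (cm_large _ h𝒰) (Eventually.of_forall fun n => ⟨hz n, hzR n⟩) F (Eventually.of_forall fun n => hF n) hδ'
  obtain ⟨r, hr, hrQ⟩ := hloc f hf w hw hwR
  have h1 : ∀ᶠ n in ((hyperfilter ℕ : Ultrafilter ℕ) : Filter ℕ), z n - l n ∈ closedBall w r := hzw (closedBall_mem_nhds w hr)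
  have h2 : ∀ᶠ n in ((hyperfilter ℕ : Ultrafilter ℕ) : Filter ℕ), F n (z n) ∈ closedBall (f w) r := hFw (closedBall_mem_nhds (f w) hr)
  have h3 := cm_eps (hyperfilter ℕ) h𝒰 hr
  obtain ⟨n, hn1, hn2, hn3⟩ := (h1.and (h2.and h3)).exists
  have h4 : Q (1 / ((n : ℝ) + 1)) (z n - l n) (F n (z n)) := hanti r _ _ _ (by positivity) hn3 (hrQ _ hn1 _ hn2)
  have h5 := htr _ _ _ (l n) (hl n) h4
  rw [sub_add_cancel] at h5
  exact hQ n h5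

theorem so_unifK (E : LData X D P Λ Γ u B δ) {K : Set ℂ} (hK : IsCompact K) (hKB : ∀ z ∈ K, z ∉ B) (Q : ℝ → ℂ → MN N → Prop)
    (hanti : ∀ (r r' : ℝ) (z : ℂ) (y : MN N), 0 < r' → r' ≤ r → Q r z y → Q r' z y)
    (hloc : ∀ f ∈ SO X D Λ u B Set.univ, ∀ w ∈ K, ∃ r : ℝ, 0 < r ∧ ∀ z ∈ K, dist z w ≤ r → ∀ y ∈ closedBall (f w) r, Q r z y) :
    ∃ r₁ r : ℝ, 0 < r₁ ∧ 0 < r ∧ ∀ z ∈ K, ∀ f ∈ SO X D Λ u B (ball z r₁), Q r z (f z) := by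
  by_contra hcon
  have hseq : ∀ n : ℕ, ∃ z ∈ K, ∃ f ∈ SO X D Λ u B (ball z ((n : ℝ) + 1)), ¬ Q (1 / ((n : ℝ) + 1)) z (f z) := by
    intro n
    by_contra hn
    refine hcon ⟨(n : ℝ) + 1, 1 / ((n : ℝ) + 1), by positivity, by positivity, ?_⟩
    intro z hz f hf
    by_contra hQ
    exact hn ⟨z, hz, f, hf, hQ⟩
  choose z hz F hF hQ using hseq
  have h𝒰 : ((hyperfilter ℕ : Ultrafilter ℕ) : Filter ℕ) ≤ atTop := Nat.hyperfilter_le_atTop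
  obtain ⟨w, hwK, hw⟩ := hK.ultrafilter_le_nhds ((hyperfilter ℕ : Ultrafilter ℕ).map z)
    (le_principal_iff.2 (mem_map.2 (Eventually.of_forall fun n : ℕ => hz n)))
  have hzw : Tendsto z ((hyperfilter ℕ : Ultrafilter ℕ) : Filter ℕ) (𝓝 w) := hw
  have hwB : w ∉ B := hKB w hwK
  have hΩ : ∀ R : ℝ, ∀ᶠ n in ((hyperfilter ℕ : Ultrafilter ℕ) : Filter ℕ), ball (0 : ℂ) R ⊆ ball (z n) ((n : ℝ) + 1) := by
    intro R
    obtain ⟨C, hC⟩ := hK.isBounded.exists_norm_le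
    filter_upwards [(cm_large _ h𝒰).eventually_ge_atTop (R + C)] with n hn
    refine ball_subset_ball' ?_
    rw [dist_zero_left]
    linarith [hC (z n) (hz n)]
  have hFe : ∀ᶠ n in ((hyperfilter ℕ : Ultrafilter ℕ) : Filter ℕ), F n ∈ SO X D Λ u B (ball (z n) ((n : ℝ) + 1)) :=
    Eventually.of_forall fun n => hF n
  obtain ⟨f, hf, hlim⟩ := so_exists_lim E (hyperfilter ℕ) (fun n => ball (z n) ((n : ℝ) + 1)) hΩ F hFe
  have hFw := so_along E (hyperfilter ℕ) (fun n => ball (z n) ((n : ℝ) + 1)) hΩ F hFe hlim hwB hzw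
  obtain ⟨r, hr, hrQ⟩ := hloc f hf w hwK
  have h1 : ∀ᶠ n in ((hyperfilter ℕ : Ultrafilter ℕ) : Filter ℕ), z n ∈ closedBall w r := hzw (closedBall_mem_nhds w hr)
  have h2 : ∀ᶠ n in ((hyperfilter ℕ : Ultrafilter ℕ) : Filter ℕ), F n (z n) ∈ closedBall (f w) r := hFw (closedBall_mem_nhds (f w) hr)
  have h3 := cm_eps (hyperfilter ℕ) h𝒰 hr
  obtain ⟨n, hn1, hn2, hn3⟩ := (h1.and (h2.and h3)).exists
  exact hQ n (hanti r _ _ _ (by positivity) hn3 (hrQ _ (hz n) hn1 _ hn2))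

theorem deepP (E : LData X D P Λ Γ u B δ) {δ' : ℝ} (hδ' : 0 < δ') (R : ℝ) : ∃ r₁ r : ℝ, 0 < r₁ ∧ 0 < r ∧ ∀ z ∈ Gd B δ', z ∈ Nb Λ R →
    ∀ f ∈ SO X D Λ u B (ball z r₁), ∀ x ∈ P, r ≤ dist (pr x) (f z) := by
  refine so_unif E hδ' R (fun r _ y => ∀ x ∈ P, r ≤ dist (pr x) y) (fun r r' z y _ hr h x hx => hr.trans (h x hx)) (fun r z y l _ h => h) ?_
  intro f hf w hw _
  have hwB : w ∉ B := gd_notMem hδ' hw
  obtain ⟨x₀, hx₀, -, hpr⟩ := so_lift_at E isOpen_univ hf (Set.mem_univ w) hwB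
  have hx₀P : x₀ ∉ P := fun h => so_notP E hf hwB ⟨x₀, h, hpr⟩
  obtain ⟨r₀, hr₀, hr₀P⟩ := pr_closed E.cone E.P_smul (E.P_sub.trans E.D_sub) hx₀ (E.P_closed x₀ hx₀ hx₀P)
  refine ⟨r₀ / 2, half_pos hr₀, ?_⟩
  intro z _ y hy x hx
  have h1 := hr₀P x hx
  have h2 : dist y (f w) ≤ r₀ / 2 := hy
  rw [← hpr] at h2
  have h3 := dist_triangle (pr x) y (pr x₀)
  linarith

end Pool.Agent.H18.LU
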