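import Pool.Agent.H18.LU.ODul
import Pool.Agent.H18.LU.OChN
import Pool.Agent.H62.EL.StC

/-!
# (Copy for open cones and discrete groups, see `Oc`.) EL StC: straight charts

Let `DU X Λ u x w 1`.  By `exists_adm` (EF DUl) there are a chart `χ₀` with `x ∈ χ₀.U`, `χ₀.q x = 0` and an analytic lift `υ` of `u` in it
with `fderiv ℂ υ 0 ≠ 0`; `x = a • χ₀.σ 0`.  Choose a linear form `l` on `ℂ × ℂ` such that `Φ p = (υ p - υ 0, l p)` has an invertible derivative at `0`;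
inverse function theorem (analytic): `Θ` analytic at `0`, `Θ 0 = 0`, `Φ (Θ p) = p` and `Θ (Φ p) = p` near `0`.  Germ chart:
`σ = a • χ₀.σ ∘ Θ`, `τ = Φ ∘ χ₀.q` (near `x`; `χ₀.q` is scale invariant, so `inv` is clear; `left`: `χ₀.q (a • χ₀.σ (Θ p)) = Θ p`;
`right`: `y ∈ X` near `x`: `y = c • χ₀.σ (χ₀.q y)`).  `u (σ p) = υ (Θ p) = υ 0 + p.1` and `υ 0 = u (χ₀.σ 0) = u x = z` modulo `Λ`.
So `IsGermChart X σ τ`, `σ 0 = x`, `u (σ p) - (z + p.1) ∈ Λ`: apply `exists_nc_chart` (proof) with `i = 1`, `j = 0`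
(`IsNC X Λ u x z` with these exponents; to keep the exponents repeat its proof from `exists_small_chart`: `ρ = r`).

`exists_str_of_lift`: a section `F` (or a holomorphic curve `Ψ` near `z₀` with `u (Ψ z) = z`) has `DU X Λ u (Ψ z₀) (deriv Ψ z₀) 1`.
-/

set_option autoImplicit false

open Topology Filter Metric

namespace Pool.Agent.H18.LU

open Pool.Agent.H62.EL

open Pool.Agent.H36.BP (EN fs wd IsGermChart)
open Pool.Agent.H14.PP (Chart Tan CurveAt)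
open Pool.Agent.H62.EF (MN pr TorusMap Sec Charts DU)

variable {N : ℕ} {X : Set (EN N)} {Λ : AddSubgroup ℂ} {u : EN N → ℂ}

private lemma StC_inj {L : ℂ × ℂ →L[ℂ] ℂ} (hL : L ≠ 0) :
    ∃ l : ℂ × ℂ →L[ℂ] ℂ, ∀ v, L v = 0 → l v = 0 → v = 0 := by
  have hdec : ∀ v : ℂ × ℂ, L v = v.1 * L (1, 0) + v.2 * L (0, 1) := by
    intro v
    have h1 : v = v.1 • ((1, 0) : ℂ × ℂ) + v.2 • ((0, 1) : ℂ × ℂ) := by
      ext <;> simp
    conv_lhs => rw [h1]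
    rw [map_add, map_smul, map_smul, smul_eq_mul, smul_eq_mul]
  by_cases h1 : L (1, 0) = 0
  · have h2 : L (0, 1) ≠ 0 := by
      intro h2
      apply hL
      ext
      · simpa using h1
      · simpa using h2
    refine ⟨ContinuousLinearMap.fst ℂ ℂ ℂ, fun v hv hl => ?_⟩
    have h3 : v.1 = 0 := hl
    rw [hdec v, h3, zero_mul, zero_add] at hv
    have h4 : v.2 = 0 := (mul_eq_zero.1 hv).resolve_right h2
    exact Prod.ext h3 h4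
  · refine ⟨ContinuousLinearMap.snd ℂ ℂ ℂ, fun v hv hl => ?_⟩
    have h3 : v.2 = 0 := hl
    rw [hdec v, h3, zero_mul, add_zero] at hv
    have h4 : v.1 = 0 := (mul_eq_zero.1 hv).resolve_right h1
    exact Prod.ext h4 h3

private lemma StC_germ (hX : OCone X) (hu : TorusMap X Λ u) {x : EN N} (hx : x ∈ X) (χ₀ : Chart X) (hxU : x ∈ χ₀.U)
    (hq : χ₀.q x = 0) {υ : ℂ × ℂ → ℂ} (hυ : AnalyticAt ℂ υ 0) (hυl : ∀ᶠ p in 𝓝 (0 : ℂ × ℂ), u (χ₀.σ p) - υ p ∈ Λ)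
    (hd : fderiv ℂ υ 0 ≠ 0) {z : ℂ} (hz : u x - z ∈ Λ) :
    ∃ (σ : ℂ × ℂ → EN N) (τ : EN N → ℂ × ℂ), IsGermChart X σ τ ∧ σ 0 = x ∧
      ∀ᶠ p in 𝓝 (0 : ℂ × ℂ), u (σ p) - (z + p.1) ∈ Λ := by
  obtain ⟨-, a, ha, hxa⟩ := χ₀.surj x hx hxU
  rw [hq] at hxa
  have h02 : (0 : ℂ × ℂ) ∈ ball (0 : ℂ × ℂ) 2 := mem_ball_self two_pos
  have hm0 := χ₀.σ_mem 0 h02
  obtain ⟨l, hl⟩ := StC_inj hd
  set Φ : ℂ × ℂ → ℂ × ℂ := fun p => (υ p - υ 0, l p) with hΦ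
  have hΦ0 : Φ 0 = 0 := by
    rw [hΦ]
    simp
  have hΦa : AnalyticAt ℂ Φ 0 := (hυ.sub analyticAt_const).prod (l.analyticAt 0)
  have hΦd : ∀ v, fderiv ℂ Φ 0 v = (fderiv ℂ υ 0 v, l v) := by
    intro v
    have h1 : HasFDerivAt Φ ((fderiv ℂ υ 0).prod l) 0 :=
      (hυ.differentiableAt.hasFDerivAt.sub_const (υ 0)).prodMk l.hasFDerivAt
    rw [h1.fderiv]
    rfl
  obtain ⟨Θ, hΘa, hΘl, hΘr, hΘ0⟩ := Pool.Agent.H62.BU.local_inverse hΦa (by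
    intro v hv
    rw [hΦd v] at hv
    exact hl v (congrArg Prod.fst hv) (congrArg Prod.snd hv))
  rw [hΦ0] at hΘa hΘr hΘ0
  have hΘc : Tendsto Θ (𝓝 (0 : ℂ × ℂ)) (𝓝 (0 : ℂ × ℂ)) := by
    have h1 := hΘa.continuousAt.tendsto
    rwa [hΘ0] at h1
  have hb2 : ∀ᶠ p in 𝓝 (0 : ℂ × ℂ), Θ p ∈ ball (0 : ℂ × ℂ) 2 := hΘc.eventually (isOpen_ball.mem_nhds h02)
  set σ : ℂ × ℂ → EN N := fun p => a • χ₀.σ (Θ p) with hσ
  set τ : EN N → ℂ × ℂ := fun y => Φ (χ₀.q y) with hτ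
  have hσ0 : σ 0 = x := by
    rw [hσ]
    simp only
    rw [hΘ0, ← hxa]
  have hqc : Tendsto χ₀.q (𝓝 x) (𝓝 (0 : ℂ × ℂ)) := by
    have h1 := (χ₀.q_an x hxU).continuousAt.tendsto
    rwa [hq] at h1
  have hU : ∀ᶠ y in 𝓝 x, y ∈ χ₀.U := χ₀.isOpen_U.mem_nhds hxU
  have hmem : ∀ᶠ p in 𝓝 (0 : ℂ × ℂ), σ p ∈ X := by
    filter_upwards [hb2] with p hp
    exact hX.smul_mem _ (χ₀.σ_mem _ hp).1 _ ha
  refine ⟨σ, τ, ⟨?_, hmem, ?_, ?_, ?_, ?_⟩, hσ0, ?_⟩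
  · have h1 : AnalyticAt ℂ (fun p => χ₀.σ (Θ p)) 0 := by
      have h2 : AnalyticAt ℂ χ₀.σ (Θ 0) := by
        rw [hΘ0]
        exact χ₀.σ_an 0 h02
      exact AnalyticAt.fun_comp h2 hΘa
    exact analyticAt_const.fun_smul h1
  · rw [hσ0]
    have h2 : AnalyticAt ℂ Φ (χ₀.q x) := by
      rw [hq]
      exact hΦa
    exact AnalyticAt.fun_comp h2 (χ₀.q_an x hxU)
  · filter_upwards [hb2, hΘr] with p hp hp2
    have h1 := χ₀.σ_mem _ hp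
    rw [hτ, hσ]
    simp only
    rw [χ₀.q_smul _ h1.2.1 a ha, h1.2.2, hp2]
  · rw [hσ0]
    filter_upwards [hU, hqc.eventually hΘl] with y hy hy2 hyX
    obtain ⟨-, c, hc, hyc⟩ := χ₀.surj y hyX hy
    refine ⟨c * a⁻¹, mul_ne_zero hc (inv_ne_zero ha), ?_⟩
    rw [hτ, hσ]
    simp only
    rw [hy2, smul_smul, mul_assoc, inv_mul_cancel₀ ha, mul_one]
    exact hyc
  · rw [hσ0]
    have h1 : ∀ᶠ w in 𝓝 (x, (1 : ℂ)), w.1 ∈ χ₀.U := continuousAt_fst.tendsto.eventually hU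
    have h20 : ∀ᶠ c in 𝓝 (1 : ℂ), c ≠ 0 := eventually_ne_nhds one_ne_zero
    have h2 : ∀ᶠ w in 𝓝 (x, (1 : ℂ)), w.2 ≠ 0 := by
      have h21 : Tendsto (Prod.snd : EN N × ℂ → ℂ) (𝓝 (x, (1 : ℂ))) (𝓝 1) := continuousAt_snd
      exact h21.eventually h20
    filter_upwards [h1, h2] with w hw1 hw2
    rw [hτ]
    simp only
    rw [χ₀.q_smul _ hw1 _ hw2]
  · have hυ0 : υ 0 - z ∈ Λ := by
      have h1 := hυl.self_of_nhds
      have h2 := hu.smul (χ₀.σ 0) hm0.1 a ha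
      rw [← hxa] at h2
      have h3 := Λ.sub_mem hz (Λ.add_mem h2 h1)
      have h4 : u x - z - (u x - u (χ₀.σ 0) + (u (χ₀.σ 0) - υ 0)) = υ 0 - z := by ring
      rwa [h4] at h3
    filter_upwards [hb2, hΘr, hΘc.eventually hυl] with p hp hp2 hp3
    have h1 := hu.smul (χ₀.σ (Θ p)) (χ₀.σ_mem _ hp).1 a ha
    have h2 : υ (Θ p) - υ 0 = p.1 := congrArg Prod.fst hp2
    have h3 := Λ.add_mem (Λ.add_mem h1 hp3) hυ0
    have h4 : u (a • χ₀.σ (Θ p)) - u (χ₀.σ (Θ p)) + (u (χ₀.σ (Θ p)) - υ (Θ p)) + (υ 0 - z) = u (σ p) - (z + p.1) := by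
      rw [← h2, hσ]
      ring
    rwa [h4] at h3

theorem exists_str_chartO (hX : OCone X) (hch : Charts X) (hu : TorusMap X Λ u) (hΛ : Dsc Λ) {x w : EN N} (hx : x ∈ X)
    (hw : DU X Λ u x w 1) {z : ℂ} (hz : u x - z ∈ Λ) {η : ℝ} (hη : 0 < η) :
    ∃ (χ : Chart X) (ρ : ℝ), x ∈ χ.U ∧ χ.q x = 0 ∧ Mon Λ u χ z ρ 1 0 ∧
      ∀ p ∈ ball (0 : ℂ × ℂ) 2, dist (pr (χ.σ p)) (pr x) < η ∧ ‖mo z ρ 1 0 p - z‖ < η := by
  obtain ⟨χ₀, υ, s, hxU, hq, hadm⟩ := exists_admO hX hch hu hΛ hx one_ne_zero hw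
  have h0s : (0 : ℂ × ℂ) ∈ ball (0 : ℂ × ℂ) s := mem_ball_self hadm.pos
  have hυl : ∀ᶠ p in 𝓝 (0 : ℂ × ℂ), u (χ₀.σ p) - υ p ∈ Λ := by
    filter_upwards [isOpen_ball.mem_nhds h0s] with p hp
    exact hadm.lift p hp
  obtain ⟨σ, τ, hG, hσ0, hσl⟩ := StC_germ hX hu hx χ₀ hxU hq (hadm.an 0 h0s) hυl (hadm.ne 0 h0s) hz
  obtain ⟨η', hη', hall⟩ := Metric.eventually_nhds_iff_ball.1 (hG.σ_mem.and hσl)
  obtain ⟨χ, r, hr, hσU, hq0, hχ⟩ := exists_small_chartO hX hG (lt_min hη hη')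
  rw [hσ0] at hσU hq0
  have hmo : ∀ p : ℂ × ℂ, mo z r 1 0 p = z + (r : ℂ) * p.1 := by
    intro p
    rw [mo, pow_one, pow_zero, mul_one]
  refine ⟨χ, r, hσU, hq0, ⟨hr, by norm_num, fun p hp => ?_⟩, fun p hp => ⟨?_, ?_⟩⟩
  · obtain ⟨h1, -, b, hb, h3⟩ := hχ p hp
    have h4 := hall ((r : ℂ) • p) (mem_ball_zero_iff.2 (h1.trans_le (min_le_right _ _)))
    have h5 := Λ.add_mem (hu.smul _ h4.1 b hb) h4.2
    have h6 : u (b • σ ((r : ℂ) • p)) - u (σ ((r : ℂ) • p)) + (u (σ ((r : ℂ) • p)) - (z + ((r : ℂ) • p).1)) =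
        u (χ.σ p) - mo z r 1 0 p := by
      rw [h3, hmo, Prod.smul_fst, smul_eq_mul]
      ring
    rwa [h6] at h5
  · have h2 := (hχ p hp).2.1
    rw [hσ0] at h2
    exact h2.trans_le (min_le_left _ _)
  · rw [hmo, add_sub_cancel_left]
    have h1 := (hχ p hp).1
    have h2 : ‖(r : ℂ) * p.1‖ ≤ ‖(r : ℂ) • p‖ := norm_fst_le ((r : ℂ) • p)
    exact h2.trans_lt (h1.trans_le (min_le_left _ _))

theorem exists_str_of_liftO (hX : OCone X) (hch : Charts X) (hu : TorusMap X Λ u) (hΛ : Dsc Λ) {Ψ : ℂ → EN N} {z₀ : ℂ} {r : ℝ}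
    (hr : 0 < r) (hΨ : DifferentiableOn ℂ Ψ (ball z₀ r)) (hΨX : ∀ z ∈ ball z₀ r, Ψ z ∈ X ∧ u (Ψ z) - z ∈ Λ) {η : ℝ} (hη : 0 < η) :
    ∃ (χ : Chart X) (ρ : ℝ), Ψ z₀ ∈ χ.U ∧ χ.q (Ψ z₀) = 0 ∧ Mon Λ u χ z₀ ρ 1 0 ∧
      ∀ p ∈ ball (0 : ℂ × ℂ) 2, dist (pr (χ.σ p)) (pr (Ψ z₀)) < η ∧ ‖mo z₀ ρ 1 0 p - z₀‖ < η := by
  have h0 : ball z₀ r ∈ 𝓝 z₀ := ball_mem_nhds z₀ hr
  have hΨa : AnalyticAt ℂ Ψ z₀ := hΨ.analyticAt h0
  have hm := hΨX z₀ (mem_ball_self hr)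
  have hc : Tendsto (fun z : ℂ => z₀ + z) (𝓝 0) (𝓝 z₀) := by
    have h1 : ContinuousAt (fun z : ℂ => z₀ + z) 0 := by fun_prop
    have h2 := h1.tendsto
    rwa [add_zero] at h2
  have hev : ∀ᶠ z in 𝓝 (0 : ℂ), z₀ + z ∈ ball z₀ r := hc.eventually h0
  have hl : AnalyticAt ℂ (fun z : ℂ => z₀ + z) 0 := analyticAt_const.add analyticAt_id
  have hDU : DU X Λ u (Ψ z₀) (deriv Ψ z₀) 1 := by
    refine ⟨fun z => Ψ (z₀ + z), fun z => z₀ + z, ?_, ?_, ?_, ?_, hl, ?_, ?_⟩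
    · have h1 : AnalyticAt ℂ Ψ ((fun z : ℂ => z₀ + z) 0) := by
        simp only [add_zero]
        exact hΨa
      exact AnalyticAt.fun_comp h1 hl
    · filter_upwards [hev] with z hz
      exact (hΨX _ hz).1
    · simp only [add_zero]
    · rw [deriv_comp_const_add, add_zero]
    · filter_upwards [hev] with z hz
      exact (hΨX _ hz).2
    · rw [deriv_const_add, deriv_id'']
  exact exists_str_chartO hX hch hu hΛ hm.1 hDU hm.2 hη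

end Pool.Agent.H18.LU
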