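import Pool.Agent.H18.LU.OTc
import Pool.Agent.H62.EL.Un

/-!
# (Copy for open cones and discrete groups, see `Oc`.) EL Un: the integral along short paths in the fibres

`cap_mem`: `Cap` at `(z₀, y₀)` of radius `r`: `x ∈ X` over `z ∈ closedBall z₀ r` with `dist (pr x) y₀ ≤ r`.

`IRel.eq_cap`: let `χ', c', ρ', A', p, p'` be from `IRel`; `v = (A' p' - A' p) / ρ'`.  Let `γ θ = χ'.σ (p + θ (p' - p))`, `θ ∈ [0, 1]`: points of `X`; the first coordinate of `p + θ (p' - p)` is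
constant, `u (γ θ) - z ∈ Λ` (`Mon.lift`, `mo c' ρ' 1 0 (p + θ (p' - p)) = c' + ρ' p.1 = z`), `dist (pr (γ θ)) y₀ ≤ ε + dist y y₀ ≤ r`.  By `Cap` `γ θ ∈ χ.U`, `τ = χ.q ∘ χ'.σ` is analytic near
these points, with values in `closedBall 0 1`, and `c + ρ (τ ..).1 = z`.  Near each point `p_θ = p + θ (p' - p)` we even have `c + ρ (τ y).1 = c' + ρ' y.1` [only at `p_θ` known from `Cap`;
for the derivative: for `y` near `p_θ` with `c' + ρ' y.1 ∈ closedBall z₀ r` the point `χ'.σ y` may leave the ball of radius `r`; use instead: both sides are analytic near `p_θ`, equal at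
`p_θ`, and their difference is in `Λ` (`Mon.lift` of both charts, `τ y ∈ ball 0 2` by `Chart.surj`), which is discrete, so it is `0` near `p_θ`].  So `ρ ∂₁ τ₁ = ρ'`, `∂₂ τ₁ = 0` at `p_θ`, and
`tc_trans` (`υ = mo c ρ 1 0`, `υ' = mo c' ρ' 1 0`): `tc' (p_θ) = tc (τ p_θ) (∂₁τ₁ ∂₂τ₂) = tc (τ p_θ) (ρ' / ρ) ∂₂τ₂`.  Hence the functions `θ ↦ A' (p_θ) / ρ'` and `θ ↦ A (τ p_θ) / ρ` have the
same derivative on `[0, 1]`: `tc' (p_θ) (p'.2 - p.2) / ρ'` and `(∂₂A) (τ p_θ) ∂₂τ₂ (p'.2 - p.2) / ρ` (`(p' - p).1 = 0` and `∂₂ τ₁ = 0`).  So `v = (A (τ p') - A (τ p)) / ρ`, and `τ p = χ.q x`, because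
`χ'.σ p` and `x` are proportional (`pr` equal, `pr_eq_iff`, `q_smul`); same for `p'`, `x'`.

`II_eq`: `II = h.choose`, which satisfies `IRel`.
`IRel.mulPow`: the same chart and points, `A₁ q = (mo c ρ 1 0 q - b)^n * A q` (`mo c ρ 1 0 q` does not depend on `q.2`, so `∂₂ A₁ = (mo - b)^n ∂₂ A`, and `tc (α.mulPow b n) = (mo - b)^n tc α`); at
`p, p'`: `mo = z`.
`II_mulPow`: if there is `v` with `IRel α ε z y y' v` then both sides are the unique values (`eq_cap` for the two forms with the primitives `A`, `A₁`).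
-/

set_option autoImplicit false

open Topology Filter Metric

namespace Pool.Agent.H18.LU

open Pool.Agent.H62.EL

open Pool.Agent.H36.BP (EN fs wd IsGermChart)
open Pool.Agent.H14.PP (Chart Tan CurveAt jac)
open Pool.Agent.H62.EF (MN pr TorusMap Sec Charts DU)

variable {N : ℕ} {X : Set (EN N)} {Λ : AddSubgroup ℂ} {u : EN N → ℂ}

/-- The point of the segment. -/
private noncomputable def Un_P (p p' : ℂ × ℂ) (t : ℂ) : ℂ × ℂ := p + t • (p' - p)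

private theorem Un_mo (c : ℂ) (ρ : ℝ) (p : ℂ × ℂ) : mo c ρ 1 0 p = c + ρ * p.1 := by
  simp [mo]

private theorem Un_P_mem {p p' : ℂ × ℂ} (hp : p ∈ ball (0 : ℂ × ℂ) 2) (hp' : p' ∈ ball (0 : ℂ × ℂ) 2) {θ : ℝ} (hθ : θ ∈ Set.Icc (0 : ℝ) 1) :
    Un_P p p' (θ : ℂ) ∈ ball (0 : ℂ × ℂ) 2 := by
  have hc : Convex ℝ (ball (0 : ℂ × ℂ) 2) := convex_ball _ _
  have h1 := hc.add_smul_sub_mem hp hp' hθ
  have h2 : Un_P p p' (θ : ℂ) = p + θ • (p' - p) := by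
    unfold Un_P
    congr 1
  rwa [h2]

private theorem Un_vert (L : ℂ × ℂ →L[ℂ] ℂ) (d : ℂ × ℂ) (hd : d.1 = 0) : L d = d.2 * L (0, 1) := by
  have h1 : d = d.2 • ((0, 1) : ℂ × ℂ) := by
    ext
    · simp [hd]
    · simp
  conv_lhs => rw [h1]
  rw [map_smul, smul_eq_mul]

/-- The change of charts along the segment. -/
private theorem Un_trans (hX : OCone X) (hu : TorusMap X Λ u) (hΛ : Dsc Λ) {χ χ' : Chart X} {c c' : ℂ} {ρ ρ' : ℝ}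
    (hm : Mon Λ u χ c ρ 1 0) (hm' : Mon Λ u χ' c' ρ' 1 0) {q : ℂ × ℂ} (hq : q ∈ ball (0 : ℂ × ℂ) 2) (hU : χ'.σ q ∈ χ.U)
    (he : c + ρ * (χ.q (χ'.σ q)).1 = c' + ρ' * q.1) :
    ∀ᶠ y in 𝓝 q, c + ρ * (χ.q (χ'.σ y)).1 = c' + ρ' * y.1 := by
  obtain ⟨δ, hδ, hdisc⟩ := hΛ.discrete
  have hσ : ContinuousAt χ'.σ q := (χ'.σ_an q hq).continuousAt
  have hτ : ContinuousAt (fun y => χ.q (χ'.σ y)) q := (χ.q_an _ hU).continuousAt.comp hσ
  have hτ1 : ContinuousAt (fun y => (χ.q (χ'.σ y)).1) q := continuous_fst.continuousAt.comp hτ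
  have hcont : ContinuousAt (fun y : ℂ × ℂ => c + ρ * (χ.q (χ'.σ y)).1 - (c' + ρ' * y.1)) q := by
    refine (continuousAt_const.add (continuousAt_const.mul hτ1)).sub ?_
    exact continuousAt_const.add (continuousAt_const.mul continuous_fst.continuousAt)
  have hsmall : ∀ᶠ y in 𝓝 q, ‖c + ρ * (χ.q (χ'.σ y)).1 - (c' + ρ' * y.1)‖ < δ := by
    have h1 := hcont.norm
    have h2 : ‖c + ρ * (χ.q (χ'.σ q)).1 - (c' + ρ' * q.1)‖ < δ := by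
      rw [he, sub_self, norm_zero]
      exact hδ
    exact h1.eventually_lt_const h2
  filter_upwards [hsmall, isOpen_ball.mem_nhds hq, hσ (χ.isOpen_U.mem_nhds hU)] with y h1 h2 h3
  have hyX := (χ'.σ_mem y h2).1
  obtain ⟨hb, a, ha, hay⟩ := χ.surj _ hyX h3
  have h4 := hm'.lift y h2
  have h5 := hm.lift _ hb
  have h6 : u (χ'.σ y) - u (χ.σ (χ.q (χ'.σ y))) ∈ Λ := by
    have := hu.smul _ (χ.σ_mem _ hb).1 a ha
    rwa [← hay] at this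
  rw [Un_mo] at h4 h5
  have h7 : c + ρ * (χ.q (χ'.σ y)).1 - (c' + ρ' * y.1) ∈ Λ := by
    have h8 := Λ.sub_mem (Λ.sub_mem h4 h6) h5
    convert h8 using 1
    ring
  exact sub_eq_zero.mp (hdisc _ h7 h1)

/-- The derivatives of the two primitives agree. -/
private theorem Un_deriv (hX : OCone X) (hu : TorusMap X Λ u) (hΛ : Dsc Λ) (α : TForm X Λ u) {χ χ' : Chart X} {c c' : ℂ} {ρ ρ' : ℝ}
    (hm : Mon Λ u χ c ρ 1 0) (hm' : Mon Λ u χ' c' ρ' 1 0) {A A' : ℂ × ℂ → ℂ} (hA : IsPrim α χ (mo c ρ 1 0) A)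
    (hA' : IsPrim α χ' (mo c' ρ' 1 0) A') {q : ℂ × ℂ} (hq : q ∈ ball (0 : ℂ × ℂ) 2) (hU : χ'.σ q ∈ χ.U)
    (he : c + ρ * (χ.q (χ'.σ q)).1 = c' + ρ' * q.1) {d : ℂ × ℂ} (hd : d.1 = 0) :
    HasFDerivAt (fun y => A (χ.q (χ'.σ y))) (fderiv ℂ (fun y => A (χ.q (χ'.σ y))) q) q ∧
      fderiv ℂ A' q d / ρ' = fderiv ℂ (fun y => A (χ.q (χ'.σ y))) q d / ρ := by
  have hρ : (ρ : ℂ) ≠ 0 := by exact_mod_cast hm.pos.ne'
  have hρ' : (ρ' : ℂ) ≠ 0 := by exact_mod_cast hm'.pos.ne'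
  have hσ : HasFDerivAt χ'.σ (fderiv ℂ χ'.σ q) q := (χ'.σ_an q hq).differentiableAt.hasFDerivAt
  have hb : χ.q (χ'.σ q) ∈ ball (0 : ℂ × ℂ) 2 := (χ.surj _ (χ'.σ_mem q hq).1 hU).1
  have hτ : HasFDerivAt (fun y => χ.q (χ'.σ y)) (fderiv ℂ (fun y => χ.q (χ'.σ y)) q) q :=
    ((χ.q_an _ hU).differentiableAt.comp q (χ'.σ_an q hq).differentiableAt).hasFDerivAt
  have hAd : HasFDerivAt A (fderiv ℂ A (χ.q (χ'.σ q))) (χ.q (χ'.σ q)) := (hA.an _ hb).differentiableAt.hasFDerivAt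
  have hcomp : HasFDerivAt (fun y => A (χ.q (χ'.σ y))) ((fderiv ℂ A (χ.q (χ'.σ q))).comp (fderiv ℂ (fun y => χ.q (χ'.σ y)) q)) q :=
    hAd.comp q hτ
  set D := fderiv ℂ (fun y => χ.q (χ'.σ y)) q with hD
  have hfst : ∀ w : ℂ × ℂ, ρ * (D w).1 = ρ' * w.1 := by
    intro w
    have h1 := Un_trans hX hu hΛ hm hm' hq hU he
    have h2 : HasFDerivAt (fun y : ℂ × ℂ => c + ρ * (χ.q (χ'.σ y)).1)
        ((ρ : ℂ) • ((ContinuousLinearMap.fst ℂ ℂ ℂ).comp D)) q := by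
      have h3 : HasFDerivAt (fun y => (χ.q (χ'.σ y)).1) ((ContinuousLinearMap.fst ℂ ℂ ℂ).comp D) q :=
        (ContinuousLinearMap.fst ℂ ℂ ℂ).hasFDerivAt.comp q hτ
      exact (h3.const_mul (ρ : ℂ)).const_add c
    have h4 : HasFDerivAt (fun y : ℂ × ℂ => c' + ρ' * y.1) ((ρ' : ℂ) • (ContinuousLinearMap.fst ℂ ℂ ℂ)) q :=
      ((ContinuousLinearMap.fst ℂ ℂ ℂ).hasFDerivAt.const_mul (ρ' : ℂ)).const_add c'
    have h5 : HasFDerivAt (fun y : ℂ × ℂ => c + ρ * (χ.q (χ'.σ y)).1) ((ρ' : ℂ) • (ContinuousLinearMap.fst ℂ ℂ ℂ)) q :=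
      h4.congr_of_eventuallyEq h1
    have h6 := h2.unique h5
    have h7 := congrArg (fun L : ℂ × ℂ →L[ℂ] ℂ => L w) h6
    simpa using h7
  have hDd : (D d).1 = 0 := by
    have h1 := hfst d
    rw [hd, mul_zero] at h1
    exact (mul_eq_zero.mp h1).resolve_left hρ
  have hD01 : (D (0, 1)).1 = 0 := by
    have h1 := hfst (0, 1)
    simp only [mul_zero] at h1
    exact (mul_eq_zero.mp h1).resolve_left hρ
  have hD10 : (D (1, 0)).1 = ρ' / ρ := by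
    have h1 := hfst (1, 0)
    simp only [mul_one] at h1
    field_simp
    rw [← h1]
    ring
  have hD2 : (D d).2 = d.2 * (D (0, 1)).2 := by
    have h1 := Un_vert ((ContinuousLinearMap.snd ℂ ℂ ℂ).comp D) d hd
    simpa using h1
  have htc := tc_transO hX hu α χ χ' (υ := mo c ρ 1 0) (υ' := mo c' ρ' 1 0) hq hU (hm'.lift q hq)
    (by rw [Un_mo, Un_mo]; exact he)
  have hjac : jac (fun y => χ.q (χ'.σ y)) q = ρ' / ρ * (D (0, 1)).2 := by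
    unfold jac
    rw [← hD, hD10, hD01]
    ring
  refine ⟨by rw [hcomp.fderiv]; exact hcomp, ?_⟩
  rw [hcomp.fderiv, ContinuousLinearMap.comp_apply, Un_vert _ _ hDd, hA.der _ hb, hD2, Un_vert _ _ hd, hA'.der _ hq, htc, hjac]
  field_simp

theorem _root_.Pool.Agent.H62.EL.IRel.eq_capO (hX : OCone X) (hu : TorusMap X Λ u) (hΛ : Dsc Λ) {α : TForm X Λ u} {ε : ℝ} {z v : ℂ} {y y' : MN N}
    (h : IRel α ε z y y' v) {χ : Chart X} {c : ℂ} {ρ : ℝ} {z₀ : ℂ} {y₀ : MN N} {r : ℝ} (hc : Cap Λ u χ c ρ z₀ y₀ r)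
    {A : ℂ × ℂ → ℂ} (hA : IsPrim α χ (mo c ρ 1 0) A) (hz : z ∈ closedBall z₀ r) (hy : dist y y₀ + ε ≤ r) {x x' : EN N}
    (hx : x ∈ X) (hx' : x' ∈ X) (hxy : pr x = y) (hxy' : pr x' = y') : v = (A (χ.q x') - A (χ.q x)) / ρ := by
  obtain ⟨χ', c', ρ', A', p, p', hm', hA', hp, hp', hpz, hpz', hpy, hpy', hseg, hv⟩ := h
  have hm := hc.mon
  have hρ : (ρ : ℂ) ≠ 0 := by exact_mod_cast hm.pos.ne'
  have hρ' : (ρ' : ℂ) ≠ 0 := by exact_mod_cast hm'.pos.ne'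
  have hd : (p' - p).1 = 0 := by
    have h1 : (ρ' : ℂ) * (p'.1 - p.1) = 0 := by linear_combination hpz' - hpz
    exact (mul_eq_zero.mp h1).resolve_left hρ'
  have hP1 : ∀ t : ℂ, (Un_P p p' t).1 = p.1 := by
    intro t
    have h1 : (Un_P p p' t).1 = p.1 + t * (p' - p).1 := rfl
    rw [h1, hd, mul_zero, add_zero]
  have hcap : ∀ θ ∈ Set.Icc (0 : ℝ) 1, χ'.σ (Un_P p p' (θ : ℂ)) ∈ χ.U ∧
      c + ρ * (χ.q (χ'.σ (Un_P p p' (θ : ℂ)))).1 = c' + ρ' * (Un_P p p' (θ : ℂ)).1 := by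
    intro θ hθ
    have hb := Un_P_mem hp hp' hθ
    have h1 : u (χ'.σ (Un_P p p' (θ : ℂ))) - z ∈ Λ := by
      have h2 := hm'.lift _ hb
      rwa [Un_mo, hP1, hpz] at h2
    have h2 : dist (pr (χ'.σ (Un_P p p' (θ : ℂ)))) y₀ ≤ r := by
      have h3 : dist (pr (χ'.σ (Un_P p p' (θ : ℂ)))) y ≤ ε := hseg θ hθ
      linarith [dist_triangle (pr (χ'.σ (Un_P p p' (θ : ℂ)))) y y₀]
    obtain ⟨h3, _, h4⟩ := hc.cap z hz _ (χ'.σ_mem _ hb).1 h1 h2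
    exact ⟨h3, by rw [h4, hP1, hpz]⟩
  set f : ℝ → ℂ := fun θ => A' (Un_P p p' (θ : ℂ)) / ρ' - A (χ.q (χ'.σ (Un_P p p' (θ : ℂ)))) / ρ with hf
  have hder : ∀ θ ∈ Set.Icc (0 : ℝ) 1, HasDerivAt f 0 θ := by
    intro θ hθ
    have hb := Un_P_mem hp hp' hθ
    obtain ⟨h1, h2⟩ := Un_deriv hX hu hΛ α hm hm' hA hA' hb (hcap θ hθ).1 (hcap θ hθ).2 hd
    have hPd : HasDerivAt (fun t : ℂ => Un_P p p' t) (p' - p) (θ : ℂ) := by
      have h3 := ((hasDerivAt_id (θ : ℂ)).smul_const (p' - p)).const_add p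
      rw [one_smul] at h3
      exact h3
    have h4 : HasDerivAt (fun t : ℂ => A' (Un_P p p' t)) (fderiv ℂ A' (Un_P p p' (θ : ℂ)) (p' - p)) (θ : ℂ) :=
      (hA'.an _ hb).differentiableAt.hasFDerivAt.comp_hasDerivAt (θ : ℂ) hPd
    have h5 : HasDerivAt (fun t : ℂ => A (χ.q (χ'.σ (Un_P p p' t))))
        (fderiv ℂ (fun y => A (χ.q (χ'.σ y))) (Un_P p p' (θ : ℂ)) (p' - p)) (θ : ℂ) :=
      h1.comp_hasDerivAt (θ : ℂ) hPd
    have h6 := ((h4.div_const (ρ' : ℂ)).sub (h5.div_const (ρ : ℂ))).comp_ofReal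
    rw [h2, sub_self] at h6
    exact h6
  have hconst := constant_of_has_deriv_right_zero (f := f) (a := 0) (b := 1)
    (fun θ hθ => (hder θ hθ).continuousAt.continuousWithinAt)
    (fun θ hθ => (hder θ ⟨hθ.1, hθ.2.le⟩).hasDerivWithinAt) 1 ⟨zero_le_one, le_rfl⟩
  have hP0 : Un_P p p' ((0 : ℝ) : ℂ) = p := by
    unfold Un_P
    simp
  have hP1' : Un_P p p' ((1 : ℝ) : ℂ) = p' := by
    unfold Un_P
    simp
  have hX0 : ∀ w ∈ X, w ≠ 0 := fun w hw h => hX.zero_notMem (h ▸ hw)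
  have hq : χ.q x = χ.q (χ'.σ p) := by
    have hU := (hcap 0 ⟨le_rfl, zero_le_one⟩).1
    rw [hP0] at hU
    obtain ⟨a, ha, hax⟩ := (Pool.Agent.H62.EF.pr_eq_iff (hX0 x hx) (hX0 _ (χ'.σ_mem p hp).1)).mp (hxy.trans hpy.symm)
    rw [hax]
    exact χ.q_smul _ hU a ha
  have hq' : χ.q x' = χ.q (χ'.σ p') := by
    have hU := (hcap 1 ⟨zero_le_one, le_rfl⟩).1
    rw [hP1'] at hU
    obtain ⟨a, ha, hax⟩ := (Pool.Agent.H62.EF.pr_eq_iff (hX0 x' hx') (hX0 _ (χ'.σ_mem p' hp').1)).mp (hxy'.trans hpy'.symm)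
    rw [hax]
    exact χ.q_smul _ hU a ha
  simp only [hf] at hconst
  rw [hP0, hP1'] at hconst
  rw [hv, hq, hq']
  rw [sub_div, sub_div]
  linear_combination hconst

theorem II_eqO (hX : OCone X) (hu : TorusMap X Λ u) (hΛ : Dsc Λ) {α : TForm X Λ u} {ε : ℝ} {z : ℂ} {y y' : MN N}
    (h : ∃ v, IRel α ε z y y' v) {χ : Chart X} {c : ℂ} {ρ : ℝ} {z₀ : ℂ} {y₀ : MN N} {r : ℝ} (hc : Cap Λ u χ c ρ z₀ y₀ r)
    {A : ℂ × ℂ → ℂ} (hA : IsPrim α χ (mo c ρ 1 0) A) (hz : z ∈ closedBall z₀ r) (hy : dist y y₀ + ε ≤ r) {x x' : EN N}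
    (hx : x ∈ X) (hx' : x' ∈ X) (hxy : pr x = y) (hxy' : pr x' = y') : II α ε z y y' = (A (χ.q x') - A (χ.q x)) / ρ := by
  have h1 : II α ε z y y' = h.choose := by
    unfold II
    rw [dif_pos h]
  rw [h1]
  exact IRel.eq_capO hX hu hΛ h.choose_spec hc hA hz hy hx hx' hxy hxy'

private theorem Un_prim {α : TForm X Λ u} {χ : Chart X} {c : ℂ} {ρ : ℝ} {A : ℂ × ℂ → ℂ} (hA : IsPrim α χ (mo c ρ 1 0) A) (b : ℂ) (n : ℕ) :
    IsPrim (α.mulPow b n) χ (mo c ρ 1 0) (fun q => (mo c ρ 1 0 q - b) ^ n * A q) := by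
  refine ⟨fun p hp => ?_, fun p hp => ?_, fun s hs => ?_⟩
  · exact (((mo_an c ρ 1 0 p).sub analyticAt_const).pow n).mul (hA.an p hp)
  · have h1 : HasFDerivAt (fun q : ℂ × ℂ => mo c ρ 1 0 q - b) ((ρ : ℂ) • (ContinuousLinearMap.fst ℂ ℂ ℂ)) p := by
      have h2 : (fun q : ℂ × ℂ => mo c ρ 1 0 q - b) = fun q => c + ρ * q.1 - b := by
        funext q
        rw [Un_mo]
      rw [h2]
      exact (((ContinuousLinearMap.fst ℂ ℂ ℂ).hasFDerivAt.const_mul (ρ : ℂ)).const_add c).sub_const b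
    have h3 := h1.pow n
    have h4 := h3.mul (hA.an p hp).differentiableAt.hasFDerivAt
    have h5 : fderiv ℂ (fun q => (mo c ρ 1 0 q - b) ^ n * A q) p = _ := h4.fderiv
    rw [h5]
    simp only [ContinuousLinearMap.add_apply, ContinuousLinearMap.smul_apply, ContinuousLinearMap.coe_fst', smul_eq_mul, mul_zero,
      add_zero, hA.der p hp]
    rfl
  · simp only [hA.zero s hs, mul_zero]


theorem II_mulPowO (hX : OCone X) (hu : TorusMap X Λ u) (hΛ : Dsc Λ) {α : TForm X Λ u} {ε : ℝ} {z : ℂ} {y y' : MN N}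
    (h : ∃ v, IRel α ε z y y' v) {χ : Chart X} {c : ℂ} {ρ : ℝ} {z₀ : ℂ} {y₀ : MN N} {r : ℝ} (hc : Cap Λ u χ c ρ z₀ y₀ r)
    (hz : z ∈ closedBall z₀ r) (hy : dist y y₀ + ε ≤ r) (b : ℂ) (n : ℕ) :
    II (α.mulPow b n) ε z y y' = (z - b) ^ n * II α ε z y y' := by
  obtain ⟨v, hv⟩ := h
  obtain ⟨A, hA⟩ := exists_prim α χ hc.mon
  obtain ⟨x, hx, hxy, x', hx', hxy'⟩ : ∃ x ∈ X, pr x = y ∧ ∃ x' ∈ X, pr x' = y' := by
    obtain ⟨χ', c', ρ', A', p, p', _, _, hp, hp', _, _, hpy, hpy', _, _⟩ := hv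
    exact ⟨_, (χ'.σ_mem p hp).1, hpy, _, (χ'.σ_mem p' hp').1, hpy'⟩
  rw [II_eqO hX hu hΛ ⟨v, hv⟩ hc hA hz hy hx hx' hxy hxy',
    II_eqO hX hu hΛ ⟨_, hv.mulPow b n⟩ hc (Un_prim hA b n) hz hy hx hx' hxy hxy',
    ← IRel.eq_capO hX hu hΛ hv hc hA hz hy hx hx' hxy hxy',
    ← IRel.eq_capO hX hu hΛ (hv.mulPow b n) hc (Un_prim hA b n) hz hy hx hx' hxy hxy']

end Pool.Agent.H18.LU
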