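import Pool.Agent.H18.LU.Cm
import Pool.Agent.H18.LU.OStC
import Pool.Agent.H18.LU.OUn
import Pool.Agent.H62.EL.Cp

/-!
# LU CpL: uniform charts along the limits of the sections

`V = X \ P` is an open cone (`OCone`) with charts: `vCone`, `vTor` clear; `vCharts`: a chart of `X` at `x ∉ P` gives a germ chart (`IsGermChart X σ τ`, with `σ = a • χ.σ`, `τ = χ.q`), which is a germ chart of `V`
(`P_closed`), and `exists_small_chartO`.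

`cap_of_smallO`, `cap_mono`: copies of `cap_of_small`, `cp_cap_mono` (EL Cp) for an open cone `V`.
`exists_capP`: `so_unif` with `Q r z y := ∃ χ c ρ, Cap Λ u χ c ρ z y r ∧ Pr χ` (`Cap` is monotone in `r`; translation by `l ∈ Γ`: `c + l`, `Mon` with `c + l` because `l ∈ Λ`).  Translation of `Pr`: not needed, `Pr χ` does not
depend on `z`.  `hloc` at `(f, w)`: `so_notP`, `so_liftV` gives a lift `Ψ` in `V` near `w`; `hP` gives `η`; `exists_str_of_liftO` (for `V`, charts smaller than `η` and small with respect to `Λ`), `cap_of_smallO`, `cap_mono`.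

`irel_loc`: as in `exists_irel` (EL Cp): a straight chart `χ` at the lift in `V` (`so_notP`, `so_liftV`, `exists_str_of_liftO`), all of whose points are `ε/2`-near `f w`, `Cap`; the lifts of points near `f w` have `χ.q _` near `0`,
the same first coordinate (over `z`), and the segment stays in the chart.
`exists_irelL`: `so_unif` with `Q r z y := ∀ x ∈ V, ∀ x' ∈ V, u x - z ∈ Λ → u x' - z ∈ Λ → pr x = y → dist y (pr x') ≤ r → ∀ α : TForm V Λ u, ∃ v, IRel α ε z y (pr x') v`; the translation (`htr`): `IRel` at `z + l` from `IRel` at `z` for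
another form (replace `c` by `c + l`; the primitive of the form: use `cpRel` as in EL Cp: state `Q` with the existence of the chart and the points, and add a primitive `A` at the end by `exists_prim`).  `hloc`: `irel_loc` (its proof gives the version with
`cpRel`).  For the conclusion: `exists_deep` gives `x ∈ V` with `pr x = f z`; take the larger `r₁`.
`exists_deep`: `deepP` and `so_lift_at` (`z ∈ ball z r₁`, `z ∉ B` because `z ∈ Gd B δ'`): `f z = pr x`, `x ∈ X`; `x ∈ P` would give `0 < r ≤ dist (pr x) (f z) = 0`.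
-/

set_option autoImplicit false

open Topology Filter Metric

namespace Pool.Agent.H18.LU

open Pool.Agent.H36.BP (EN fs wd IsGermChart)
open Pool.Agent.H14.PP (IsCone Chart Tan CurveAt)
open Pool.Agent.H62.EF (Lat MN pr TorusMap Sec Charts DU)
open Pool.Agent.H62.EL (Gd Ag BadSet IsNC TForm Mon mo Cap IRel II tc IsPrim)

variable {N : ℕ} {X D P : Set (EN N)} {Λ Γ : AddSubgroup ℂ} {u : EN N → ℂ} {B : Set ℂ} {δ : ℝ}

theorem LData.vCone (E : LData X D P Λ Γ u B δ) : OCone (X \ P) := by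
  refine ⟨fun h => E.cone.zero_notMem h.1, fun x hx c hc => ⟨E.cone.smul_mem x hx.1 c hc, fun h => hx.2 ?_⟩⟩
  have h1 := E.P_smul _ h c⁻¹ (inv_ne_zero hc)
  rwa [smul_smul, inv_mul_cancel₀ hc, one_smul] at h1

theorem LData.vTor (E : LData X D P Λ Γ u B δ) : TorusMap (X \ P) Λ u := by
  refine ⟨fun x hx c hc => E.tor.smul x hx.1 c hc, fun x hx => ?_⟩
  obtain ⟨v, hv, h⟩ := E.tor.loc x hx.1
  exact ⟨v, hv, h.mono fun y hy hyX => hy hyX.1⟩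

theorem LData.vCharts (E : LData X D P Λ Γ u B δ) : Charts (X \ P) := by
  intro x hx
  obtain ⟨χ, hU, hq⟩ := E.charts x hx.1
  obtain ⟨hb, a, ha, hxa⟩ := χ.surj x hx.1 hU
  rw [hq] at hxa
  have h0 : (0 : ℂ × ℂ) ∈ ball (0 : ℂ × ℂ) 2 := mem_ball_self two_pos
  have hball : ∀ᶠ p in 𝓝 (0 : ℂ × ℂ), p ∈ ball (0 : ℂ × ℂ) 2 := isOpen_ball.mem_nhds h0
  have han : AnalyticAt ℂ (fun p => a • χ.σ p) (0 : ℂ × ℂ) := (analyticAt_const (v := a)).fun_smul (χ.σ_an 0 h0)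
  have ht : Tendsto (fun p => a • χ.σ p) (𝓝 (0 : ℂ × ℂ)) (𝓝 x) := by
    have h1 := han.continuousAt.tendsto
    rwa [← hxa] at h1
  have hG : IsGermChart (X \ P) (fun p => a • χ.σ p) χ.q := by
    refine ⟨han, ?_, ?_, ?_, ?_, ?_⟩
    · filter_upwards [hball, ht.eventually (E.P_closed x hx.1 hx.2)] with p hp h1
      exact ⟨E.cone.smul_mem _ (χ.σ_mem p hp).1 a ha, h1⟩
    · show AnalyticAt ℂ χ.q (a • χ.σ 0)
      rw [← hxa]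
      exact χ.q_an x hU
    · filter_upwards [hball] with p hp
      rw [χ.q_smul _ (χ.σ_mem p hp).2.1 a ha, (χ.σ_mem p hp).2.2]
    · show ∀ᶠ y in 𝓝 (a • χ.σ 0), _
      rw [← hxa]
      filter_upwards [χ.isOpen_U.mem_nhds hU] with y hy hyV
      obtain ⟨-, c, hc, h1⟩ := χ.surj y hyV.1 hy
      refine ⟨c * a⁻¹, mul_ne_zero hc (inv_ne_zero ha), ?_⟩
      rw [smul_smul, mul_assoc, inv_mul_cancel₀ ha, mul_one]
      exact h1
    · show ∀ᶠ z in 𝓝 (a • χ.σ 0, (1 : ℂ)), _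
      rw [← hxa]
      have h1 : ∀ᶠ z in 𝓝 (x, (1 : ℂ)), z.1 ∈ χ.U :=
        (continuous_fst.continuousAt (x := (x, (1 : ℂ)))).eventually_mem (χ.isOpen_U.mem_nhds hU)
      have h2 : ∀ᶠ z in 𝓝 (x, (1 : ℂ)), z.2 ≠ 0 :=
        (continuous_snd.continuousAt (x := (x, (1 : ℂ)))).eventually_ne one_ne_zero
      filter_upwards [h1, h2] with z hz1 hz2
      exact χ.q_smul _ hz1 _ hz2
  obtain ⟨χ', r, -, h1, h2, -⟩ := exists_small_chartO E.vCone hG one_pos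
  rw [← hxa] at h1 h2
  exact ⟨χ', h1, h2⟩

private lemma cpl_q_small {V : Set (EN N)} (hV : OCone V) {χ : Chart V} {x₀ : EN N} (hx₀ : x₀ ∈ V) (hU : x₀ ∈ χ.U) (hq : χ.q x₀ = 0)
    {s : ℝ} (hs : 0 < s) : ∃ d : ℝ, 0 < d ∧ ∀ x ∈ V, dist (pr x) (pr x₀) < d → x ∈ χ.U ∧ ‖χ.q x‖ < s := by
  have hx0 : x₀ ≠ 0 := hV.ne_zero hx₀
  have hV' : {x | x ∈ χ.U ∧ ‖χ.q x‖ < s} ∈ 𝓝 x₀ := by
    have h1 : ∀ᶠ x in 𝓝 x₀, x ∈ χ.U := χ.isOpen_U.mem_nhds hU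
    have h2 : ∀ᶠ x in 𝓝 x₀, ‖χ.q x‖ < s := by
      have hc : ContinuousAt (fun x => ‖χ.q x‖) x₀ := (χ.q_an x₀ hU).continuousAt.norm
      have h3 : (fun x => ‖χ.q x‖) x₀ < s := by simpa [hq] using hs
      exact hc.tendsto.eventually_lt_const h3
    exact h1.and h2
  obtain ⟨d, hd, h⟩ := Pool.Agent.H62.EF.near_of_pr hx0 hV'
  refine ⟨d, hd, fun x hx hxd => ?_⟩
  obtain ⟨c, hc, hcU, hcq⟩ := h x (hV.ne_zero hx) hxd
  have e : x = c⁻¹ • (c • x) := by rw [smul_smul, inv_mul_cancel₀ hc, one_smul]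
  have hxU : x ∈ χ.U := by rw [e]; exact χ.smul_U _ hcU _ (inv_ne_zero hc)
  refine ⟨hxU, ?_⟩
  rw [← χ.q_smul x hxU c hc]
  exact hcq

private lemma cpl_mo (b : ℂ) (ρ : ℝ) (p : ℂ × ℂ) : mo b ρ 1 0 p = b + ρ * p.1 := by
  simp [mo]

private lemma cpl_pr_q {V : Set (EN N)} {χ : Chart V} {x : EN N} (hx : x ∈ V) (hU : x ∈ χ.U) : pr (χ.σ (χ.q x)) = pr x := by
  obtain ⟨hb, c, hc, e⟩ := χ.surj x hx hU
  conv_rhs => rw [e]
  exact (Pool.Agent.H62.EF.pr_smul _ hc).symm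

/-- translation of the value of `u` -/
private lemma cpl_mon_add {V : Set (EN N)} {χ : Chart V} {c : ℂ} {ρ : ℝ} (h : Mon Λ u χ c ρ 1 0) {l : ℂ} (hl : l ∈ Λ) :
    Mon Λ u χ (c + l) ρ 1 0 where
  pos := h.pos
  ij := h.ij
  lift := fun p hp => by
    have h1 := Λ.sub_mem (h.lift p hp) hl
    rw [cpl_mo] at h1 ⊢
    have e : u (χ.σ p) - (c + l + ρ * p.1) = u (χ.σ p) - (c + ρ * p.1) - l := by ring
    rw [e]
    exact h1

theorem cap_of_smallO {V : Set (EN N)} (hV : OCone V) (hu : TorusMap V Λ u) {x₀ : EN N} (hx₀ : x₀ ∈ V) {z₀ : ℂ} (hz₀ : u x₀ - z₀ ∈ Λ)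
    {χ : Chart V} {ρ η : ℝ} (hm : Mon Λ u χ z₀ ρ 1 0) (hU : x₀ ∈ χ.U) (hq : χ.q x₀ = 0) (hinj : ∀ l ∈ Λ, ‖l‖ < 2 * η → l = 0)
    (hr : ∀ p ∈ ball (0 : ℂ × ℂ) 2, ‖mo z₀ ρ 1 0 p - z₀‖ < η) : ∃ r : ℝ, 0 < r ∧ Cap Λ u χ z₀ ρ z₀ (pr x₀) r := by
  obtain ⟨d, hd, h⟩ := cpl_q_small hV hx₀ hU hq (zero_lt_one' ℝ)
  have hη : 0 < η := lt_of_le_of_lt (norm_nonneg _) (hr 0 (mem_ball_self two_pos))
  have hr0 : 0 < min (d / 2) (η / 2) := lt_min (by linarith) (by linarith)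
  refine ⟨min (d / 2) (η / 2), hr0, hm, fun z hz x hx hxz hxd => ?_⟩
  have h1 : min (d / 2) (η / 2) ≤ d / 2 := min_le_left _ _
  have h2 : min (d / 2) (η / 2) ≤ η / 2 := min_le_right _ _
  obtain ⟨hxU, hxq⟩ := h x hx (by linarith)
  refine ⟨hxU, ?_, ?_⟩
  · rw [mem_closedBall, dist_zero_right]
    exact hxq.le
  · obtain ⟨hb, c, hc, e⟩ := χ.surj x hx hxU
    have h3 : u x - u (χ.σ (χ.q x)) ∈ Λ := by
      have h3' := hu.smul _ (χ.σ_mem _ hb).1 c hc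
      rw [← e] at h3'
      exact h3'
    have h4 := hm.lift _ hb
    have h5 : mo z₀ ρ 1 0 (χ.q x) - z ∈ Λ := by
      have h6 := Λ.sub_mem (Λ.sub_mem hxz h3) h4
      have e2 : mo z₀ ρ 1 0 (χ.q x) - z =
          u x - z - (u x - u (χ.σ (χ.q x))) - (u (χ.σ (χ.q x)) - mo z₀ ρ 1 0 (χ.q x)) := by ring
      rw [e2]
      exact h6
    have h7 : ‖mo z₀ ρ 1 0 (χ.q x) - z‖ < 2 * η := by
      have e3 : mo z₀ ρ 1 0 (χ.q x) - z = (mo z₀ ρ 1 0 (χ.q x) - z₀) - (z - z₀) := by ring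
      have h8 := norm_sub_le (mo z₀ ρ 1 0 (χ.q x) - z₀) (z - z₀)
      have h9 := hr _ hb
      rw [mem_closedBall, dist_eq_norm] at hz
      rw [e3]
      linarith
    have h10 := hinj _ h5 h7
    rw [cpl_mo] at h10
    exact sub_eq_zero.1 h10

theorem cap_mono {V : Set (EN N)} {χ : Chart V} {c : ℂ} {ρ : ℝ} {z₀ : ℂ} {y₀ : MN N} {r : ℝ} (h : Cap Λ u χ c ρ z₀ y₀ r) {z₁ : ℂ} {y₁ : MN N}
    {r₁ : ℝ} (hr : r₁ ≤ r / 2) (hz : dist z₁ z₀ ≤ r / 2) (hy : dist y₁ y₀ ≤ r / 2) : Cap Λ u χ c ρ z₁ y₁ r₁ := by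
  refine ⟨h.mon, fun z hz' x hx hxz hd => h.cap z ?_ x hx hxz ?_⟩
  · rw [mem_closedBall] at hz' ⊢
    have := dist_triangle z z₁ z₀
    linarith
  · have := dist_triangle (pr x) y₁ y₀
    linarith

/-- a chart of smaller radius -/
private lemma cpl_cap_le {V : Set (EN N)} {χ : Chart V} {c : ℂ} {ρ : ℝ} {z₀ : ℂ} {y₀ : MN N} {r r' : ℝ} (h : Cap Λ u χ c ρ z₀ y₀ r)
    (hr : r' ≤ r) : Cap Λ u χ c ρ z₀ y₀ r' :=
  ⟨h.mon, fun z hz' x hx hxz hd => h.cap z (closedBall_subset_closedBall hr hz') x hx hxz (hd.trans hr)⟩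

/-- translation of a chart -/
private lemma cpl_cap_add {V : Set (EN N)} {χ : Chart V} {c : ℂ} {ρ : ℝ} {z₀ : ℂ} {y₀ : MN N} {r : ℝ} (hc : Cap Λ u χ c ρ z₀ y₀ r)
    {l : ℂ} (hl : l ∈ Λ) : Cap Λ u χ (c + l) ρ (z₀ + l) y₀ r := by
  refine ⟨cpl_mon_add hc.mon hl, fun z hz x hx hxz hd => ?_⟩
  have h2 := hc.cap (z - l) ?_ x hx ?_ hd
  · refine ⟨h2.1, h2.2.1, ?_⟩
    linear_combination h2.2.2
  · rw [mem_closedBall, dist_eq_norm] at hz ⊢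
    have e : z - l - z₀ = z - (z₀ + l) := by ring
    rw [e]
    exact hz
  · have e : u x - (z - l) = (u x - z) + l := by ring
    rw [e]
    exact Λ.add_mem hxz hl

/-- a straight chart at a point of a limit -/
private lemma cpl_chart (E : LData X D P Λ Γ u B δ) {f : ℂ → MN N} (hf : f ∈ SO X D Λ u B Set.univ) {w : ℂ} (hw : w ∉ B) {η : ℝ}
    (hη : 0 < η) : ∃ (x₀ : EN N) (χ : Chart (X \ P)) (ρ r : ℝ), x₀ ∈ X \ P ∧ pr x₀ = f w ∧ x₀ ∈ χ.U ∧ χ.q x₀ = 0 ∧ 0 < r ∧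
      Cap Λ u χ w ρ w (f w) r ∧ ∀ p ∈ ball (0 : ℂ × ℂ) 2, dist (pr (χ.σ p)) (f w) < η := by
  obtain ⟨r₀, Ψ, hr₀, -, hΨ, hΨX⟩ := so_liftV E isOpen_univ hf (Set.mem_univ w) hw (so_notP E hf hw)
  obtain ⟨d, hd, hdis⟩ := E.dsc.discrete
  have hη' : 0 < min η (d / 2) := lt_min hη (by linarith)
  obtain ⟨χ, ρ, hU, hq, hm, hr⟩ := exists_str_of_liftO E.vCone E.vCharts E.vTor E.dsc hr₀ hΨ
    (fun z hz => ⟨(hΨX z hz).2.1, (hΨX z hz).2.2.1⟩) hη'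
  obtain ⟨-, hx, hux, hpr⟩ := hΨX w (mem_ball_self hr₀)
  obtain ⟨r, hr1, hcap⟩ := cap_of_smallO E.vCone E.vTor hx hux hm hU hq
    (fun l hl hl' => hdis l hl (lt_of_lt_of_le hl' (by have := min_le_right η (d / 2); linarith))) (fun p hp => (hr p hp).2)
  rw [hpr] at hcap hr
  exact ⟨Ψ w, χ, ρ, r, hx, hpr, hU, hq, hr1, hcap, fun p hp => lt_of_lt_of_le (hr p hp).1 (min_le_left _ _)⟩

theorem exists_capP (E : LData X D P Λ Γ u B δ) {δ' : ℝ} (hδ' : 0 < δ') (R : ℝ) (Pr : Chart (X \ P) → Prop)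
    (hP : ∀ w ∈ Gd B δ', w ∈ Nb Λ R → ∀ f ∈ SO X D Λ u B Set.univ, ∃ η : ℝ, 0 < η ∧
      ∀ χ : Chart (X \ P), (∀ p ∈ ball (0 : ℂ × ℂ) 2, dist (pr (χ.σ p)) (f w) < η) → Pr χ) :
    ∃ r₁ r : ℝ, 0 < r₁ ∧ 0 < r ∧ ∀ z ∈ Gd B δ', z ∈ Nb Λ R → ∀ f ∈ SO X D Λ u B (ball z r₁), ∃ (χ : Chart (X \ P)) (c : ℂ) (ρ : ℝ),
      Cap Λ u χ c ρ z (f z) r ∧ Pr χ := by
  refine so_unif E hδ' R (fun r z y => ∃ (χ : Chart (X \ P)) (c : ℂ) (ρ : ℝ), Cap Λ u χ c ρ z y r ∧ Pr χ) ?_ ?_ ?_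
  · rintro r r' z y - hr ⟨χ, c, ρ, h1, h2⟩
    exact ⟨χ, c, ρ, cpl_cap_le h1 hr, h2⟩
  · rintro r z y l hl ⟨χ, c, ρ, h1, h2⟩
    exact ⟨χ, c + l, ρ, cpl_cap_add h1 (E.le hl), h2⟩
  · intro f hf w hw hwR
    obtain ⟨η, hη, hPη⟩ := hP w hw hwR f hf
    obtain ⟨x₀, χ, ρ, r, -, -, -, -, hr, hcap, hχ⟩ := cpl_chart E hf (Pool.Agent.H62.EL.gd_notMem hδ' hw) hη
    refine ⟨r / 2, half_pos hr, fun z hz y hy => ⟨χ, w, ρ, cap_mono hcap le_rfl (mem_closedBall.1 hz) (mem_closedBall.1 hy), hPη χ hχ⟩⟩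

/-- the relation without the form -/
private def cplRel (V : Set (EN N)) (Λ : AddSubgroup ℂ) (u : EN N → ℂ) (ε : ℝ) (z : ℂ) (y y' : MN N) : Prop :=
  ∃ (χ : Chart V) (c : ℂ) (ρ : ℝ) (p p' : ℂ × ℂ), Mon Λ u χ c ρ 1 0 ∧
    p ∈ ball (0 : ℂ × ℂ) 2 ∧ p' ∈ ball (0 : ℂ × ℂ) 2 ∧ c + ρ * p.1 = z ∧ c + ρ * p'.1 = z ∧ pr (χ.σ p) = y ∧ pr (χ.σ p') = y' ∧
    (∀ θ ∈ Set.Icc (0 : ℝ) 1, dist (pr (χ.σ (p + (θ : ℂ) • (p' - p)))) y ≤ ε)

private lemma cpl_rel_irel {V : Set (EN N)} {ε : ℝ} {z : ℂ} {y y' : MN N} (h : cplRel V Λ u ε z y y') (α : TForm V Λ u) :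
    ∃ v, IRel α ε z y y' v := by
  obtain ⟨χ, c, ρ, p, p', hm, hp, hp', hc, hc', hpr, hpr', hθ⟩ := h
  obtain ⟨A, hA⟩ := Pool.Agent.H62.EL.exists_prim α χ hm
  exact ⟨_, χ, c, ρ, A, p, p', hm, hA, hp, hp', hc, hc', hpr, hpr', hθ, rfl⟩

private lemma cpl_rel_add {V : Set (EN N)} {ε : ℝ} {z : ℂ} {y y' : MN N} (h : cplRel V Λ u ε z y y') {l : ℂ} (hl : l ∈ Λ) :
    cplRel V Λ u ε (z + l) y y' := by
  obtain ⟨χ, c, ρ, p, p', hm, hp, hp', hc, hc', hpr, hpr', hθ⟩ := h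
  exact ⟨χ, c + l, ρ, p, p', cpl_mon_add hm hl, hp, hp', by linear_combination hc, by linear_combination hc', hpr, hpr', hθ⟩

private lemma cpl_rel_loc (E : LData X D P Λ Γ u B δ) {ε : ℝ} (hε : 0 < ε) {f : ℂ → MN N} (hf : f ∈ SO X D Λ u B Set.univ) {w : ℂ}
    (hw : w ∉ B) : ∃ ε₀ : ℝ, 0 < ε₀ ∧ ∀ z ∈ closedBall w ε₀, ∀ x ∈ X \ P, ∀ x' ∈ X \ P, u x - z ∈ Λ → u x' - z ∈ Λ →
      dist (pr x) (f w) ≤ ε₀ → dist (pr x') (f w) ≤ ε₀ → cplRel (X \ P) Λ u ε z (pr x) (pr x') := by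
  obtain ⟨x₀, χ, ρ, r, hx₀, hpr, hU, hq, hr, hcap, -⟩ := cpl_chart E hf hw one_pos
  -- continuity of the chart at `0`
  have hσ0 : pr (χ.σ 0) = f w := by
    rw [← hpr, ← cpl_pr_q hx₀ hU, hq]
  have h0 : (0 : ℂ × ℂ) ∈ ball (0 : ℂ × ℂ) 2 := mem_ball_self two_pos
  have hcont : ContinuousAt (fun p => pr (χ.σ p)) (0 : ℂ × ℂ) := by
    have h1 : ContinuousAt pr (χ.σ 0) := Pool.Agent.H62.EF.continuousAt_pr (E.vCone.ne_zero (χ.σ_mem 0 h0).1)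
    exact ContinuousAt.comp (f := χ.σ) h1 (χ.σ_an 0 h0).continuousAt
  obtain ⟨s₀, hs₀, hs⟩ := Metric.continuousAt_iff.1 hcont (ε / 2) (half_pos hε)
  rw [hσ0] at hs
  have hs2 : 0 < min s₀ 2 := lt_min hs₀ two_pos
  obtain ⟨d, hd, hqs⟩ := cpl_q_small E.vCone hx₀ hU hq hs2
  rw [hpr] at hqs
  set m : ℝ := min (min r d) ε / 4 with hm
  have hm0 : 0 < m := by
    have : 0 < min (min r d) ε := lt_min (lt_min hr hd) hε
    linarith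
  have hmr : 4 * m ≤ r := by
    have := (min_le_left (min r d) ε).trans (min_le_left r d)
    linarith
  have hmd : 4 * m ≤ d := by
    have := (min_le_left (min r d) ε).trans (min_le_right r d)
    linarith
  have hmε : 4 * m ≤ ε := by
    have := min_le_right (min r d) ε
    linarith
  refine ⟨m, hm0, fun z hz x hx x' hx' hxz hxz' hd1 hd2 => ?_⟩
  have hzc : z ∈ closedBall w r := closedBall_subset_closedBall (by linarith) hz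
  obtain ⟨hU1, hq1, hc1⟩ := hcap.cap z hzc _ hx hxz (by linarith)
  obtain ⟨hU2, hq2, hc2⟩ := hcap.cap z hzc _ hx' hxz' (by linarith)
  have hs1 := (hqs _ hx (by linarith)).2
  have hs2' := (hqs _ hx' (by linarith)).2
  refine ⟨χ, w, ρ, χ.q x, χ.q x', hcap.mon, (χ.surj _ hx hU1).1, (χ.surj _ hx' hU2).1, hc1, hc2, cpl_pr_q hx hU1, cpl_pr_q hx' hU2, ?_⟩
  intro θ hθ
  have hmem : χ.q x + (θ : ℂ) • (χ.q x' - χ.q x) ∈ ball (0 : ℂ × ℂ) (min s₀ 2) := by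
    have e : χ.q x + (θ : ℂ) • (χ.q x' - χ.q x) = (1 - θ) • χ.q x + θ • χ.q x' := by
      have e1 : ∀ v : ℂ × ℂ, (θ : ℂ) • v = θ • v := fun v => by
        ext <;> simp
      rw [e1, smul_sub, sub_smul, one_smul]
      abel
    rw [e]
    exact (convex_ball (0 : ℂ × ℂ) (min s₀ 2)) (by rw [mem_ball, dist_zero_right]; exact hs1)
      (by rw [mem_ball, dist_zero_right]; exact hs2') (by linarith [hθ.2]) hθ.1 (by ring)
  have h6 := hs (lt_of_lt_of_le (mem_ball.1 hmem) (min_le_left _ _))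
  have h7 := dist_triangle (pr (χ.σ (χ.q x + (θ : ℂ) • (χ.q x' - χ.q x)))) (f w) (pr x)
  rw [dist_comm (f w)] at h7
  linarith

/-- near a point of a limit all pairs of points are joined by short paths -/
theorem irel_loc (E : LData X D P Λ Γ u B δ) {ε : ℝ} (hε : 0 < ε) {f : ℂ → MN N} (hf : f ∈ SO X D Λ u B Set.univ) {w : ℂ} (hw : w ∉ B) :
    ∃ ε₀ : ℝ, 0 < ε₀ ∧ ∀ z ∈ closedBall w ε₀, ∀ x ∈ X \ P, ∀ x' ∈ X \ P, u x - z ∈ Λ → u x' - z ∈ Λ → dist (pr x) (f w) ≤ ε₀ →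
      dist (pr x') (f w) ≤ ε₀ → ∀ α : TForm (X \ P) Λ u, ∃ v, IRel α ε z (pr x) (pr x') v := by
  obtain ⟨ε₀, hε₀, h⟩ := cpl_rel_loc E hε hf hw
  exact ⟨ε₀, hε₀, fun z hz x hx x' hx' h1 h2 h3 h4 α => cpl_rel_irel (h z hz x hx x' hx' h1 h2 h3 h4) α⟩

/-- sections over large balls are not in `P` -/
theorem exists_deep (E : LData X D P Λ Γ u B δ) {δ' : ℝ} (hδ' : 0 < δ') (R : ℝ) : ∃ r₁ : ℝ, 0 < r₁ ∧ ∀ z ∈ Gd B δ', z ∈ Nb Λ R →
    ∀ f ∈ SO X D Λ u B (ball z r₁), ∃ x ∈ X \ P, u x - z ∈ Λ ∧ pr x = f z := by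
  obtain ⟨r₁, r, hr₁, hr, h⟩ := deepP E hδ' R
  refine ⟨r₁, hr₁, fun z hz hzR f hf => ?_⟩
  obtain ⟨x, hx, hxz, hpr⟩ := so_lift_at E isOpen_ball hf (mem_ball_self hr₁) (Pool.Agent.H62.EL.gd_notMem hδ' hz)
  refine ⟨x, ⟨hx, fun hxP => ?_⟩, hxz, hpr⟩
  have h1 := h z hz hzR f hf x hxP
  rw [hpr, dist_self] at h1
  linarith

theorem exists_irelL (E : LData X D P Λ Γ u B δ) {δ' ε : ℝ} (hδ' : 0 < δ') (hε : 0 < ε) (R : ℝ) : ∃ r₁ ε₀ : ℝ, 0 < r₁ ∧ 0 < ε₀ ∧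
    ∀ z ∈ Gd B δ', z ∈ Nb Λ R → ∀ f ∈ SO X D Λ u B (ball z r₁), ∀ x ∈ X \ P, u x - z ∈ Λ → dist (f z) (pr x) ≤ ε₀ →
      ∀ α : TForm (X \ P) Λ u, ∃ v, IRel α ε z (f z) (pr x) v := by
  have key : ∃ r₁ r : ℝ, 0 < r₁ ∧ 0 < r ∧ ∀ z ∈ Gd B δ', z ∈ Nb Λ R → ∀ f ∈ SO X D Λ u B (ball z r₁), ∀ x ∈ X \ P, ∀ x' ∈ X \ P,
      u x - z ∈ Λ → u x' - z ∈ Λ → pr x = f z → dist (f z) (pr x') ≤ r → cplRel (X \ P) Λ u ε z (f z) (pr x') := by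
    refine so_unif E hδ' R (fun r z y => ∀ x ∈ X \ P, ∀ x' ∈ X \ P, u x - z ∈ Λ → u x' - z ∈ Λ → pr x = y →
      dist y (pr x') ≤ r → cplRel (X \ P) Λ u ε z y (pr x')) ?_ ?_ ?_
    · intro r r' z y _ hr hQ x hx x' hx' h1 h2 h3 h4
      exact hQ x hx x' hx' h1 h2 h3 (h4.trans hr)
    · intro r z y l hl hQ x hx x' hx' h1 h2 h3 h4
      have hl' : l ∈ Λ := E.le hl
      have e : ∀ x : EN N, u x - z = (u x - (z + l)) + l := fun x => by ring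
      refine cpl_rel_add (hQ x hx x' hx' ?_ ?_ h3 h4) hl'
      · rw [e]
        exact Λ.add_mem h1 hl'
      · rw [e]
        exact Λ.add_mem h2 hl'
    · intro f hf w hw _
      obtain ⟨ε₀, hε₀, h⟩ := cpl_rel_loc E hε hf (Pool.Agent.H62.EL.gd_notMem hδ' hw)
      refine ⟨ε₀ / 2, half_pos hε₀, fun z hz y hy x hx x' hx' h1 h2 h3 h4 => ?_⟩
      rw [mem_closedBall] at hy
      rw [← h3] at hy h4 ⊢
      refine h z (closedBall_subset_closedBall (by linarith) hz) x hx x' hx' h1 h2 (by linarith) ?_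
      have h5 := dist_triangle (pr x') (pr x) (f w)
      rw [dist_comm (pr x') (pr x)] at h5
      linarith
  obtain ⟨r₁, r, hr₁, hr, h⟩ := key
  obtain ⟨r₂, hr₂, hdeep⟩ := exists_deep E hδ' R
  refine ⟨max r₁ r₂, r, lt_max_of_lt_left hr₁, hr, fun z hz hzR f hf x hx hxz hd α => ?_⟩
  obtain ⟨x₀, hx₀, hx₀z, hpr⟩ := hdeep z hz hzR f (so_anti (ball_subset_ball (le_max_right _ _)) hf)
  exact cpl_rel_irel (h z hz hzR f (so_anti (ball_subset_ball (le_max_left _ _)) hf) x₀ hx₀ x hx hx₀z hxz hpr hd) α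

end Pool.Agent.H18.LU
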