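import Pool.Agent.H18.LU.HoX

/-!
# LU CsL: the constants

`LData.mono`: clear.  `cap_mono'`: `HasCap` is monotone in `δ'` (larger), `R` (smaller), `r₁` (larger: `so_anti`), `r` (smaller: `cap_mono` is for `r / 2`; direct: `Cap` of a smaller radius).  `rel_mono` similar (`ε₀` smaller).

`exists_cstL`: `R₁` from `exists_rep R`; `ℬ = {b ∈ B | ‖b‖ ≤ R₁}` is finite (`8 δ₀`-separated and bounded, see `exists_reps` in EL Cst).  For `b ∈ ℬ`: a hole `H_b` (`exists_hole`).  Choose `0 < δ ≤ δ₀` with `6 δ < H_b.M.ρ` for all `b ∈ ℬ`; `E.mono`.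
`exists_capP` (`Pr = True`) with `δ' = δ`: `r₁`, `r`; `ε = r / 3`; `exists_irelL` with `ε`: `r₁'`, `ε₁`; `exists_deep`; `II_bddL`: `r₂`, `C`; `hole_cross` for the `b ∈ ℬ` with `closedBall b (3δ) ⊆ Nb Λ R`: `r_b`, `ε_b`.  `r₁` := the maximum, `ε₀` := the minimum.
`cross` for `b ∈ B`: `l ∈ Γ` with `‖b - l‖ ≤ R₁` (`b ∈ Nb Λ R`), `b' = b - l ∈ ℬ` (`BadSet.inv`, `E.le`), `closedBall b' (3δ) ⊆ Nb Λ R` (`nb_add`); apply `hole_cross` for `b'` to `F (· + l)`, `G (· + l)` (`secAt_add`), `J z = J' (z - l)` (`II_per`, `E.vTor`).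
-/

set_option autoImplicit false

open Topology Filter Metric

namespace Pool.Agent.H18.LU

open Pool.Agent.H36.BP (EN fs wd IsGermChart)
open Pool.Agent.H14.PP (IsCone Chart Tan CurveAt)
open Pool.Agent.H62.EF (Lat MN pr TorusMap Sec Charts DU)
open Pool.Agent.H62.EL (Gd Ag BadSet IsNC TForm Mon mo Cap IRel II Per)

variable {N : ℕ} {X D P : Set (EN N)} {Λ Γ : AddSubgroup ℂ} {u : EN N → ℂ} {B : Set ℂ} {δ : ℝ}

/-- the constants -/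
structure CstL (D : Set (EN N)) (B : Set ℂ) (δ R : ℝ) (α : TForm (X \ P) Λ u) (r₁ ε ε₀ C : ℝ) : Prop where
  r₁_pos : 0 < r₁
  ε_pos : 0 < ε
  ε₀_pos : 0 < ε₀
  C_nonneg : 0 ≤ C
  cap : HasCap X D P Λ u B δ R r₁ (3 * ε)
  deep : ∀ z ∈ Gd B δ, z ∈ Nb Λ R → ∀ f ∈ SO X D Λ u B (ball z r₁), ∃ x ∈ X \ P, u x - z ∈ Λ ∧ pr x = f z
  rel : HasRel D B α δ R r₁ ε ε₀
  bdd : ∀ z ∈ Gd B δ, z ∈ Nb Λ R → ∀ f ∈ SO X D Λ u B (ball z r₁), ∀ y' : MN N, ‖II α ε z (f z) y'‖ ≤ C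
  cross : ∀ b ∈ B, closedBall b (3 * δ) ⊆ Nb Λ R → ∀ F G : ℂ → EN N,
    (∀ z ∈ ball b (3 * δ + r₁), SecAt X D Λ u F z ∧ SecAt X D Λ u G z) →
    (∀ z, δ ≤ ‖z - b‖ → ‖z - b‖ ≤ 3 * δ → dist (pr (F z)) (pr (G z)) ≤ ε₀) →
    ∃ J : ℂ → ℂ, DifferentiableOn ℂ J (ball b (3 * δ)) ∧
      ∀ z, δ < ‖z - b‖ → ‖z - b‖ < 3 * δ → J z = II α ε z (pr (F z)) (pr (G z))

theorem LData.mono (E : LData X D P Λ Γ u B δ) {δ' : ℝ} (h0 : 0 < δ') (h : δ' ≤ δ) : LData X D P Λ Γ u B δ' :=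
  { E with
    bad := ⟨h0, E.bad.inv, fun b hb b' hb' hne => (by linarith : 8 * δ' ≤ 8 * δ).trans (E.bad.sep b hb b' hb' hne)⟩
    zero := fun b hb => (by linarith : 4 * δ' ≤ 4 * δ).trans (E.zero b hb) }

private theorem CsL_cap {V : Set (EN N)} {χ : Chart V} {c : ℂ} {ρ : ℝ} {z₀ : ℂ} {y₀ : MN N} {r r' : ℝ} (h : Cap Λ u χ c ρ z₀ y₀ r)
    (hr : r' ≤ r) : Cap Λ u χ c ρ z₀ y₀ r' :=
  ⟨h.mon, fun z hz x hx hxz hd => h.cap z (closedBall_subset_closedBall hr hz) x hx hxz (hd.trans hr)⟩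

theorem cap_mono' {δ₁ δ₂ R R' r₁ r₂ r r' : ℝ} (h : HasCap X D P Λ u B δ₁ R r₁ r) (h1 : δ₁ ≤ δ₂) (h2 : R' ≤ R) (h3 : r₁ ≤ r₂) (h4 : r' ≤ r) :
    HasCap X D P Λ u B δ₂ R' r₂ r' := by
  intro z hz hzR f hf
  obtain ⟨χ, c, ρ, hc⟩ := h z (fun b hb => h1.trans (hz b hb)) (nb_mono h2 hzR) f (so_anti (ball_subset_ball h3) hf)
  exact ⟨χ, c, ρ, CsL_cap hc h4⟩

theorem rel_mono' {α : TForm (X \ P) Λ u} {δ₁ δ₂ R R' r₁ r₂ ε ε₁ ε₂ : ℝ} (h : HasRel D B α δ₁ R r₁ ε ε₁) (h1 : δ₁ ≤ δ₂) (h2 : R' ≤ R)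
    (h3 : r₁ ≤ r₂) (h4 : ε₂ ≤ ε₁) : HasRel D B α δ₂ R' r₂ ε ε₂ := by
  intro z hz hzR f hf x hx hxz hd
  exact h z (fun b hb => h1.trans (hz b hb)) (nb_mono h2 hzR) f (so_anti (ball_subset_ball h3) hf) x hx hxz (hd.trans h4)

/-- the integral is the integral along short paths (`II_param`, `hc.cap`; `hc.rel` for the end point) -/
theorem CstL.param (E : LData X D P Λ Γ u B δ) {α : TForm (X \ P) Λ u} {R r₁ ε ε₀ C : ℝ} (hc : CstL D B δ R α r₁ ε ε₀ C) {z w₀ w₁ : ℂ}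
    (hz : z ∈ Gd B δ) (hzR : z ∈ Nb Λ R) {f : ℂ → MN N} (hf : f ∈ SO X D Λ u B (ball z r₁)) {Φ : ℂ × ℂ → EN N}
    (hΦ : ∀ θ ∈ Set.Icc (0 : ℝ) 1, AnalyticAt ℂ Φ (z, w₀ + θ * (w₁ - w₀)) ∧
      (∀ᶠ p in 𝓝 (z, w₀ + θ * (w₁ - w₀)), Φ p ∈ X \ P ∧ u (Φ p) - p.1 ∈ Λ) ∧ dist (pr (Φ (z, w₀ + θ * (w₁ - w₀)))) (f z) ≤ min ε₀ ε)
    (h₀ : pr (Φ (z, w₀)) = f z) : II α ε z (f z) (pr (Φ (z, w₁))) = ∫ θ in (0 : ℝ)..1, (w₁ - w₀) * α.toFun z (Φ (z, w₀ + θ * (w₁ - w₀)))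
      (fderiv ℂ Φ (z, w₀ + θ * (w₁ - w₀)) (1, 0)) (fderiv ℂ Φ (z, w₀ + θ * (w₁ - w₀)) (0, 1)) := by
  have hε := hc.ε_pos
  obtain ⟨χ, c, ρ, hcap⟩ := hc.cap z hz hzR f hf
  obtain ⟨h1, h2, h3⟩ := hΦ 1 ⟨zero_le_one, le_rfl⟩
  have e : w₀ + ((1 : ℝ) : ℂ) * (w₁ - w₀) = w₁ := by
    push_cast
    ring
  rw [e] at h2 h3
  have h4 := h2.self_of_nhds
  have hrel := hc.rel z hz hzR f hf (Φ (z, w₁)) h4.1 h4.2 (by
    rw [dist_comm]
    exact h3.trans (min_le_left _ _))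
  refine II_param E.vCone E.vTor E.dsc hcap (by linarith) hrel (fun θ hθ => ?_) h₀ rfl
  obtain ⟨g1, g2, g3⟩ := hΦ θ hθ
  exact ⟨g1, g2, g3.trans ((min_le_right _ _).trans (by linarith))⟩

private theorem CsL_fin (hB : BadSet B Λ δ) (R₁ : ℝ) : (B ∩ closedBall (0 : ℂ) R₁).Finite := by
  have h8 : 0 < 8 * δ := by
    have := hB.pos
    positivity
  have hsep : (B ∩ closedBall (0 : ℂ) R₁).Pairwise fun x y => 8 * δ ≤ dist x y := by
    intro x hx y hy hxy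
    rw [dist_eq_norm]
    exact hB.sep x hx.1 y hy.1 hxy
  have hcl : IsClosed (B ∩ closedBall (0 : ℂ) R₁) := Metric.isClosed_of_pairwise_le_dist h8 hsep
  have hco : IsCompact (B ∩ closedBall (0 : ℂ) R₁) :=
    (isCompact_closedBall (0 : ℂ) R₁).of_isClosed_subset hcl Set.inter_subset_right
  have hdis : DiscreteTopology ↥(B ∩ closedBall (0 : ℂ) R₁) := by
    refine DiscreteTopology.of_forall_le_dist h8 ?_
    intro x y hxy
    exact hsep x.2 y.2 fun h => hxy (Subtype.ext h)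
  exact hco.finite (isDiscrete_iff_discreteTopology.mpr hdis)

private theorem CsL_ub {ℬ : Set ℂ} (hfin : ℬ.Finite) (f : ℂ → ℝ) : ∃ M : ℝ, 0 < M ∧ ∀ b ∈ ℬ, f b ≤ M := by
  obtain ⟨M, hM⟩ := (hfin.image f).bddAbove
  exact ⟨max M 1, lt_max_of_lt_right one_pos, fun b hb => (hM ⟨b, hb, rfl⟩).trans (le_max_left _ _)⟩

private theorem CsL_lb {ℬ : Set ℂ} (hfin : ℬ.Finite) (f : ℂ → ℝ) (hf : ∀ b, 0 < f b) : ∃ m : ℝ, 0 < m ∧ ∀ b ∈ ℬ, m ≤ f b := by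
  have h : ∀ᶠ m : ℝ in 𝓝[>] 0, ∀ b ∈ ℬ, m ≤ f b := by
    refine (Filter.eventually_all_finite hfin).2 fun b _ => ?_
    exact (eventually_le_nhds (hf b)).filter_mono nhdsWithin_le_nhds
  obtain ⟨m, h1, h2⟩ := (h.and self_mem_nhdsWithin).exists
  exact ⟨m, h2, h1⟩

theorem exists_cstL (E : LData X D P Λ Γ u B δ) {α : TForm (X \ P) Λ u} (hlog : LogP α) (hper : Per α Γ) (R : ℝ) :
    ∃ δ' : ℝ, 0 < δ' ∧ δ' ≤ δ ∧ LData X D P Λ Γ u B δ' ∧ ∃ r₁ ε ε₀ C : ℝ, CstL D B δ' R α r₁ ε ε₀ C := by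
  classical
  obtain ⟨R₁, hR₁, hrep⟩ := E.exists_rep R
  set ℬ : Set ℂ := B ∩ closedBall (0 : ℂ) R₁ with hℬ
  have hfin : ℬ.Finite := CsL_fin E.bad R₁
  -- the holes
  have hH : ∀ b : ℂ, ∃ ρ : ℝ, 0 < ρ ∧ (b ∈ B → ∃ H : Hole X P Λ u b α, H.M.ρ = ρ) := by
    intro b
    by_cases hb : b ∈ B
    · obtain ⟨H⟩ := exists_hole E hlog hb
      exact ⟨H.M.ρ, H.M.ρ_pos, fun _ => ⟨H, rfl⟩⟩
    · exact ⟨1, one_pos, fun h => absurd h hb⟩
  choose ρ hρ0 hρ using hH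
  obtain ⟨m, hm, hmρ⟩ := CsL_lb hfin ρ hρ0
  obtain ⟨δ', hδ'd⟩ : ∃ δ' : ℝ, δ' = min δ (m / 7) := ⟨_, rfl⟩
  have hδ' : 0 < δ' := by
    rw [hδ'd]
    exact lt_min E.bad.pos (by linarith)
  have hδδ : δ' ≤ δ := by
    rw [hδ'd]
    exact min_le_left _ _
  have hδm : 6 * δ' < m := by
    have : δ' ≤ m / 7 := by
      rw [hδ'd]
      exact min_le_right _ _
    linarith
  have E' := E.mono hδ' hδδ
  refine ⟨δ', hδ', hδδ, E', ?_⟩
  -- uniform charts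
  obtain ⟨ra, r, hra, hr, hcap⟩ := exists_capP E' hδ' R (fun _ => True) (fun w _ _ f _ => ⟨1, one_pos, fun _ _ => trivial⟩)
  have hcap' : HasCap X D P Λ u B δ' R ra r := by
    intro z hz hzR f hf
    obtain ⟨χ, c, ρ, h, -⟩ := hcap z hz hzR f hf
    exact ⟨χ, c, ρ, h⟩
  have hε : 0 < r / 3 := by positivity
  have h3 : 3 * (r / 3) = r := by ring
  obtain ⟨rb, εb, hrb, hεb, hirel⟩ := exists_irelL E' hδ' hε R
  obtain ⟨rc, hrc, hdeep⟩ := exists_deep E' hδ' R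
  obtain ⟨rd, C, hrd, hC, hbdd⟩ := II_bddL E' hper hδ' (by linarith : r / 3 < r) hra hcap'
  set re : ℝ := max ra rb with hre
  have hre0 : 0 < re := lt_max_of_lt_left hra
  have hcape : HasCap X D P Λ u B δ' R re (3 * (r / 3)) := cap_mono' hcap' le_rfl le_rfl (le_max_left _ _) h3.le
  have hrele : HasRel D B α δ' R re (r / 3) εb := fun z hz hzR f hf x hx hxz hd =>
    hirel z hz hzR f (so_anti (ball_subset_ball (le_max_right _ _)) hf) x hx hxz hd α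
  -- crossing
  have hcr : ∀ b : ℂ, ∃ rb' εb' : ℝ, 0 < rb' ∧ 0 < εb' ∧ (b ∈ ℬ → closedBall b (3 * δ') ⊆ Nb Λ R → ∀ F G : ℂ → EN N,
      (∀ z ∈ ball b (3 * δ' + rb'), SecAt X D Λ u F z ∧ SecAt X D Λ u G z) →
      (∀ z, δ' ≤ ‖z - b‖ → ‖z - b‖ ≤ 3 * δ' → dist (pr (F z)) (pr (G z)) ≤ εb') →
      ∃ J : ℂ → ℂ, DifferentiableOn ℂ J (ball b (3 * δ')) ∧
        ∀ z, δ' < ‖z - b‖ → ‖z - b‖ < 3 * δ' → J z = II α (r / 3) z (pr (F z)) (pr (G z))) := by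
    intro b
    by_cases hb : b ∈ ℬ ∧ closedBall b (3 * δ') ⊆ Nb Λ R
    · obtain ⟨H, hHρ⟩ := hρ b hb.1.1
      have hbm := hmρ b hb.1
      obtain ⟨r₂, ε₂, h4, h5, h6⟩ := hole_cross E' hb.1.1 H (by rw [hHρ]; linarith) hε hεb hre0
        (fun z hz => hb.2 (by rw [mem_closedBall, dist_eq_norm]; exact hz)) hcape hrele
      exact ⟨r₂, ε₂, h4, h5, fun _ _ => h6⟩
    · exact ⟨1, 1, one_pos, one_pos, fun h1 h2 => absurd ⟨h1, h2⟩ hb⟩
  choose rf εf hrf hεf hcr using hcr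
  obtain ⟨Mr, hMr, hMr'⟩ := CsL_ub hfin rf
  obtain ⟨me, hme, hme'⟩ := CsL_lb hfin εf hεf
  set r₁ : ℝ := max (max re (max rc rd)) Mr with hr₁
  have hr₁0 : 0 < r₁ := lt_max_of_lt_right hMr
  have k1 : re ≤ r₁ := (le_max_left _ _).trans (le_max_left _ _)
  have k2 : rc ≤ r₁ := ((le_max_left _ _).trans (le_max_right _ _)).trans (le_max_left _ _)
  have k3 : rd ≤ r₁ := ((le_max_right _ _).trans (le_max_right _ _)).trans (le_max_left _ _)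
  have k4 : Mr ≤ r₁ := le_max_right _ _
  refine ⟨r₁, r / 3, min εb me, C, hr₁0, hε, lt_min hεb hme, hC, cap_mono' hcape le_rfl le_rfl k1 le_rfl, ?_,
    rel_mono' hrele le_rfl le_rfl k1 (min_le_left _ _), ?_, ?_⟩
  · intro z hz hzR f hf
    exact hdeep z hz hzR f (so_anti (ball_subset_ball k2) hf)
  · intro z hz hzR f hf y'
    exact hbdd z hz hzR f (so_anti (ball_subset_ball k3) hf) y'
  · intro b hb hbR F G hFG hcl
    obtain ⟨l, hl, hbl⟩ := hrep b (hbR (mem_closedBall_self (by linarith)))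
    set b' : ℂ := b - l with hb'
    have hlΛ : l ∈ Λ := E.le hl
    have hb'B : b' ∈ ℬ := by
      refine ⟨?_, ?_⟩
      · have := E.bad.inv b hb (-l) (Λ.neg_mem hlΛ)
        rw [← sub_eq_add_neg] at this
        exact this
      · rw [mem_closedBall_zero_iff]
        exact hbl
    have hb'R : closedBall b' (3 * δ') ⊆ Nb Λ R := by
      intro z hz
      have h1 : z + l ∈ closedBall b (3 * δ') := by
        rw [mem_closedBall, dist_eq_norm] at hz ⊢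
        have e : z + l - b = z - b' := by
          rw [hb']
          ring
        rw [e]
        exact hz
      exact (nb_add hlΛ).1 (hbR h1)
    have hn : ∀ z : ℂ, z + l - b = z - b' := fun z => by
      rw [hb']
      ring
    obtain ⟨J, hJ, hJz⟩ := hcr b' hb'B hb'R (fun z => F (z + l)) (fun z => G (z + l)) (by
      intro z hz
      have h1 : z + l ∈ ball b (3 * δ' + r₁) := by
        rw [mem_ball, dist_eq_norm] at hz ⊢
        rw [hn]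
        have := (hMr' b' hb'B).trans k4
        linarith
      exact ⟨(secAt_add hlΛ).2 (hFG _ h1).1, (secAt_add hlΛ).2 (hFG _ h1).2⟩) (by
      intro z hz1 hz2
      refine (hcl (z + l) ?_ ?_).trans ((min_le_right _ _).trans (hme' b' hb'B))
      · rw [hn]
        exact hz1
      · rw [hn]
        exact hz2)
    refine ⟨fun z => J (z - l), ?_, ?_⟩
    · refine hJ.comp (differentiable_id.sub_const l).differentiableOn ?_
      intro z hz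
      rw [mem_ball, dist_eq_norm] at hz ⊢
      have : z - l - b' = z - b := by
        rw [hb']
        ring
      show ‖z - l - b'‖ < 3 * δ'
      rw [this]
      exact hz
    · intro z hz1 hz2
      have e : z - l - b' = z - b := by
        rw [hb']
        ring
      have h2 := hJz (z - l) (by rw [e]; exact hz1) (by rw [e]; exact hz2)
      have h3 := Pool.Agent.H62.EL.II_per E.vTor E.le hper hl (r / 3) (z - l) (pr (F z)) (pr (G z))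
      simp only [sub_add_cancel] at h2 h3
      show J (z - l) = _
      rw [h2, h3]

end Pool.Agent.H18.LU
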