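import Pool.Agent.H18.LU.Oc
import Pool.Agent.H62.EL.Defs

/-!
# LU Defs: surfaces with boundary over `ℂ / Λ`, `Λ` a discrete group

`X` is the cone (without `0`) over a smooth surface, `u` a holomorphic map to `ℂ / Λ`, where `Λ` is a discrete subgroup of `ℂ` (a lattice, or `2 π i ℤ`); `X` is closed over the
parts `{z | dist (z, Λ) ≤ R}` of the base.  `D ⊆ X` is the boundary (a closed curve), `P ⊆ D` the part where the `2`-form has poles, open and closed in `D`.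
`B` is the set of the bad values (discrete, invariant).  Over the values which are not bad `D` is the graph of local sections (`HorAt` with exponent `1`).
The form is a `TForm (X \ P) Λ u` (EL Defs), with logarithmic poles along `P` (`LogP`).
-/

set_option autoImplicit false

open Topology Filter Metric

namespace Pool.Agent.H18.LU

open Pool.Agent.H36.BP (EN fs wd IsGermChart)
open Pool.Agent.H14.PP (IsCone Chart Tan CurveAt)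
open Pool.Agent.H62.EF (Lat MN pr TorusMap Sec Charts DU)
open Pool.Agent.H62.EL (Gd Ag BadSet IsNC TForm)

variable {N : ℕ}

/-- near `z` the curve `F` is a section in `X \ D` -/
def SecAt (X D : Set (EN N)) (Λ : AddSubgroup ℂ) (u : EN N → ℂ) (F : ℂ → EN N) (z : ℂ) : Prop :=
  AnalyticAt ℂ F z ∧ ∀ᶠ w in 𝓝 z, F w ∈ X ∧ F w ∉ D ∧ u (F w) - w ∈ Λ

/-- the limits of the sections over (neighbourhoods of the compact subsets of) `Ω`, locally uniformly outside `B` -/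
def SO (X D : Set (EN N)) (Λ : AddSubgroup ℂ) (u : EN N → ℂ) (B : Set ℂ) (Ω : Set ℂ) : Set (ℂ → MN N) :=
  {f | ∀ K : Set ℂ, K ⊆ Ω → IsCompact K → ∀ δ' ε : ℝ, 0 < δ' → 0 < ε →
    ∃ F : ℂ → EN N, (∀ z ∈ K, SecAt X D Λ u F z) ∧ ∀ z ∈ K, z ∈ Gd B δ' → dist (pr (F z)) (f z) < ε}

/-- the points of distance at most `R` from `Λ` -/
def Nb (Λ : AddSubgroup ℂ) (R : ℝ) : Set ℂ := {z | ∃ l ∈ Λ, ‖z - l‖ ≤ R}

/-- the part of `X` over `Nb Λ R` -/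
def part (X : Set (EN N)) (Λ : AddSubgroup ℂ) (u : EN N → ℂ) (R : ℝ) : Set (EN N) := {x | x ∈ X ∧ u x ∈ Nb Λ R}

/-- in suitable local coordinates `s`, `t` at `x` the map `u` is `b + s ^ i` and `D` is `{t = 0}` -/
def HorAt (X : Set (EN N)) (Λ : AddSubgroup ℂ) (u : EN N → ℂ) (D : Set (EN N)) (x : EN N) (b : ℂ) (i : ℕ) : Prop :=
  ∃ (σ : ℂ × ℂ → EN N) (τ : EN N → ℂ × ℂ), IsGermChart X σ τ ∧ σ 0 = x ∧ (∀ᶠ p in 𝓝 (0 : ℂ × ℂ), u (σ p) - (b + p.1 ^ i) ∈ Λ) ∧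
    ∀ᶠ p in 𝓝 (0 : ℂ × ℂ), σ p ∈ D ↔ p.2 = 0

/-- the part of the geometric data which does not speak about the bad fibres -/
structure LFib (X D : Set (EN N)) (Λ Γ : AddSubgroup ℂ) (u : EN N → ℂ) (B : Set ℂ) (δ : ℝ) : Prop where
  cone : OCone X
  closed : ∀ R : ℝ, IsClosed (insert 0 (part X Λ u R))
  charts : Charts X
  tor : TorusMap X Λ u
  dsc : Dsc Λ
  le : Γ ≤ Λ
  cof : ∃ R : ℝ, 0 < R ∧ ∀ l ∈ Λ, ∃ l' ∈ Γ, ‖l - l'‖ ≤ R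
  bad : BadSet B Λ δ
  zero : ∀ b ∈ B, 4 * δ ≤ ‖b‖
  D_sub : D ⊆ X
  D_smul : ∀ x ∈ D, ∀ c : ℂ, c ≠ 0 → c • x ∈ D
  D_closed : ∀ x ∈ X, x ∉ D → ∀ᶠ y in 𝓝 x, y ∉ D
  hor : ∀ x ∈ D, (∀ b ∈ B, u x - b ∉ Λ) → HorAt X Λ u D x (u x) 1
  fib : ∀ F : ℂ → EN N, Differentiable ℂ F → (∀ z, F z ∈ X ∧ F z ∉ D) → (∀ z w, u (F z) - u (F w) ∈ Λ) →
    (∃ z w, ∀ c : ℂ, F z ≠ c • F w) → ∃ b ∈ B, u (F 0) - b ∈ Λ

/-- the geometric data -/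
structure LData (X D P : Set (EN N)) (Λ Γ : AddSubgroup ℂ) (u : EN N → ℂ) (B : Set ℂ) (δ : ℝ) : Prop extends LFib X D Λ Γ u B δ where
  P_sub : P ⊆ D
  P_smul : ∀ x ∈ P, ∀ c : ℂ, c ≠ 0 → c • x ∈ P
  P_closed : ∀ x ∈ X, x ∉ P → ∀ᶠ y in 𝓝 x, y ∉ P
  P_open : ∀ x ∈ P, ∀ᶠ y in 𝓝 x, y ∈ D → y ∈ P
  horP : ∀ b ∈ B, ∀ x ∈ P, u x - b ∈ Λ → ∃ i : ℕ, 1 ≤ i ∧ HorAt X Λ u P x b i
  nc : ∀ b ∈ B, ∀ x ∈ X, x ∉ P → u x - b ∈ Λ → IsNC X Λ u x b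
  noP : ∀ F : ℂ → EN N, Differentiable ℂ F → (∀ z, F z ∈ P) → (∀ z, u (F z) - z ∈ Λ) → False

variable {X P : Set (EN N)} {Λ : AddSubgroup ℂ} {u : EN N → ℂ}

/-- the form has at most logarithmic poles along `P`: in local coordinates `s`, `t` with `P = {t = 0}` its coefficient is `g / t`, `g` holomorphic -/
def LogP (α : TForm (X \ P) Λ u) : Prop :=
  ∀ (σ : ℂ × ℂ → EN N) (τ : EN N → ℂ × ℂ) (υ : ℂ × ℂ → ℂ), IsGermChart X σ τ → (∀ᶠ p in 𝓝 (0 : ℂ × ℂ), σ p ∈ P ↔ p.2 = 0) →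
    AnalyticAt ℂ υ 0 → (∀ᶠ p in 𝓝 (0 : ℂ × ℂ), u (σ p) - υ p ∈ Λ) →
    ∃ g : ℂ × ℂ → ℂ, AnalyticAt ℂ g 0 ∧ ∀ᶠ p in 𝓝 (0 : ℂ × ℂ), p.2 ≠ 0 →
      p.2 * α.toFun (υ p) (σ p) (fderiv ℂ σ p (1, 0)) (fderiv ℂ σ p (0, 1)) = g p

end Pool.Agent.H18.LU
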