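import Pool.Agent.H18.LU.GlL
import Pool.Agent.H62.EL.Bl

/-!
# LU FnA: the compact case: decay

`Λ`, `Γ` are lattices; `Nb Λ R = ℂ` for `R` large (`Lat.cocompact`).
`isCone_of_lat`: `X = part X Λ u R`, `part_isCone`.
`decay_secL`: `exists_J` with `V = C' = univ` on `ball c R'` (sections on `closedBall c R'`), `J l = 0` for `l ∈ Γ` (`l ∈ Gd B (2δ)`: `E.zero`, `BadSet.inv`; `II_zero`), `lattice_decay` on `ball c (R' - r₁ - 6δ)`; see `decay_sec` (EL Dc).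
`decay_soL`: definition of `SO` with `K = closedBall c (R' + 1)`, `δ' = δ`: sections near `f`, `g`; `decay_secL`; `II_approx` (`sec_so`, `so_anti`); see `decay_sb`.
-/

set_option autoImplicit false

open Topology Filter Metric

namespace Pool.Agent.H18.LU

open Pool.Agent.H36.BP (EN fs wd IsGermChart)
open Pool.Agent.H14.PP (IsCone Chart Tan CurveAt)
open Pool.Agent.H62.EF (Lat MN pr TorusMap Sec Charts DU)
open Pool.Agent.H62.EL (Gd Ag BadSet IsNC TForm Mon mo Cap IRel II Per VanZero Thin Zr Dyn)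

variable {N : ℕ} {X D P : Set (EN N)} {Λ Γ : AddSubgroup ℂ} {u : EN N → ℂ} {B : Set ℂ} {δ : ℝ}

theorem nb_univ (hΛ : Lat Λ) : ∃ R : ℝ, 0 < R ∧ ∀ z : ℂ, z ∈ Nb Λ R := hΛ.cocompact

theorem isCone_of_lat (E : LData X D P Λ Γ u B δ) (hΛ : Lat Λ) : IsCone X := by
  obtain ⟨R, hR, h⟩ := nb_univ hΛ
  have h1 : part X Λ u R = X := by
    ext x
    exact ⟨fun h2 => h2.1, fun h2 => ⟨h2, h _⟩⟩
  rw [← h1]
  exact E.toLFib.part_isCone R

theorem decay_secL (E : LData X D P Λ Γ u B δ) (hΓ : Lat Γ) {α : TForm (X \ P) Λ u} (hper : Per α Γ) (hvan : VanZero α) {R r₁ ε ε₀ C : ℝ}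
    (hR : ∀ z, z ∈ Nb Λ R) (hc : CstL D B δ R α r₁ ε ε₀ C) : ∃ κ r₂ : ℝ, 0 < κ ∧ 0 < r₂ ∧ ∀ (F G : ℂ → EN N) (c : ℂ) (R' : ℝ),
      (∀ z ∈ closedBall c R', SecAt X D Λ u F z ∧ SecAt X D Λ u G z) →
      (∀ z ∈ Gd B δ, ‖z - c‖ ≤ R' → dist (pr (F z)) (pr (G z)) ≤ ε₀) → ∀ z ∈ Gd B (2 * δ), ‖z - c‖ ≤ R' - r₂ →
        ‖II α ε z (pr (F z)) (pr (G z))‖ ≤ C * Real.exp (-κ * ((R' - r₂) ^ 2 - ‖z - c‖ ^ 2)) := by
  have hδ := E.bad.pos
  have hr₁ := hc.r₁_pos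
  obtain ⟨κ, r₀, hκ, hr₀, hdec⟩ := Pool.Agent.H62.EL.lattice_decay hΓ
  refine ⟨κ, r₀ + r₁ + 6 * δ, hκ, by linarith, fun F G c R' hFG hcl z₁ hz₁ hz₁c => ?_⟩
  have hn0 := norm_nonneg (z₁ - c)
  obtain ⟨J, hJd, hJb, hJe⟩ := exists_J E hc (V := Set.univ) (C' := Set.univ) isOpen_univ (Set.subset_univ _) (fun z _ => hR z)
    (fun _ _ _ _ _ => Set.subset_univ _) (c := c) (R' := R') (F := F) (G := G) (fun z hz => hFG z (ball_subset_closedBall hz))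
    (fun z hz hzG _ => hcl z hzG (by rw [mem_ball, dist_eq_norm] at hz; exact hz.le))
  rw [Set.univ_inter] at hJd hJb hJe
  have hzero : ∀ l ∈ Γ, l ∈ ball c (R' - r₁ - 6 * δ) → J l = 0 := by
    intro l hl hlb
    rw [hJe l hlb fun b hb => ?_]
    · exact Pool.Agent.H62.EL.II_zero E.vTor E.le hper hvan hl ε _ _
    · have h1 : b + -l ∈ B := E.bad.inv b hb (-l) (Λ.neg_mem (E.le hl))
      have h2 := E.zero _ h1
      have e : ‖l - b‖ = ‖b + -l‖ := by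
        rw [← norm_neg (l - b)]
        congr 1
        ring
      rw [e]
      linarith
  have hz₁b : z₁ ∈ ball c (R' - r₁ - 6 * δ) := by
    rw [mem_ball, dist_eq_norm]
    linarith
  have hmain := hdec J c (R' - r₁ - 6 * δ) C (by linarith) hJd hJb hzero z₁ hz₁b
  rw [hJe z₁ hz₁b hz₁] at hmain
  have e : R' - r₁ - 6 * δ - r₀ = R' - (r₀ + r₁ + 6 * δ) := by ring
  rw [e] at hmain
  exact hmain

theorem decay_soL (E : LData X D P Λ Γ u B δ) (hΓ : Lat Γ) {α : TForm (X \ P) Λ u} (hper : Per α Γ) (hvan : VanZero α) {R r₁ ε ε₀ C : ℝ}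
    (hR : ∀ z, z ∈ Nb Λ R) (hc : CstL D B δ R α r₁ ε ε₀ C) : ∃ κ r₂ : ℝ, 0 < κ ∧ 0 < r₂ ∧ ∀ f ∈ SO X D Λ u B Set.univ,
      ∀ g ∈ SO X D Λ u B Set.univ, ∀ (c : ℂ) (R' : ℝ), (∀ z ∈ Gd B δ, ‖z - c‖ ≤ R' → dist (f z) (g z) ≤ ε₀ / 2) →
      ∀ z ∈ Gd B (2 * δ), ‖z - c‖ ≤ R' - r₂ → ‖II α ε z (f z) (g z)‖ ≤ C * Real.exp (-κ * ((R' - r₂) ^ 2 - ‖z - c‖ ^ 2)) := by
  have hδ := E.bad.pos
  have hε₀ := hc.ε₀_pos
  have hr₁ := hc.r₁_pos
  obtain ⟨κ, r₂, hκ, hr₂, hdec⟩ := decay_secL E hΓ hper hvan hR hc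
  refine ⟨κ, r₂ + r₁, hκ, by linarith, fun f hf g hg c R' hcl z hz hzc => ?_⟩
  have hn0 := norm_nonneg (z - c)
  have hzδ : z ∈ Gd B δ := fun b hb => by linarith [hz b hb]
  have hzR : ‖z - c‖ ≤ R' := by linarith
  refine le_of_forall_pos_le_add fun η hη => ?_
  obtain ⟨κ', hκ', happ⟩ := II_approx E hc hzδ (hR z) (so_anti (Set.subset_univ _) hf) (so_anti (Set.subset_univ _) hg)
    (hcl z hzδ hzR) hη
  obtain ⟨F, hF, hFf⟩ := hf (closedBall c (R' + r₁)) (Set.subset_univ _) (isCompact_closedBall _ _) δ (min κ' (ε₀ / 4)) hδ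
    (lt_min hκ' (by linarith))
  obtain ⟨G, hG, hGg⟩ := hg (closedBall c (R' + r₁)) (Set.subset_univ _) (isCompact_closedBall _ _) δ (min κ' (ε₀ / 4)) hδ
    (lt_min hκ' (by linarith))
  have hsub : ball z r₁ ⊆ closedBall c (R' + r₁) := by
    intro w hw
    rw [mem_ball, dist_eq_norm] at hw
    rw [mem_closedBall, dist_eq_norm]
    have e : w - c = (w - z) + (z - c) := by ring
    have := norm_add_le (w - z) (z - c)
    rw [e]
    linarith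
  have hin : ∀ w : ℂ, ‖w - c‖ ≤ R' → w ∈ closedBall c (R' + r₁) := by
    intro w hw
    rw [mem_closedBall, dist_eq_norm]
    linarith
  have hclose : ∀ w ∈ Gd B δ, ‖w - c‖ ≤ R' → dist (pr (F w)) (pr (G w)) ≤ ε₀ := by
    intro w hw hwc
    have h1 := (hFf w (hin w hwc) hw).trans_le (min_le_right _ _)
    have h2 := (hGg w (hin w hwc) hw).trans_le (min_le_right _ _)
    have h3 := hcl w hw hwc
    have h4 := dist_triangle4 (pr (F w)) (f w) (g w) (pr (G w))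
    rw [dist_comm (g w)] at h4
    linarith
  have h1 := hdec F G c R' (fun w hw => ?_) hclose z hz (by linarith)
  swap
  · rw [mem_closedBall, dist_eq_norm] at hw
    exact ⟨hF w (hin w hw), hG w (hin w hw)⟩
  have h2 := happ (fun w => pr (F w)) (sec_so fun w hw => hF w (hsub hw)) (fun w => pr (G w)) (sec_so fun w hw => hG w (hsub hw))
    ((hFf z (hin z hzR) hzδ).trans_le (min_le_left _ _)) ((hGg z (hin z hzR) hzδ).trans_le (min_le_left _ _))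
  rw [dist_eq_norm] at h2
  have h3 : ‖II α ε z (f z) (g z)‖ ≤ ‖II α ε z (pr (F z)) (pr (G z))‖ +
      ‖II α ε z (pr (F z)) (pr (G z)) - II α ε z (f z) (g z)‖ := by
    have e : II α ε z (f z) (g z) = II α ε z (pr (F z)) (pr (G z)) - (II α ε z (pr (F z)) (pr (G z)) - II α ε z (f z) (g z)) := by
      ring
    calc ‖II α ε z (f z) (g z)‖ = ‖II α ε z (pr (F z)) (pr (G z)) - (II α ε z (pr (F z)) (pr (G z)) - II α ε z (f z) (g z))‖ := by
          rw [← e]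
      _ ≤ _ := norm_sub_le _ _
  have h4 : C * Real.exp (-κ * ((R' - r₂) ^ 2 - ‖z - c‖ ^ 2)) ≤ C * Real.exp (-κ * ((R' - (r₂ + r₁)) ^ 2 - ‖z - c‖ ^ 2)) := by
    refine mul_le_mul_of_nonneg_left (Real.exp_le_exp.2 ?_) hc.C_nonneg
    have h5 : (R' - (r₂ + r₁)) ^ 2 ≤ (R' - r₂) ^ 2 := by
      refine pow_le_pow_left₀ (by linarith) (by linarith) 2
    nlinarith
  linarith

end Pool.Agent.H18.LU
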