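import Pool.Agent.H18.LU.JnL
import Pool.Agent.H62.EL.Iz

/-!
# LU IzL: the limits of sections inside the zeros of the form are isolated

Port of `iso_zr` (EL Iz; read its header).  `ball 0 (2δ) ⊆ Gd B (2δ)` by `E.zero`.  The comparison is with points `x'` of `V = X \ P` over `z` instead of sections `g`; if there is no `v` with `IRel` for `(e z, pr x')` then `II = 0`
by definition: this case is excluded by `irel_loc` (at `w = 0`, `f = e`; `e z = pr x` with `x ∈ V` over `z`, `so_notP`, `so_lift_at`), for `ε'` and `r'` small.  `e z` is close to `e 0` for `z` near `0` (`so_cont`).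
-/

set_option autoImplicit false

open Topology Filter Metric

namespace Pool.Agent.H18.LU

open Pool.Agent.H36.BP (EN fs wd IsGermChart)
open Pool.Agent.H14.PP (IsCone Chart Tan CurveAt)
open Pool.Agent.H62.EF (Lat MN pr TorusMap Sec Charts DU)
open Pool.Agent.H62.EL (Gd Ag BadSet IsNC TForm Mon mo Cap IRel II tc IsPrim Per Zr Thin)

variable {N : ℕ} {X D P : Set (EN N)} {Λ Γ : AddSubgroup ℂ} {u : EN N → ℂ} {B : Set ℂ} {δ : ℝ}

private theorem IzL_mo (c : ℂ) (ρ : ℝ) (p : ℂ × ℂ) : mo c ρ 1 0 p = c + ρ * p.1 := by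
  simp [mo]

theorem iso_zrL (E : LData X D P Λ Γ u B δ) {α : TForm (X \ P) Λ u} (hthin : Thin α) {δ' R r₁ ε r : ℝ} (hδ' : 0 < δ') (hδ'' : δ' ≤ 2 * δ)
    (hε : 0 < ε) (hR : 0 ≤ R) (hr₁ : 0 < r₁) (hr : ε < r) (hcap : HasCap X D P Λ u B δ' R r₁ r) {e : ℂ → MN N}
    (he : e ∈ SO X D Λ u B Set.univ) : ∃ (z₀ : ℂ) (r' ε' : ℝ), 0 < r' ∧ 0 < ε' ∧ ball z₀ r' ⊆ ball 0 (2 * δ) ∧
      ∀ z ∈ ball z₀ r', ∀ x ∈ X \ P, u x - z ∈ Λ → dist (pr x) (e z) < ε' → (II α ε z (e z) (pr x) = 0 ∨ Zr α z (pr x)) → pr x = e z := by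
  have hr0 : 0 < r := lt_trans hε hr
  have hX : OCone (X \ P) := E.vCone
  have hX0 : ∀ w ∈ X \ P, w ≠ 0 := fun w hw => OCone.ne_zero hX hw
  have hδ0 : 0 < δ := E.bad.pos
  have hballG : ∀ z : ℂ, ‖z‖ < 2 * δ → z ∈ Gd B (2 * δ) := by
    intro z hz b hb
    have h1 := E.zero b hb
    have h2 : ‖b‖ ≤ ‖z - b‖ + ‖z‖ := by
      calc ‖b‖ = ‖z - (z - b)‖ := by rw [sub_sub_cancel]
        _ ≤ ‖z‖ + ‖z - b‖ := norm_sub_le _ _
        _ = _ := add_comm _ _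
    linarith
  have hGG : ∀ z ∈ Gd B (2 * δ), z ∈ Gd B δ' := fun z hz b hb => le_trans hδ'' (hz b hb)
  have hGB : ∀ z ∈ Gd B (2 * δ), z ∉ B := by
    intro z hz hzB
    have := hz z hzB
    rw [sub_self, norm_zero] at this
    linarith
  have h0G : (0 : ℂ) ∈ Gd B (2 * δ) := hballG 0 (by rw [norm_zero]; linarith)
  have h0B : (0 : ℂ) ∉ B := hGB 0 h0G
  have h0N : (0 : ℂ) ∈ Nb Λ R := ⟨0, Λ.zero_mem, by rw [sub_zero, norm_zero]; exact hR⟩
  obtain ⟨χ, c, ρ, hc⟩ := hcap 0 (hGG 0 h0G) h0N e (so_anti (Set.subset_univ _) he)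
  have hm := hc.mon
  have hρ : (ρ : ℂ) ≠ 0 := by exact_mod_cast hm.pos.ne'
  obtain ⟨A, hA⟩ := Pool.Agent.H62.EL.exists_prim α χ hm
  obtain ⟨ε₀, hε₀, hrel⟩ := irel_loc E hε he h0B
  obtain ⟨r₁', Ψ, hr₁', _, hΨ, hΨX⟩ := so_liftV E isOpen_univ he (Set.mem_univ 0) h0B (so_notP E he h0B)
  have hΨc : ∀ z ∈ ball (0 : ℂ) r₁', ContinuousAt (fun z => pr (Ψ z)) z := by
    intro z hz
    have h1 : ContinuousAt Ψ z := (hΨ z hz).continuousWithinAt.continuousAt (isOpen_ball.mem_nhds hz)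
    exact (Pool.Agent.H62.EF.continuousAt_pr (hX0 _ (hΨX z hz).2.1)).comp h1
  have he0 : pr (Ψ 0) = e 0 := (hΨX 0 (mem_ball_self hr₁')).2.2.2
  -- a good ball
  have hgood : ∀ᶠ z in 𝓝 (0 : ℂ), z ∈ ball (0 : ℂ) r₁' ∧ ‖z‖ < r ∧ ‖z‖ < 2 * δ ∧ dist (pr (Ψ z)) (e 0) < (r - ε) / 2 ∧ ‖z‖ < ε₀ ∧
      dist (pr (Ψ z)) (e 0) < ε₀ / 2 := by
    have h1 : ∀ {s : ℝ}, 0 < s → ∀ᶠ z in 𝓝 (0 : ℂ), ‖z‖ < s := by
      intro s hs
      filter_upwards [ball_mem_nhds (0 : ℂ) hs] with z hz using mem_ball_zero_iff.mp hz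
    have h3 : ∀ {s : ℝ}, 0 < s → ∀ᶠ z in 𝓝 (0 : ℂ), dist (pr (Ψ z)) (e 0) < s := by
      intro s hs
      have h4 := (hΨc 0 (mem_ball_self hr₁')).tendsto
      rw [he0] at h4
      exact h4.eventually (ball_mem_nhds _ hs)
    have hrε : 0 < (r - ε) / 2 := by linarith
    have h2δ : 0 < 2 * δ := by linarith
    filter_upwards [ball_mem_nhds (0 : ℂ) hr₁', h1 hr0, h1 h2δ, h3 hrε, h1 hε₀, h3 (half_pos hε₀)] with z a1 a2 a3 a4 a5 a6
    exact ⟨a1, a2, a3, a4, a5, a6⟩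
  obtain ⟨η, hη, hηg⟩ := Metric.eventually_nhds_iff_ball.mp hgood
  have hcapΨ : ∀ z ∈ ball (0 : ℂ) η, Ψ z ∈ χ.U ∧ χ.q (Ψ z) ∈ closedBall (0 : ℂ × ℂ) 1 ∧ c + ρ * (χ.q (Ψ z)).1 = z := by
    intro z hz
    obtain ⟨h1, h2, h3, h4, _, _⟩ := hηg z hz
    obtain ⟨_, h5, h6, _⟩ := hΨX z h1
    refine hc.cap z ?_ _ h5 h6 (by linarith)
    rw [mem_closedBall_zero_iff]
    exact h2.le
  set π : ℂ → ℂ × ℂ := fun z => χ.q (Ψ z) with hπdef
  have h0η : (0 : ℂ) ∈ ball (0 : ℂ) η := mem_ball_self hη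
  have hΨan : AnalyticAt ℂ Ψ 0 := hΨ.analyticAt (isOpen_ball.mem_nhds (mem_ball_self hr₁'))
  have hπ : AnalyticAt ℂ π 0 := AnalyticAt.comp (g := χ.q) (f := Ψ) (χ.q_an _ (hcapΨ 0 h0η).1) hΨan
  have hπ' : deriv π 0 ≠ 0 := by
    intro h1
    have h2 : HasDerivAt π 0 0 := by
      rw [← h1]
      exact hπ.differentiableAt.hasDerivAt
    have h3 : HasDerivAt (fun z => (π z).1) (0 : ℂ × ℂ).1 0 :=
      (ContinuousLinearMap.fst ℂ ℂ ℂ).hasFDerivAt.comp_hasDerivAt 0 h2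
    have h4 : HasDerivAt (fun z => c + ρ * (π z).1) (ρ * (0 : ℂ × ℂ).1) 0 := (h3.const_mul (ρ : ℂ)).const_add c
    have h5 : (fun z => c + ρ * (π z).1) =ᶠ[𝓝 0] fun z => z := by
      filter_upwards [isOpen_ball.mem_nhds h0η] with z hz using (hcapΨ z hz).2.2
    have h6 : HasDerivAt (fun z => c + ρ * (π z).1) 1 0 := (hasDerivAt_id (0 : ℂ)).congr_of_eventuallyEq h5
    have h7 := h4.unique h6
    simp at h7
  have hp₀ : π 0 ∈ ball (0 : ℂ × ℂ) 2 := closedBall_subset_ball (by norm_num) (hcapΨ 0 h0η).2.1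
  set a : ℂ × ℂ → ℂ := tc α χ (mo c ρ 1 0) with hadef
  have haan : ∀ p ∈ ball (0 : ℂ × ℂ) 2, AnalyticAt ℂ a p := by
    intro p hp
    refine Pool.Agent.H62.EL.tc_an α χ hp (mo_an c ρ 1 0 p) ?_
    filter_upwards [isOpen_ball.mem_nhds hp] with y hy using hm.lift y hy
  set h : ℂ × ℂ → ℂ := fun p => A p - A (π (c + ρ * p.1)) with hhdef
  have hin0 : c + ρ * (π 0).1 = 0 := (hcapΨ 0 h0η).2.2
  have hhan : AnalyticAt ℂ h (π 0) := by
    have h1 : AnalyticAt ℂ (fun p : ℂ × ℂ => c + ρ * p.1) (π 0) := analyticAt_const.add (analyticAt_const.mul analyticAt_fst)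
    have h2 : AnalyticAt ℂ π (c + ρ * (π 0).1) := by rw [hin0]; exact hπ
    have h3 : AnalyticAt ℂ (fun p : ℂ × ℂ => π (c + ρ * p.1)) (π 0) :=
      AnalyticAt.comp (g := π) (f := fun p : ℂ × ℂ => c + ρ * p.1) h2 h1
    have h4 : AnalyticAt ℂ A (π (c + ρ * (π 0).1)) := by rw [hin0]; exact hA.an _ hp₀
    have h5 : AnalyticAt ℂ (fun p : ℂ × ℂ => A (π (c + ρ * p.1))) (π 0) :=
      AnalyticAt.comp (g := A) (f := fun p : ℂ × ℂ => π (c + ρ * p.1)) h4 h3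
    exact (hA.an _ hp₀).sub h5
  have hGan : AnalyticAt ℂ (fun p => h p * a p) (π 0) := hhan.mul (haan _ hp₀)
  have hG0 : ¬ ∀ᶠ p in 𝓝 (π 0), h p * a p = 0 := by
    intro hcon
    obtain ⟨s, hs, hsb⟩ := Metric.eventually_nhds_iff_ball.mp
      (hcon.and (hhan.eventually_analyticAt.and (isOpen_ball.mem_nhds hp₀)))
    have hthin' := hthin χ (mo c ρ 1 0) (π 0) hp₀ (mo_an c ρ 1 0 _)
      (by filter_upwards [isOpen_ball.mem_nhds hp₀] with y hy using hm.lift y hy)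
    obtain ⟨y, hy1, hy2⟩ := ((not_eventually.mp hthin').and_eventually (ball_mem_nhds (π 0) hs)).exists
    have hay : ∀ᶠ p in 𝓝 y, a p ≠ 0 := (haan y (hsb y hy2).2.2).continuousAt.eventually_ne hy1
    have hhy : h =ᶠ[𝓝 y] 0 := by
      filter_upwards [hay, isOpen_ball.mem_nhds hy2] with p h1 h2
      exact (mul_eq_zero.mp (hsb p h2).1).resolve_right h1
    have hhan' : AnalyticOnNhd ℂ h (ball (π 0) s) := fun p hp => (hsb p hp).2.1
    have hzero := hhan'.eqOn_zero_of_preconnected_of_eventuallyEq_zero (convex_ball _ _).isPreconnected hy2 hhy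
    -- the derivative in the direction of the second variable
    have hline : HasDerivAt (fun t : ℂ => y + t • ((0, 1) : ℂ × ℂ)) ((0, 1) : ℂ × ℂ) 0 := by
      have h1 := ((hasDerivAt_id (0 : ℂ)).smul_const ((0, 1) : ℂ × ℂ)).const_add y
      rw [one_smul] at h1
      exact h1
    have hy0 : y + (0 : ℂ) • ((0, 1) : ℂ × ℂ) = y := by simp
    have h1 : HasFDerivAt A (fderiv ℂ A y) (y + (0 : ℂ) • ((0, 1) : ℂ × ℂ)) := by
      rw [hy0]
      exact (hA.an y (hsb y hy2).2.2).differentiableAt.hasFDerivAt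
    have h2 : HasDerivAt (fun t : ℂ => A (y + t • ((0, 1) : ℂ × ℂ))) (fderiv ℂ A y (0, 1)) 0 := h1.comp_hasDerivAt 0 hline
    have h3 : (fun t : ℂ => A (y + t • ((0, 1) : ℂ × ℂ))) =ᶠ[𝓝 0] fun _ => A (π (c + ρ * y.1)) := by
      have h4 : ∀ᶠ t : ℂ in 𝓝 0, y + t • ((0, 1) : ℂ × ℂ) ∈ ball (π 0) s := by
        have h5 := hline.continuousAt.tendsto
        rw [hy0] at h5
        exact h5.eventually (isOpen_ball.mem_nhds hy2)
      filter_upwards [h4] with t ht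
      have h5 : h (y + t • ((0, 1) : ℂ × ℂ)) = 0 := hzero ht
      have h6 : (y + t • ((0, 1) : ℂ × ℂ)).1 = y.1 := by simp
      simp only [hhdef] at h5
      rw [h6] at h5
      exact sub_eq_zero.mp h5
    have h4 : HasDerivAt (fun t : ℂ => A (y + t • ((0, 1) : ℂ × ℂ))) 0 0 := (hasDerivAt_const (0 : ℂ) _).congr_of_eventuallyEq h3
    have h5 := h2.unique h4
    rw [hA.der y (hsb y hy2).2.2] at h5
    exact hy1 h5
  obtain ⟨z₁, hz₁, hiso⟩ := Pool.Agent.H62.EF.exists_isolated hπ hπ' hGan hG0 (half_pos hη)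
  have hz₁η : z₁ ∈ ball (0 : ℂ) η := by
    rw [mem_ball_zero_iff]
    linarith
  obtain ⟨d, hd, hdiso⟩ := hiso (η / 2) (half_pos hη)
  -- nearby points
  have hU : {x : EN N | x ∈ χ.U ∧ ‖χ.q x - χ.q (Ψ z₁)‖ < d} ∈ 𝓝 (Ψ z₁) := by
    have h1 := (hcapΨ z₁ hz₁η).1
    have h2 : ContinuousAt (fun x => ‖χ.q x - χ.q (Ψ z₁)‖) (Ψ z₁) := ((χ.q_an _ h1).continuousAt.sub continuousAt_const).norm
    have h3 : ∀ᶠ x in 𝓝 (Ψ z₁), ‖χ.q x - χ.q (Ψ z₁)‖ < d := h2.eventually_lt_const (by simpa using hd)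
    filter_upwards [χ.isOpen_U.mem_nhds h1, h3] with x a1 a2
    exact ⟨a1, a2⟩
  obtain ⟨d', hd', hnear⟩ := Pool.Agent.H62.EF.near_of_pr (hX0 _ (hΨX z₁ (hηg z₁ hz₁η).1).2.1) hU
  have he1 : pr (Ψ z₁) = e z₁ := (hΨX z₁ (hηg z₁ hz₁η).1).2.2.2
  have hloc : ∀ᶠ z in 𝓝 z₁, z ∈ ball (0 : ℂ) η ∧ dist (pr (Ψ z)) (e z₁) < d' / 2 := by
    have h1 := (hΨc z₁ (hηg z₁ hz₁η).1).tendsto
    rw [he1] at h1
    have h2 : ∀ᶠ z in 𝓝 z₁, dist (pr (Ψ z)) (e z₁) < d' / 2 := h1.eventually (ball_mem_nhds _ (half_pos hd'))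
    filter_upwards [isOpen_ball.mem_nhds hz₁η, h2] with z a1 a2
    exact ⟨a1, a2⟩
  obtain ⟨r', hr', hr'b⟩ := Metric.eventually_nhds_iff_ball.mp hloc
  refine ⟨z₁, r', min (ε₀ / 2) (min ((r - ε) / 2) (d' / 2)), hr', lt_min (half_pos hε₀) (lt_min (by linarith) (half_pos hd')), ?_, ?_⟩
  · intro z hz
    rw [mem_ball_zero_iff]
    exact (hηg z (hr'b z hz).1).2.2.1
  · intro z hz x hx1 hx2 hdist hor
    obtain ⟨hzη, hzd⟩ := hr'b z hz
    obtain ⟨hz1, hz2, hz3, hz4, hz5, hz6⟩ := hηg z hzη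
    have hzr : z ∈ closedBall (0 : ℂ) r := by
      rw [mem_closedBall_zero_iff]
      exact hz2.le
    have hez : pr (Ψ z) = e z := (hΨX z hz1).2.2.2
    have hd1 : dist (pr x) (e z) < ε₀ / 2 := lt_of_lt_of_le hdist (min_le_left _ _)
    have hd2 : dist (pr x) (e z) < (r - ε) / 2 := lt_of_lt_of_le hdist ((min_le_right _ _).trans (min_le_left _ _))
    have hd3 : dist (pr x) (e z) < d' / 2 := lt_of_lt_of_le hdist ((min_le_right _ _).trans (min_le_right _ _))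
    have hdeq : pr (Ψ z) = e z := hez
    rw [hez] at hz4 hz6 hzd
    have htri := dist_triangle (pr x) (e z) (e 0)
    obtain ⟨hxU, hxq, hxc⟩ := hc.cap z hzr _ hx1 hx2 (by linarith)
    have hpb : χ.q x ∈ ball (0 : ℂ × ℂ) 2 := closedBall_subset_ball (by norm_num) hxq
    have hpd : ‖χ.q x - π z₁‖ < d := by
      have h1 : dist (pr x) (pr (Ψ z₁)) < d' := by
        rw [he1]
        have := dist_triangle (pr x) (e z) (e z₁)
        linarith
      obtain ⟨k, hk, hkU⟩ := hnear _ (hX0 _ hx1) h1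
      have h2 := hkU.2
      rwa [χ.q_smul _ hxU k hk] at h2
    obtain ⟨_, a', ha', hxa⟩ := χ.surj _ hx1 hxU
    have hprx : pr (χ.σ (χ.q x)) = pr x := by
      conv_rhs => rw [hxa]
      rw [Pool.Agent.H62.EF.pr_smul _ ha']
    have hG : h (χ.q x) * a (χ.q x) = 0 := by
      rcases hor with hII | hZ
      · have hzε : z ∈ closedBall (0 : ℂ) ε₀ := by
          rw [mem_closedBall_zero_iff]
          exact hz5.le
        have hrel' := hrel z hzε (Ψ z) (hΨX z hz1).2.1 x hx1 (hΨX z hz1).2.2.1 hx2 (by rw [hdeq]; linarith) (by linarith) α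
        rw [hdeq] at hrel'
        have h1 := II_eqO hX E.vTor E.dsc hrel' hc hA hzr (by linarith) (hΨX z hz1).2.1 hx1 hez rfl
        rw [hII] at h1
        have h2 : A (χ.q x) - A (χ.q (Ψ z)) = 0 := by
          have h3 := h1.symm
          rcases div_eq_zero_iff.mp h3 with h4 | h4
          · exact h4
          · exact absurd h4 hρ
        have h3 : h (χ.q x) = 0 := by
          simp only [hhdef, hπdef]
          rw [hxc]
          exact h2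
        rw [h3, zero_mul]
      · have h1 : Zr α (mo c ρ 1 0 (χ.q x)) (pr (χ.σ (χ.q x))) := by
          rw [IzL_mo, hxc, hprx]
          exact hZ
        have h2 := (zr_iffO hX E.vTor α χ hpb (hm.lift _ hpb)).mp h1
        rw [hadef, h2, mul_zero]
    obtain ⟨z', hz', hpz⟩ := hdiso _ hpd hG
    have hz'η : z' ∈ ball (0 : ℂ) η := by
      rw [mem_ball_zero_iff]
      calc ‖z'‖ = ‖(z' - z₁) + z₁‖ := by rw [sub_add_cancel]
        _ ≤ ‖z' - z₁‖ + ‖z₁‖ := norm_add_le _ _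
        _ < η := by linarith
    have hzz : z' = z := by
      have h1 := (hcapΨ z' hz'η).2.2
      rw [← h1, ← hxc, hpz]
    rw [hzz] at hpz
    obtain ⟨_, b', hb', hxb⟩ := χ.surj _ (hΨX z hz1).2.1 (hcapΨ z hzη).1
    rw [← hprx, hpz, ← hez]
    conv_rhs => rw [hxb]
    rw [Pool.Agent.H62.EF.pr_smul _ hb']

end Pool.Agent.H18.LU
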