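import Pool.Agent.H18.LU.JnL
import Pool.Agent.H62.EL.Nr

/-!
# LU NrL: near different points with the same integral are near the zeros of the form

`near_zrL`: port of `near_zr` (EL Nr), with `V = X \ P`; the lifts of `f z`, `F n (w n)`, `G n (w n)` in `V` come from `IRel` (for the pair) and `so_notP`, `so_liftV` (for `f z`).  `F n ∈ SO (ball (w n) r₁)` for almost all `n` (`so_anti`).
`hrel` needs `G n (w n) = pr x`, `x ∈ X \ P`: `so_lift_at`; `x ∉ P` for almost all `n`, because `G n (w n) → f z ∉ pr '' P` (`so_notP`) and `pr_closed`, `P_closed` at the lift of `f z`.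
`zr_closedO`: a chart `χ` of `V` at `x` (`Charts`), a lift `υ` of `u` in it near `0` (`TorusMap.loc` at `χ.σ 0`, a multiple of `x`; `υ` corrected by a constant so that `υ 0 = z` modulo nothing: `υ 0 - z ∈ Λ` must be made `0` by adding an
element of `Λ`).  `Zr α z (y n)`: `y n = pr x_n`, `x_n ∈ V`, `u x_n - z ∈ Λ`; for large `n` `x_n ∈ χ.U`, `q_n = χ.q x_n → 0`, `υ q_n - z ∈ Λ` is small, so `0`; `zr_iffO`: `tc α χ υ q_n = 0`, so `tc α χ υ 0 = 0` (`tc_an`, continuity), `zr_iffO`.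
-/

set_option autoImplicit false

open Topology Filter Metric

namespace Pool.Agent.H18.LU

open Pool.Agent.H36.BP (EN fs wd IsGermChart)
open Pool.Agent.H14.PP (IsCone Chart Tan CurveAt)
open Pool.Agent.H62.EF (Lat MN pr TorusMap Sec Charts DU)
open Pool.Agent.H62.EL (Gd Ag BadSet IsNC TForm Mon mo Cap IRel II tc IsPrim Per Zr)

variable {N : ℕ} {X D P : Set (EN N)} {Λ Γ : AddSubgroup ℂ} {u : EN N → ℂ} {B : Set ℂ} {δ : ℝ}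

private theorem NrL_near {V : Set (EN N)} (hV : OCone V) (χ : Chart V) {x₀ : EN N} (hx₀ : x₀ ∈ V) (hU : x₀ ∈ χ.U) {W : Set (ℂ × ℂ)}
    (hW : W ∈ 𝓝 (χ.q x₀)) : ∃ d : ℝ, 0 < d ∧ ∀ x ∈ V, dist (pr x) (pr x₀) < d → x ∈ χ.U ∧ χ.q x ∈ W := by
  have h1 : {y : EN N | y ∈ χ.U ∧ χ.q y ∈ W} ∈ 𝓝 x₀ := by
    have h2 : ∀ᶠ y in 𝓝 x₀, y ∈ χ.U := χ.isOpen_U.mem_nhds hU
    have h3 : ∀ᶠ y in 𝓝 x₀, χ.q y ∈ W := (χ.q_an _ hU).continuousAt.eventually hW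
    exact h2.and h3
  obtain ⟨d, hd, h⟩ := Pool.Agent.H62.EF.near_of_pr (hV.ne_zero hx₀) h1
  refine ⟨d, hd, fun x hx hdx => ?_⟩
  obtain ⟨c, hc, hcU, hcV⟩ := h x (hV.ne_zero hx) hdx
  have h4 : c⁻¹ • (c • x) = x := by rw [smul_smul, inv_mul_cancel₀ hc, one_smul]
  have h5 : x ∈ χ.U := by
    rw [← h4]
    exact χ.smul_U _ hcU _ (inv_ne_zero hc)
  refine ⟨h5, ?_⟩
  rw [← χ.q_smul x h5 c hc]
  exact hcV

private theorem NrL_notP (E : LData X D P Λ Γ u B δ) {x₀ : EN N} (hx₀ : x₀ ∈ X \ P) :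
    ∃ d : ℝ, 0 < d ∧ ∀ x ∈ X, dist (pr x) (pr x₀) < d → x ∈ X \ P := by
  obtain ⟨d, hd, h⟩ := Pool.Agent.H62.EF.near_of_pr (E.cone.ne_zero hx₀.1) (E.P_closed x₀ hx₀.1 hx₀.2)
  refine ⟨d, hd, fun x hx hdx => ⟨hx, fun hxP => ?_⟩⟩
  obtain ⟨c, hc, h1⟩ := h x (E.cone.ne_zero hx) hdx
  exact h1 (E.P_smul x hxP c hc)

private theorem NrL_mo (c : ℂ) (ρ : ℝ) (p : ℂ × ℂ) : mo c ρ 1 0 p = c + ρ * p.1 := by
  unfold mo
  ring

private theorem NrL_pr {V : Set (EN N)} (χ : Chart V) {x : EN N} (hx : x ∈ V) (hU : x ∈ χ.U) : pr (χ.σ (χ.q x)) = pr x := by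
  obtain ⟨-, a, ha, h⟩ := χ.surj x hx hU
  conv_rhs => rw [h]
  rw [Pool.Agent.H62.EF.pr_smul _ ha]

theorem near_zrL (E : LData X D P Λ Γ u B δ) {α : TForm (X \ P) Λ u} {δ' R r₁ ε ε₀ r : ℝ} (hδ' : 0 < δ') (hε₀ : 0 < ε₀) (hr : ε < r)
    (hr₁ : 0 < r₁) (hcap : HasCap X D P Λ u B δ' R r₁ r) (hrel : HasRel D B α δ' R r₁ ε ε₀) (𝒰 : Ultrafilter ℕ) (Ω : ℕ → Set ℂ)
    (hΩ : ∀ R : ℝ, ∀ᶠ n in (𝒰 : Filter ℕ), ball 0 R ⊆ Ω n) (F G : ℕ → ℂ → MN N) (w : ℕ → ℂ) {f : ℂ → MN N}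
    (hf : f ∈ SO X D Λ u B Set.univ) {z : ℂ} (hz : z ∈ Gd B δ') (hzR : z ∈ Nb Λ R)
    (hFG : ∀ᶠ n in (𝒰 : Filter ℕ), F n ∈ SO X D Λ u B (Ω n) ∧ G n ∈ SO X D Λ u B (Ω n))
    (hF : ∀ z, z ∉ B → Tendsto (fun n => F n z) 𝒰 (𝓝 (f z))) (hG : ∀ z, z ∉ B → Tendsto (fun n => G n z) 𝒰 (𝓝 (f z)))
    (hw : Tendsto w 𝒰 (𝓝 z))
    (h : ∀ᶠ n in (𝒰 : Filter ℕ), w n ∈ Gd B δ' ∧ w n ∈ Nb Λ R ∧ F n (w n) ≠ G n (w n) ∧ II α ε (w n) (F n (w n)) (G n (w n)) = 0) :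
    Zr α z (f z) := by
  have hzB : z ∉ B := Pool.Agent.H62.EL.gd_notMem hδ' hz
  have hV := E.vCone
  have hTV := E.vTor
  obtain ⟨r₀, Ψ, hr₀, -, -, hΨ⟩ := so_liftV E isOpen_univ hf (Set.mem_univ z) hzB (so_notP E hf hzB)
  obtain ⟨-, hxV, hxu, hxf⟩ := hΨ z (mem_ball_self hr₀)
  have hε0 : 0 ≤ ε := by
    obtain ⟨v, χ, c, ρ, A, p, p', -, -, -, -, -, -, -, -, h1, -⟩ := hrel z hz hzR f (so_anti (Set.subset_univ _) hf) (Ψ z) hxV hxu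
      (by rw [hxf, dist_self]; exact hε₀.le)
    exact dist_nonneg.trans (h1 0 ⟨le_rfl, zero_le_one⟩)
  have hr0 : 0 < r := lt_of_le_of_lt hε0 hr
  obtain ⟨χ, c, ρ, hc⟩ := hcap z hz hzR f (so_anti (Set.subset_univ _) hf)
  obtain ⟨A, hA⟩ := Pool.Agent.H62.EL.exists_prim α χ hc.mon
  obtain ⟨hxU, hxq, hxz⟩ := hc.cap z (mem_closedBall_self hr0.le) _ hxV hxu (by rw [hxf, dist_self]; exact hr0.le)
  set p := χ.q (Ψ z) with hp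
  have hp2 : p ∈ ball (0 : ℂ × ℂ) 2 := closedBall_subset_ball (by norm_num) hxq
  have hmo : mo c ρ 1 0 p = z := by rw [NrL_mo, hxz]
  have hprp : pr (χ.σ p) = f z := by rw [hp, NrL_pr χ hxV hxU, hxf]
  have hlift : u (χ.σ p) - mo c ρ 1 0 p ∈ Λ := hc.mon.lift p hp2
  have hfin : fderiv ℂ A p (0, 1) = 0 → Zr α z (f z) := by
    intro h0
    have h1 := (zr_iffO hV hTV α χ hp2 hlift).2 (by rw [← hA.der p hp2]; exact h0)
    rwa [hmo, hprp] at h1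
  by_contra hcon
  have hD : fderiv ℂ A p (0, 1) ≠ 0 := fun h0 => hcon (hfin h0)
  have hDpos : 0 < ‖fderiv ℂ A p (0, 1)‖ := norm_pos_iff.2 hD
  have hstr := (hA.an p hp2).hasStrictFDerivAt
  have hlo := hstr.isLittleO.def (half_pos hDpos)
  obtain ⟨s, hs, hsb⟩ := Metric.eventually_nhds_iff.1 hlo
  obtain ⟨d₁, hd₁, hdn⟩ := NrL_near hV χ hxV hxU (W := ball p s) (by rw [← hp]; exact ball_mem_nhds _ hs)
  obtain ⟨d₂, hd₂, hdP⟩ := NrL_notP E hxV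
  obtain ⟨d, hd⟩ : ∃ d, d = min d₁ d₂ := ⟨_, rfl⟩
  have hd0 : 0 < d := by rw [hd]; exact lt_min hd₁ hd₂
  have hdd₁ : d ≤ d₁ := by rw [hd]; exact min_le_left _ _
  have hdd₂ : d ≤ d₂ := by rw [hd]; exact min_le_right _ _
  have hFf := so_along E 𝒰 Ω hΩ F (hFG.mono fun n hn => hn.1) hF hzB hw
  have hGf := so_along E 𝒰 Ω hΩ G (hFG.mono fun n hn => hn.2) hG hzB hw
  have hFd : ∀ᶠ n in (𝒰 : Filter ℕ), dist (F n (w n)) (f z) < min (min d (r - ε)) (ε₀ / 2) := by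
    refine hFf.eventually (ball_mem_nhds _ ?_)
    exact lt_min (lt_min hd0 (by linarith)) (by linarith)
  have hGd : ∀ᶠ n in (𝒰 : Filter ℕ), dist (G n (w n)) (f z) < min (min d r) (ε₀ / 2) := by
    refine hGf.eventually (ball_mem_nhds _ ?_)
    exact lt_min (lt_min hd0 hr0) (by linarith)
  have hwd : ∀ᶠ n in (𝒰 : Filter ℕ), dist (w n) z < min r 1 := hw.eventually (ball_mem_nhds _ (lt_min hr0 one_pos))
  obtain ⟨n, ⟨⟨⟨⟨⟨hnB, hnR, hne, hII⟩, hFS, hGS⟩, hn3⟩, hn4⟩, hn5'⟩, hn6⟩ :=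
    (((((h.and hFG).and hFd).and hGd).and hwd).and (hΩ (‖z‖ + 1 + r₁))).exists
  have hn5 : dist (w n) z < r := hn5'.trans_le (min_le_left _ _)
  have hwB : w n ∉ B := Pool.Agent.H62.EL.gd_notMem hδ' hnB
  have hsub : ball (w n) r₁ ⊆ Ω n := by
    refine Set.Subset.trans ?_ hn6
    intro y hy
    rw [mem_ball, dist_eq_norm] at hy
    have h1 : ‖w n - z‖ < 1 := by
      rw [← dist_eq_norm]
      exact hn5'.trans_le (min_le_right _ _)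
    rw [mem_ball_zero_iff]
    have h2 : y = z + (w n - z) + (y - w n) := by ring
    rw [h2]
    have h3 := norm_add_le (z + (w n - z)) (y - w n)
    have h4 := norm_add_le z (w n - z)
    linarith
  have hFS' := so_anti hsub hFS
  have hGS' := so_anti hsub hGS
  obtain ⟨x₁, hx1X, hx1u, hx1f⟩ := so_lift_at E isOpen_ball hFS' (mem_ball_self hr₁) hwB
  obtain ⟨x₂, hx2X, hx2u, hx2f⟩ := so_lift_at E isOpen_ball hGS' (mem_ball_self hr₁) hwB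
  have ha : dist (pr x₁) (pr (Ψ z)) < d := by
    rw [hx1f, hxf]
    exact hn3.trans_le ((min_le_left _ _).trans (min_le_left _ _))
  have hb : dist (pr x₂) (pr (Ψ z)) < d := by
    rw [hx2f, hxf]
    exact hn4.trans_le ((min_le_left _ _).trans (min_le_left _ _))
  have hx1V := hdP x₁ hx1X (ha.trans_le hdd₂)
  have hx2V := hdP x₂ hx2X (hb.trans_le hdd₂)
  obtain ⟨hx1U, hx1W⟩ := hdn x₁ hx1V (ha.trans_le hdd₁)
  obtain ⟨hx2U, hx2W⟩ := hdn x₂ hx2V (hb.trans_le hdd₁)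
  have hFr : dist (F n (w n)) (f z) < r - ε := hn3.trans_le ((min_le_left _ _).trans (min_le_right _ _))
  have hGr : dist (G n (w n)) (f z) < r := hn4.trans_le ((min_le_left _ _).trans (min_le_right _ _))
  have hFGd : dist (F n (w n)) (G n (w n)) ≤ ε₀ := by
    have h1 := hn3.trans_le (min_le_right _ _)
    have h2 := hn4.trans_le (min_le_right _ _)
    have h3 := dist_triangle_right (F n (w n)) (G n (w n)) (f z)
    linarith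
  have hv := hrel (w n) hnB hnR (F n) hFS' x₂ hx2V hx2u (by rw [hx2f]; exact hFGd)
  rw [hx2f] at hv
  have hIe := II_eqO hV hTV E.dsc hv hc hA (mem_closedBall.2 hn5.le) (by linarith : dist (F n (w n)) (f z) + ε ≤ r) hx1V hx2V hx1f hx2f
  rw [hII] at hIe
  have hρ : (ρ : ℂ) ≠ 0 := by exact_mod_cast hc.mon.pos.ne'
  have hAeq : A (χ.q x₂) - A (χ.q x₁) = 0 := by
    rcases div_eq_zero_iff.1 hIe.symm with h1 | h1
    · exact h1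
    · exact absurd h1 hρ
  obtain ⟨-, -, hz1⟩ := hc.cap (w n) (mem_closedBall.2 hn5.le) x₁ hx1V hx1u (by rw [hx1f]; linarith)
  obtain ⟨-, -, hz2⟩ := hc.cap (w n) (mem_closedBall.2 hn5.le) x₂ hx2V hx2u (by rw [hx2f]; linarith)
  have hfst : (χ.q x₂).1 = (χ.q x₁).1 := by
    have h1 : (ρ : ℂ) * (χ.q x₂).1 = ρ * (χ.q x₁).1 := by
      have h2 := hz2.trans hz1.symm
      exact add_left_cancel h2
    exact mul_left_cancel₀ hρ h1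
  have hsub : χ.q x₂ - χ.q x₁ = ((χ.q x₂).2 - (χ.q x₁).2) • ((0 : ℂ), (1 : ℂ)) := by
    ext
    · simp [hfst]
    · simp
  have ht : (χ.q x₂).2 - (χ.q x₁).2 ≠ 0 := by
    intro h0
    rw [h0, zero_smul, sub_eq_zero] at hsub
    apply hne
    rw [← hx1f, ← hx2f, ← NrL_pr χ hx1V hx1U, ← NrL_pr χ hx2V hx2U, hsub]
  have hbd := @hsb (χ.q x₂, χ.q x₁) (by
    rw [Prod.dist_eq]
    exact max_lt (mem_ball.1 hx2W) (mem_ball.1 hx1W))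
  simp only at hbd
  rw [hAeq, hsub, map_smul, zero_sub, norm_neg, norm_smul, norm_smul] at hbd
  have hn01 : ‖((0 : ℂ), (1 : ℂ))‖ = 1 := by
    rw [Prod.norm_def]
    simp
  rw [hn01, mul_one] at hbd
  have htp : 0 < ‖(χ.q x₂).2 - (χ.q x₁).2‖ := norm_pos_iff.2 ht
  nlinarith [mul_pos htp hDpos]

theorem zr_closedO {V : Set (EN N)} (hV : OCone V) (hch : Charts V) (hu : TorusMap V Λ u) (hΛ : Dsc Λ) {α : TForm V Λ u} {l : Filter ℕ}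
    [l.NeBot] {y : ℕ → MN N} {z : ℂ} {x : EN N} (hx : x ∈ V) (hxz : u x - z ∈ Λ) (hy : Tendsto y l (𝓝 (pr x)))
    (h : ∀ᶠ n in l, Zr α z (y n)) : Zr α z (pr x) := by
  obtain ⟨χ, hxU, hq⟩ := hch x hx
  have h0b : (0 : ℂ × ℂ) ∈ ball (0 : ℂ × ℂ) 2 := mem_ball_self two_pos
  obtain ⟨-, a, ha, hxa⟩ := χ.surj x hx hxU
  rw [hq] at hxa
  have hσV : χ.σ 0 ∈ V := (χ.σ_mem 0 h0b).1
  obtain ⟨v, hv, hvu⟩ := hu.loc (χ.σ 0) hσV
  have hzv : v (χ.σ 0) - z ∈ Λ := by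
    have h1 : u (χ.σ 0) - v (χ.σ 0) ∈ Λ := hvu.self_of_nhds hσV
    have h2 : u (a • χ.σ 0) - u (χ.σ 0) ∈ Λ := hu.smul _ hσV a ha
    rw [← hxa] at h2
    have h3 := Λ.sub_mem (Λ.sub_mem hxz h2) h1
    have e : u x - z - (u x - u (χ.σ 0)) - (u (χ.σ 0) - v (χ.σ 0)) = v (χ.σ 0) - z := by ring
    rwa [e] at h3
  obtain ⟨υ, hυ⟩ : ∃ υ : ℂ × ℂ → ℂ, υ = fun p => v (χ.σ p) - (v (χ.σ 0) - z) := ⟨_, rfl⟩
  have hυ0 : υ 0 = z := by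
    rw [hυ]
    ring
  have hσan : AnalyticAt ℂ χ.σ 0 := χ.σ_an 0 h0b
  have hυan : AnalyticAt ℂ υ 0 := by
    rw [hυ]
    exact (AnalyticAt.comp (f := χ.σ) (g := v) hv hσan).sub analyticAt_const
  have hball : ∀ᶠ p in 𝓝 (0 : ℂ × ℂ), p ∈ ball (0 : ℂ × ℂ) 2 := isOpen_ball.mem_nhds h0b
  have hlift : ∀ᶠ p in 𝓝 (0 : ℂ × ℂ), u (χ.σ p) - υ p ∈ Λ := by
    have h1 : Tendsto χ.σ (𝓝 (0 : ℂ × ℂ)) (𝓝 (χ.σ 0)) := hσan.continuousAt.tendsto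
    filter_upwards [h1.eventually hvu, hball] with p hp hpb
    have h2 := hp (χ.σ_mem p hpb).1
    rw [hυ]
    have h3 := Λ.add_mem h2 hzv
    have e : u (χ.σ p) - v (χ.σ p) + (v (χ.σ 0) - z) = u (χ.σ p) - (v (χ.σ p) - (v (χ.σ 0) - z)) := by ring
    rwa [e] at h3
  have hfin : tc α χ υ 0 = 0 → Zr α z (pr x) := by
    intro h1
    have h2 := (zr_iffO hV hu α χ h0b hlift.self_of_nhds).2 h1
    rw [hυ0] at h2
    rwa [hxa, Pool.Agent.H62.EF.pr_smul _ ha]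
  by_contra hcon
  have hD : tc α χ υ 0 ≠ 0 := fun h1 => hcon (hfin h1)
  have han : AnalyticAt ℂ (tc α χ υ) 0 := Pool.Agent.H62.EL.tc_an α χ h0b hυan hlift
  obtain ⟨κ, hκ, hκΛ⟩ := hΛ.discrete
  have hυκ : ∀ᶠ p in 𝓝 (0 : ℂ × ℂ), ‖υ p - z‖ < κ := by
    have h1 := hυan.continuousAt.eventually (ball_mem_nhds (υ 0) hκ)
    filter_upwards [h1] with p hp
    rw [dist_eq_norm, hυ0] at hp
    exact hp
  have hW : {p : ℂ × ℂ | tc α χ υ p ≠ 0 ∧ u (χ.σ p) - υ p ∈ Λ ∧ ‖υ p - z‖ < κ} ∈ 𝓝 (χ.q x) := by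
    rw [hq]
    filter_upwards [han.continuousAt.eventually_ne hD, hlift, hυκ] with p h1 h2 h3
    exact ⟨h1, h2, h3⟩
  obtain ⟨d, hd, hdn⟩ := NrL_near hV χ hx hxU hW
  obtain ⟨n, hn, x', hx', hx'y, hx'z, hx'0⟩ := ((hy.eventually (ball_mem_nhds _ hd)).and h).exists
  obtain ⟨hx'U, h1, h2, h3⟩ := hdn x' hx' (by rw [hx'y]; exact mem_ball.1 hn)
  obtain ⟨hq'b, c, hc, hx'c⟩ := χ.surj x' hx' hx'U
  have hq'V := (χ.σ_mem _ hq'b).1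
  have h4 : υ (χ.q x') - z ∈ Λ := by
    have h5 : u (c • χ.σ (χ.q x')) - u (χ.σ (χ.q x')) ∈ Λ := hu.smul _ hq'V c hc
    rw [← hx'c] at h5
    have h6 := Λ.sub_mem (Λ.sub_mem hx'z h5) h2
    have e : u x' - z - (u x' - u (χ.σ (χ.q x'))) - (u (χ.σ (χ.q x')) - υ (χ.q x')) = υ (χ.q x') - z := by ring
    rwa [e] at h6
  have h5 : υ (χ.q x') = z := sub_eq_zero.1 (hκΛ _ h4 h3)
  refine h1 ((zr_iffO hV hu α χ hq'b h2).1 ?_)
  rw [h5]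
  exact ⟨x', hx', (NrL_pr χ hx' hx'U).symm, hx'z, hx'0⟩

end Pool.Agent.H18.LU
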