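import Pool.Agent.H18.LU.FnA
import Pool.Agent.H18.LU.NrL
import Pool.Agent.H18.LU.IzL
import Pool.Agent.H18.LU.Base
import Pool.Agent.H62.EL.DyF

/-!
# LU FnL: the compact case: the limit sections are finitely many

`Λ`, `Γ` are lattices.
`dynL`: see `dyn` in EL Core; `lip`: `so_lip` (`w' = z`: `dist (f z) (f w)`), `mem`: `so_mem`, `lim`: `so_lim` (`Ω = univ`), `uniq`: `so_uniq`, `Z_inv`: `zr_per` (EL Nr, for the form on `X \ P`), `Z_lim`: `so_notP`, `so_lift_at` (`f z = pr x`, `x ∈ X \ P`),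
`zr_closedO`; `near`: `near_zrL`; `iso`: `iso_zrL` (`g z = pr x`, `x ∈ X \ P`: `so_lift_at`, `so_notP`).
`so_finite`: `exists_cstL`, `dynL`, `Dyn.finite`.
`lsec_so`: let `f ∈ LSec`, `Z` the exceptional set.  `K n = {z | ‖z‖ ≤ n ∧ 1/(n+1) ≤ infDist z Z}` (if `Z = ∅`: `closedBall 0 n`), compact, disjoint from `Z`; `G n` with `R = n + 1`, `ε = 1/(n+1)`, `K = K n`.  `pr ∘ G n ∈ SO (ball 0 (n + 1))` (`sec_so`).
`so_exists_lim` along an ultrafilter `≤ atTop`: `h ∈ SO univ` with `pr (G n z) → h z` for `z ∉ B`; for `z ∉ Z` `pr (G n z) → f z`.  So `f = h` outside `B ∪ Z`; `f` is continuous (`F ∈ Sec` is), `h` is continuous at the points outside `B` (`so_cont`), the complement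
of `B ∪ Z` is dense near such a point; so `f = h` outside `B` and `f ∈ SO univ` (`so_congr`).
`lsec_finite`: `E.lbase`, `exists_P` (`E.resBd`), `so_finite` for `LData X D P ..`; two members of `LSec` which agree outside `B` are equal (continuous; `Bᶜ` is dense).
-/

set_option autoImplicit false

open Topology Filter Metric

namespace Pool.Agent.H18.LU

open Pool.Agent.H36.BP (EN fs wd IsGermChart)
open Pool.Agent.H14.PP (IsCone Chart Tan CurveAt)
open Pool.Agent.H62.EF (Lat MN pr TorusMap Sec Charts DU)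
open Pool.Agent.H62.EL (Gd Ag BadSet IsNC TForm Mon mo Cap IRel II Per VanZero Thin Zr Dyn)

variable {N : ℕ} {X D P : Set (EN N)} {Λ Γ : AddSubgroup ℂ} {u : EN N → ℂ} {B : Set ℂ} {δ : ℝ}

theorem dynL (E : LData X D P Λ Γ u B δ) (hΛ : Lat Λ) (hΓ : Lat Γ) {α : TForm (X \ P) Λ u} (hper : Per α Γ) (hvan : VanZero α)
    (hthin : Thin α) {R r₁ ε ε₀ C : ℝ} (hR : ∀ z, z ∈ Nb Λ R) (hc : CstL D B δ R α r₁ ε ε₀ C) :
    Dyn (pr '' X) Γ B δ (SO X D Λ u B Set.univ) (Zr α) (fun z y y' => ‖II α ε z y y'‖) := by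
  have hr : ε < 3 * ε := by
    have := hc.ε_pos
    linarith
  have hd := E.bad.pos
  have hd2 : (0 : ℝ) < 2 * δ := by linarith
  have hdd : δ ≤ 2 * δ := by linarith
  have hR0 : 0 ≤ R := by
    obtain ⟨l, -, hl⟩ := hR 0
    exact (norm_nonneg _).trans hl
  have hpt : ∀ f ∈ SO X D Λ u B Set.univ, ∀ z, z ∉ B → ∃ x ∈ X \ P, u x - z ∈ Λ ∧ pr x = f z := by
    intro f hf z hz
    obtain ⟨x, hx, hxz, hxf⟩ := so_lift_at E isOpen_univ hf (Set.mem_univ z) hz
    exact ⟨x, ⟨hx, fun hP => so_notP E hf hz ⟨x, hP, hxf⟩⟩, hxz, hxf⟩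
  have hcap2 := cap_mono' hc.cap hdd le_rfl le_rfl (le_refl (3 * ε))
  have hrel2 := rel_mono' hc.rel hdd le_rfl le_rfl (le_refl ε₀)
  refine
    { compact := Pool.Agent.H62.EF.isCompact_pr (isCone_of_lat E hΛ)
      lat := hΓ
      bad := ⟨E.bad.pos, fun b hb l hl => E.bad.inv b hb l (E.le hl), E.bad.sep⟩
      mem := fun f hf z hz => ?_
      lip := fun δ' hδ' => ?_
      trans := fun f hf l hl => ?_
      lim := fun 𝒰 F f hF hf => so_lim E 𝒰 (fun _ => Set.univ) (fun R => Eventually.of_forall fun _ => Set.subset_univ _) F f hF hf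
      uniq := fun f hf g hg z₀ hz₀ h z hz => so_uniq E isOpen_univ convex_univ hf hg (Set.mem_univ z₀) hz₀ h z (Set.mem_univ z) hz
      Z_inv := fun z l hl y => Pool.Agent.H62.EL.zr_per E.le hper hl z y
      Z_lim := fun 𝒰 F f hf hF hFf z hz h => ?_
      N_nonneg := fun z y y' => norm_nonneg _
      N_inv := fun z l hl y y' => by rw [Pool.Agent.H62.EL.II_per E.vTor E.le hper hl]
      decay := ?_
      near := ?_
      iso := ?_ }
  · obtain ⟨x, hx, hxf⟩ := so_mem E hf (Set.mem_univ z) hz (mem_nb_norm z)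
    exact ⟨x, hx.1, hxf⟩
  · obtain ⟨L, hL, h⟩ := so_lip E hδ' R
    refine ⟨L, hL, fun f hf z hz w hw => ?_⟩
    exact h Set.univ f hf z hz (hR z) (Set.subset_univ _) z (mem_closedBall_self (by linarith)) w hw
  · exact so_anti (fun _ _ => Set.mem_univ _) (so_trans E hf (E.le hl))
  · have hzB := Pool.Agent.H62.EL.gd_notMem hd2 hz
    obtain ⟨x, hx, hxz, hxf⟩ := hpt f hf z hzB
    have hy := hFf z hzB
    rw [← hxf] at hy ⊢
    exact zr_closedO E.vCone E.vCharts E.vTor E.dsc hx hxz hy h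
  · obtain ⟨κ, r₂, hκ, hr₂, h⟩ := decay_soL E hΓ hper hvan hR hc
    exact ⟨C, κ, r₂, ε₀ / 2, hc.C_nonneg, hκ, hr₂, by have := hc.ε₀_pos; linarith, h⟩
  · intro 𝒰 F G w f hf z hz hFG hF hG hw h
    refine near_zrL E hd2 hc.ε₀_pos hr hc.r₁_pos hcap2 hrel2 𝒰 (fun _ => Set.univ) (fun R => Eventually.of_forall fun _ => Set.subset_univ _)
      F G w hf hz (hR z) hFG hF hG hw ?_
    filter_upwards [h] with n hn using ⟨hn.1, hR _, hn.2.1, norm_eq_zero.1 hn.2.2⟩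
  · intro e he _
    obtain ⟨z₀, r', ε', h1, h2, h3, h4⟩ := iso_zrL E hthin hd2 le_rfl hc.ε_pos hR0 hc.r₁_pos hr hcap2 he
    have h5 : ball (0 : ℂ) (2 * δ) ⊆ Gd B (2 * δ) := by
      intro z hz b hb
      rw [mem_ball_zero_iff] at hz
      have h6 := E.zero b hb
      have h7 : ‖b‖ ≤ ‖z - b‖ + ‖z‖ := by
        have e : b = z - (z - b) := by ring
        calc ‖b‖ = ‖z - (z - b)‖ := by rw [← e]
          _ ≤ ‖z‖ + ‖z - b‖ := norm_sub_le _ _
          _ = _ := add_comm _ _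
      linarith
    refine ⟨z₀, r', ε', h1, h2, h3.trans h5, fun g hg z hz hd h => ?_⟩
    have hzB := Pool.Agent.H62.EL.gd_notMem hd2 (h5 (h3 hz))
    obtain ⟨x, hx, hxz, hxg⟩ := hpt g hg z hzB
    rw [← hxg] at hd h ⊢
    exact h4 z hz x hx hxz hd (h.imp (fun h => norm_eq_zero.1 h) id)

theorem so_finite (E : LData X D P Λ Γ u B δ) (hΛ : Lat Λ) (hΓ : Lat Γ) {α : TForm (X \ P) Λ u} (hlog : LogP α) (hper : Per α Γ)
    (hvan : VanZero α) (hthin : Thin α) : ∃ 𝓕 : Set (ℂ → MN N), 𝓕.Finite ∧ 𝓕 ⊆ SO X D Λ u B Set.univ ∧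
      ∀ f ∈ SO X D Λ u B Set.univ, ∃ g ∈ 𝓕, Ag B f g := by
  obtain ⟨R, -, hR⟩ := nb_univ hΛ
  obtain ⟨δ', -, -, E', r₁, ε, ε₀, C, hc⟩ := exists_cstL E hlog hper R
  exact (dynL E' hΛ hΓ hper hvan hthin hR hc).finite

private theorem FnL_punct (hB : BadSet B Λ δ) (z : ℂ) : ∀ᶠ w in 𝓝[≠] z, w ∉ B := by
  by_cases hz : z ∈ B
  · have h1 : ∀ᶠ w in 𝓝[≠] z, w ∈ ball z (8 * δ) :=
      mem_nhdsWithin_of_mem_nhds (ball_mem_nhds z (by have := hB.pos; positivity))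
    have h2 : ∀ᶠ w in 𝓝[≠] z, w ≠ z := eventually_mem_nhdsWithin
    filter_upwards [h1, h2] with w hw1 hw2 hwB
    have h3 := hB.sep w hwB z hz hw2
    rw [mem_ball, dist_eq_norm] at hw1
    linarith
  · obtain ⟨δ', hδ', h⟩ := hB.exists_gd hz
    have h1 : ∀ᶠ w in 𝓝 z, w ∈ ball z δ' := ball_mem_nhds z hδ'
    refine (h1.mono fun w hw hwB => ?_).filter_mono nhdsWithin_le_nhds
    have h2 := h w hwB
    rw [mem_ball, dist_comm, dist_eq_norm] at hw
    linarith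

private theorem FnL_eq (hB : BadSet B Λ δ) {f g : ℂ → MN N} {Z : Set ℂ} (hZ : ∀ z, ∀ᶠ w in 𝓝[≠] z, w ∉ Z) {z : ℂ} (hf : ContinuousAt f z)
    (hg : ContinuousAt g z) (h : ∀ w, w ∉ B → w ∉ Z → f w = g w) : f z = g z := by
  have h1 : f =ᶠ[𝓝[≠] z] g := by
    filter_upwards [FnL_punct hB z, hZ z] with w hw1 hw2 using h w hw1 hw2
  have h2 : Tendsto f (𝓝[≠] z) (𝓝 (f z)) := hf.tendsto.mono_left nhdsWithin_le_nhds
  have h3 : Tendsto g (𝓝[≠] z) (𝓝 (g z)) := hg.tendsto.mono_left nhdsWithin_le_nhds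
  exact tendsto_nhds_unique_of_eventuallyEq h2 h3 h1

private theorem FnL_cont (hX : OCone X) {f : ℂ → MN N} (hf : f ∈ LSec X D Λ u) (z : ℂ) : ContinuousAt f z := by
  obtain ⟨⟨F, hF, hFf⟩, -⟩ := hf
  have h1 : f = fun z => pr (F z) := funext fun z => (hFf z).symm
  rw [h1]
  exact (Pool.Agent.H62.EF.continuousAt_pr (hX.ne_zero (hF.2.1 z))).comp (f := F) (hF.1 z).continuousAt

theorem lsec_so (E : LData X D P Λ Γ u B δ) {f : ℂ → MN N} (hf : f ∈ LSec X D Λ u) : f ∈ SO X D Λ u B Set.univ := by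
  have hcont := FnL_cont E.cone hf
  obtain ⟨-, Z, hZc, hZd, hG⟩ := hf
  have hK : ∀ n : ℕ, IsCompact (closedBall (0 : ℂ) n \ thickening (1 / ((n : ℝ) + 1)) Z) := fun n =>
    (isCompact_closedBall _ _).diff isOpen_thickening
  have hKZ : ∀ n : ℕ, ∀ z ∈ closedBall (0 : ℂ) n \ thickening (1 / ((n : ℝ) + 1)) Z, z ∉ Z := by
    intro n z hz hzZ
    exact hz.2 (self_subset_thickening (by positivity) Z hzZ)
  choose G hGs hGd using fun n : ℕ => hG ((n : ℝ) + 1) (1 / ((n : ℝ) + 1)) (by positivity) _ (hK n) (hKZ n)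
  set 𝒰 : Ultrafilter ℕ := Ultrafilter.of atTop with h𝒰
  have hle : (𝒰 : Filter ℕ) ≤ atTop := Ultrafilter.of_le _
  obtain ⟨h, hh, hlim⟩ := so_exists_lim E 𝒰 (fun n => ball (0 : ℂ) ((n : ℝ) + 1)) (fun R => by
      refine hle ?_
      filter_upwards [eventually_ge_atTop ⌈R⌉₊] with n hn
      have h1 : R ≤ (n : ℝ) := (Nat.le_ceil R).trans (by exact_mod_cast hn)
      exact ball_subset_ball (by linarith))
    (fun n z => pr (G n z)) (Eventually.of_forall fun n => sec_so fun z hz => hGs n z (ball_subset_closedBall hz))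
  have hfh : ∀ z, z ∉ B → z ∉ Z → f z = h z := by
    intro z hzB hzZ
    refine tendsto_nhds_unique ?_ (hlim z hzB)
    obtain ⟨η, hη, hηZ⟩ := Metric.isOpen_iff.1 hZc.isOpen_compl z hzZ
    rw [Metric.tendsto_nhds]
    intro ε hε
    refine hle ?_
    obtain ⟨n₀, hn₀⟩ := exists_nat_one_div_lt (lt_min hη hε)
    filter_upwards [eventually_ge_atTop n₀, eventually_ge_atTop ⌈‖z‖⌉₊] with n hn1 hn2
    have h1 : 1 / ((n : ℝ) + 1) ≤ 1 / ((n₀ : ℝ) + 1) := by
      refine one_div_le_one_div_of_le (by positivity) ?_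
      have : (n₀ : ℝ) ≤ n := by exact_mod_cast hn1
      linarith
    have h2 : ‖z‖ ≤ (n : ℝ) := (Nat.le_ceil _).trans (by exact_mod_cast hn2)
    have h3 : z ∈ closedBall (0 : ℂ) n \ thickening (1 / ((n : ℝ) + 1)) Z := by
      refine ⟨by rw [mem_closedBall_zero_iff]; exact h2, fun h4 => ?_⟩
      obtain ⟨w, hw, hd⟩ := mem_thickening_iff.1 h4
      refine hηZ (?_ : w ∈ ball z η) hw
      rw [mem_ball, dist_comm]
      exact hd.trans (h1.trans_lt (hn₀.trans_le (min_le_left _ _)))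
    exact (hGd n z h3 (by linarith)).trans (h1.trans_lt (hn₀.trans_le (min_le_right _ _)))
  refine so_congr hh fun z _ hzB => ?_
  exact FnL_eq E.bad hZd (hcont z) (so_cont E isOpen_univ hh (Set.mem_univ z) hzB) hfh

/-- **The core theorem in the compact case.** -/
theorem lsec_finite (E : EBase X D Λ Γ u B δ) {α : TForm (X \ D) Λ u} (hlog : LogP α) (hper : Per α Γ) (hvan : VanZero α) (hthin : Thin α) :
    (LSec X D Λ u).Finite := by
  obtain ⟨P, L, α', -, hlog', hper', hvan', hthin'⟩ := exists_P E.lbase α hlog (E.resBd hlog hper) hper hvan hthin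
  obtain ⟨𝓕, h𝓕fin, -, h𝓕⟩ := so_finite L E.lat E.latΓ hlog' hper' hvan' hthin'
  choose! φ hφ𝓕 hφ using h𝓕
  refine Set.Finite.of_injOn (f := φ) (fun f hf => hφ𝓕 f (lsec_so L hf)) ?_ h𝓕fin
  intro f hf g hg hfg
  funext z
  refine FnL_eq E.bad (Z := ∅) (fun z => Eventually.of_forall fun _ => Set.notMem_empty _) (FnL_cont L.cone hf z) (FnL_cont L.cone hg z)
    fun w hw _ => ?_
  rw [hφ f (lsec_so L hf) w hw, hφ g (lsec_so L hg) w hw, hfg]

end Pool.Agent.H18.LU
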