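import Pool.Agent.H18.LU.CsL

/-!
# LU GlL: the integral for two near sections on a ball

`exists_J`: as in the first part of `decay_sec` (EL Dc; read its header and proof; `dc_an` there is the local analyticity).  `W = V ∩ ball c (R' - r₁ - 6δ)`.  For `z ∈ W`, `b ∈ B`, `‖z - b‖ < 3δ`: `closedBall b (3δ) ⊆ C' ⊆ Nb Λ R`, `ball b (3δ + r₁) ⊆ ball c R'`,
and `F`, `G` are `ε₀`-close on the ring (`ring_gd`): `hc.cross` gives `J_b`.  `J z = J_b z` if `‖z - b‖ < 2δ` for a (unique) `b ∈ B`, otherwise `II α ε z (pr (F z)) (pr (G z))`.  Near a point `z ∈ W` with `3δ ≤ ‖z - b‖` for all `b`: `z ∈ Nb Λ R`,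
`II_analyticL` (`Ω = ball z r₁ ⊆ ball c R'`; `hc.cap`, `hc.rel` at the points of `V ∩ Gd B δ` near `z`, there the curves are `ε₀`-close; `V` is open).
`II_approx`: `II_contO` with `hc.cap`; `hc.rel` for the pairs `(f z, g z)`, `(f' z, g' z)` (`hc.deep` gives `x ∈ X \ P` with `pr x = g z` resp. `g' z`; `dist (f' z) (g' z) ≤ ε₀ / 2 + 2 κ ≤ ε₀`).
Bound: `hc.bdd` (`sec_so`) on `Gd B (2δ)`, maximum principle for `J_b` on `closedBall b (5δ/2)` (`II = J_b` on its boundary; the points are in `Nb Λ R`).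
-/

set_option autoImplicit false

open Topology Filter Metric

namespace Pool.Agent.H18.LU

open Pool.Agent.H36.BP (EN fs wd IsGermChart)
open Pool.Agent.H14.PP (IsCone Chart Tan CurveAt)
open Pool.Agent.H62.EF (Lat MN pr TorusMap Sec Charts DU)
open Pool.Agent.H62.EL (Gd Ag BadSet IsNC TForm Mon mo Cap IRel II Per)

variable {N : ℕ} {X D P : Set (EN N)} {Λ Γ : AddSubgroup ℂ} {u : EN N → ℂ} {B : Set ℂ} {δ : ℝ}

theorem CstL.pair {α : TForm (X \ P) Λ u} {R r₁ ε ε₀ C : ℝ} (hc : CstL D B δ R α r₁ ε ε₀ C) {z : ℂ} (hz : z ∈ Gd B δ) (hzR : z ∈ Nb Λ R)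
    {f g : ℂ → MN N} (hf : f ∈ SO X D Λ u B (ball z r₁)) (hg : g ∈ SO X D Λ u B (ball z r₁)) (hfg : dist (f z) (g z) ≤ ε₀) :
    ∃ v, IRel α ε z (f z) (g z) v := by
  obtain ⟨x, hx, hxz, hxg⟩ := hc.deep z hz hzR g hg
  rw [← hxg] at hfg ⊢
  exact hc.rel z hz hzR f hf x hx hxz hfg

theorem exists_J (E : LData X D P Λ Γ u B δ) {α : TForm (X \ P) Λ u} {R r₁ ε ε₀ C : ℝ} (hc : CstL D B δ R α r₁ ε ε₀ C) {V C' : Set ℂ}
    (hV : IsOpen V) (hVC : V ⊆ C') (hC' : C' ⊆ Nb Λ R) (hole : ∀ z ∈ V, ∀ b ∈ B, ‖z - b‖ < 3 * δ → closedBall b (3 * δ) ⊆ C') {c : ℂ} {R' : ℝ}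
    {F G : ℂ → EN N} (hFG : ∀ z ∈ ball c R', SecAt X D Λ u F z ∧ SecAt X D Λ u G z)
    (hcl : ∀ z ∈ ball c R', z ∈ Gd B δ → z ∈ C' → dist (pr (F z)) (pr (G z)) ≤ ε₀) :
    ∃ J : ℂ → ℂ, DifferentiableOn ℂ J (V ∩ ball c (R' - r₁ - 6 * δ)) ∧ (∀ z ∈ V ∩ ball c (R' - r₁ - 6 * δ), ‖J z‖ ≤ C) ∧
      ∀ z ∈ V ∩ ball c (R' - r₁ - 6 * δ), z ∈ Gd B (2 * δ) → J z = II α ε z (pr (F z)) (pr (G z)) := by
  classical
  have hδ := E.bad.pos
  have hr₁ := hc.r₁_pos
  -- the sections are in `SO`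
  have hFS : ∀ z : ℂ, ‖z - c‖ ≤ R' - r₁ → (fun z => pr (F z)) ∈ SO X D Λ u B (ball z r₁) := fun z hz =>
    sec_so fun w hw => (hFG w (ball_subset_ball' (by rw [dist_eq_norm]; linarith) hw)).1
  have hGS : ∀ z : ℂ, ‖z - c‖ ≤ R' - r₁ → (fun z => pr (G z)) ∈ SO X D Λ u B (ball z r₁) := fun z hz =>
    sec_so fun w hw => (hFG w (ball_subset_ball' (by rw [dist_eq_norm]; linarith) hw)).2
  -- the other points of `B` are far
  have hfar : ∀ b ∈ B, ∀ z : ℂ, ‖z - b‖ ≤ 3 * δ → ∀ b' ∈ B, b' ≠ b → 5 * δ ≤ ‖z - b'‖ := by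
    intro b hb z hz b' hb' hne
    have h1 := E.bad.sep b hb b' hb' (Ne.symm hne)
    have h2 : ‖b - b'‖ ≤ ‖z - b'‖ + ‖z - b‖ := by
      have e : b - b' = (z - b') - (z - b) := by ring
      rw [e]
      exact norm_sub_le _ _
    linarith
  have hann : ∀ b ∈ B, ∀ z : ℂ, δ ≤ ‖z - b‖ → ‖z - b‖ ≤ 3 * δ → z ∈ Gd B δ := by
    intro b hb z h1 h2 b' hb'
    by_cases hbb : b' = b
    · rw [hbb]; exact h1
    · have := hfar b hb z h2 b' hb' hbb
      linarith
  have hann2 : ∀ b ∈ B, ∀ z : ℂ, 2 * δ ≤ ‖z - b‖ → ‖z - b‖ ≤ 3 * δ → z ∈ Gd B (2 * δ) := by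
    intro b hb z h1 h2 b' hb'
    by_cases hbb : b' = b
    · rw [hbb]; exact h1
    · have := hfar b hb z h2 b' hb' hbb
      linarith
  have hbc : ∀ z ∈ V ∩ ball c (R' - r₁ - 6 * δ), ∀ b ∈ B, ‖z - b‖ < 3 * δ → closedBall b (3 * δ) ⊆ C' ∧ ‖b - c‖ < R' - r₁ - 3 * δ := by
    rintro z ⟨hzV, hzc⟩ b hb hzb
    refine ⟨hole z hzV b hb hzb, ?_⟩
    rw [mem_ball, dist_eq_norm] at hzc
    have h3 : ‖b - c‖ ≤ ‖z - c‖ + ‖z - b‖ := by
      have e : b - c = (z - c) - (z - b) := by ring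
      rw [e]
      exact norm_sub_le _ _
    linarith
  -- the functions near the points of `B`
  have hJex : ∀ b, b ∈ B → closedBall b (3 * δ) ⊆ C' → ‖b - c‖ < R' - r₁ - 3 * δ → ∃ J : ℂ → ℂ, DifferentiableOn ℂ J (ball b (3 * δ)) ∧
      ∀ z, δ < ‖z - b‖ → ‖z - b‖ < 3 * δ → J z = II α ε z (pr (F z)) (pr (G z)) := by
    intro b hb hbC hbc
    refine hc.cross b hb (hbC.trans hC') F G (fun z hz => hFG z ?_) fun z h1 h2 => hcl z ?_ (hann b hb z h1 h2) (hbC ?_)
    · exact ball_subset_ball' (by rw [dist_eq_norm]; linarith) hz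
    · rw [mem_ball, dist_eq_norm]
      have h3 : ‖z - c‖ ≤ ‖z - b‖ + ‖b - c‖ := by
        have e : z - c = (z - b) + (b - c) := by ring
        rw [e]
        exact norm_add_le _ _
      linarith
    · rw [mem_closedBall, dist_eq_norm]
      exact h2
  choose! JJ hJd hJe using hJex
  set J : ℂ → ℂ := fun z => if h : ∃ b ∈ B, ‖z - b‖ < 2 * δ then JJ h.choose z else II α ε z (pr (F z)) (pr (G z)) with hJ
  have hJa : ∀ b ∈ B, ∀ z : ℂ, ‖z - b‖ < 2 * δ → J z = JJ b z := by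
    intro b hb z hz
    have h : ∃ b ∈ B, ‖z - b‖ < 2 * δ := ⟨b, hb, hz⟩
    have hch : h.choose = b := by
      by_contra hne
      have := hfar b hb z (by linarith) h.choose h.choose_spec.1 hne
      linarith [h.choose_spec.2]
    simp only [hJ]
    rw [dif_pos h, hch]
  have hJb : ∀ z ∈ Gd B (2 * δ), J z = II α ε z (pr (F z)) (pr (G z)) := by
    intro z hz
    have h : ¬ ∃ b ∈ B, ‖z - b‖ < 2 * δ := by
      rintro ⟨b, hb, hzb⟩
      exact absurd (hz b hb) (not_le.2 hzb)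
    simp only [hJ]
    rw [dif_neg h]
  have hJc : ∀ b ∈ B, closedBall b (3 * δ) ⊆ C' → ‖b - c‖ < R' - r₁ - 3 * δ → ∀ z : ℂ, ‖z - b‖ < 3 * δ → J z = JJ b z := by
    intro b hb hbC hbc z hz
    rcases lt_or_ge ‖z - b‖ (2 * δ) with h | h
    · exact hJa b hb z h
    · rw [hJb z (hann2 b hb z h hz.le), hJe b hb hbC hbc z (by linarith) hz]
  refine ⟨J, ?_, ?_, fun z _ hz => hJb z hz⟩
  · intro z hz
    refine DifferentiableAt.differentiableWithinAt ?_
    by_cases hex : ∃ b ∈ B, ‖z - b‖ < 3 * δ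
    · obtain ⟨b, hb, hzb⟩ := hex
      obtain ⟨hbC, hbc'⟩ := hbc z hz b hb hzb
      have hmem : ball b (3 * δ) ∈ 𝓝 z := isOpen_ball.mem_nhds (by rw [mem_ball, dist_eq_norm]; exact hzb)
      refine ((hJd b hb hbC hbc').differentiableAt hmem).congr_of_eventuallyEq ?_
      filter_upwards [hmem] with w hw
      rw [mem_ball, dist_eq_norm] at hw
      exact hJc b hb hbC hbc' w hw
    · push Not at hex
      obtain ⟨hzV, hzc⟩ := hz
      have hzn : ball z δ ∈ 𝓝 z := isOpen_ball.mem_nhds (mem_ball_self hδ)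
      have hcn : ball c (R' - r₁ - 6 * δ) ∈ 𝓝 z := isOpen_ball.mem_nhds hzc
      have hVn : V ∈ 𝓝 z := hV.mem_nhds hzV
      rw [mem_ball, dist_eq_norm] at hzc
      have hzδ : z ∈ Gd B δ := fun b hb => by linarith [hex b hb]
      have hnear : ∀ w ∈ ball z δ, w ∈ Gd B (2 * δ) := by
        intro w hw b hb
        rw [mem_ball, dist_eq_norm] at hw
        have h3 := hex b hb
        have h4 : ‖z - b‖ ≤ ‖w - b‖ + ‖w - z‖ := by
          have e : z - b = (w - b) - (w - z) := by ring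
          rw [e]
          exact norm_sub_le _ _
        linarith
      obtain ⟨χ, c', ρ, hcap⟩ := hc.cap z hzδ (hC' (hVC hzV)) _ (hFS z (by linarith))
      have han : AnalyticAt ℂ (fun z => II α ε z (pr (F z)) (pr (G z))) z := by
        refine II_analyticL E (Ω := ball z r₁) (f := fun z => pr (F z)) (g := fun z => pr (G z)) isOpen_ball (hFS z (by linarith)) (hGS z (by linarith))
          (mem_ball_self hr₁) (Pool.Agent.H62.EL.gd_notMem hδ hzδ) hcap (by linarith [hc.ε_pos]) ?_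
        filter_upwards [hzn, hcn, hVn] with w hw1 hw2 hw3
        rw [mem_ball, dist_eq_norm] at hw2
        have hwG : w ∈ Gd B δ := fun b hb => by linarith [hnear w hw1 b hb]
        refine hc.pair hwG (hC' (hVC hw3)) (hFS w (by linarith)) (hGS w (by linarith)) (hcl w ?_ hwG (hVC hw3))
        rw [mem_ball, dist_eq_norm]
        linarith
      refine han.differentiableAt.congr_of_eventuallyEq ?_
      filter_upwards [hzn] with w hw
      exact hJb w (hnear w hw)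
  · intro z hz
    by_cases hex : ∃ b ∈ B, ‖z - b‖ < 2 * δ
    · obtain ⟨b, hb, hzb⟩ := hex
      obtain ⟨hbC, hbc'⟩ := hbc z hz b hb (by linarith)
      rw [hJa b hb z hzb]
      have hcl5 : closure (ball b (5 / 2 * δ)) ⊆ ball b (3 * δ) := by
        refine closure_ball_subset_closedBall.trans (closedBall_subset_ball (by linarith))
      refine Complex.norm_le_of_forall_mem_frontier_norm_le (U := ball b (5 / 2 * δ)) isBounded_ball
        ((hJd b hb hbC hbc').mono hcl5).diffContOnCl ?_ (subset_closure ?_)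
      · intro w hw
        rw [frontier_ball b (by positivity : (5 / 2 * δ) ≠ 0)] at hw
        rw [mem_sphere, dist_eq_norm] at hw
        rw [hJe b hb hbC hbc' w (by rw [hw]; linarith) (by rw [hw]; linarith)]
        have hwc : ‖w - c‖ ≤ R' - r₁ := by
          have h3 : ‖w - c‖ ≤ ‖w - b‖ + ‖b - c‖ := by
            have e : w - c = (w - b) + (b - c) := by ring
            rw [e]
            exact norm_add_le _ _
          linarith
        exact hc.bdd w (hann b hb w (by rw [hw]; linarith) (by rw [hw]; linarith)) (hC' (hbC (by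
          rw [mem_closedBall, dist_eq_norm, hw]
          linarith))) _ (hFS w hwc) _
      · rw [mem_ball, dist_eq_norm]
        linarith
    · push Not at hex
      rw [hJb z hex]
      obtain ⟨hzV, hzc⟩ := hz
      rw [mem_ball, dist_eq_norm] at hzc
      exact hc.bdd z (fun b hb => by linarith [hex b hb]) (hC' (hVC hzV)) _ (hFS z (by linarith)) _

/-- the integral for limits of sections is the limit of the integrals -/
theorem II_approx (E : LData X D P Λ Γ u B δ) {α : TForm (X \ P) Λ u} {R r₁ ε ε₀ C : ℝ} (hc : CstL D B δ R α r₁ ε ε₀ C) {z : ℂ}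
    (hz : z ∈ Gd B δ) (hzR : z ∈ Nb Λ R) {f g : ℂ → MN N} (hf : f ∈ SO X D Λ u B (ball z r₁)) (hg : g ∈ SO X D Λ u B (ball z r₁))
    (hfg : dist (f z) (g z) ≤ ε₀ / 2) {η : ℝ} (hη : 0 < η) : ∃ κ : ℝ, 0 < κ ∧ ∀ f' ∈ SO X D Λ u B (ball z r₁), ∀ g' ∈ SO X D Λ u B (ball z r₁),
      dist (f' z) (f z) < κ → dist (g' z) (g z) < κ → dist (II α ε z (f' z) (g' z)) (II α ε z (f z) (g z)) < η := by
  have hε₀ := hc.ε₀_pos
  obtain ⟨χ, c', ρ, hcap⟩ := hc.cap z hz hzR f hf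
  obtain ⟨κ, hκ, hκ'⟩ := II_contO E.vCone E.vTor E.dsc hcap (by linarith [hc.ε_pos] : ε < 3 * ε) (hc.pair hz hzR hf hg (by linarith)) hη
  refine ⟨min κ (ε₀ / 4), lt_min hκ (by linarith), fun f' hf' g' hg' h1 h2 => ?_⟩
  have h3 := h1.trans_le (min_le_right _ _)
  have h4 := h2.trans_le (min_le_right _ _)
  refine hκ' _ _ (h1.trans_le (min_le_left _ _)) (h2.trans_le (min_le_left _ _)) (hc.pair hz hzR hf' hg' ?_)
  have h5 := dist_triangle4 (f' z) (f z) (g z) (g' z)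
  rw [dist_comm (g z)] at h5
  linarith

end Pool.Agent.H18.LU
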