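import Pool.Agent.H18.LU.HoDef
import Pool.Agent.H18.LU.OStC

/-!
# LU HoA: charts at the points of a bad fibre

`hch_nc`: `E.nc`, `exists_small_chartO` for the germ chart `σ`, `τ` of `IsNC` (as in the proof of `exists_nc_chartO`; the chart is `χ.σ p = a • σ (r p)`, `ρ = r ^ (i+j)`); by `P_closed` all points of a small chart are outside
`P`.  If `i = 0` use the germ chart with the coordinates exchanged (`swp χ`), so `1 ≤ a`.  Boundedness (`HBd` with `hor = false`): the function `p ↦ α.toFun (b + p.1 ^ i * p.2 ^ j) (σ p) (∂₁ σ p) (∂₂ σ p)` is analytic at `0`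
(`TForm.analytic`), so bounded near `0`; the coefficient in the chart `χ` is `r²` times its value at `r p` (`χ.σ p = a p • σ (r p)`, `a` differentiable: `fderiv χ.σ p v = a • fderiv σ (r p) (r v) + (..) • χ.σ p`, use
`add_smul`, `scale`, `det` of `TForm`; `a p` is analytic near every point of the bidisc; see the proof of `tc_transO`; `mo b ρ i j p = b + (r p.1) ^ i (r p.2) ^ j`).
It is perhaps simpler to take any chart `χ₀` as in `exists_nc_chartO` and to restrict it: the chart with `σ p = χ₀.σ (p / 2)`, `U = {x ∈ χ₀.U | 2 • q x ∈ ball 0 2}` (open cone; for `x ∈ χ₀.U \ X` nothing is required of `q`), `q x = 2 • χ₀.q x`,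
`ρ' = ρ / 2 ^ (i+j)`: the coefficient is `1/4` of the one of `χ₀` at `p / 2`, and `closedBall 0 1` is compact (`tc_an`).
`hch_hor`: the same with `HorAt` from `horP`: `u = b + s ^ i`, `P = {t = 0}`, `hor = true`, `a = i`, `c = 0`; boundedness of `p.2 *` coefficient: `LogP` for the germ chart `σ` with `υ p = b + p.1 ^ i` (and the scaling), in
the first way.
`exists_hch`: `x ∉ P`: `hch_nc`, otherwise `hch_hor`.
-/

set_option autoImplicit false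

open Topology Filter Metric

namespace Pool.Agent.H18.LU

open Pool.Agent.H36.BP (EN fs wd IsGermChart)
open Pool.Agent.H14.PP (IsCone Chart Tan CurveAt)
open Pool.Agent.H62.EF (Lat MN pr TorusMap Sec Charts DU)
open Pool.Agent.H62.EL (Gd Ag BadSet IsNC TForm Mon mo tc)

variable {N : ℕ} {X D P : Set (EN N)} {Λ Γ : AddSubgroup ℂ} {u : EN N → ℂ} {B : Set ℂ} {δ : ℝ}

/-- the chart restricted to the bidisc of radius `1` and rescaled -/
private noncomputable def HoA_half (χ : Chart X) : Chart X where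
  σ := fun p => χ.σ ((1 / 2 : ℂ) • p)
  U := {x | x ∈ χ.U ∧ ‖χ.q x‖ < 1}
  q := fun x => (2 : ℂ) • χ.q x
  isOpen_U := by
    rw [isOpen_iff_mem_nhds]
    rintro x ⟨h1, h2⟩
    have h3 : ∀ᶠ y in 𝓝 x, y ∈ χ.U := χ.isOpen_U.mem_nhds h1
    have h4 : ∀ᶠ y in 𝓝 x, ‖χ.q y‖ < 1 := (χ.q_an x h1).continuousAt.norm.eventually_lt_const h2
    filter_upwards [h3, h4] with y h5 h6
    exact ⟨h5, h6⟩
  smul_U := by
    rintro x ⟨h1, h2⟩ c hc
    exact ⟨χ.smul_U x h1 c hc, by rw [χ.q_smul x h1 c hc]; exact h2⟩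
  σ_an := fun p hp => by
    have h1 : (1 / 2 : ℂ) • p ∈ ball (0 : ℂ × ℂ) 2 := by
      rw [mem_ball_zero_iff] at hp ⊢
      rw [norm_smul]
      have h2 : ‖(1 / 2 : ℂ)‖ = 1 / 2 := by norm_num
      rw [h2]
      linarith [norm_nonneg p]
    exact AnalyticAt.fun_comp (χ.σ_an _ h1) (analyticAt_const.fun_smul analyticAt_id)
  q_an := fun x hx => analyticAt_const.fun_smul (χ.q_an x hx.1)
  q_smul := fun x hx c hc => by rw [χ.q_smul x hx.1 c hc]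
  σ_mem := fun p hp => by
    have h2 : ‖(1 / 2 : ℂ)‖ = 1 / 2 := by norm_num
    have h0 : ‖(1 / 2 : ℂ) • p‖ < 1 := by
      rw [mem_ball_zero_iff] at hp
      rw [norm_smul, h2]
      linarith [norm_nonneg p]
    have h1 : (1 / 2 : ℂ) • p ∈ ball (0 : ℂ × ℂ) 2 := by
      rw [mem_ball_zero_iff]
      linarith
    obtain ⟨h3, h4, h5⟩ := χ.σ_mem _ h1
    refine ⟨h3, ⟨h4, by rw [h5]; exact h0⟩, ?_⟩
    rw [h5, smul_smul]
    norm_num
  surj := by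
    rintro x hx ⟨h1, h2⟩
    obtain ⟨h3, c, hc, h4⟩ := χ.surj x hx h1
    refine ⟨?_, c, hc, ?_⟩
    · rw [mem_ball_zero_iff, norm_smul]
      have h5 : ‖(2 : ℂ)‖ = 2 := by norm_num
      rw [h5]
      linarith
    · rw [smul_smul]
      have h5 : (1 / 2 : ℂ) * 2 = 1 := by norm_num
      rw [h5, one_smul]
      exact h4

private theorem HoA_half_mem {p : ℂ × ℂ} (hp : p ∈ ball (0 : ℂ × ℂ) 2) : (1 / 2 : ℂ) • p ∈ closedBall (0 : ℂ × ℂ) 1 := by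
  rw [mem_ball_zero_iff] at hp
  rw [mem_closedBall_zero_iff, norm_smul]
  have h2 : ‖(1 / 2 : ℂ)‖ = 1 / 2 := by norm_num
  rw [h2]
  linarith [norm_nonneg p]

private theorem HoA_mo (b : ℂ) (ρ : ℝ) (i j : ℕ) (p : ℂ × ℂ) : mo b (ρ / 2 ^ (i + j)) i j p = mo b ρ i j ((1 / 2 : ℂ) • p) := by
  unfold mo
  have h1 : ((1 / 2 : ℂ) • p).1 = (1 / 2 : ℂ) * p.1 := rfl
  have h2 : ((1 / 2 : ℂ) • p).2 = (1 / 2 : ℂ) * p.2 := rfl
  rw [h1, h2, mul_pow, mul_pow, pow_add, one_div_pow, one_div_pow]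
  push_cast
  have h3 : (2 : ℂ) ^ i ≠ 0 := pow_ne_zero _ two_ne_zero
  have h4 : (2 : ℂ) ^ j ≠ 0 := pow_ne_zero _ two_ne_zero
  field_simp

private theorem HoA_mo_an (b : ℂ) (ρ : ℝ) (i j : ℕ) (p : ℂ × ℂ) : AnalyticAt ℂ (mo b ρ i j) p := by
  show AnalyticAt ℂ (fun p : ℂ × ℂ => b + ρ * (p.1 ^ i * p.2 ^ j)) p
  exact analyticAt_const.add (analyticAt_const.mul ((analyticAt_fst.pow i).mul (analyticAt_snd.pow j)))

private theorem HoA_open (E : LData X D P Λ Γ u B δ) : Pool.Agent.H14.PP.IsOpenPart X (X \ P) := by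
  refine ⟨Set.sdiff_subset, ?_, ?_⟩
  · rintro x ⟨h1, h2⟩ c hc
    refine ⟨E.cone.smul_mem x h1 c hc, fun h3 => h2 ?_⟩
    have h4 := E.P_smul _ h3 c⁻¹ (inv_ne_zero hc)
    rwa [smul_smul, inv_mul_cancel₀ hc, one_smul] at h4
  · rintro x ⟨h1, h2⟩
    filter_upwards [E.P_closed x h1 h2] with y hy hyX
    exact ⟨hyX, hy⟩

/-- local boundedness of the coefficient (up to the pole) -/
private theorem HoA_loc (E : LData X D P Λ Γ u B δ) (α : TForm (X \ P) Λ u) {b : ℂ} (χ : Chart X) {ρ : ℝ} {i j : ℕ} {hor : Bool}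
    (hmon : Mon Λ u χ b ρ i j) (hP : ∀ p ∈ ball (0 : ℂ × ℂ) 2, χ.σ p ∈ P ↔ hor = true ∧ p.2 = 0) (hlog : hor = true → LogP α)
    {p₀ : ℂ × ℂ} (hp₀ : p₀ ∈ ball (0 : ℂ × ℂ) 2) : ∃ C : ℝ, ∀ᶠ p in 𝓝 p₀, χ.σ p ∉ P → ‖(if hor = true then p.2 else 1) *
      α.toFun (mo b ρ i j p) (χ.σ p) (fderiv ℂ χ.σ p (1, 0)) (fderiv ℂ χ.σ p (0, 1))‖ ≤ C := by
  have hball : ∀ᶠ p in 𝓝 p₀, p ∈ ball (0 : ℂ × ℂ) 2 := isOpen_ball.mem_nhds hp₀
  have hbd : ∀ f : ℂ × ℂ → ℂ, ContinuousAt f p₀ → ∀ᶠ p in 𝓝 p₀, ‖f p‖ ≤ ‖f p₀‖ + 1 := by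
    intro f hf
    have h1 : ∀ᶠ p in 𝓝 p₀, ‖f p‖ < ‖f p₀‖ + 1 := hf.norm.eventually_lt_const (lt_add_one _)
    exact h1.mono fun p hp => hp.le
  by_cases h0 : χ.σ p₀ ∈ P
  · obtain ⟨hh, h2⟩ := (hP p₀ hp₀).1 h0
    have hadd : ContinuousAt (fun p : ℂ × ℂ => p₀ + p) 0 := by fun_prop
    have hadd' : Tendsto (fun p : ℂ × ℂ => p₀ + p) (𝓝 0) (𝓝 p₀) := by
      have h1 := hadd.tendsto
      rwa [add_zero] at h1
    have hb : ∀ᶠ p in 𝓝 (0 : ℂ × ℂ), p₀ + p ∈ ball (0 : ℂ × ℂ) 2 := hadd'.eventually hball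
    have hladd : AnalyticAt ℂ (fun p : ℂ × ℂ => p₀ + p) 0 := analyticAt_const.add analyticAt_id
    have hm := χ.σ_mem p₀ hp₀
    have hG : IsGermChart X (fun p => χ.σ (p₀ + p)) (fun x => χ.q x - p₀) := by
      refine ⟨?_, ?_, ?_, ?_, ?_, ?_⟩
      · have h3 : AnalyticAt ℂ χ.σ ((fun p : ℂ × ℂ => p₀ + p) 0) := by
          simp only [add_zero]
          exact χ.σ_an _ hp₀
        exact AnalyticAt.fun_comp h3 hladd
      · filter_upwards [hb] with p hp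
        exact (χ.σ_mem _ hp).1
      · simp only [add_zero]
        exact (χ.q_an _ hm.2.1).sub analyticAt_const
      · filter_upwards [hb] with p hp
        rw [(χ.σ_mem _ hp).2.2]
        simp
      · simp only [add_zero]
        filter_upwards [χ.isOpen_U.mem_nhds hm.2.1] with y hy hyX
        obtain ⟨-, c, hc, h4⟩ := χ.surj y hyX hy
        refine ⟨c, hc, ?_⟩
        rw [add_sub_cancel]
        exact h4
      · simp only [add_zero]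
        have h1 : ∀ᶠ w in 𝓝 (χ.σ p₀, (1 : ℂ)), w.1 ∈ χ.U := continuousAt_fst.tendsto.eventually (χ.isOpen_U.mem_nhds hm.2.1)
        have h20 : ∀ᶠ c in 𝓝 (1 : ℂ), c ≠ 0 := eventually_ne_nhds one_ne_zero
        have h2 : ∀ᶠ w in 𝓝 (χ.σ p₀, (1 : ℂ)), w.2 ≠ 0 := by
          have h21 : Tendsto (Prod.snd : EN N × ℂ → ℂ) (𝓝 (χ.σ p₀, (1 : ℂ))) (𝓝 1) := continuousAt_snd
          exact h21.eventually h20
        filter_upwards [h1, h2] with w hw1 hw2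
        rw [χ.q_smul _ hw1 _ hw2]
    have hPe : ∀ᶠ p in 𝓝 (0 : ℂ × ℂ), χ.σ (p₀ + p) ∈ P ↔ p.2 = 0 := by
      filter_upwards [hb] with p hp
      rw [hP _ hp, Prod.snd_add, h2, zero_add]
      exact ⟨fun h => h.2, fun h => ⟨hh, h⟩⟩
    have hυ : AnalyticAt ℂ (fun p : ℂ × ℂ => mo b ρ i j (p₀ + p)) 0 :=
      AnalyticAt.fun_comp (HoA_mo_an b ρ i j _) hladd
    have hυl : ∀ᶠ p in 𝓝 (0 : ℂ × ℂ), u (χ.σ (p₀ + p)) - mo b ρ i j (p₀ + p) ∈ Λ := by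
      filter_upwards [hb] with p hp
      exact hmon.lift _ hp
    obtain ⟨g, hg, hge⟩ := hlog hh _ _ _ hG hPe hυ hυl
    have hsub : ContinuousAt (fun p : ℂ × ℂ => p - p₀) p₀ := by fun_prop
    have hsub' : Tendsto (fun p : ℂ × ℂ => p - p₀) (𝓝 p₀) (𝓝 0) := by
      have h1 := hsub.tendsto
      rwa [sub_self] at h1
    have hgc : ContinuousAt (fun p : ℂ × ℂ => g (p - p₀)) p₀ := by
      refine ContinuousAt.comp (f := fun p : ℂ × ℂ => p - p₀) (g := g) ?_ hsub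
      rw [sub_self]
      exact hg.continuousAt
    refine ⟨‖g (p₀ - p₀)‖ + 1, ?_⟩
    · filter_upwards [hbd _ hgc, hsub'.eventually hge, hball] with p hp1 hp2 hp3 hp4
      have h5 : (p - p₀).2 ≠ 0 := by
        intro h6
        apply hp4
        rw [hP p hp3]
        refine ⟨hh, ?_⟩
        rw [Prod.snd_sub, h2, sub_zero] at h6
        exact h6
      have h6 := hp2 h5
      have h7 : (p - p₀).2 = p.2 := by rw [Prod.snd_sub, h2, sub_zero]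
      have h8 : fderiv ℂ (fun p => χ.σ (p₀ + p)) (p - p₀) = fderiv ℂ χ.σ p := by
        rw [fderiv_comp_add_left, add_sub_cancel]
      rw [h8, h7, add_sub_cancel] at h6
      rw [if_pos hh, h6]
      exact hp1
  · have hm := χ.σ_mem p₀ hp₀
    have h1 : ∀ᶠ p in 𝓝 p₀, χ.σ p ∉ P := (χ.σ_an p₀ hp₀).continuousAt.tendsto.eventually (E.P_closed _ hm.1 h0)
    have h2 : ∀ᶠ p in 𝓝 p₀, χ.σ p ∈ X \ P ∧ u (χ.σ p) - mo b ρ i j p ∈ Λ := by
      filter_upwards [h1, hball] with p hp1 hp2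
      exact ⟨⟨(χ.σ_mem p hp2).1, hp1⟩, hmon.lift p hp2⟩
    have h3 := α.analytic χ.σ (mo b ρ i j) p₀ (χ.σ_an p₀ hp₀) (HoA_mo_an b ρ i j p₀) h2
    have h4 : ContinuousAt (fun p : ℂ × ℂ => if hor = true then p.2 else (1 : ℂ)) p₀ := by
      by_cases hh : hor = true
      · simp only [hh, if_true]
        exact continuousAt_snd
      · simp only [hh]
        exact continuousAt_const
    have h5 := hbd _ (h4.mul h3.continuousAt)
    exact ⟨_, h5.mono fun p hp _ => hp⟩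

private theorem HoA_cpt {f : ℂ × ℂ → ℝ} {Q : ℂ × ℂ → Prop} (h : ∀ p₀ ∈ ball (0 : ℂ × ℂ) 2, ∃ C : ℝ, ∀ᶠ p in 𝓝 p₀, Q p → f p ≤ C) :
    ∃ C : ℝ, ∀ p ∈ closedBall (0 : ℂ × ℂ) 1, Q p → f p ≤ C := by
  have hc : IsCompact (closedBall (0 : ℂ × ℂ) 1) := isCompact_closedBall _ _
  refine hc.induction_on (p := fun s => ∃ C : ℝ, ∀ p ∈ s, Q p → f p ≤ C) ⟨0, fun p hp => hp.elim⟩ ?_ ?_ ?_
  · rintro s t hst ⟨C, hC⟩
    exact ⟨C, fun p hp => hC p (hst hp)⟩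
  · rintro s t ⟨C, hC⟩ ⟨C', hC'⟩
    refine ⟨max C C', fun p hp hQ => ?_⟩
    rcases hp with hp | hp
    · exact (hC p hp hQ).trans (le_max_left _ _)
    · exact (hC' p hp hQ).trans (le_max_right _ _)
  · intro p hp
    have hp2 : p ∈ ball (0 : ℂ × ℂ) 2 := by
      rw [mem_closedBall_zero_iff] at hp
      rw [mem_ball_zero_iff]
      linarith
    obtain ⟨C, hC⟩ := h p hp2
    obtain ⟨t, ht, ht'⟩ := hC.exists_mem
    exact ⟨t, mem_nhdsWithin_of_mem_nhds ht, C, ht'⟩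

/-- the restricted chart -/
private theorem HoA_main (E : LData X D P Λ Γ u B δ) (α : TForm (X \ P) Λ u) {b : ℂ} {x : EN N} (χ : Chart X) (hxU : x ∈ χ.U)
    (hq : χ.q x = 0) {ρ : ℝ} {i j : ℕ} {hor : Bool} (hmon : Mon Λ u χ b ρ i j) (hi : 1 ≤ i) (hj : hor = true → j = 0)
    (hP : ∀ p ∈ ball (0 : ℂ × ℂ) 2, χ.σ p ∈ P ↔ hor = true ∧ p.2 = 0) (hlog : hor = true → LogP α) {η : ℝ}
    (hsm : ∀ p ∈ ball (0 : ℂ × ℂ) 2, dist (pr (χ.σ p)) (pr x) < η ∧ ‖mo b ρ i j p - b‖ < η) :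
    ∃ S : HCh X, HOk P Λ u b η S ∧ HBd α b S ∧ x ∈ S.χ.U ∧ S.χ.q x = 0 ∧ S.hor = hor ∧
      ∀ p ∈ ball (0 : ℂ × ℂ) 2, dist (pr (S.χ.σ p)) (pr x) < η := by
  have hsub : ∀ p ∈ ball (0 : ℂ × ℂ) 2, (1 / 2 : ℂ) • p ∈ ball (0 : ℂ × ℂ) 2 := fun p hp =>
    closedBall_subset_ball one_lt_two (HoA_half_mem hp)
  refine ⟨⟨HoA_half χ, ρ / 2 ^ (i + j), i, j, hor⟩, ⟨⟨?_, hmon.ij, ?_⟩, hi, hj, ?_, ?_⟩, ?_, ⟨hxU, ?_⟩, ?_, rfl, ?_⟩
  · exact div_pos hmon.pos (by positivity)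
  · intro p hp
    rw [HoA_mo]
    exact hmon.lift _ (hsub p hp)
  · intro p hp
    show χ.σ ((1 / 2 : ℂ) • p) ∈ P ↔ _
    rw [hP _ (hsub p hp)]
    have h1 : ((1 / 2 : ℂ) • p).2 = (1 / 2 : ℂ) * p.2 := rfl
    rw [h1]
    constructor
    · rintro ⟨h2, h3⟩
      refine ⟨h2, ?_⟩
      rcases mul_eq_zero.1 h3 with h4 | h4
      · norm_num at h4
      · exact h4
    · rintro ⟨h2, h3⟩
      exact ⟨h2, by rw [h3, mul_zero]⟩
  · intro p hp
    show ‖mo b (ρ / 2 ^ (i + j)) i j p - b‖ < η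
    rw [HoA_mo]
    exact (hsm _ (hsub p hp)).2
  · obtain ⟨C, hC⟩ := HoA_cpt (fun p₀ hp₀ => HoA_loc E α χ hmon hP hlog hp₀)
    refine ⟨2 * |C|, fun p hp hpP => ?_⟩
    change χ.σ ((1 / 2 : ℂ) • p) ∉ P at hpP
    have h1 := hC _ (HoA_half_mem hp) hpP
    show ‖(if hor = true then p.2 else 1) * α.toFun (mo b (ρ / 2 ^ (i + j)) i j p) (χ.σ ((1 / 2 : ℂ) • p))
      (fderiv ℂ (fun p => χ.σ ((1 / 2 : ℂ) • p)) p (1, 0)) (fderiv ℂ (fun p => χ.σ ((1 / 2 : ℂ) • p)) p (0, 1))‖ ≤ 2 * |C|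
    have h2 : ∀ v : ℂ × ℂ, fderiv ℂ (fun p => χ.σ ((1 / 2 : ℂ) • p)) p v = (1 / 2 : ℂ) • fderiv ℂ χ.σ ((1 / 2 : ℂ) • p) v := by
      intro v
      have h3 : HasFDerivAt χ.σ (fderiv ℂ χ.σ ((1 / 2 : ℂ) • p)) ((1 / 2 : ℂ) • p) :=
        (χ.σ_an _ (hsub p hp)).differentiableAt.hasFDerivAt
      have h4 : HasFDerivAt (fun p : ℂ × ℂ => (1 / 2 : ℂ) • p) ((1 / 2 : ℂ) • ContinuousLinearMap.id ℂ (ℂ × ℂ)) p :=
        (hasFDerivAt_id p).const_smul (1 / 2 : ℂ)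
      have h5 : HasFDerivAt (fun p => χ.σ ((1 / 2 : ℂ) • p)) ((fderiv ℂ χ.σ ((1 / 2 : ℂ) • p)).comp
        ((1 / 2 : ℂ) • ContinuousLinearMap.id ℂ (ℂ × ℂ))) p := h3.comp p h4
      rw [h5.fderiv]
      show fderiv ℂ χ.σ ((1 / 2 : ℂ) • p) ((1 / 2 : ℂ) • v) = _
      rw [map_smul]
    have hm := χ.σ_mem _ (hsub p hp)
    have hxm : χ.σ ((1 / 2 : ℂ) • p) ∈ X \ P := ⟨hm.1, hpP⟩
    have ht1 := χ.tan (HoA_open E) (hsub p hp) hxm (1, 0)
    have ht2 := χ.tan (HoA_open E) (hsub p hp) hxm (0, 1)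
    have h6 := α.det (mo b ρ i j ((1 / 2 : ℂ) • p)) _ hxm (hmon.lift _ (hsub p hp)) _ _ ht1 ht2 (1 / 2) 0 0 (1 / 2)
    rw [zero_smul, zero_smul, add_zero, zero_add] at h6
    rw [h2, h2, HoA_mo, h6]
    by_cases hh : hor = true
    · rw [if_pos hh] at h1 ⊢
      have h7 : ((1 / 2 : ℂ) • p).2 = (1 / 2 : ℂ) * p.2 := rfl
      rw [h7, mul_assoc, norm_mul] at h1
      have h8 : ‖(1 / 2 : ℂ)‖ = 1 / 2 := by norm_num
      rw [h8] at h1
      rw [mul_left_comm, norm_mul]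
      have h9 : ‖((1 / 2 : ℂ) * (1 / 2) - 0 * 0)‖ = 1 / 4 := by norm_num
      rw [h9]
      have h10 := le_abs_self C
      have h11 := abs_nonneg C
      linarith
    · rw [if_neg hh, one_mul] at h1
      rw [if_neg hh, one_mul, norm_mul]
      have h9 : ‖((1 / 2 : ℂ) * (1 / 2) - 0 * 0)‖ = 1 / 4 := by norm_num
      rw [h9]
      have h10 := le_abs_self C
      have h11 := abs_nonneg C
      linarith
  · rw [hq, norm_zero]
    exact one_pos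
  · show (2 : ℂ) • χ.q x = 0
    rw [hq, smul_zero]
  · intro p hp
    exact (hsm _ (hsub p hp)).1

theorem hch_nc (E : LData X D P Λ Γ u B δ) (α : TForm (X \ P) Λ u) {b : ℂ} {x : EN N} (hx : x ∈ X) (hP : x ∉ P) (h : IsNC X Λ u x b) {η : ℝ}
    (hη : 0 < η) : ∃ S : HCh X, HOk P Λ u b η S ∧ HBd α b S ∧ x ∈ S.χ.U ∧ S.χ.q x = 0 ∧ S.hor = false ∧
      ∀ p ∈ ball (0 : ℂ × ℂ) 2, dist (pr (S.χ.σ p)) (pr x) < η := by
  obtain ⟨r, hr, hrP⟩ := pr_closed E.cone E.P_smul (E.P_sub.trans E.D_sub) hx (E.P_closed x hx hP)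
  obtain ⟨χ, ρ, i, j, hxU, hq, hmon, hsm⟩ := exists_nc_chartO E.cone E.tor h (lt_min hη hr)
  have hsm' : ∀ p ∈ ball (0 : ℂ × ℂ) 2, dist (pr (χ.σ p)) (pr x) < η ∧ ‖mo b ρ i j p - b‖ < η := fun p hp =>
    ⟨(hsm p hp).1.trans_le (min_le_left _ _), (hsm p hp).2.trans_le (min_le_left _ _)⟩
  have hPn : ∀ p ∈ ball (0 : ℂ × ℂ) 2, χ.σ p ∉ P := fun p hp hpP =>
    absurd ((hsm p hp).1.trans_le (min_le_right _ _)) (not_lt.2 (hrP _ hpP))
  have hff : (false = true) → LogP α := fun h => absurd h (by decide)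
  have hfj : ∀ k : ℕ, (false = true) → k = 0 := fun k h => absurd h (by decide)
  by_cases hi : 1 ≤ i
  · exact HoA_main E α χ hxU hq hmon hi (hfj j) (fun p hp => ⟨fun h => absurd h (hPn p hp), fun h => absurd h.1 (by decide)⟩) hff hsm'
  · have hi0 : i = 0 := by omega
    have hj : 1 ≤ j := by have := hmon.ij; omega
    have hsw : ∀ p ∈ ball (0 : ℂ × ℂ) 2, p.swap ∈ ball (0 : ℂ × ℂ) 2 := by
      intro p hp
      rw [mem_ball_zero_iff, Prod.norm_def] at hp ⊢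
      rw [max_comm]
      exact hp
    have hmo : ∀ p : ℂ × ℂ, mo b ρ j i p = mo b ρ i j p.swap := by
      intro p
      unfold mo
      rw [Prod.fst_swap, Prod.snd_swap, mul_comm (p.1 ^ j)]
    refine HoA_main E α (swp χ) hxU ?_ (i := j) (j := i) ⟨hmon.pos, by rw [add_comm]; exact hmon.ij, ?_⟩ hj (hfj i)
      (fun p hp => ⟨fun h => absurd h (hPn _ (hsw p hp)), fun h => absurd h.1 (by decide)⟩) hff ?_
    · show (χ.q x).swap = 0
      rw [hq]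
      rfl
    · intro p hp
      rw [hmo]
      exact hmon.lift _ (hsw p hp)
    · intro p hp
      rw [hmo]
      exact hsm' _ (hsw p hp)

theorem hch_hor (E : LData X D P Λ Γ u B δ) {α : TForm (X \ P) Λ u} (hlog : LogP α) {b : ℂ} {x : EN N} {i : ℕ} (hi : 1 ≤ i)
    (h : HorAt X Λ u P x b i) {η : ℝ} (hη : 0 < η) : ∃ S : HCh X, HOk P Λ u b η S ∧ HBd α b S ∧ x ∈ S.χ.U ∧ S.χ.q x = 0 ∧ S.hor = true ∧
      ∀ p ∈ ball (0 : ℂ × ℂ) 2, dist (pr (S.χ.σ p)) (pr x) < η := by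
  obtain ⟨σ, τ, hg, hσ0, hev, hevP⟩ := h
  obtain ⟨η', hη', hall⟩ := Metric.eventually_nhds_iff_ball.mp ((hev.and hevP).and hg.σ_mem)
  obtain ⟨χ, r, hr, hU, hq, hch⟩ := exists_small_chartO E.cone hg (lt_min (lt_min hη' hη) one_pos)
  have hri : (0 : ℝ) < r ^ i := pow_pos hr _
  have hkey : ∀ p : ℂ × ℂ, mo b (r ^ i) i 0 p = b + ((r : ℂ) • p).1 ^ i := by
    intro p
    have h1 : ((r : ℂ) • p).1 = (r : ℂ) * p.1 := rfl
    unfold mo
    rw [h1]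
    push_cast
    ring
  have hb : ∀ p ∈ ball (0 : ℂ × ℂ) 2, (r : ℂ) • p ∈ ball (0 : ℂ × ℂ) η' := fun p hp =>
    mem_ball_zero_iff.mpr ((hch p hp).1.trans_le ((min_le_left _ _).trans (min_le_left _ _)))
  rw [hσ0] at hU hq
  have hPs : ∀ (y : EN N) (a : ℂ), a ≠ 0 → (a • y ∈ P ↔ y ∈ P) := by
    intro y a ha
    refine ⟨fun h => ?_, fun h => E.P_smul y h a ha⟩
    have h4 := E.P_smul _ h a⁻¹ (inv_ne_zero ha)
    rwa [smul_smul, inv_mul_cancel₀ ha, one_smul] at h4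
  refine HoA_main E α χ hU hq (i := i) (j := 0) (ρ := r ^ i) ⟨hri, by omega, ?_⟩ hi (fun _ => rfl) ?_ (fun _ => hlog) ?_
  · intro p hp
    obtain ⟨-, -, a, ha, hap⟩ := hch p hp
    have h1 := hall _ (hb p hp)
    have h2 := E.tor.smul _ h1.2 a ha
    rw [hap, hkey p]
    have h3 := Λ.add_mem h2 h1.1.1
    convert h3 using 1
    ring
  · intro p hp
    obtain ⟨-, -, a, ha, hap⟩ := hch p hp
    have h1 := (hall _ (hb p hp)).1.2
    rw [hap, hPs _ _ ha, h1]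
    have h2 : ((r : ℂ) • p).2 = (r : ℂ) * p.2 := rfl
    rw [h2, mul_eq_zero]
    have h3 : (r : ℂ) ≠ 0 := by exact_mod_cast hr.ne'
    constructor
    · rintro (h4 | h4)
      · exact absurd h4 h3
      · exact ⟨rfl, h4⟩
    · rintro ⟨-, h4⟩
      exact Or.inr h4
  · intro p hp
    obtain ⟨h0, h1, -⟩ := hch p hp
    refine ⟨?_, ?_⟩
    · rw [← hσ0]
      exact h1.trans_le ((min_le_left _ _).trans (min_le_right _ _))
    · rw [hkey p, add_sub_cancel_left, norm_pow]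
      have h2 : ‖((r : ℂ) • p).1‖ ≤ ‖(r : ℂ) • p‖ := norm_fst_le ((r : ℂ) • p)
      have h3 : ‖((r : ℂ) • p).1‖ < 1 := h2.trans_lt (h0.trans_le (min_le_right _ _))
      have h4 : ‖((r : ℂ) • p).1‖ < η := h2.trans_lt (h0.trans_le ((min_le_left _ _).trans (min_le_right _ _)))
      calc ‖((r : ℂ) • p).1‖ ^ i ≤ ‖((r : ℂ) • p).1‖ ^ 1 := pow_le_pow_of_le_one (norm_nonneg _) h3.le hi
        _ = ‖((r : ℂ) • p).1‖ := pow_one _
        _ < η := h4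

theorem exists_hch (E : LData X D P Λ Γ u B δ) {α : TForm (X \ P) Λ u} (hlog : LogP α) {b : ℂ} (hb : b ∈ B) {x : EN N} (hx : x ∈ X)
    (hxb : u x - b ∈ Λ) {η : ℝ} (hη : 0 < η) : ∃ S : HCh X, HOk P Λ u b η S ∧ HBd α b S ∧ x ∈ S.χ.U ∧ S.χ.q x = 0 ∧
      ∀ p ∈ ball (0 : ℂ × ℂ) 2, dist (pr (S.χ.σ p)) (pr x) < η := by
  by_cases hP : x ∈ P
  · obtain ⟨i, hi, h⟩ := E.horP b hb x hP hxb
    obtain ⟨S, h1, h2, h3, h4, -, h5⟩ := hch_hor E hlog hi h hη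
    exact ⟨S, h1, h2, h3, h4, h5⟩
  · obtain ⟨S, h1, h2, h3, h4, -, h5⟩ := hch_nc E α hx hP (E.nc b hb x hx hP hxb) hη
    exact ⟨S, h1, h2, h3, h4, h5⟩

end Pool.Agent.H18.LU
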