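import Pool.Agent.H18.LU.HoDef

/-!
# LU HoB: sections near a bad fibre, in the model

`hole_point`: if `pr x = pr ((χ i).σ p)`, `x ∈ X`, `p ∈ ball 0 2`, then `x ∈ (χ i).U` and `(χ i).q x = p` (`pr_eq_iff`, `smul_U`, `q_smul`, `σ_mem`).
`hole_u`: let `x ∈ X ∩ (χ i).U`, `u x - z ∈ Λ`, `z ∈ ball b H.M.ρ`; then `H.M.u i (q x) = z - b`: `x = c • σ (q x)` (`surj`), `TorusMap.smul`, `u_eq`: the difference is in `Λ`, its norm is `< 2 η`.
`hole_sec`: with `f w = pr (F (b + w))`.  `Hol`: `p ∈ ball 0 2`, `f z = M.s i p`: `F (b + z) ∈ (χ i).U`; take `P w = (χ i).q (F (b + w))`, analytic at `z` (`q_an`), `P z = p`; near `z`: `F (b + w) ∈ X ∩ U` (open), so `f w = pr (σ (P w))` (`surj`),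
`M.u i (P w) = w` (`hole_u`).  `Cov`: `H.cov` at `F (b + z)`; `CenS` implies `Cen`; `Ok`: `ex = true`, `b i ≤ 0` (so `= 0`, `b_nonneg`) and `(q x).2 = 0` would give `σ (q x) ∈ P` (`P_iff`), `F (b + z) ∈ P ⊆ D` (`P_smul`, `P_sub`): contradiction.
`hole_L`: `x ∈ X \ P`, `x ∈ (χ i).U`, `u x - z ∈ Λ`, `z ∈ ball b ρ`, `z ≠ b`: `(q x).1 ≠ 0` (otherwise `M.u i (q x) = 0`, `1 ≤ a`), and `(q x).2 ≠ 0` if `ex i = true` (`1 ≤ b`: same; `b = 0`: `P_iff`).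
-/

set_option autoImplicit false

open Topology Filter Metric

namespace Pool.Agent.H18.LU

open Pool.Agent.H36.BP (EN fs wd IsGermChart)
open Pool.Agent.H14.PP (IsCone Chart Tan CurveAt)
open Pool.Agent.H62.EF (Lat MN pr TorusMap Sec Charts DU)
open Pool.Agent.H62.EL (Gd Ag BadSet IsNC TForm Mon mo)
open Pool.Agent.EG.RL (Model Atl Cen Bphi)

variable {N : ℕ} {X D P : Set (EN N)} {Λ Γ : AddSubgroup ℂ} {u : EN N → ℂ} {B : Set ℂ} {δ : ℝ} {b : ℂ} {α : TForm (X \ P) Λ u}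

theorem hole_point (E : LData X D P Λ Γ u B δ) (χ : Chart X) {x : EN N} (hx : x ∈ X) {p : ℂ × ℂ} (hp : p ∈ ball (0 : ℂ × ℂ) 2)
    (h : pr x = pr (χ.σ p)) : x ∈ χ.U ∧ χ.q x = p := by
  obtain ⟨h1, h2, h3⟩ := χ.σ_mem p hp
  obtain ⟨c, hc, h4⟩ := (Pool.Agent.H62.EF.pr_eq_iff (E.cone.ne_zero hx) (E.cone.ne_zero h1)).1 h
  rw [h4]
  exact ⟨χ.smul_U _ h2 c hc, by rw [χ.q_smul _ h2 c hc, h3]⟩

theorem hole_u (E : LData X D P Λ Γ u B δ) (H : Hole X P Λ u b α) {i : H.ι} {x : EN N} {z : ℂ} (hx : x ∈ X) (hU : x ∈ (H.χ i).U)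
    (hz : z ∈ ball b H.M.ρ) (h : u x - z ∈ Λ) : H.M.u i ((H.χ i).q x) = z - b := by
  obtain ⟨hq, c, hc, h1⟩ := (H.χ i).surj x hx hU
  have h2 : u x - u ((H.χ i).σ ((H.χ i).q x)) ∈ Λ := by
    have h3 := E.tor.smul _ ((H.χ i).σ_mem _ hq).1 c hc
    rwa [← h1] at h3
  have h3 := H.u_eq i _ hq
  have h4 : (z - b) - H.M.u i ((H.χ i).q x) ∈ Λ := by
    have h5 := Λ.add_mem (Λ.sub_mem h2 h) h3
    have h6 : (z - b) - H.M.u i ((H.χ i).q x) = (u x - u ((H.χ i).σ ((H.χ i).q x)) - (u x - z)) +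
        (u ((H.χ i).σ ((H.χ i).q x)) - (b + H.M.u i ((H.χ i).q x))) := by ring
    rw [h6]
    exact h5
  have h5 : ‖(z - b) - H.M.u i ((H.χ i).q x)‖ < 2 * H.η := by
    have h6 := norm_sub_le (z - b) (H.M.u i ((H.χ i).q x))
    have h7 : ‖z - b‖ < H.M.ρ := by
      rw [← dist_eq_norm]
      exact hz
    have h8 := H.small i _ hq
    have h9 := H.ρ_le
    linarith
  exact (sub_eq_zero.1 (H.inj _ h4 h5)).symm

theorem hole_L (E : LData X D P Λ Γ u B δ) (H : Hole X P Λ u b α) {i : H.ι} {x : EN N} {z : ℂ} (hx : x ∈ X) (hP : x ∉ P) (hU : x ∈ (H.χ i).U)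
    (hz : z ∈ ball b H.M.ρ) (hzb : z ≠ b) (h : u x - z ∈ Λ) : H.M.L i ((H.χ i).q x) ≠ 0 := by
  have hu := hole_u E H hx hU hz h
  obtain ⟨hq, c, hc, h1⟩ := (H.χ i).surj x hx hU
  have h0 : H.M.u i ((H.χ i).q x) ≠ 0 := by
    rw [hu]
    exact sub_ne_zero.2 hzb
  have ha := H.M.a_pos i
  have h2 : ((H.χ i).q x).1 ≠ 0 := by
    intro h3
    apply h0
    unfold Pool.Agent.EG.RL.Atl.u
    rw [h3, zero_pow (by omega)]
    ring
  unfold Pool.Agent.EG.RL.Atl.L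
  refine mul_ne_zero h2 ?_
  split_ifs with he
  · intro h3
    rcases (H.b_nonneg i).lt_or_eq with h4 | h4
    · apply h0
      unfold Pool.Agent.EG.RL.Atl.u
      rw [h3, zero_zpow _ (by omega)]
      ring
    · have h5 := (H.P_iff i _ hq).2 ⟨he, h4.symm, h3⟩
      apply hP
      rw [h1]
      exact E.P_smul _ h5 c hc
  · exact one_ne_zero

theorem hole_sec (E : LData X D P Λ Γ u B δ) (H : Hole X P Λ u b α) {F : ℂ → EN N} {z : ℂ} (hz : ‖z‖ < H.M.ρ)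
    (hF : SecAt X D Λ u F (b + z)) : H.M.Hol (fun w => pr (F (b + w))) z ∧ H.M.Cov (fun w => pr (F (b + w))) z := by
  have hadd : AnalyticAt ℂ (fun w : ℂ => b + w) z := analyticAt_const.add analyticAt_id
  have hFa : AnalyticAt ℂ (fun w => F (b + w)) z := AnalyticAt.fun_comp (f := fun w : ℂ => b + w) hF.1 hadd
  have hev : ∀ᶠ w in 𝓝 z, F (b + w) ∈ X ∧ F (b + w) ∉ D ∧ u (F (b + w)) - (b + w) ∈ Λ :=
    hadd.continuousAt.eventually hF.2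
  have hball : ∀ᶠ w in 𝓝 z, ‖w‖ < H.M.ρ := (isOpen_lt continuous_norm continuous_const).mem_nhds hz
  obtain ⟨h0X, h0D, h0u⟩ := hev.self_of_nhds
  have hin : ∀ w : ℂ, ‖w‖ < H.M.ρ → b + w ∈ ball b H.M.ρ := by
    intro w hw
    rw [mem_ball, dist_eq_norm, add_sub_cancel_left]
    exact hw
  constructor
  · intro i p hp hok hfp
    have hfp' : pr (F (b + z)) = pr ((H.χ i).σ p) := by
      rw [← H.s_eq]
      exact hfp
    obtain ⟨hU, hq⟩ := hole_point E (H.χ i) h0X hp hfp'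
    refine ⟨fun w => (H.χ i).q (F (b + w)), AnalyticAt.fun_comp (f := fun w => F (b + w)) ((H.χ i).q_an _ hU) hFa, hq, ?_⟩
    have hUe : ∀ᶠ w in 𝓝 z, F (b + w) ∈ (H.χ i).U := hFa.continuousAt.eventually ((H.χ i).isOpen_U.mem_nhds hU)
    filter_upwards [hev, hball, hUe] with w h1 h2 h3
    constructor
    · rw [H.s_eq]
      obtain ⟨h4, c, hc, h5⟩ := (H.χ i).surj _ h1.1 h3
      exact (Pool.Agent.H62.EF.pr_eq_iff (E.cone.ne_zero h1.1) (E.cone.ne_zero ((H.χ i).σ_mem _ h4).1)).2 ⟨c, hc, h5⟩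
    · rw [hole_u E H h1.1 h3 (hin w h2) h1.2.2]
      ring
  · obtain ⟨i, hU, hcen⟩ := H.cov _ (hin z hz) _ h0X h0u
    obtain ⟨h4, c, hc, h5⟩ := (H.χ i).surj _ h0X hU
    refine ⟨i, (H.χ i).q (F (b + z)), ⟨by linarith [hcen.1], by linarith [hcen.2]⟩, ?_, ?_⟩
    · intro he hb h6
      have h7 : H.M.b i = 0 := le_antisymm hb (H.b_nonneg i)
      have h8 := (H.P_iff i _ h4).2 ⟨he, h7, h6⟩
      apply h0D
      apply E.P_sub
      rw [h5]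
      exact E.P_smul _ h8 c hc
    · rw [H.s_eq]
      exact (Pool.Agent.H62.EF.pr_eq_iff (E.cone.ne_zero h0X) (E.cone.ne_zero ((H.χ i).σ_mem _ h4).1)).2 ⟨c, hc, h5⟩

end Pool.Agent.H18.LU
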