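import Pool.Agent.H18.LU.Bas
import Pool.Agent.EG.RL.Main
import Pool.Agent.EG.RL.Bd

/-!
# LU HoDef: charts near a bad fibre

`HCh`, `HOk`: a chart in which `u = b + ρ x ^ a y ^ c`, `1 ≤ a`; `P` is `{y = 0}` if `hor = true` (then `c = 0`) and does not meet the chart otherwise.  `HFam`: a finite family of such charts near the fibre over `b`.
The special charts (`hor = true` or `1 ≤ c`) have centres which are far from the other charts.  `Hole`: the model in the sense of `EG/RL`.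
-/

set_option autoImplicit false

open Topology Filter Metric

namespace Pool.Agent.H18.LU

open Pool.Agent.H36.BP (EN fs wd IsGermChart)
open Pool.Agent.H14.PP (IsCone Chart Tan CurveAt)
open Pool.Agent.H62.EF (Lat MN pr TorusMap Sec Charts DU)
open Pool.Agent.H62.EL (Gd Ag BadSet IsNC TForm Mon mo)
open Pool.Agent.EG.RL (Model Atl Cen Bphi)

variable {N : ℕ} {X P : Set (EN N)} {Λ : AddSubgroup ℂ} {u : EN N → ℂ}

/-- a chart with constants -/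
structure HCh (X : Set (EN N)) where
  /-- the chart -/
  χ : Chart X
  /-- constant -/
  ρ : ℝ
  /-- exponent -/
  a : ℕ
  /-- exponent -/
  c : ℕ
  /-- `P` meets the chart -/
  hor : Bool

/-- the chart is special: a node of the fibre, or a point of `P` -/
def HCh.Sp (S : HCh X) : Prop := S.hor = true ∨ 1 ≤ S.c

/-- the chart is adapted to the fibre over `b` and to `P` -/
structure HOk (P : Set (EN N)) (Λ : AddSubgroup ℂ) (u : EN N → ℂ) (b : ℂ) (η : ℝ) (S : HCh X) : Prop where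
  mon : Mon Λ u S.χ b S.ρ S.a S.c
  a_pos : 1 ≤ S.a
  hor_c : S.hor = true → S.c = 0
  P_iff : ∀ p ∈ ball (0 : ℂ × ℂ) 2, S.χ.σ p ∈ P ↔ S.hor = true ∧ p.2 = 0
  small : ∀ p ∈ ball (0 : ℂ × ℂ) 2, ‖mo b S.ρ S.a S.c p - b‖ < η

/-- the form is bounded in the chart (up to the pole at `P`) -/
def HBd (α : TForm (X \ P) Λ u) (b : ℂ) (S : HCh X) : Prop :=
  ∃ C : ℝ, ∀ p ∈ ball (0 : ℂ × ℂ) 2, S.χ.σ p ∉ P → ‖(if S.hor = true then p.2 else 1) *
    α.toFun (mo b S.ρ S.a S.c p) (S.χ.σ p) (fderiv ℂ S.χ.σ p (1, 0)) (fderiv ℂ S.χ.σ p (0, 1))‖ ≤ C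

/-- the small central part of the bidisc -/
def CenS (p : ℂ × ℂ) : Prop := ‖p.1‖ < 3 / 8 ∧ ‖p.2‖ < 7 / 8

/-- a family of charts near the fibre over `b` -/
structure HFam (P : Set (EN N)) (Λ : AddSubgroup ℂ) (u : EN N → ℂ) (b : ℂ) (η : ℝ) (κ : Type) (c : κ → HCh X) : Prop where
  ok : ∀ k, HOk P Λ u b η (c k)
  inj : ∀ l ∈ Λ, ‖l‖ < 2 * η → l = 0
  sep : ∀ i j, i ≠ j → (c i).Sp → ∀ p : ℂ × ℂ, ‖p.1‖ ≤ 1 / 2 → ‖p.2‖ ≤ 1 / 2 → (c i).χ.σ p ∉ (c j).χ.U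
  cov : ∃ s : ℝ, 0 < s ∧ ∀ z ∈ ball b s, ∀ x ∈ X, u x - z ∈ Λ → ∃ k, x ∈ (c k).χ.U ∧
    (CenS ((c k).χ.q x) ∨ 1 ≤ (c k).c ∧ CenS ((c k).χ.q x).swap)

/-- the chart with the coordinates exchanged -/
noncomputable def swp (χ : Chart X) : Chart X where
  σ := fun p => χ.σ p.swap
  U := χ.U
  q := fun x => (χ.q x).swap
  isOpen_U := χ.isOpen_U
  smul_U := χ.smul_U
  σ_an := fun p hp => by
    have h1 : p.swap ∈ ball (0 : ℂ × ℂ) 2 := by
      rw [mem_ball_zero_iff, Prod.norm_def] at hp ⊢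
      rw [max_comm]
      exact hp
    have h2 : AnalyticAt ℂ (fun p : ℂ × ℂ => p.swap) p := analyticAt_snd.prod analyticAt_fst
    exact AnalyticAt.comp' (χ.σ_an _ h1) h2
  q_an := fun x hx => by
    have h1 := χ.q_an x hx
    have h2 : AnalyticAt ℂ (fun p : ℂ × ℂ => p.swap) (χ.q x) := analyticAt_snd.prod analyticAt_fst
    exact AnalyticAt.comp' h2 h1
  q_smul := fun x hx c hc => by rw [χ.q_smul x hx c hc]
  σ_mem := fun p hp => by
    have h1 : p.swap ∈ ball (0 : ℂ × ℂ) 2 := by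
      rw [mem_ball_zero_iff, Prod.norm_def] at hp ⊢
      rw [max_comm]
      exact hp
    obtain ⟨h2, h3, h4⟩ := χ.σ_mem _ h1
    exact ⟨h2, h3, by rw [h4, Prod.swap_swap]⟩
  surj := fun x hx hU => by
    obtain ⟨h1, c, hc, h2⟩ := χ.surj x hx hU
    refine ⟨?_, c, hc, ?_⟩
    · rw [mem_ball_zero_iff, Prod.norm_def] at h1 ⊢
      rw [max_comm]
      exact h1
    · rw [Prod.swap_swap]
      exact h2

/-- the model of the surface near the fibre over `b`, and the form -/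
structure Hole (X P : Set (EN N)) (Λ : AddSubgroup ℂ) (u : EN N → ℂ) (b : ℂ) (α : TForm (X \ P) Λ u) where
  /-- the index set -/
  ι : Type
  fin : Finite ι
  /-- the model -/
  M : Model ι (MN N)
  /-- the charts -/
  χ : ι → Chart X
  /-- constant -/
  C₀ : ℝ
  /-- exponent -/
  κ : ℝ
  /-- radius of injectivity -/
  η : ℝ
  C₀_nonneg : 0 ≤ C₀
  κ_pos : 0 < κ
  s_eq : ∀ i p, M.s i p = pr ((χ i).σ p)
  b_nonneg : ∀ i, 0 ≤ M.b i
  u_eq : ∀ i, ∀ p ∈ ball (0 : ℂ × ℂ) 2, u ((χ i).σ p) - (b + M.u i p) ∈ Λ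
  inj : ∀ l ∈ Λ, ‖l‖ < 2 * η → l = 0
  small : ∀ i, ∀ p ∈ ball (0 : ℂ × ℂ) 2, ‖M.u i p‖ < η
  ρ_le : M.ρ ≤ η
  P_iff : ∀ i, ∀ p ∈ ball (0 : ℂ × ℂ) 2, (χ i).σ p ∈ P ↔ M.ex i = true ∧ M.b i = 0 ∧ p.2 = 0
  g_eq : ∀ i (t : ℂ), ∀ p ∈ ball (0 : ℂ × ℂ) 2, M.L i p ≠ 0 → Complex.exp t = M.u i p →
    M.g i t p = M.L i p * α.toFun (b + Complex.exp t) ((χ i).σ p) (fderiv ℂ (χ i).σ p (1, 0)) (fderiv ℂ (χ i).σ p (0, 1))
  cov : ∀ z ∈ ball b M.ρ, ∀ x ∈ X, u x - z ∈ Λ → ∃ i, x ∈ (χ i).U ∧ CenS ((χ i).q x)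
  bphi : Bphi M C₀ κ

end Pool.Agent.H18.LU
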