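import Pool.Agent.H18.LU.HoDef

/-!
# LU HoT: the centres of special charts are isolated

`hsp_iso`: let `S` be a chart, `x' ∈ S.χ.U` over `b`, `p' = S.χ.q x' ≠ 0`, or `S` not special; then `x'` is not the centre of a special chart `S'` (`S'.χ.q x' = 0`, `x' ∈ S'.χ.U`).  Proof: `κ = S.χ.q ∘ S'.χ.σ` is analytic near `0`,
`κ 0 = p'` (`x'` is a multiple of `S'.χ.σ 0`: `surj`, `q_smul`), with inverse `S'.χ.q ∘ S.χ.σ` near `p'` (composition is the identity near the points: `surj`, `q_smul`, `σ_mem`; `U` is open), so `fderiv κ 0` is bijective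
(chain rule).  For `p` near `0`: `S.χ.σ (κ p)` is a multiple of `S'.χ.σ p`, so `mo b S.ρ S.a S.c (κ p) - mo b S'.ρ S'.a S'.c p ∈ Λ` (`Mon.lift`, `TorusMap.smul`), both are within `η` resp. `η'` of `b` and
`‖l‖ < η + η' → l = 0`: equal.  As `x'` is over `b`: `p'.1 ^ a * p'.2 ^ c = 0` (`mo b .. p' - b ∈ Λ`, small).
(i) `S'.hor = true`: then `x' ∈ P` (`P_iff` for `S'` at `0`, `P_smul`), so `P_iff` for `S`: `S.hor = true`, `p'.2 = 0`, `S.c = 0`, so `p'.1 ^ S.a = 0`, `p'.1 = 0`: `p' = 0` and `S` is special: contradiction.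
(ii) `S'.hor = false`, `1 ≤ S'.c`: `x' ∉ P`; `κ` maps `{p.1 = 0}` and `{p.2 = 0}` (near `0`) into `{p.1 ^ a * p.2 ^ c = 0}`.  If `S.c = 0`: `(κ p).1 = 0` on both axes, so both partial derivatives of `(κ p).1` at `0` are `0`: `fderiv κ 0` is
not surjective.  If `1 ≤ S.c` then `S` is special, so `p' ≠ 0`: exactly one coordinate of `p'` is `0`, say `p'.1 = 0 ≠ p'.2` (resp. `p'.2 = 0 ≠ p'.1`); near `p'` the other one is `≠ 0`, so `(κ p).1 = 0` (resp. `(κ p).2 = 0`) on both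
axes: the same contradiction.
-/

set_option autoImplicit false

open Topology Filter Metric

namespace Pool.Agent.H18.LU

open Pool.Agent.H36.BP (EN fs wd IsGermChart)
open Pool.Agent.H14.PP (IsCone Chart Tan CurveAt)
open Pool.Agent.H62.EF (Lat MN pr TorusMap Sec Charts DU)
open Pool.Agent.H62.EL (Gd Ag BadSet IsNC TForm Mon mo tc)

variable {N : ℕ} {X D P : Set (EN N)} {Λ Γ : AddSubgroup ℂ} {u : EN N → ℂ} {B : Set ℂ} {δ : ℝ}

private theorem HoT_axes {f : ℂ × ℂ → ℂ × ℂ} {L : ℂ × ℂ →L[ℂ] ℂ × ℂ} (hf : HasFDerivAt f L 0)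
    (hL : Function.Surjective L) (ℓ : ℂ × ℂ →L[ℂ] ℂ) {v₀ : ℂ × ℂ} (hℓ : ℓ v₀ ≠ 0)
    (h1 : ∀ᶠ z in 𝓝 (0 : ℂ), ℓ (f (z, 0)) = 0) (h2 : ∀ᶠ z in 𝓝 (0 : ℂ), ℓ (f (0, z)) = 0) : False := by
  have a1 : HasDerivAt (fun z : ℂ => ((z, 0) : ℂ × ℂ)) (1, 0) 0 := (hasDerivAt_id 0).prodMk (hasDerivAt_const 0 0)
  have a2 : HasDerivAt (fun z : ℂ => ((0, z) : ℂ × ℂ)) (0, 1) 0 := (hasDerivAt_const 0 0).prodMk (hasDerivAt_id 0)
  have b1 : HasDerivAt (fun z : ℂ => ℓ (f (z, 0))) (ℓ (L (1, 0))) 0 :=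
    ℓ.hasFDerivAt.comp_hasDerivAt 0 (HasFDerivAt.comp_hasDerivAt (l := f) (f := fun z : ℂ => ((z, 0) : ℂ × ℂ)) 0 hf a1)
  have b2 : HasDerivAt (fun z : ℂ => ℓ (f (0, z))) (ℓ (L (0, 1))) 0 :=
    ℓ.hasFDerivAt.comp_hasDerivAt 0 (HasFDerivAt.comp_hasDerivAt (l := f) (f := fun z : ℂ => ((0, z) : ℂ × ℂ)) 0 hf a2)
  have c1 : ℓ (L (1, 0)) = 0 := b1.unique ((hasDerivAt_const (0 : ℂ) (0 : ℂ)).congr_of_eventuallyEq h1)
  have c2 : ℓ (L (0, 1)) = 0 := b2.unique ((hasDerivAt_const (0 : ℂ) (0 : ℂ)).congr_of_eventuallyEq h2)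
  obtain ⟨w, hw⟩ := hL v₀
  apply hℓ
  have hw' : w = w.1 • ((1, 0) : ℂ × ℂ) + w.2 • ((0, 1) : ℂ × ℂ) := by ext <;> simp
  rw [← hw, hw', map_add, map_smul, map_smul, map_add, map_smul, map_smul, c1, c2, smul_zero, smul_zero, add_zero]

theorem hsp_iso (E : LData X D P Λ Γ u B δ) {b : ℂ} {η η' : ℝ} (hinj : ∀ l ∈ Λ, ‖l‖ < η + η' → l = 0) {S S' : HCh X} (hS : HOk P Λ u b η S)
    (hS' : HOk P Λ u b η' S') (hsp : S'.Sp) {x : EN N} (hx : x ∈ X) (hxb : u x - b ∈ Λ) (hU : x ∈ S.χ.U) (hU' : x ∈ S'.χ.U)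
    (hq' : S'.χ.q x = 0) : S.Sp ∧ S.χ.q x = 0 := by
  classical
  obtain ⟨hp'b, c₁, hc₁, hx₁⟩ := S.χ.surj x hx hU
  obtain ⟨-, c₂, hc₂, hx₂⟩ := S'.χ.surj x hx hU'
  rw [hq'] at hx₂
  set p' : ℂ × ℂ := S.χ.q x with hp'
  have h0b : (0 : ℂ × ℂ) ∈ ball (0 : ℂ × ℂ) 2 := mem_ball_self two_pos
  -- the two parametrizations at the point
  have hy : S'.χ.σ 0 = c₂⁻¹ • x := by
    have h := congrArg (fun z => c₂⁻¹ • z) hx₂
    simp only [smul_smul, inv_mul_cancel₀ hc₂, one_smul] at h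
    exact h.symm
  have hz : S.χ.σ p' = c₁⁻¹ • x := by
    have h := congrArg (fun z => c₁⁻¹ • z) hx₁
    simp only [smul_smul, inv_mul_cancel₀ hc₁, one_smul] at h
    exact h.symm
  have hyU : S'.χ.σ 0 ∈ S.χ.U := by rw [hy]; exact S.χ.smul_U x hU _ (inv_ne_zero hc₂)
  have hyq : S.χ.q (S'.χ.σ 0) = p' := by rw [hy, S.χ.q_smul x hU _ (inv_ne_zero hc₂)]
  have hzU : S.χ.σ p' ∈ S'.χ.U := by rw [hz]; exact S'.χ.smul_U x hU' _ (inv_ne_zero hc₁)
  have hzq : S'.χ.q (S.χ.σ p') = 0 := by rw [hz, S'.χ.q_smul x hU' _ (inv_ne_zero hc₁), hq']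
  -- the transition maps
  set κ : ℂ × ℂ → ℂ × ℂ := fun p => S.χ.q (S'.χ.σ p) with hκ
  set κ' : ℂ × ℂ → ℂ × ℂ := fun p => S'.χ.q (S.χ.σ p) with hκ'
  have hκ0 : κ 0 = p' := hyq
  have hκan : AnalyticAt ℂ κ 0 :=
    AnalyticAt.comp (g := S.χ.q) (f := S'.χ.σ) (S.χ.q_an _ hyU) (S'.χ.σ_an 0 h0b)
  have hκan' : AnalyticAt ℂ κ' p' :=
    AnalyticAt.comp (g := S'.χ.q) (f := S.χ.σ) (S'.χ.q_an _ hzU) (S.χ.σ_an p' hp'b)
  have hevU : ∀ᶠ p in 𝓝 (0 : ℂ × ℂ), S'.χ.σ p ∈ S.χ.U :=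
    (S'.χ.σ_an 0 h0b).continuousAt.eventually_mem (S.χ.isOpen_U.mem_nhds hyU)
  have hevb : ∀ᶠ p in 𝓝 (0 : ℂ × ℂ), p ∈ ball (0 : ℂ × ℂ) 2 := isOpen_ball.mem_nhds h0b
  have hη' : 0 < η' := (norm_nonneg _).trans_lt (hS'.small 0 h0b)
  have hη : 0 < η := (norm_nonneg _).trans_lt (hS.small 0 h0b)
  -- local description
  have hev : ∀ᶠ p in 𝓝 (0 : ℂ × ℂ), κ' (κ p) = p ∧
      mo b S.ρ S.a S.c (κ p) = mo b S'.ρ S'.a S'.c p := by
    filter_upwards [hevU, hevb] with p h1 h2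
    obtain ⟨h3, h4, h5⟩ := S'.χ.σ_mem p h2
    obtain ⟨h6, c, hc, h7⟩ := S.χ.surj _ h3 h1
    have h7' : S.χ.σ (κ p) = c⁻¹ • S'.χ.σ p := by
      have h := congrArg (fun z => c⁻¹ • z) h7
      simp only [smul_smul, inv_mul_cancel₀ hc, one_smul] at h
      exact h.symm
    constructor
    · change S'.χ.q (S.χ.σ (κ p)) = p
      rw [h7', S'.χ.q_smul _ h4 _ (inv_ne_zero hc), h5]
    · have e1 := hS.mon.lift (κ p) h6
      have e2 := hS'.mon.lift p h2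
      have e3 : u (c⁻¹ • S'.χ.σ p) - u (S'.χ.σ p) ∈ Λ := E.tor.smul _ h3 _ (inv_ne_zero hc)
      rw [← h7'] at e3
      have e4 : mo b S.ρ S.a S.c (κ p) - mo b S'.ρ S'.a S'.c p ∈ Λ := by
        have : mo b S.ρ S.a S.c (κ p) - mo b S'.ρ S'.a S'.c p =
            (u (S'.χ.σ p) - mo b S'.ρ S'.a S'.c p) - (u (S.χ.σ (κ p)) - mo b S.ρ S.a S.c (κ p)) +
              (u (S.χ.σ (κ p)) - u (S'.χ.σ p)) := by ring
        rw [this]
        exact Λ.add_mem (Λ.sub_mem e2 e1) e3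
      have e5 : ‖mo b S.ρ S.a S.c (κ p) - mo b S'.ρ S'.a S'.c p‖ < η + η' := by
        have : mo b S.ρ S.a S.c (κ p) - mo b S'.ρ S'.a S'.c p =
            (mo b S.ρ S.a S.c (κ p) - b) - (mo b S'.ρ S'.a S'.c p - b) := by ring
        rw [this]
        exact (norm_sub_le _ _).trans_lt (add_lt_add (hS.small _ h6) (hS'.small _ h2))
      exact sub_eq_zero.1 (hinj _ e4 e5)
  have hmo : ∀ᶠ p in 𝓝 (0 : ℂ × ℂ), (S.ρ : ℂ) * ((κ p).1 ^ S.a * (κ p).2 ^ S.c) =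
      S'.ρ * (p.1 ^ S'.a * p.2 ^ S'.c) := by
    filter_upwards [hev] with p hp
    exact add_left_cancel hp.2
  have hρ : (S.ρ : ℂ) ≠ 0 := Complex.ofReal_ne_zero.2 hS.mon.pos.ne'
  -- the value at the point
  have hval : p'.1 ^ S.a * p'.2 ^ S.c = 0 := by
    have e1 := hS.mon.lift p' hp'b
    have e3 : u (c₁⁻¹ • x) - u x ∈ Λ := E.tor.smul _ hx _ (inv_ne_zero hc₁)
    rw [← hz] at e3
    have e4 : mo b S.ρ S.a S.c p' - b ∈ Λ := by
      have : mo b S.ρ S.a S.c p' - b = (u x - b) - (u (S.χ.σ p') - mo b S.ρ S.a S.c p') +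
          (u (S.χ.σ p') - u x) := by ring
      rw [this]
      exact Λ.add_mem (Λ.sub_mem hxb e1) e3
    have e5 : ‖mo b S.ρ S.a S.c p' - b‖ < η + η' := (hS.small _ hp'b).trans (by linarith)
    have e6 := hinj _ e4 e5
    have e7 : (S.ρ : ℂ) * (p'.1 ^ S.a * p'.2 ^ S.c) = 0 := by
      rw [← e6]; simp [mo]
    exact (mul_eq_zero.1 e7).resolve_left hρ
  have ha : S.a ≠ 0 := by have := hS.a_pos; omega
  have ha' : S'.a ≠ 0 := by have := hS'.a_pos; omega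
  by_cases hh : S'.hor = true
  · -- the point is in `P`
    have h1 : S'.χ.σ 0 ∈ P := (hS'.P_iff 0 h0b).2 ⟨hh, rfl⟩
    have h2 : x ∈ P := by rw [hx₂]; exact E.P_smul _ h1 _ hc₂
    have h3 : S.χ.σ p' ∈ P := by rw [hz]; exact E.P_smul _ h2 _ (inv_ne_zero hc₁)
    obtain ⟨h4, h5⟩ := (hS.P_iff p' hp'b).1 h3
    have h6 := hS.hor_c h4
    rw [h6, pow_zero, mul_one] at hval
    exact ⟨Or.inl h4, Prod.ext (pow_eq_zero_iff ha |>.1 hval) h5⟩
  · -- the transition map has an invertible derivative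
    have hc' : 1 ≤ S'.c := hsp.resolve_left hh
    have hc'0 : S'.c ≠ 0 := by omega
    have hsurj : Function.Surjective (fderiv ℂ κ 0) := by
      have d1 : HasFDerivAt κ (fderiv ℂ κ 0) 0 := hκan.differentiableAt.hasFDerivAt
      have d2 : HasFDerivAt κ' (fderiv ℂ κ' p') (κ 0) := by
        rw [hκ0]; exact hκan'.differentiableAt.hasFDerivAt
      have d3 := d2.comp 0 d1
      have d4 : HasFDerivAt (κ' ∘ κ) (ContinuousLinearMap.id ℂ (ℂ × ℂ)) 0 :=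
        (hasFDerivAt_id 0).congr_of_eventuallyEq (hev.mono fun p hp => hp.1)
      have d5 := d3.unique d4
      have hinjL : Function.Injective (fderiv ℂ κ 0).toLinearMap := by
        intro v w hvw
        have e1 : (fderiv ℂ κ' p') ((fderiv ℂ κ 0) v) = v := by
          have := congrArg (fun L : ℂ × ℂ →L[ℂ] ℂ × ℂ => L v) d5
          simpa using this
        have e2 : (fderiv ℂ κ' p') ((fderiv ℂ κ 0) w) = w := by
          have := congrArg (fun L : ℂ × ℂ →L[ℂ] ℂ × ℂ => L w) d5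
          simpa using this
        have e3 : (fderiv ℂ κ 0) v = (fderiv ℂ κ 0) w := hvw
        rw [← e1, ← e2, e3]
      exact LinearMap.injective_iff_surjective.1 hinjL
    have hd : HasFDerivAt κ (fderiv ℂ κ 0) 0 := hκan.differentiableAt.hasFDerivAt
    -- the axes
    have t1 : Tendsto (fun z : ℂ => ((z, 0) : ℂ × ℂ)) (𝓝 0) (𝓝 0) :=
      Continuous.tendsto' (by fun_prop) _ _ rfl
    have t2 : Tendsto (fun z : ℂ => ((0, z) : ℂ × ℂ)) (𝓝 0) (𝓝 0) :=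
      Continuous.tendsto' (by fun_prop) _ _ rfl
    have ax1 : ∀ᶠ z in 𝓝 (0 : ℂ), (κ (z, 0)).1 ^ S.a * (κ (z, 0)).2 ^ S.c = 0 := by
      filter_upwards [t1.eventually hmo] with z hz
      simp only [zero_pow hc'0, mul_zero] at hz
      exact (mul_eq_zero.1 hz).resolve_left hρ
    have ax2 : ∀ᶠ z in 𝓝 (0 : ℂ), (κ (0, z)).1 ^ S.a * (κ (0, z)).2 ^ S.c = 0 := by
      filter_upwards [t2.eventually hmo] with z hz
      simp only [zero_pow ha', zero_mul, mul_zero] at hz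
      exact (mul_eq_zero.1 hz).resolve_left hρ
    by_cases hc : S.c = 0
    · exfalso
      refine HoT_axes hd hsurj (ContinuousLinearMap.fst ℂ ℂ ℂ) (v₀ := (1, 0)) (by simp) ?_ ?_
      · filter_upwards [ax1] with z hz
        rw [hc, pow_zero, mul_one] at hz
        exact pow_eq_zero_iff ha |>.1 hz
      · filter_upwards [ax2] with z hz
        rw [hc, pow_zero, mul_one] at hz
        exact pow_eq_zero_iff ha |>.1 hz
    · refine ⟨Or.inr (Nat.one_le_iff_ne_zero.2 hc), ?_⟩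
      by_contra hne
      have hcont : ContinuousAt κ 0 := hκan.continuousAt
      rcases mul_eq_zero.1 hval with h | h
      · have h1 : p'.1 = 0 := pow_eq_zero_iff ha |>.1 h
        have h2 : (κ 0).2 ≠ 0 := by
          rw [hκ0]
          intro h2
          exact hne (Prod.ext h1 h2)
        have h3 : ∀ᶠ p in 𝓝 (0 : ℂ × ℂ), (κ p).2 ≠ 0 := (continuous_snd.continuousAt.comp hcont).eventually_ne h2
        refine HoT_axes hd hsurj (ContinuousLinearMap.fst ℂ ℂ ℂ) (v₀ := (1, 0)) (by simp) ?_ ?_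
        · filter_upwards [ax1, t1.eventually h3] with z hz hz'
          exact pow_eq_zero_iff ha |>.1 ((mul_eq_zero.1 hz).resolve_right (pow_ne_zero _ hz'))
        · filter_upwards [ax2, t2.eventually h3] with z hz hz'
          exact pow_eq_zero_iff ha |>.1 ((mul_eq_zero.1 hz).resolve_right (pow_ne_zero _ hz'))
      · have h1 : p'.2 = 0 := pow_eq_zero_iff hc |>.1 h
        have h2 : (κ 0).1 ≠ 0 := by
          rw [hκ0]
          intro h2
          exact hne (Prod.ext h2 h1)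
        have h3 : ∀ᶠ p in 𝓝 (0 : ℂ × ℂ), (κ p).1 ≠ 0 := (continuous_fst.continuousAt.comp hcont).eventually_ne h2
        refine HoT_axes hd hsurj (ContinuousLinearMap.snd ℂ ℂ ℂ) (v₀ := (0, 1)) (by simp) ?_ ?_
        · filter_upwards [ax1, t1.eventually h3] with z hz hz'
          exact pow_eq_zero_iff hc |>.1 ((mul_eq_zero.1 hz).resolve_left (pow_ne_zero _ hz'))
        · filter_upwards [ax2, t2.eventually h3] with z hz hz'
          exact pow_eq_zero_iff hc |>.1 ((mul_eq_zero.1 hz).resolve_left (pow_ne_zero _ hz'))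

end Pool.Agent.H18.LU
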