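import Pool.Agent.H18.LU.HoA
import Pool.Agent.H18.LU.HoT

/-!
# LU HoF: a finite family of charts

`exists_hfam`: `η` with `∀ l ∈ Λ, ‖l‖ < 2 η → l = 0` (`E.dsc.discrete`).  Let `R = ‖b‖`, `X₁ = part X Λ u (R + 1)`, a cone in the old sense; `𝓕 = pr '' {x ∈ X | u x - b ∈ Λ}` is compact (closed subset of the compact set `pr '' X₁`
(`Pool.Agent.H62.EF.isCompact_pr`, `part_isCone`): if `pr x n → pr x`, `x n`, `x ∈ X₁`, then by `part_unif` `u x - b` is a limit of elements of `Λ`; `Dsc.mem_of_close`).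
`T ⊆ 𝓕`: the points `pr x` such that `x` is the centre of a special chart `S` (`HOk P Λ u b η S`, `S.Sp`, `x ∈ S.χ.U`, `S.χ.q x = 0`).  By `hsp_iso` and `exists_hch` every point of `𝓕` has a neighbourhood which contains at most one point of
`T` (the points `pr y`, `y ∈ S.χ.U`: an open set, see `near_of_pr`; a point `pr y ∈ T` with `y ∈ S.χ.U`, `u y - b ∈ Λ` has `S.χ.q y = 0`, so `pr y = pr (S.χ.σ 0)`).  So `T` is finite (`IsCompact.elim_nhds_subcover`).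
Choose `r > 0` such that different points of `T` have distance `≥ 4 r`.  For `t ∈ T` take a special chart `S_t` with centre `t`, `HBd`, all points `r`-near `t` (`exists_hch` at `x` with `η' = min η r`; it is special: by `hsp_iso` with `S` the new
chart and `S'` the special chart which exists by definition of `T`); so the charts `S_t` are pairwise disjoint and `S_t.χ.σ p ∉ S_{t'}.χ.U` (`surj`: points of `X ∩ U` are `r`-near `t'`).
`K' = 𝓕 \ ⋃_t {y | ∃ p, ‖p.1‖ < 7/8 ∧ ‖p.2‖ < 7/8, y = pr (S_t.χ.σ p)}` is compact (these sets are relatively open in `pr '' X`: `pr x` with `x ∈ U`, `q x` in the open set).  For `y ∈ K'`, `y = pr x`: `y ∉ T`, and `y` has positive distance to the compact sets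
`C_t = pr '' (S_t.χ.σ '' {p | ‖p.1‖ ≤ 1/2 ∧ ‖p.2‖ ≤ 1/2})` (if `y = pr (S_t.χ.σ p)` with such `p` then `y` is not in `K'`).  `exists_hch` at `x` with `η'` smaller than half of this distance and `≤ η`: a chart `S_y`, all points `η'`-near `y`; not special, because
`y ∉ T`.  Finitely many of the open sets `{pr x' | x' ∈ S_y.χ.U, CenS (S_y.χ.q x')}` cover `K'`.  The family: all `S_t` and these `S_y`.
`ok`: `HOk` is monotone in `η` (`small`).  `sep`: `i` special is `S_t`; `j = S_{t'}`: disjoint; `j = S_y`: `C_t` is not near `y`.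
`cov`: let `O` be the union of the sets `{x | x ∈ (c k).χ.U, CenS (q x) ∨ 1 ≤ (c k).c ∧ CenS (q x).swap}` (open cones).  Points over `b` are in `O`: `pr x ∈ K'`: one of the `S_y`; otherwise `x = a • S_t.χ.σ p`, `‖p.1‖, ‖p.2‖ < 7/8`, `p.1 ^ a * p.2 ^ c = 0`: if
`p.1 = 0`: `CenS p`; if `p.1 ≠ 0` then `1 ≤ c`, `p.2 = 0`: `CenS p.swap`.  If no `s` works: `x n ∈ X \ O`, `u x n - z n ∈ Λ`, `z n → b`; `x n ∈ X₁`; a limit point `pr x` of `pr x n`, `x ∈ X₁`, `u x - b ∈ Λ` (`part_unif`), `x ∈ O`, so `x n ∈ O` for some `n`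
(`near_of_pr`, `O` is an open cone): contradiction.
-/

set_option autoImplicit false

open Topology Filter Metric

namespace Pool.Agent.H18.LU

open Pool.Agent.H36.BP (EN fs wd IsGermChart)
open Pool.Agent.H14.PP (IsCone Chart Tan CurveAt)
open Pool.Agent.H62.EF (Lat MN pr TorusMap Sec Charts DU)
open Pool.Agent.H62.EL (Gd Ag BadSet IsNC TForm Mon mo tc)

variable {N : ℕ} {X D P : Set (EN N)} {Λ Γ : AddSubgroup ℂ} {u : EN N → ℂ} {B : Set ℂ} {δ : ℝ}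

private theorem HoF_near {O : Set (EN N)} (hO : IsOpen O) (hs : ∀ x ∈ O, ∀ c : ℂ, c ≠ 0 → c • x ∈ O) {x : EN N} (hx : x ∈ O) (h0 : x ≠ 0) :
    ∃ r : ℝ, 0 < r ∧ ∀ y : EN N, y ≠ 0 → dist (pr y) (pr x) < r → y ∈ O := by
  obtain ⟨r, hr, h⟩ := Pool.Agent.H62.EF.near_of_pr h0 (hO.mem_nhds hx)
  refine ⟨r, hr, fun y hy hd => ?_⟩
  obtain ⟨c, hc, h1⟩ := h y hy hd
  have h2 := hs _ h1 c⁻¹ (inv_ne_zero hc)
  rwa [smul_smul, inv_mul_cancel₀ hc, one_smul] at h2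

/-- points over values near `b` are near the fibre over `b` -/
private theorem HoF_lim (E : LFib X D Λ Γ u B δ) (b : ℂ) {O : Set (EN N)} (hO : IsOpen O)
    (hs : ∀ x ∈ O, ∀ c : ℂ, c ≠ 0 → c • x ∈ O) (h : ∀ x ∈ X, u x - b ∈ Λ → x ∈ O) :
    ∃ s : ℝ, 0 < s ∧ ∀ z ∈ ball b s, ∀ x ∈ X, u x - z ∈ Λ → x ∈ O := by
  by_contra hcon
  push Not at hcon
  have h1 : ∀ n : ℕ, ∃ z ∈ ball b (1 / ((n : ℝ) + 1)), ∃ x ∈ X, u x - z ∈ Λ ∧ x ∉ O := fun n => hcon _ (by positivity)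
  choose z hz x hxX hxz hxO using h1
  have hzb : ∀ n, ‖z n - b‖ < 1 / ((n : ℝ) + 1) := fun n => mem_ball_iff_norm.mp (hz n)
  have h2 : ∀ n, x n ∈ part X Λ u (‖b‖ + 1) := by
    intro n
    refine part_mem_of_val (hxX n) (nb_mono ?_ (mem_nb_norm (z n))) (hxz n)
    have e1 : z n = b + (z n - b) := by ring
    have e2 : ‖z n‖ ≤ ‖b‖ + ‖z n - b‖ := by
      conv_lhs => rw [e1]
      exact norm_add_le _ _
    have e3 : 1 / ((n : ℝ) + 1) ≤ 1 := by
      rw [div_le_one (by positivity)]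
      have : (0 : ℝ) ≤ n := n.cast_nonneg
      linarith
    have e4 := hzb n
    linarith
  obtain ⟨y, ⟨x', hx', rfl⟩, φ, hφ, hlim⟩ := (Pool.Agent.H62.EF.isCompact_pr (E.part_isCone (‖b‖ + 1))).tendsto_subseq
    (fun n => Set.mem_image_of_mem pr (h2 n))
  have hxX' : x' ∈ X := hx'.1
  have hd : ∀ r : ℝ, 0 < r → ∀ᶠ n in atTop, dist (pr (x (φ n))) (pr x') < r := fun r hr =>
    hlim.eventually (Metric.ball_mem_nhds _ hr)
  have h3 : u x' - b ∈ Λ := by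
    apply E.dsc.mem_of_close
    intro ε hε
    obtain ⟨η, hη, h4⟩ := E.part_unif (‖b‖ + 1) (half_pos hε)
    have h6 : ∀ᶠ n in atTop, ‖z (φ n) - b‖ < ε / 2 := by
      have h7 : Tendsto (fun n : ℕ => 1 / ((n : ℝ) + 1)) atTop (𝓝 0) := tendsto_one_div_add_atTop_nhds_zero_nat
      have h8 : ∀ᶠ n : ℕ in atTop, 1 / ((n : ℝ) + 1) < ε / 2 := h7.eventually_lt_const (half_pos hε)
      filter_upwards [hφ.tendsto_atTop.eventually h8] with n hn
      exact lt_trans (hzb _) hn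
    obtain ⟨n, hn1, hn2⟩ := ((hd η hη).and h6).exists
    obtain ⟨l, hl, h7⟩ := h4 x' hx' (x (φ n)) (h2 _) (by rw [dist_comm]; exact hn1)
    refine ⟨l + (u (x (φ n)) - z (φ n)), Λ.add_mem hl (hxz _), ?_⟩
    have e1 : u x' - b - (l + (u (x (φ n)) - z (φ n))) = (u x' - u (x (φ n)) - l) + (z (φ n) - b) := by ring
    rw [e1]
    have e2 := norm_add_le (u x' - u (x (φ n)) - l) (z (φ n) - b)
    linarith
  obtain ⟨r, hr, h4⟩ := HoF_near hO hs (h x' hxX' h3) (E.cone.ne_zero hxX')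
  obtain ⟨n, hn⟩ := (hd r hr).exists
  exact hxO _ (h4 _ (E.cone.ne_zero (hxX _)) hn)

/-- the fibre over `b` -/
private def HoFb (X : Set (EN N)) (Λ : AddSubgroup ℂ) (u : EN N → ℂ) (b : ℂ) : Set (EN N) := {x | x ∈ X ∧ u x - b ∈ Λ}

private theorem HoF_cone (E : LFib X D Λ Γ u B δ) (b : ℂ) : IsCone (HoFb X Λ u b) := by
  refine ⟨fun h => E.cone.zero_notMem h.1, fun x hx c hc => ⟨E.cone.smul_mem x hx.1 c hc, ?_⟩, ?_⟩
  · have e1 : u (c • x) - b = (u (c • x) - u x) + (u x - b) := by ring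
    rw [e1]
    exact Λ.add_mem (E.tor.smul x hx.1 c hc) hx.2
  · rw [isClosed_iff_frequently]
    intro x hx
    have h1 : x ∈ insert 0 (part X Λ u ‖b‖) := by
      refine (isClosed_iff_frequently.mp (E.closed ‖b‖)) x (hx.mono ?_)
      rintro y (rfl | hy)
      · exact Set.mem_insert _ _
      · exact Set.mem_insert_of_mem _ (part_mem_of_val hy.1 (mem_nb_norm b) hy.2)
    rcases h1 with h1 | h1
    · exact Or.inl h1
    · right
      have hxX : x ∈ X := h1.1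
      refine ⟨hxX, ?_⟩
      obtain ⟨v, hv, hvu⟩ := E.tor.loc x hxX
      apply E.dsc.mem_of_close
      intro ε hε
      have h2 : ∀ᶠ y in 𝓝 x, ‖v y - v x‖ < ε := by
        have h3 := hv.continuousAt.eventually (Metric.ball_mem_nhds (v x) hε)
        filter_upwards [h3] with y hy
        exact mem_ball_iff_norm.mp hy
      have h3 : ∀ᶠ y in 𝓝 x, y ≠ 0 := (isOpen_ne).mem_nhds (E.cone.ne_zero hxX)
      obtain ⟨y, hy, ⟨h4, h5⟩, h6⟩ := (hx.and_eventually ((h2.and h3).and hvu)).exists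
      rcases hy with hy | hy
      · exact absurd hy h5
      · have h7 := h6 hy.1
        have h8 := hvu.self_of_nhds hxX
        refine ⟨(u x - v x) - (u y - v y) + (u y - b), Λ.add_mem (Λ.sub_mem h8 h7) hy.2, ?_⟩
        have e1 : u x - b - ((u x - v x) - (u y - v y) + (u y - b)) = -(v y - v x) := by ring
        rw [e1, norm_neg]
        exact h4

private theorem HoF_of_pr (hX : OCone X) (χ : Chart X) {x : EN N} (hx : x ≠ 0) {p : ℂ × ℂ} (hp : p ∈ ball (0 : ℂ × ℂ) 2)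
    (h : pr x = pr (χ.σ p)) : x ∈ χ.U ∧ χ.q x = p := by
  obtain ⟨h1, h2, h3⟩ := χ.σ_mem p hp
  obtain ⟨c, hc, rfl⟩ := (Pool.Agent.H62.EF.pr_eq_iff hx (hX.ne_zero h1)).mp h
  exact ⟨χ.smul_U _ h2 c hc, by rw [χ.q_smul _ h2 c hc, h3]⟩

private theorem HoF_pr (χ : Chart X) {x : EN N} (hx : x ∈ X) (hU : x ∈ χ.U) : pr x = pr (χ.σ (χ.q x)) := by
  obtain ⟨_, c, hc, h⟩ := χ.surj x hx hU
  conv_lhs => rw [h]
  exact Pool.Agent.H62.EF.pr_smul _ hc

private theorem HoF_mono {b : ℂ} {η η' : ℝ} (h : η ≤ η') {S : HCh X} (hS : HOk P Λ u b η S) : HOk P Λ u b η' S :=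
  ⟨hS.mon, hS.a_pos, hS.hor_c, hS.P_iff, fun p hp => lt_of_lt_of_le (hS.small p hp) h⟩

private theorem HoF_open (χ : Chart X) {A : Set (ℂ × ℂ)} (hA : IsOpen A) : IsOpen {x | x ∈ χ.U ∧ χ.q x ∈ A} := by
  have h1 : ContinuousOn χ.q χ.U := fun x hx => (χ.q_an x hx).continuousAt.continuousWithinAt
  exact h1.isOpen_inter_preimage χ.isOpen_U hA

private theorem HoF_smul (χ : Chart X) {A : Set (ℂ × ℂ)} {x : EN N} (hx : x ∈ χ.U ∧ χ.q x ∈ A) {c : ℂ} (hc : c ≠ 0) :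
    c • x ∈ χ.U ∧ χ.q (c • x) ∈ A :=
  ⟨χ.smul_U _ hx.1 c hc, by rw [χ.q_smul _ hx.1 c hc]; exact hx.2⟩

/-- the centres of the special charts -/
private def HoTb (X P : Set (EN N)) (Λ : AddSubgroup ℂ) (u : EN N → ℂ) (b : ℂ) (η : ℝ) : Set (MN N) :=
  {t | ∃ x ∈ HoFb X Λ u b, pr x = t ∧ ∃ S : HCh X, HOk P Λ u b η S ∧ S.Sp ∧ x ∈ S.χ.U ∧ S.χ.q x = 0}

private theorem HoF_fin (E : LData X D P Λ Γ u B δ) {α : TForm (X \ P) Λ u} (hlog : LogP α) {b : ℂ} (hb : b ∈ B) {η : ℝ} (hη : 0 < η)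
    (hinj : ∀ l ∈ Λ, ‖l‖ < η + η → l = 0) : (HoTb X P Λ u b η).Finite := by
  have hK : IsCompact (pr '' HoFb X Λ u b) := Pool.Agent.H62.EF.isCompact_pr (HoF_cone E.toLFib b)
  have h1 : ∀ y ∈ pr '' HoFb X Λ u b, ∃ V ∈ 𝓝 y, (V ∩ HoTb X P Λ u b η).Subsingleton := by
    rintro y ⟨x, hx, rfl⟩
    obtain ⟨S, hS, _, hxU, _, _⟩ := exists_hch E hlog hb hx.1 hx.2 hη
    obtain ⟨r, hr, h2⟩ := HoF_near S.χ.isOpen_U S.χ.smul_U hxU (E.cone.ne_zero hx.1)
    refine ⟨ball (pr x) r, Metric.ball_mem_nhds _ hr, ?_⟩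
    have h3 : ∀ t ∈ ball (pr x) r ∩ HoTb X P Λ u b η, t = pr (S.χ.σ 0) := by
      rintro t ⟨ht, x', hx', rfl, S', hS', hsp, hU', hq'⟩
      have hU : x' ∈ S.χ.U := h2 x' (E.cone.ne_zero hx'.1) ht
      have h4 := (hsp_iso E hinj hS hS' hsp hx'.1 hx'.2 hU hU' hq').2
      rw [HoF_pr S.χ hx'.1 hU, h4]
    intro t ht t' ht'
    rw [h3 t ht, h3 t' ht']
  choose! V hV hsub using h1
  obtain ⟨t, ht, hcov⟩ := hK.elim_nhds_subcover V hV
  refine (t.finite_toSet.biUnion (t := fun y => V y ∩ HoTb X P Λ u b η) (fun y hy => (hsub y (ht y hy)).finite)).subset ?_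
  intro y hy
  obtain ⟨x, hx, hxy, _⟩ := id hy
  have h2 := hcov (Set.mem_image_of_mem pr hx)
  rw [hxy] at h2
  simp only [Set.mem_iUnion] at h2 ⊢
  obtain ⟨i, hi, h3⟩ := h2
  exact ⟨i, hi, h3, hy⟩

private theorem HoF_sep {T : Set (MN N)} (hT : T.Finite) : ∃ r : ℝ, 0 < r ∧ ∀ t ∈ T, ∀ t' ∈ T, t ≠ t' → 4 * r ≤ dist t t' := by
  have h1 : ∀ᶠ r : ℝ in 𝓝[>] 0, ∀ t ∈ T, ∀ t' ∈ T, t ≠ t' → 4 * r ≤ dist t t' := by
    rw [Filter.eventually_all_finite hT]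
    intro t ht
    rw [Filter.eventually_all_finite hT]
    intro t' ht'
    by_cases h : t = t'
    · exact Filter.Eventually.of_forall fun r h' => absurd h h'
    · have h2 : 0 < dist t t' := dist_pos.mpr h
      have h3 : ∀ᶠ r : ℝ in 𝓝[>] 0, r < dist t t' / 4 := by
        have h4 : ∀ᶠ r : ℝ in 𝓝 0, r < dist t t' / 4 := Iio_mem_nhds (by positivity)
        exact h4.filter_mono nhdsWithin_le_nhds
      filter_upwards [h3] with r hr _
      linarith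
  obtain ⟨r, h2, h3⟩ := (h1.and self_mem_nhdsWithin).exists
  exact ⟨r, h3, h2⟩

private theorem HoF_tr {b : ℂ} {η : ℝ} {ι κ : Type} (e : ι ≃ κ) {c : ι → HCh X} (h : HFam P Λ u b η ι c) :
    HFam P Λ u b η κ (fun k => c (e.symm k)) := by
  refine ⟨fun k => h.ok _, h.inj, fun i j hij => h.sep _ _ (fun h' => hij (e.symm.injective h')), ?_⟩
  obtain ⟨s, hs, h1⟩ := h.cov
  refine ⟨s, hs, fun z hz x hx hux => ?_⟩
  obtain ⟨k, hk⟩ := h1 z hz x hx hux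
  refine ⟨e k, ?_⟩
  simp only [Equiv.symm_apply_apply]
  exact hk

/-- the cross is covered -/
private theorem HoF_cross (hu : TorusMap X Λ u) {b : ℂ} {η : ℝ} (hinj : ∀ l ∈ Λ, ‖l‖ < η + η → l = 0) {S : HCh X} (hS : HOk P Λ u b η S)
    (hη : 0 < η) {x : EN N} (hx : x ∈ HoFb X Λ u b) (hU : x ∈ S.χ.U) (hq : S.χ.q x ∈ ball (0 : ℂ × ℂ) (7 / 8)) :
    CenS (S.χ.q x) ∨ 1 ≤ S.c ∧ CenS (S.χ.q x).swap := by
  obtain ⟨h1, c, hc, h2⟩ := S.χ.surj x hx.1 hU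
  obtain ⟨h3, h4, h5⟩ := S.χ.σ_mem _ h1
  have hn : ‖S.χ.q x‖ < 7 / 8 := mem_ball_zero_iff.mp hq
  have hn1 : ‖(S.χ.q x).1‖ < 7 / 8 := lt_of_le_of_lt (norm_fst_le _) hn
  have hn2 : ‖(S.χ.q x).2‖ < 7 / 8 := lt_of_le_of_lt (norm_snd_le _) hn
  have h6 : u (S.χ.σ (S.χ.q x)) - mo b S.ρ S.a S.c (S.χ.q x) ∈ Λ := hS.mon.lift _ h1
  have h7 : u x - u (S.χ.σ (S.χ.q x)) ∈ Λ := by
    have := hu.smul _ h3 c hc
    rwa [← h2] at this
  have h8 : mo b S.ρ S.a S.c (S.χ.q x) - b ∈ Λ := by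
    have e1 : mo b S.ρ S.a S.c (S.χ.q x) - b = (u x - b) - (u x - u (S.χ.σ (S.χ.q x))) - (u (S.χ.σ (S.χ.q x)) - mo b S.ρ S.a S.c (S.χ.q x)) := by
      ring
    rw [e1]
    exact Λ.sub_mem (Λ.sub_mem hx.2 h7) h6
  have h9 := hinj _ h8 (lt_trans (hS.small _ h1) (by linarith))
  have h10 : (S.ρ : ℂ) * ((S.χ.q x).1 ^ S.a * (S.χ.q x).2 ^ S.c) = 0 := by
    have e1 : mo b S.ρ S.a S.c (S.χ.q x) - b = (S.ρ : ℂ) * ((S.χ.q x).1 ^ S.a * (S.χ.q x).2 ^ S.c) := by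
      unfold mo
      ring
    rw [← e1]
    exact h9
  have h11 : (S.ρ : ℂ) ≠ 0 := by exact_mod_cast hS.mon.pos.ne'
  rcases mul_eq_zero.mp (by simpa [h11] using h10 : (S.χ.q x).1 ^ S.a * (S.χ.q x).2 ^ S.c = 0) with h12 | h12
  · left
    have h13 : (S.χ.q x).1 = 0 := by
      have := hS.a_pos
      exact pow_eq_zero_iff (by omega) |>.mp h12
    refine ⟨?_, hn2⟩
    rw [h13, norm_zero]
    norm_num
  · right
    have h14 : S.c ≠ 0 := by
      intro h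
      rw [h, pow_zero] at h12
      exact one_ne_zero h12
    have h13 : (S.χ.q x).2 = 0 := (pow_eq_zero_iff h14).mp h12
    refine ⟨by omega, ?_, hn1⟩
    show ‖(S.χ.q x).2‖ < 3 / 8
    rw [h13, norm_zero]
    norm_num

theorem exists_hfam (E : LData X D P Λ Γ u B δ) {α : TForm (X \ P) Λ u} (hlog : LogP α) {b : ℂ} (hb : b ∈ B) :
    ∃ (η : ℝ) (n : ℕ) (c : Fin n → HCh X), 0 < η ∧ HFam P Λ u b η (Fin n) c ∧ ∀ k, HBd α b (c k) := by
  classical
  obtain ⟨δ₀, hδ₀, hinj0⟩ := E.dsc.discrete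
  obtain ⟨η, hη, hηd⟩ : ∃ η : ℝ, 0 < η ∧ η + η ≤ δ₀ := ⟨δ₀ / 2, by positivity, by linarith⟩
  have hinj : ∀ l ∈ Λ, ‖l‖ < η + η → l = 0 := fun l hl h => hinj0 l hl (lt_of_lt_of_le h hηd)
  have hT : (HoTb X P Λ u b η).Finite := HoF_fin E hlog hb hη hinj
  obtain ⟨r, hr, hrT⟩ := HoF_sep hT
  have hK : IsCompact (pr '' HoFb X Λ u b) := Pool.Agent.H62.EF.isCompact_pr (HoF_cone E.toLFib b)
  -- the special charts
  have hSt : ∀ t : HoTb X P Λ u b η, ∃ S : HCh X, HOk P Λ u b η S ∧ HBd α b S ∧ S.Sp ∧ pr (S.χ.σ 0) = t ∧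
      ∀ p ∈ ball (0 : ℂ × ℂ) 2, dist (pr (S.χ.σ p)) t < r := by
    rintro ⟨t, x, hx, rfl, S', hS', hsp, hU', hq'⟩
    obtain ⟨S, hS, hbd, hxU, hxq, hd⟩ := exists_hch E hlog hb hx.1 hx.2 (lt_min hη hr)
    have hS2 : HOk P Λ u b η S := HoF_mono (min_le_left _ _) hS
    refine ⟨S, hS2, hbd, (hsp_iso E hinj hS2 hS' hsp hx.1 hx.2 hxU hU' hq').1, ?_, fun p hp => lt_of_lt_of_le (hd p hp) (min_le_right _ _)⟩
    show pr (S.χ.σ 0) = pr x
    rw [HoF_pr S.χ hx.1 hxU, hxq]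
  choose St hok hbd hsp hcen hnear using hSt
  have hTfin : Finite (HoTb X P Λ u b η) := hT.to_subtype
  -- the compact set of the centres
  have hball : ∀ p ∈ closedBall (0 : ℂ × ℂ) (1 / 2), p ∈ ball (0 : ℂ × ℂ) 2 := fun p hp => by
    rw [mem_closedBall_zero_iff] at hp
    rw [mem_ball_zero_iff]
    linarith
  obtain ⟨C, hCdef⟩ : ∃ C : Set (MN N), C = ⋃ t, (fun p => pr ((St t).χ.σ p)) '' closedBall (0 : ℂ × ℂ) (1 / 2) := ⟨_, rfl⟩
  have hC : IsCompact C := by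
    rw [hCdef]
    refine isCompact_iUnion fun t => (isCompact_closedBall _ _).image_of_continuousOn fun p hp => ?_
    have h1 := hball p hp
    exact (ContinuousAt.comp (g := pr) (Pool.Agent.H62.EF.continuousAt_pr (E.cone.ne_zero ((St t).χ.σ_mem p h1).1))
      ((St t).χ.σ_an p h1).continuousAt).continuousWithinAt
  have hCmem : ∀ (t : HoTb X P Λ u b η), ∀ p ∈ closedBall (0 : ℂ × ℂ) (1 / 2), pr ((St t).χ.σ p) ∈ C := fun t p hp => by
    rw [hCdef]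
    exact Set.mem_iUnion.mpr ⟨t, p, hp, rfl⟩
  -- the open cone of the special charts
  obtain ⟨OT, hOTdef⟩ : ∃ OT : Set (EN N), OT = ⋃ t, {x | x ∈ (St t).χ.U ∧ (St t).χ.q x ∈ ball (0 : ℂ × ℂ) (7 / 8)} := ⟨_, rfl⟩
  have hOTo : IsOpen OT := by
    rw [hOTdef]
    exact isOpen_iUnion fun t => HoF_open (St t).χ isOpen_ball
  have hOTs : ∀ x ∈ OT, ∀ c : ℂ, c ≠ 0 → c • x ∈ OT := by
    intro x hx c hc
    rw [hOTdef] at hx ⊢
    obtain ⟨t, ht⟩ := Set.mem_iUnion.mp hx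
    exact Set.mem_iUnion.mpr ⟨t, HoF_smul (St t).χ ht hc⟩
  -- the cover
  have hcov : ∀ y ∈ pr '' HoFb X Λ u b, ∃ V ∈ 𝓝 y, (∀ x ∈ HoFb X Λ u b, pr x ∈ V → x ∈ OT) ∨
      ∃ S : HCh X, HOk P Λ u b η S ∧ HBd α b S ∧ ¬ S.Sp ∧ (∀ p ∈ ball (0 : ℂ × ℂ) 2, pr (S.χ.σ p) ∉ C) ∧
        ∀ x ∈ HoFb X Λ u b, pr x ∈ V → x ∈ S.χ.U ∧ CenS (S.χ.q x) := by
    rintro y ⟨x, hx, rfl⟩
    have hx0 : x ≠ 0 := E.cone.ne_zero hx.1
    by_cases hxO : x ∈ OT
    · obtain ⟨r', hr', h1⟩ := HoF_near hOTo hOTs hxO hx0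
      exact ⟨ball (pr x) r', Metric.ball_mem_nhds _ hr', Or.inl fun x' hx' hd => h1 x' (E.cone.ne_zero hx'.1) hd⟩
    · have hxC : pr x ∉ C := by
        intro h
        rw [hCdef] at h
        obtain ⟨t, p, hp, h1⟩ := Set.mem_iUnion.mp h
        obtain ⟨h2, h3⟩ := HoF_of_pr E.cone (St t).χ hx0 (hball p hp) h1.symm
        apply hxO
        rw [hOTdef]
        refine Set.mem_iUnion.mpr ⟨t, h2, ?_⟩
        rw [h3, mem_ball_zero_iff]
        rw [mem_closedBall_zero_iff] at hp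
        linarith
      have hxT : pr x ∉ HoTb X P Λ u b η := by
        intro h
        obtain ⟨h2, h3⟩ := HoF_of_pr E.cone (St ⟨_, h⟩).χ hx0 (mem_ball_self (by norm_num)) (hcen ⟨_, h⟩).symm
        apply hxO
        rw [hOTdef]
        refine Set.mem_iUnion.mpr ⟨⟨_, h⟩, h2, ?_⟩
        rw [h3]
        exact mem_ball_self (by norm_num)
      obtain ⟨d, hd, hdC⟩ := Metric.isOpen_iff.mp hC.isClosed.isOpen_compl (pr x) hxC
      obtain ⟨S, hS, hbdS, hxU, hxq, hnr⟩ := exists_hch E hlog hb hx.1 hx.2 (lt_min hη hd)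
      have hS2 : HOk P Λ u b η S := HoF_mono (min_le_left _ _) hS
      have hA : IsOpen {p : ℂ × ℂ | CenS p} := by
        have h1 : {p : ℂ × ℂ | CenS p} = {p : ℂ × ℂ | ‖p.1‖ < 3 / 8} ∩ {p : ℂ × ℂ | ‖p.2‖ < 7 / 8} := rfl
        rw [h1]
        exact (isOpen_lt (continuous_norm.comp continuous_fst) continuous_const).inter
          (isOpen_lt (continuous_norm.comp continuous_snd) continuous_const)
      have hx1 : x ∈ {x | x ∈ S.χ.U ∧ S.χ.q x ∈ {p : ℂ × ℂ | CenS p}} := by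
        refine ⟨hxU, ?_⟩
        rw [hxq]
        constructor
        · show ‖(0 : ℂ)‖ < 3 / 8
          rw [norm_zero]
          norm_num
        · show ‖(0 : ℂ)‖ < 7 / 8
          rw [norm_zero]
          norm_num
      obtain ⟨r', hr', h1⟩ := HoF_near (HoF_open S.χ hA) (fun x hx c hc => HoF_smul S.χ hx hc) hx1 hx0
      refine ⟨ball (pr x) r', Metric.ball_mem_nhds _ hr', Or.inr ⟨S, hS2, hbdS, ?_, ?_, fun x' hx' hd' => h1 x' (E.cone.ne_zero hx'.1) hd'⟩⟩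
      · intro hsp'
        exact hxT ⟨x, hx, rfl, S, hS2, hsp', hxU, hxq⟩
      · intro p hp h
        exact hdC (lt_of_lt_of_le (hnr p hp) (min_le_right _ _)) h
  choose! V hV hVS using hcov
  obtain ⟨t, htK, htcov⟩ := hK.elim_nhds_subcover V hV
  obtain ⟨J, hJdef⟩ : ∃ J : Set (MN N), J = {y | y ∈ t ∧ ∃ S : HCh X, HOk P Λ u b η S ∧ HBd α b S ∧ ¬ S.Sp ∧
    (∀ p ∈ ball (0 : ℂ × ℂ) 2, pr (S.χ.σ p) ∉ C) ∧ ∀ x ∈ HoFb X Λ u b, pr x ∈ V y → x ∈ S.χ.U ∧ CenS (S.χ.q x)} := ⟨_, rfl⟩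
  have hJfin : Finite J := by
    have h1 : J.Finite := t.finite_toSet.subset (by rw [hJdef]; exact fun y hy => hy.1)
    exact h1.to_subtype
  have hJS : ∀ j : J, ∃ S : HCh X, HOk P Λ u b η S ∧ HBd α b S ∧ ¬ S.Sp ∧
      (∀ p ∈ ball (0 : ℂ × ℂ) 2, pr (S.χ.σ p) ∉ C) ∧ ∀ x ∈ HoFb X Λ u b, pr x ∈ V j → x ∈ S.χ.U ∧ CenS (S.χ.q x) := by
    rintro ⟨j, hj⟩
    rw [hJdef] at hj
    exact hj.2
  choose SJ hokJ hbdJ hspJ hfarJ hcovJ using hJS
  obtain ⟨cc, hcc⟩ : ∃ cc : (HoTb X P Λ u b η) ⊕ J → HCh X, cc = Sum.elim St SJ := ⟨_, rfl⟩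
  have hfam : HFam P Λ u b η ((HoTb X P Λ u b η) ⊕ J) cc := by
    refine ⟨?_, fun l hl h => hinj l hl (by linarith), ?_, ?_⟩
    · rintro (k | k)
      · rw [hcc]; exact hok k
      · rw [hcc]; exact hokJ k
    · rintro (i | i) j hij hspi p hp1 hp2 hmem
      · have hp : p ∈ closedBall (0 : ℂ × ℂ) (1 / 2) := by
          rw [mem_closedBall_zero_iff, Prod.norm_def]
          exact max_le hp1 hp2
        have hp' := hball p hp
        rw [hcc] at hmem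
        have hX1 : (St i).χ.σ p ∈ X := ((St i).χ.σ_mem p hp').1
        rcases j with j | j
        · have hmem' : (St i).χ.σ p ∈ (St j).χ.U := hmem
          have h1 := HoF_pr (St j).χ hX1 hmem'
          have h2 := ((St j).χ.surj _ hX1 hmem').1
          have h3 := hnear j _ h2
          have h4 := hnear i p hp'
          rw [h1] at h4
          have hne : (i : MN N) ≠ j := fun h => hij (by rw [Subtype.ext h])
          have h5 := hrT i i.2 j j.2 hne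
          have h6 := dist_triangle_left (i : MN N) j (pr ((St j).χ.σ ((St j).χ.q ((St i).χ.σ p))))
          linarith
        · have hmem' : (St i).χ.σ p ∈ (SJ j).χ.U := hmem
          have h1 := HoF_pr (SJ j).χ hX1 hmem'
          have h2 := ((SJ j).χ.surj _ hX1 hmem').1
          apply hfarJ j _ h2
          rw [← h1]
          exact hCmem i p hp
      · rw [hcc] at hspi
        exact hspJ i hspi
    · obtain ⟨O, hOdef⟩ : ∃ O : Set (EN N), O = ⋃ k, {x | x ∈ (cc k).χ.U ∧ (cc k).χ.q x ∈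
        {p : ℂ × ℂ | CenS p ∨ 1 ≤ (cc k).c ∧ CenS p.swap}} := ⟨_, rfl⟩
      have hOo : IsOpen O := by
        rw [hOdef]
        refine isOpen_iUnion fun k => HoF_open (cc k).χ ?_
        have hA : IsOpen {p : ℂ × ℂ | CenS p} := by
          have h1 : {p : ℂ × ℂ | CenS p} = {p : ℂ × ℂ | ‖p.1‖ < 3 / 8} ∩ {p : ℂ × ℂ | ‖p.2‖ < 7 / 8} := rfl
          rw [h1]
          exact (isOpen_lt (continuous_norm.comp continuous_fst) continuous_const).inter
            (isOpen_lt (continuous_norm.comp continuous_snd) continuous_const)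
        have hA' : IsOpen {p : ℂ × ℂ | CenS p.swap} := hA.preimage continuous_swap
        by_cases hc : 1 ≤ (cc k).c
        · have h1 : {p : ℂ × ℂ | CenS p ∨ 1 ≤ (cc k).c ∧ CenS p.swap} = {p : ℂ × ℂ | CenS p} ∪ {p : ℂ × ℂ | CenS p.swap} := by
            ext p
            simp [hc]
          rw [h1]
          exact hA.union hA'
        · have h1 : {p : ℂ × ℂ | CenS p ∨ 1 ≤ (cc k).c ∧ CenS p.swap} = {p : ℂ × ℂ | CenS p} := by
            ext p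
            simp [hc]
          rw [h1]
          exact hA
      have hOs : ∀ x ∈ O, ∀ c : ℂ, c ≠ 0 → c • x ∈ O := by
        intro x hx c hc
        rw [hOdef] at hx ⊢
        obtain ⟨k, hk⟩ := Set.mem_iUnion.mp hx
        exact Set.mem_iUnion.mpr ⟨k, HoF_smul (cc k).χ hk hc⟩
      have hOF : ∀ x ∈ X, u x - b ∈ Λ → x ∈ O := by
        intro x hx hux
        have hxF : x ∈ HoFb X Λ u b := ⟨hx, hux⟩
        have h1 := htcov (Set.mem_image_of_mem pr hxF)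
        simp only [Set.mem_iUnion] at h1
        obtain ⟨y, hy, hxV⟩ := h1
        rw [hOdef]
        rcases hVS y (htK y hy) with h2 | h2
        · have h3 := h2 x hxF hxV
          rw [hOTdef] at h3
          obtain ⟨t', h4, h5⟩ := Set.mem_iUnion.mp h3
          refine Set.mem_iUnion.mpr ⟨Sum.inl t', ?_⟩
          rw [hcc]
          exact ⟨h4, HoF_cross E.tor hinj (hok t') hη hxF h4 h5⟩
        · have hyJ : y ∈ J := by
            rw [hJdef]
            exact ⟨hy, h2⟩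
          have h3 := hcovJ ⟨y, hyJ⟩ x hxF hxV
          refine Set.mem_iUnion.mpr ⟨Sum.inr ⟨y, hyJ⟩, ?_⟩
          rw [hcc]
          exact ⟨h3.1, Or.inl h3.2⟩
      obtain ⟨s, hs, h1⟩ := HoF_lim E.toLFib b hOo hOs hOF
      refine ⟨s, hs, fun z hz x hx hux => ?_⟩
      have h2 := h1 z hz x hx hux
      rw [hOdef] at h2
      obtain ⟨k, hk⟩ := Set.mem_iUnion.mp h2
      exact ⟨k, hk.1, hk.2⟩
  obtain ⟨n, ⟨e⟩⟩ := Finite.exists_equiv_fin ((HoTb X P Λ u b η) ⊕ J)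
  refine ⟨η, n, fun k => cc (e.symm k), hη, HoF_tr e hfam, fun k => ?_⟩
  show HBd α b (cc (e.symm k))
  rcases e.symm k with k' | k'
  · rw [hcc]; exact hbd k'
  · rw [hcc]; exact hbdJ k'

end Pool.Agent.H18.LU
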