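import Pool.Agent.H18.LU.Oc
import Pool.Agent.H62.EL.Tc

/-!
# (Copy for open cones and discrete groups, see `Oc`.) EL Tc: coefficients of forms in charts

`tc_an`: `TForm.analytic` with `φ = χ.σ` (`χ.σ_mem`: `χ.σ y ∈ X` for `y ∈ ball 0 2`).

`tc_trans` (compare `FormTrans_lift`, `FormTrans_coef` in `H14/PP/FormTrans.lean`): near `p` we have `χ'.σ y = c y • χ.σ (τ y)`, `τ y = χ.q (χ'.σ y)`,
with `c` analytic, `c ≠ 0` (`Chart.surj`; `c` is analytic because for a linear form `ℓ` with `ℓ (χ.σ (τ p)) ≠ 0`: `c y = ℓ (χ'.σ y) / ℓ (χ.σ (τ y))`).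
So `∂_e χ'.σ = c • Dχ.σ (τ p) (Dτ p e) + (∂_e c) • χ.σ (τ p)`.  With `x = χ'.σ p = c • χ.σ (τ p)`: by `add_smul` (multiples of `x`), `scale`, `det`
(`Dτ e_1 = (τ_1)_1 e_1 + (τ_2)_1 e_2` ...), `toFun z x ∂₁ ∂₂ = jac τ p * toFun z (χ.σ (τ p)) (∂₁ χ.σ) (∂₂ χ.σ)`, where `z = υ' p = υ (τ p)`.
The vectors `Dχ.σ e` are tangent (`Chart.tan`, or directly: the curve `ξ ↦ χ.σ (q + ξ e)`).

`exists_prim`: `exists_prim_snd` with `R = 2`, `a = tc α χ (mo c ρ i j)` (`mo` is a polynomial).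

`zr_iff`: `→`: if `x ∈ X`, `pr x = pr (χ.σ p)`, then `x = a • χ.σ p`; use `scale`.  `←`: `x = χ.σ p`; every tangent vector at `χ.σ p` is
`a • ∂₁ + b • ∂₂ + c • x` (a curve `F` in `X` near `χ.σ p` is `F ξ = a ξ • χ.σ (χ.q (F ξ))`, see `Chart.curve`), so by `add_smul` and `det` the form is
`(det) * tc = 0`.
-/

set_option autoImplicit false

open Topology Filter Metric

namespace Pool.Agent.H18.LU

open Pool.Agent.H62.EL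

open Pool.Agent.H36.BP (EN fs wd IsGermChart)
open Pool.Agent.H14.PP (Chart Tan CurveAt jac)
open Pool.Agent.H62.EF (MN pr TorusMap Sec Charts DU)

variable {N : ℕ} {X : Set (EN N)} {Λ : AddSubgroup ℂ} {u : EN N → ℂ}

private theorem Tc_open (hX : OCone X) : Pool.Agent.H14.PP.IsOpenPart X X :=
  ⟨subset_rfl, hX.smul_mem, fun _ _ => Eventually.of_forall fun _ h => h⟩

private theorem Tc_tan_smul (hX : OCone X) {x v : EN N} (h : Tan X x v) {c : ℂ} (hc : c ≠ 0) :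
    Tan X (c • x) (c • v) := by
  obtain ⟨F, hF, hF0, hFd⟩ := h
  refine ⟨fun z => c • F z, ⟨AnalyticAt.fun_smul analyticAt_const hF.1, ?_⟩, ?_, ?_⟩
  · filter_upwards [hF.2] with z hz
    exact hX.smul_mem _ hz c hc
  · show c • F 0 = c • x
    rw [hF0]
  · have h1 : HasDerivAt (fun z => c • F z) (c • deriv F 0) 0 :=
      hF.1.differentiableAt.hasDerivAt.const_smul c
    rw [h1.deriv, hFd]

/-- The lift: `χ.σ y = c y • χ'.σ (τ y)` near `p`, with `c` differentiable at `p`. -/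
private theorem Tc_lift (hX : OCone X) (χ χ' : Chart X) {p : ℂ × ℂ}
    (hp : p ∈ ball (0 : ℂ × ℂ) 2) (hU : χ.σ p ∈ χ'.U) :
    ∃ (c : ℂ) (c' : (ℂ × ℂ) →L[ℂ] ℂ), c ≠ 0 ∧ χ'.q (χ.σ p) ∈ ball (0 : ℂ × ℂ) 2 ∧
      χ.σ p = c • χ'.σ (χ'.q (χ.σ p)) ∧
      ∀ w : ℂ × ℂ, fderiv ℂ χ.σ p w =
        c • fderiv ℂ χ'.σ (χ'.q (χ.σ p)) (fderiv ℂ (fun y => χ'.q (χ.σ y)) p w) +
          c' w • χ'.σ (χ'.q (χ.σ p)) := by
  obtain ⟨hτ, c0, hc0, hx⟩ := χ'.surj (χ.σ p) (χ.σ_mem p hp).1 hU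
  set x' : EN N := χ'.σ (χ'.q (χ.σ p)) with hx'
  have hx'0 : x' ≠ 0 := χ'.sigma_ne_zeroO hX hτ
  have hin : inner ℂ x' x' ≠ 0 := by
    rw [Ne, inner_self_eq_zero]
    exact hx'0
  have hτan : AnalyticAt ℂ (fun y => χ'.q (χ.σ y)) p :=
    AnalyticAt.comp (g := χ'.q) (f := χ.σ) (χ'.q_an _ hU) (χ.σ_an p hp)
  have hσ'an : AnalyticAt ℂ (fun y => χ'.σ (χ'.q (χ.σ y))) p :=
    AnalyticAt.comp (g := χ'.σ) (f := fun y => χ'.q (χ.σ y)) (χ'.σ_an _ hτ) hτan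
  have hnum : AnalyticAt ℂ (fun y => innerSL ℂ x' (χ.σ y)) p :=
    AnalyticAt.comp (g := fun v => innerSL ℂ x' v) (f := χ.σ)
      ((innerSL ℂ x').analyticAt _) (χ.σ_an p hp)
  have hden : AnalyticAt ℂ (fun y => innerSL ℂ x' (χ'.σ (χ'.q (χ.σ y)))) p :=
    AnalyticAt.comp (g := fun v => innerSL ℂ x' v) (f := fun y => χ'.σ (χ'.q (χ.σ y)))
      ((innerSL ℂ x').analyticAt _) hσ'an
  have hden0 : innerSL ℂ x' (χ'.σ (χ'.q (χ.σ p))) ≠ 0 := by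
    rw [← hx', innerSL_apply_apply]
    exact hin
  let C : ℂ × ℂ → ℂ := fun y => innerSL ℂ x' (χ.σ y) / innerSL ℂ x' (χ'.σ (χ'.q (χ.σ y)))
  have hC : AnalyticAt ℂ C p := hnum.div hden hden0
  have hCp : C p = c0 := by
    show innerSL ℂ x' (χ.σ p) / innerSL ℂ x' (χ'.σ (χ'.q (χ.σ p))) = c0
    rw [div_eq_iff hden0]
    conv_lhs => rw [hx]
    rw [map_smul, smul_eq_mul]
  have hev : ∀ᶠ y in 𝓝 p, χ.σ y = C y • χ'.σ (χ'.q (χ.σ y)) := by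
    have h1 : ∀ᶠ y in 𝓝 p, y ∈ ball (0 : ℂ × ℂ) 2 := isOpen_ball.mem_nhds hp
    have h2 : ∀ᶠ y in 𝓝 p, χ.σ y ∈ χ'.U :=
      (χ.σ_an p hp).continuousAt.eventually (χ'.isOpen_U.mem_nhds hU)
    have h3 : ∀ᶠ y in 𝓝 p, innerSL ℂ x' (χ'.σ (χ'.q (χ.σ y))) ≠ 0 :=
      hden.continuousAt.eventually_ne hden0
    filter_upwards [h1, h2, h3] with y hy1 hy2 hy3
    obtain ⟨-, b, hb, hxb⟩ := χ'.surj (χ.σ y) (χ.σ_mem y hy1).1 hy2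
    have h4 : C y = b := by
      show innerSL ℂ x' (χ.σ y) / innerSL ℂ x' (χ'.σ (χ'.q (χ.σ y))) = b
      rw [div_eq_iff hy3]
      conv_lhs => rw [hxb]
      rw [map_smul, smul_eq_mul]
    rw [h4]
    exact hxb
  refine ⟨c0, fderiv ℂ C p, hc0, hτ, hx, fun w => ?_⟩
  have hD1 : HasFDerivAt (fun y => χ'.σ (χ'.q (χ.σ y)))
      ((fderiv ℂ χ'.σ (χ'.q (χ.σ p))).comp (fderiv ℂ (fun y => χ'.q (χ.σ y)) p)) p :=
    HasFDerivAt.comp (g := χ'.σ) (f := fun y => χ'.q (χ.σ y)) p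
      (χ'.σ_an _ hτ).differentiableAt.hasFDerivAt hτan.differentiableAt.hasFDerivAt
  have hD2 : HasFDerivAt (fun y => C y • χ'.σ (χ'.q (χ.σ y)))
      (C p • ((fderiv ℂ χ'.σ (χ'.q (χ.σ p))).comp (fderiv ℂ (fun y => χ'.q (χ.σ y)) p)) +
        (fderiv ℂ C p).smulRight (χ'.σ (χ'.q (χ.σ p)))) p :=
    hC.differentiableAt.hasFDerivAt.smul hD1
  have hD3 : HasFDerivAt χ.σ
      (C p • ((fderiv ℂ χ'.σ (χ'.q (χ.σ p))).comp (fderiv ℂ (fun y => χ'.q (χ.σ y)) p)) +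
        (fderiv ℂ C p).smulRight (χ'.σ (χ'.q (χ.σ p)))) p :=
    hD2.congr_of_eventuallyEq hev
  rw [hD3.fderiv, hCp]
  rfl

private theorem Tc_pair (L : (ℂ × ℂ) →L[ℂ] EN N) (w : ℂ × ℂ) :
    L w = w.1 • L (1, 0) + w.2 • L (0, 1) := by
  rw [← map_smul, ← map_smul, ← map_add]
  congr 1
  ext
  · simp
  · simp

private theorem Tc_val (hX : OCone X) (α : TForm X Λ u) (χ : Chart X) {p : ℂ × ℂ} {z : ℂ}
    (hp : p ∈ ball (0 : ℂ × ℂ) 2) (hl : u (χ.σ p) - z ∈ Λ) (A B : ℂ × ℂ) :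
    α.toFun z (χ.σ p) (fderiv ℂ χ.σ p A) (fderiv ℂ χ.σ p B) =
      (A.1 * B.2 - A.2 * B.1) * α.toFun z (χ.σ p) (fderiv ℂ χ.σ p (1, 0)) (fderiv ℂ χ.σ p (0, 1)) := by
  have hx := (χ.σ_mem p hp).1
  have h3 := α.det z (χ.σ p) hx hl _ _ (χ.tan (Tc_open hX) hp hx (1, 0)) (χ.tan (Tc_open hX) hp hx (0, 1))
    A.1 A.2 B.1 B.2
  rw [← Tc_pair, ← Tc_pair] at h3
  exact h3

/-- every tangent vector at `χ.σ p` is `Dσ m + b σ` -/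
private theorem Tc_tan (hX : OCone X) (χ : Chart X) {p : ℂ × ℂ} (hp : p ∈ ball (0 : ℂ × ℂ) 2) {v : EN N}
    (hv : Tan X (χ.σ p) v) : ∃ (m : ℂ × ℂ) (b : ℂ), v = fderiv ℂ χ.σ p m + b • χ.σ p := by
  obtain ⟨F, hF, hF0, hFd⟩ := hv
  have hm := χ.σ_mem p hp
  have hU : F 0 ∈ χ.U := by rw [hF0]; exact hm.2.1
  obtain ⟨h1, -, c, hc, hc0, hev⟩ := χ.curveO hX hF hU
  have hq0 : χ.q (F 0) = p := by rw [hF0]; exact hm.2.2
  have hc1 : c 0 = 1 := by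
    have h2 := hev.self_of_nhds.2
    rw [hq0, hF0] at h2
    have h3 : (c 0 - 1) • χ.σ p = 0 := by rw [sub_smul, one_smul, ← h2, sub_self]
    have h4 := (smul_eq_zero.1 h3).resolve_right (χ.sigma_ne_zeroO hX hp)
    exact sub_eq_zero.1 h4
  refine ⟨deriv (fun z => χ.q (F z)) 0, deriv c 0, ?_⟩
  have hσ : HasFDerivAt χ.σ (fderiv ℂ χ.σ p) (χ.q (F 0)) := by
    rw [hq0]
    exact (χ.σ_an p hp).differentiableAt.hasFDerivAt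
  have hD1 : HasDerivAt (fun z => χ.σ (χ.q (F z))) (fderiv ℂ χ.σ p (deriv (fun z => χ.q (F z)) 0)) 0 :=
    hσ.comp_hasDerivAt (0 : ℂ) h1.differentiableAt.hasDerivAt
  have hD2 : HasDerivAt (fun z => c z • χ.σ (χ.q (F z)))
      (c 0 • fderiv ℂ χ.σ p (deriv (fun z => χ.q (F z)) 0) + deriv c 0 • χ.σ (χ.q (F 0))) 0 :=
    hc.differentiableAt.hasDerivAt.smul hD1
  have hD3 : HasDerivAt F (c 0 • fderiv ℂ χ.σ p (deriv (fun z => χ.q (F z)) 0) + deriv c 0 • χ.σ (χ.q (F 0))) 0 :=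
    hD2.congr_of_eventuallyEq (hev.mono fun z hz => hz.2)
  rw [← hFd, hD3.deriv, hc1, one_smul, hq0]


theorem tc_transO (hX : OCone X) (hu : TorusMap X Λ u) (α : TForm X Λ u) (χ χ' : Chart X) {υ υ' : ℂ × ℂ → ℂ} {p : ℂ × ℂ}
    (hp : p ∈ ball (0 : ℂ × ℂ) 2) (hU : χ'.σ p ∈ χ.U) (hl : u (χ'.σ p) - υ' p ∈ Λ) (he : υ (χ.q (χ'.σ p)) = υ' p) :
    tc α χ' υ' p = tc α χ υ (χ.q (χ'.σ p)) * jac (fun y => χ.q (χ'.σ y)) p := by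
  obtain ⟨c, c', hc, hτ, hx, hD⟩ := Tc_lift hX χ' χ hp hU
  have hx'X : χ.σ (χ.q (χ'.σ p)) ∈ X := (χ.σ_mem _ hτ).1
  set x' : EN N := χ.σ (χ.q (χ'.σ p)) with hx'
  set A : ℂ × ℂ := fderiv ℂ (fun y => χ.q (χ'.σ y)) p (1, 0) with hA
  set B : ℂ × ℂ := fderiv ℂ (fun y => χ.q (χ'.σ y)) p (0, 1) with hB
  have htA : Tan X x' (fderiv ℂ χ.σ (χ.q (χ'.σ p)) A) := χ.tan (Tc_open hX) hτ hx'X A
  have htB : Tan X x' (fderiv ℂ χ.σ (χ.q (χ'.σ p)) B) := χ.tan (Tc_open hX) hτ hx'X B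
  have hV : fderiv ℂ χ'.σ p (1, 0) =
      c • fderiv ℂ χ.σ (χ.q (χ'.σ p)) A + (c' (1, 0) * c⁻¹) • (c • x') := by
    rw [hD (1, 0), smul_smul, mul_assoc, inv_mul_cancel₀ hc, mul_one]
  have hW : fderiv ℂ χ'.σ p (0, 1) =
      c • fderiv ℂ χ.σ (χ.q (χ'.σ p)) B + (c' (0, 1) * c⁻¹) • (c • x') := by
    rw [hD (0, 1), smul_smul, mul_assoc, inv_mul_cancel₀ hc, mul_one]
  have hcx : c • x' ∈ X := hX.smul_mem _ hx'X c hc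
  have hl1 : u (c • x') - υ' p ∈ Λ := by rw [← hx]; exact hl
  have hl2 : u x' - υ' p ∈ Λ := by
    have h := Λ.sub_mem hl1 (hu.smul x' hx'X c hc)
    have e : u (c • x') - υ' p - (u (c • x') - u x') = u x' - υ' p := by ring
    rwa [e] at h
  have h1 := α.add_smul (υ' p) (c • x') hcx hl1 _ _ (Tc_tan_smul hX htA hc) (Tc_tan_smul hX htB hc)
    (c' (1, 0) * c⁻¹) (c' (0, 1) * c⁻¹)
  have h2 := α.scale (υ' p) x' hx'X hl2 _ _ htA htB c hc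
  have h3 := Tc_val hX α χ hτ (z := υ' p) hl2 A B
  have h4 : tc α χ' υ' p = α.toFun (υ' p) (c • x') (c • fderiv ℂ χ.σ (χ.q (χ'.σ p)) A)
      (c • fderiv ℂ χ.σ (χ.q (χ'.σ p)) B) := by
    rw [← h1, ← hV, ← hW, ← hx]
    rfl
  rw [h4, h2, h3]
  have h5 : jac (fun y => χ.q (χ'.σ y)) p = A.1 * B.2 - A.2 * B.1 := by
    show A.1 * B.2 - B.1 * A.2 = _
    ring
  rw [h5, mul_comm]
  congr 1
  show _ = α.toFun (υ (χ.q (χ'.σ p))) _ _ _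
  rw [he]

theorem mo_an (b : ℂ) (ρ : ℝ) (i j : ℕ) (p : ℂ × ℂ) : AnalyticAt ℂ (mo b ρ i j) p := by
  show AnalyticAt ℂ (fun p : ℂ × ℂ => b + ρ * (p.1 ^ i * p.2 ^ j)) p
  exact analyticAt_const.add (analyticAt_const.mul ((analyticAt_fst.pow i).mul (analyticAt_snd.pow j)))


theorem zr_iffO (hX : OCone X) (hu : TorusMap X Λ u) (α : TForm X Λ u) (χ : Chart X) {υ : ℂ × ℂ → ℂ} {p : ℂ × ℂ}
    (hp : p ∈ ball (0 : ℂ × ℂ) 2) (hl : u (χ.σ p) - υ p ∈ Λ) : Zr α (υ p) (pr (χ.σ p)) ↔ tc α χ υ p = 0 := by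
  have hm := χ.σ_mem p hp
  constructor
  · rintro ⟨x, hx, hpr, hz, h0⟩
    obtain ⟨c, hc, rfl⟩ := (Pool.Agent.H62.EF.pr_eq_iff
      (OCone.ne_zero hX hx) (χ.sigma_ne_zeroO hX hp)).1 hpr
    have ht1 := χ.tan (Tc_open hX) hp hm.1 (1, 0)
    have ht2 := χ.tan (Tc_open hX) hp hm.1 (0, 1)
    have h1 := h0 _ _ (Tc_tan_smul hX ht1 hc) (Tc_tan_smul hX ht2 hc)
    rw [α.scale (υ p) (χ.σ p) hm.1 hl _ _ ht1 ht2 c hc] at h1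
    exact h1
  · intro h0
    refine ⟨χ.σ p, hm.1, rfl, hl, ?_⟩
    intro v w hv hw
    obtain ⟨m₁, b₁, rfl⟩ := Tc_tan hX χ hp hv
    obtain ⟨m₂, b₂, rfl⟩ := Tc_tan hX χ hp hw
    rw [α.add_smul (υ p) (χ.σ p) hm.1 hl _ _ (χ.tan (Tc_open hX) hp hm.1 m₁) (χ.tan (Tc_open hX) hp hm.1 m₂),
      Tc_val hX α χ hp hl]
    have h1 : α.toFun (υ p) (χ.σ p) (fderiv ℂ χ.σ p (1, 0)) (fderiv ℂ χ.σ p (0, 1)) = 0 := h0
    rw [h1, mul_zero]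

end Pool.Agent.H18.LU
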