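import Pool.Agent.H18.LU.HoDef
import Pool.Agent.H18.LU.OTc
import Pool.Agent.EG.LE.Frm

/-!
# LU HoM: the family of charts is a model

Compare `exists_model` in `EG/TM/ExM.lean` (team-store `eg_tm.tgz`, or ask helper18).  `ι = {a : Fin n × Bool // a.2 = true → 1 ≤ (c a.1).c}`; the charts `χ a = if a.2 then swp (c a.1).χ else (c a.1).χ`; `M.s a p = pr ((χ a).σ p)`,
`ex a = decide ((c a.1).Sp)`, `(a, b)`-exponents `(c.a, c.c)` resp. exchanged `(c.c, c.a)` (both `≥ 1`), `k = (c a.1).ρ`,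
`g a t p = M.L a p * α.toFun (b + exp t) ((χ a).σ p) (∂₁) (∂₂)`, `orb = 1`, `C₀`, `κ` from `bphi_hole`.
`η_M`: the minimum of `1/4` and of the numbers of the following uniformity for all pairs of indices with different base charts: for `x` in the compact set `closedBall 0 1` with `(χ j).σ x ∈ (χ i).U`, `(χ i).q ((χ j).σ x) ∈ closedBall 0 1`:
all `y ∈ ball x η_M` are in `ball 0 2`, `(χ j).σ y ∈ (χ i).U`, `‖(χ i).q ((χ j).σ y) - (χ i).q ((χ j).σ x)‖ < 1/4`.  [The set of these `x` is compact: it is the set of the `x ∈ closedBall 0 1` with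
`pr ((χ j).σ x) ∈ pr '' ((χ i).σ '' closedBall 0 1)`: if `pr ((χ j).σ x) = pr ((χ i).σ p)` then `(χ j).σ x` is a multiple of `(χ i).σ p`, so it is in `(χ i).U` with `q = p`; and the map `(χ i).q ∘ (χ j).σ` is continuous near it.]
`ρ_M`: positive, `≤ η`, `≤ s` (of `cov`), `≤ ‖k i‖`, `≤ η_M * ‖k i‖ / 8 / 2 ^ (b i)` for all `i`.
Fields of `Model`: `inj`: `pr (σ p) = pr (σ q)` gives `q = p` (`pr_eq_iff`, `q_smul`, `σ_mem`); `ζ = 1`.  `rot_eq`: `ζ = 1`.  `g_an`: `TForm.analytic` for `X \ P` (`υ q = b + exp (t q) = b + M.u i q`; `σ q ∉ P` near `p`: `P_iff` and `L i p ≠ 0`), `Mon.lift`.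
`trans`: same base chart: equal or exchanged (`Sw`: `σ (p.swap)`; the derivatives are exchanged, `det` of `TForm` with `(0, 1, 1, 0)` gives the sign); different base charts: `Rg` with `τ y = (χ i).q ((χ j).σ y)`: analytic;
`(χ j).σ y = c • (χ i).σ (τ y)` (`surj`); `M.u i (τ y) = M.u j y`: `u_eq`, `TorusMap.smul`, and `inj` (both `< η`); for `y.1 ≠ 0`: the form: as in `tc_transO` (the coefficient of `χ j` at `y` is `jac τ y` times the one of `χ i` at `τ y`),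
the point is outside `P` (see below).  `1 / 2 ≤ ‖p.2‖` if `ex i`: otherwise `‖p.1‖, ‖p.2‖ ≤ 1/2` and `(χ i).σ p ∈ (χ j).U` contradicts `sep` (also for exchanged charts); same for `q`.  `P`: if `ex i = true`, `τ y ∈ ball p (1/4)`, so `(τ y).2 ≠ 0`, and if
`ex i = false` the chart does not meet `P`.  `‖q.1‖ ≤ η_M / 4`: `‖k_j‖ ‖q.1‖ ^ a ‖q.2‖ ^ b = ‖u‖ < ρ_M`, `‖q.2‖ ^ b ≥ 2 ^ (-b)`, and `‖q.1‖ ^ a ≤ (η_M/4) ^ a` must follow: take `ρ_M ≤ (η_M / 4) ^ a * ‖k‖ / 2 ^ (b + 1)` for all `i`.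
`bphi`: `bphi_hole` (`EG/RL/Bd`): `‖g‖ = ‖p.1‖ ‖p.2‖^{[ex]} ‖coefficient‖`, `HBd`; for exchanged charts `‖p.1‖ ‖p.2‖` is symmetric.
`cov` from `HFam.cov`.
-/

set_option autoImplicit false

open Topology Filter Metric

namespace Pool.Agent.H18.LU

open Pool.Agent.H36.BP (EN fs wd IsGermChart)
open Pool.Agent.H14.PP (IsCone Chart Tan CurveAt jac)
open Pool.Agent.H62.EF (Lat MN pr TorusMap Sec Charts DU)
open Pool.Agent.H62.EL (Gd Ag BadSet IsNC TForm Mon mo tc)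
open Pool.Agent.EG.RL (Model Atl Cen Bphi rot)
open Pool.Agent.EG.LE (cf cf_change)

variable {N : ℕ} {X D P : Set (EN N)} {Λ Γ : AddSubgroup ℂ} {u : EN N → ℂ} {B : Set ℂ} {δ : ℝ}

private theorem HoM_cone (E : LData X D P Λ Γ u B δ) : OCone (X \ P) := by
  refine ⟨fun h => E.cone.zero_notMem h.1, fun x hx c hc => ⟨E.cone.smul_mem x hx.1 c hc, fun h => hx.2 ?_⟩⟩
  have h1 := E.P_smul _ h c⁻¹ (inv_ne_zero hc)
  rwa [smul_smul, inv_mul_cancel₀ hc, one_smul] at h1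

/-- the chart with constants, coordinates exchanged -/
private noncomputable def HoM_sw (S : HCh X) : HCh X := ⟨swp S.χ, S.ρ, S.c, S.a, S.hor⟩

private theorem HoM_mo (b : ℂ) (ρ : ℝ) (i j : ℕ) (p : ℂ × ℂ) : mo b ρ j i p = mo b ρ i j p.swap := by
  simp only [mo, Prod.fst_swap, Prod.snd_swap]
  ring

private theorem HoM_swb {p : ℂ × ℂ} {r : ℝ} (h : p ∈ ball (0 : ℂ × ℂ) r) : p.swap ∈ ball (0 : ℂ × ℂ) r := by
  rw [mem_ball_zero_iff, Prod.norm_def] at h ⊢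
  rw [max_comm]
  exact h

private theorem HoM_ok {b : ℂ} {η : ℝ} {S : HCh X} (h : HOk P Λ u b η S) (hc : 1 ≤ S.c) : HOk P Λ u b η (HoM_sw S) where
  mon := ⟨h.mon.pos, by
    have := h.mon.ij
    show 0 < S.c + S.a
    omega, fun p hp => by
    show u (S.χ.σ p.swap) - mo b S.ρ S.c S.a p ∈ Λ
    rw [HoM_mo]
    exact h.mon.lift _ (HoM_swb hp)⟩
  a_pos := hc
  hor_c := fun h' => absurd (h.hor_c h') (by omega)
  P_iff := fun p hp => by
    show S.χ.σ p.swap ∈ P ↔ S.hor = true ∧ p.2 = 0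
    rw [h.P_iff _ (HoM_swb hp)]
    constructor
    · rintro ⟨h1, -⟩
      exact absurd (h.hor_c h1) (by omega)
    · rintro ⟨h1, -⟩
      exact absurd (h.hor_c h1) (by omega)
  small := fun p hp => by
    show ‖mo b S.ρ S.c S.a p - b‖ < η
    rw [HoM_mo]
    exact h.small _ (HoM_swb hp)

private theorem HoM_jac (p : ℂ × ℂ) : jac (fun y : ℂ × ℂ => y.swap) p = -1 := by
  have h : HasFDerivAt (fun y : ℂ × ℂ => y.swap) ((ContinuousLinearMap.snd ℂ ℂ ℂ).prod (ContinuousLinearMap.fst ℂ ℂ ℂ)) p :=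
    HasFDerivAt.prodMk hasFDerivAt_snd hasFDerivAt_fst
  unfold jac
  rw [h.fderiv]
  simp

/-- near a point outside `P` -/
private theorem HoM_near (E : LData X D P Λ Γ u B δ) (χ : Chart X) {p : ℂ × ℂ} (hp : p ∈ ball (0 : ℂ × ℂ) 2) (hP : χ.σ p ∉ P) :
    ∀ᶠ y in 𝓝 p, χ.σ y ∈ X \ P := by
  filter_upwards [isOpen_ball.mem_nhds hp, (χ.σ_an p hp).continuousAt.eventually (E.P_closed _ (χ.σ_mem p hp).1 hP)] with y hy hy2
  exact ⟨(χ.σ_mem y hy).1, hy2⟩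

/-- change of charts -/
private theorem HoM_form (E : LData X D P Λ Γ u B δ) (α : TForm (X \ P) Λ u) (χ χ' : Chart X) {p : ℂ × ℂ} (hp : p ∈ ball (0 : ℂ × ℂ) 2)
    (hU : χ'.σ p ∈ χ.U) (hP : χ'.σ p ∉ P) {t : ℂ} (ht : u (χ'.σ p) - t ∈ Λ) :
    cf α χ'.σ t p = cf α χ.σ t (χ.q (χ'.σ p)) * jac (fun y => χ.q (χ'.σ y)) p := by
  obtain ⟨hq, c, hc, hx⟩ := χ.surj _ (χ'.σ_mem p hp).1 hU
  have hPq : χ.σ (χ.q (χ'.σ p)) ∉ P := fun h => hP (by rw [hx]; exact E.P_smul _ h c hc)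
  have hτ : AnalyticAt ℂ (fun y => χ.q (χ'.σ y)) p :=
    AnalyticAt.comp (g := χ.q) (f := χ'.σ) (χ.q_an _ hU) (χ'.σ_an p hp)
  have hut : u (χ.σ (χ.q (χ'.σ p))) - t ∈ Λ := by
    have h1 := E.tor.smul _ (χ.σ_mem _ hq).1 c hc
    rw [← hx] at h1
    have h2 := Λ.sub_mem ht h1
    have e : u (χ'.σ p) - t - (u (χ'.σ p) - u (χ.σ (χ.q (χ'.σ p)))) = u (χ.σ (χ.q (χ'.σ p))) - t := by ring
    rwa [e] at h2
  refine cf_change (α := α) (HoM_cone E).zero_notMem (HoM_cone E).smul_mem (φ := χ'.σ) (ψ := χ.σ) (τ := fun y => χ.q (χ'.σ y)) (χ'.σ_an p hp)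
    (χ.σ_an _ hq) hτ (HoM_near E χ hq hPq) hut ?_
  filter_upwards [isOpen_ball.mem_nhds hp, (χ'.σ_an p hp).continuousAt.eventually (χ.isOpen_U.mem_nhds hU)] with y hy hyU
  obtain ⟨-, c, hc, h⟩ := χ.surj _ (χ'.σ_mem y hy).1 hyU
  exact ⟨c, hc, h⟩

/-- exchanged coordinates -/
private theorem HoM_swf (E : LData X D P Λ Γ u B δ) (α : TForm (X \ P) Λ u) (χ : Chart X) {p : ℂ × ℂ} (hp : p ∈ ball (0 : ℂ × ℂ) 2)
    (hP : χ.σ p.swap ∉ P) {t : ℂ} (ht : u (χ.σ p.swap) - t ∈ Λ) : cf α (swp χ).σ t p = -cf α χ.σ t p.swap := by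
  have h1 : AnalyticAt ℂ (fun y : ℂ × ℂ => y.swap) p := analyticAt_snd.prod analyticAt_fst
  have h2 := cf_change (α := α) (HoM_cone E).zero_notMem (HoM_cone E).smul_mem (φ := (swp χ).σ) (ψ := χ.σ) (τ := fun y => y.swap) ((swp χ).σ_an p hp)
    (χ.σ_an _ (HoM_swb hp)) h1 (HoM_near E χ (HoM_swb hp) hP) ht (Eventually.of_forall fun y => ⟨1, one_ne_zero, (one_smul _ _).symm⟩)
  rw [h2, HoM_jac, mul_neg_one]

private theorem HoM_bd (E : LData X D P Λ Γ u B δ) {α : TForm (X \ P) Λ u} {b : ℂ} {η : ℝ} {S : HCh X} (h : HOk P Λ u b η S) (hc : 1 ≤ S.c)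
    (hb : HBd α b S) : HBd α b (HoM_sw S) := by
  obtain ⟨C, hC⟩ := hb
  have hh : S.hor ≠ true := fun h' => absurd (h.hor_c h') (by omega)
  refine ⟨C, fun p hp hP => ?_⟩
  have hP' : S.χ.σ p.swap ∉ P := hP
  have h1 := hC _ (HoM_swb hp) hP'
  rw [if_neg hh, one_mul] at h1
  have h2 := HoM_swf E α S.χ hp hP' (t := mo b S.ρ S.a S.c p.swap) (h.mon.lift _ (HoM_swb hp))
  show ‖(if S.hor = true then p.2 else 1) * cf α (swp S.χ).σ (mo b S.ρ S.c S.a p) p‖ ≤ C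
  rw [if_neg hh, one_mul, HoM_mo, h2, norm_neg]
  exact h1

/-- type of the chart -/
private def HoM_ex (S : HCh X) : Bool := S.hor || decide (1 ≤ S.c)

private theorem HoM_ex_iff (S : HCh X) : HoM_ex S = true ↔ S.Sp := by
  unfold HoM_ex HCh.Sp
  simp

/-- the frame -/
private def HoM_L (S : HCh X) (p : ℂ × ℂ) : ℂ := p.1 * (if HoM_ex S = true then p.2 else 1)

/-- the function -/
private noncomputable def HoM_u (S : HCh X) (p : ℂ × ℂ) : ℂ := (S.ρ : ℂ) * p.1 ^ S.a * p.2 ^ (S.c : ℤ)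

private theorem HoM_u_eq (S : HCh X) (b : ℂ) (p : ℂ × ℂ) : mo b S.ρ S.a S.c p = b + HoM_u S p := by
  unfold mo HoM_u
  rw [zpow_natCast]
  ring

private theorem HoM_L_P {b : ℂ} {η : ℝ} {S : HCh X} (h : HOk P Λ u b η S) {p : ℂ × ℂ} (hp : p ∈ ball (0 : ℂ × ℂ) 2) (hL : HoM_L S p ≠ 0) :
    S.χ.σ p ∉ P := by
  intro hP
  obtain ⟨h1, h2⟩ := (h.P_iff p hp).1 hP
  apply hL
  unfold HoM_L
  rw [if_pos ((HoM_ex_iff S).2 (Or.inl h1)), h2, mul_zero]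

private theorem HoM_L_an (S : HCh X) (p : ℂ × ℂ) : AnalyticAt ℂ (HoM_L S) p := by
  unfold HoM_L
  split_ifs
  · exact analyticAt_fst.mul analyticAt_snd
  · exact analyticAt_fst.mul analyticAt_const

/-- the coefficient is analytic -/
private theorem HoM_an (_E : LData X D P Λ Γ u B δ) (α : TForm (X \ P) Λ u) {b : ℂ} {η : ℝ} {S : HCh X} (h : HOk P Λ u b η S) {p : ℂ × ℂ}
    (hp : p ∈ ball (0 : ℂ × ℂ) 2) (hL : HoM_L S p ≠ 0) {t : ℂ × ℂ → ℂ} (ht : AnalyticAt ℂ t p) (hte : ∀ᶠ q in 𝓝 p, Complex.exp (t q) = HoM_u S q) :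
    AnalyticAt ℂ (fun q => HoM_L S q * cf α S.χ.σ (b + Complex.exp (t q)) q) p := by
  refine (HoM_L_an S p).mul ?_
  refine α.analytic S.χ.σ (fun q => b + Complex.exp (t q)) p (S.χ.σ_an p hp) (analyticAt_const.add ht.cexp) ?_
  filter_upwards [hte, isOpen_ball.mem_nhds hp, (HoM_L_an S p).continuousAt.eventually_ne hL] with q h1 h2 h3
  refine ⟨⟨(S.χ.σ_mem q h2).1, HoM_L_P h h2 h3⟩, ?_⟩
  rw [h1, ← HoM_u_eq]
  exact h.mon.lift q h2

/-- uniform size of the overlaps -/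
private theorem HoM_unif (hX : OCone X) (χ χ' : Chart X) : ∃ r : ℝ, 0 < r ∧ ∀ x ∈ closedBall (0 : ℂ × ℂ) 1, χ'.σ x ∈ χ.U →
    χ.q (χ'.σ x) ∈ closedBall (0 : ℂ × ℂ) 1 → ∀ y ∈ ball x r, y ∈ ball (0 : ℂ × ℂ) 2 ∧ χ'.σ y ∈ χ.U ∧
      ‖χ.q (χ'.σ y) - χ.q (χ'.σ x)‖ < 1 / 4 := by
  have h12 : ∀ x ∈ closedBall (0 : ℂ × ℂ) 1, x ∈ ball (0 : ℂ × ℂ) 2 := fun x hx => by
    rw [mem_closedBall_zero_iff] at hx
    rw [mem_ball_zero_iff]
    linarith
  have hcont : ∀ χ : Chart X, ContinuousOn (fun x => pr (χ.σ x)) (closedBall (0 : ℂ × ℂ) 1) := fun χ x hx =>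
    ((Pool.Agent.H62.EF.continuousAt_pr (hX.ne_zero (χ.σ_mem x (h12 x hx)).1)).comp
      (χ.σ_an x (h12 x hx)).continuousAt).continuousWithinAt
  have hcpt : IsCompact ((fun x => pr (χ.σ x)) '' closedBall (0 : ℂ × ℂ) 1) :=
    (isCompact_closedBall (0 : ℂ × ℂ) 1).image_of_continuousOn (hcont χ)
  have hK : IsCompact (closedBall (0 : ℂ × ℂ) 1 ∩ (fun x => pr (χ'.σ x)) ⁻¹' ((fun x => pr (χ.σ x)) '' closedBall (0 : ℂ × ℂ) 1)) :=
    (isCompact_closedBall (0 : ℂ × ℂ) 1).of_isClosed_subset ((hcont χ').preimage_isClosed_of_isClosed isClosed_closedBall hcpt.isClosed)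
      Set.inter_subset_left
  set K := closedBall (0 : ℂ × ℂ) 1 ∩ (fun x => pr (χ'.σ x)) ⁻¹' ((fun x => pr (χ.σ x)) '' closedBall (0 : ℂ × ℂ) 1) with hKd
  have hKU : ∀ x ∈ K, χ'.σ x ∈ χ.U := by
    rintro x ⟨hx, y, hy, hxy⟩
    obtain ⟨h1, h2, -⟩ := χ.σ_mem y (h12 y hy)
    obtain ⟨c, hc, h4⟩ := (Pool.Agent.H62.EF.pr_eq_iff (hX.ne_zero (χ'.σ_mem x (h12 x hx)).1) (hX.ne_zero h1)).1 hxy.symm
    rw [h4]
    exact χ.smul_U _ h2 c hc
  have hloc : ∀ x : K, ∃ r : ℝ, 0 < r ∧ ∀ y ∈ ball (x : ℂ × ℂ) r, y ∈ ball (0 : ℂ × ℂ) 2 ∧ χ'.σ y ∈ χ.U ∧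
      ‖χ.q (χ'.σ y) - χ.q (χ'.σ x)‖ < 1 / 8 := by
    rintro ⟨x, hx⟩
    have hx2 := h12 x hx.1
    have h1 := isOpen_ball.mem_nhds hx2
    have h2 := (χ'.σ_an x hx2).continuousAt.eventually (χ.isOpen_U.mem_nhds (hKU x hx))
    have h3 : ContinuousAt (fun y => χ.q (χ'.σ y)) x :=
      ContinuousAt.comp (g := χ.q) (f := χ'.σ) (χ.q_an _ (hKU x hx)).continuousAt (χ'.σ_an x hx2).continuousAt
    have h4 : ∀ᶠ y in 𝓝 x, ‖χ.q (χ'.σ y) - χ.q (χ'.σ x)‖ < 1 / 8 := by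
      have := h3.eventually (ball_mem_nhds _ (by norm_num : (0 : ℝ) < 1 / 8))
      filter_upwards [this] with y hy
      rwa [dist_eq_norm] at hy
    obtain ⟨r, hr, h5⟩ := Metric.eventually_nhds_iff_ball.1 ((h2.and h4).and (Filter.eventually_mem_set.2 h1))
    exact ⟨r, hr, fun y hy => ⟨(h5 y hy).2, (h5 y hy).1.1, (h5 y hy).1.2⟩⟩
  choose r hr hr' using hloc
  obtain ⟨e, he, he'⟩ := lebesgue_number_lemma_of_metric hK (c := fun x : K => ball (x : ℂ × ℂ) (r x)) (fun x => isOpen_ball)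
    (fun x hx => Set.mem_iUnion.2 ⟨⟨x, hx⟩, mem_ball_self (hr _)⟩)
  refine ⟨e, he, fun x hx hxU hxq y hy => ?_⟩
  have hxK : x ∈ K := by
    refine ⟨hx, χ.q (χ'.σ x), hxq, ?_⟩
    obtain ⟨h1, c, hc, h2⟩ := χ.surj _ (χ'.σ_mem x (h12 x hx)).1 hxU
    exact ((Pool.Agent.H62.EF.pr_eq_iff (hX.ne_zero (χ'.σ_mem x (h12 x hx)).1) (hX.ne_zero (χ.σ_mem _ h1).1)).2 ⟨c, hc, h2⟩).symm
  obtain ⟨x₀, hx₀⟩ := he' x hxK
  obtain ⟨h1, h2, h3⟩ := hr' x₀ y (hx₀ hy)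
  obtain ⟨-, -, h6⟩ := hr' x₀ x (hx₀ (mem_ball_self he))
  refine ⟨h1, h2, ?_⟩
  have h7 : χ.q (χ'.σ y) - χ.q (χ'.σ x) = (χ.q (χ'.σ y) - χ.q (χ'.σ x₀)) - (χ.q (χ'.σ x) - χ.q (χ'.σ x₀)) := by abel
  rw [h7]
  refine (norm_sub_le _ _).trans_lt ?_
  linarith

/-- the overlap of two charts -/
private theorem HoM_rg (E : LData X D P Λ Γ u B δ) (α : TForm (X \ P) Λ u) {b : ℂ} {η : ℝ} {S T : HCh X} (hS : HOk P Λ u b η S)
    (hT : HOk P Λ u b η T) (hinj : ∀ l ∈ Λ, ‖l‖ < 2 * η → l = 0) {x : ℂ × ℂ} (hx : x ∈ ball (0 : ℂ × ℂ) 2) (hU : T.χ.σ x ∈ S.χ.U) :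
    AnalyticAt ℂ (fun y => S.χ.q (T.χ.σ y)) x ∧ pr (T.χ.σ x) = pr (S.χ.σ (S.χ.q (T.χ.σ x))) ∧ HoM_u S (S.χ.q (T.χ.σ x)) = HoM_u T x ∧
      (T.χ.σ x ∉ P → ∀ t, Complex.exp t = HoM_u T x → HoM_L T x * cf α T.χ.σ (b + Complex.exp t) x * HoM_L S (S.χ.q (T.χ.σ x)) =
        HoM_L S (S.χ.q (T.χ.σ x)) * cf α S.χ.σ (b + Complex.exp t) (S.χ.q (T.χ.σ x)) * jac (fun y => S.χ.q (T.χ.σ y)) x * HoM_L T x) := by
  obtain ⟨hq, c, hc, hxc⟩ := S.χ.surj _ (T.χ.σ_mem x hx).1 hU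
  refine ⟨AnalyticAt.comp (g := S.χ.q) (f := T.χ.σ) (S.χ.q_an _ hU) (T.χ.σ_an x hx),
    (Pool.Agent.H62.EF.pr_eq_iff (E.cone.ne_zero (T.χ.σ_mem x hx).1) (E.cone.ne_zero (S.χ.σ_mem _ hq).1)).2 ⟨c, hc, hxc⟩, ?_, ?_⟩
  · have h1 := E.tor.smul _ (S.χ.σ_mem _ hq).1 c hc
    rw [← hxc] at h1
    have h2 := hS.mon.lift _ hq
    have h3 := hT.mon.lift _ hx
    rw [HoM_u_eq] at h2 h3
    have h4 : HoM_u S (S.χ.q (T.χ.σ x)) - HoM_u T x ∈ Λ := by
      have h5 := Λ.sub_mem (Λ.sub_mem h3 h1) h2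
      have e : u (T.χ.σ x) - (b + HoM_u T x) - (u (T.χ.σ x) - u (S.χ.σ (S.χ.q (T.χ.σ x)))) -
          (u (S.χ.σ (S.χ.q (T.χ.σ x))) - (b + HoM_u S (S.χ.q (T.χ.σ x)))) = HoM_u S (S.χ.q (T.χ.σ x)) - HoM_u T x := by ring
      rwa [e] at h5
    have h5 := hS.small _ hq
    have h6 := hT.small _ hx
    rw [HoM_u_eq, add_sub_cancel_left] at h5 h6
    refine sub_eq_zero.1 (hinj _ h4 ?_)
    refine (norm_sub_le _ _).trans_lt ?_
    linarith
  · intro hP t ht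
    have h1 : u (T.χ.σ x) - (b + Complex.exp t) ∈ Λ := by
      rw [ht, ← HoM_u_eq]
      exact hT.mon.lift _ hx
    rw [HoM_form E α S.χ T.χ hx hU hP h1]
    ring

/-- the index set -/
private abbrev HoM_ix {n : ℕ} (c : Fin n → HCh X) : Type := {a : Fin n × Bool // a.2 = true → 1 ≤ (c a.1).c}

/-- the charts -/
private noncomputable def HoM_ch {n : ℕ} (c : Fin n → HCh X) (i : HoM_ix c) : HCh X := if i.1.2 = true then HoM_sw (c i.1.1) else c i.1.1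

/-- the charts -/
private noncomputable def HoM_atl (α : TForm (X \ P) Λ u) (b : ℂ) {n : ℕ} (c : Fin n → HCh X) : Pool.Agent.EG.RL.Atl (HoM_ix c) (MN N) where
  s := fun i p => pr ((HoM_ch c i).χ.σ p)
  ex := fun i => HoM_ex (HoM_ch c i)
  a := fun i => (HoM_ch c i).a
  b := fun i => ((HoM_ch c i).c : ℤ)
  k := fun i => ((HoM_ch c i).ρ : ℂ)
  g := fun i t p => HoM_L (HoM_ch c i) p * cf α (HoM_ch c i).χ.σ (b + Complex.exp t) p

private theorem HoM_min {α : Type} [Finite α] (f : α → ℝ) (hf : ∀ a, 0 < f a) : ∃ r : ℝ, 0 < r ∧ ∀ a, r ≤ f a := by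
  have h : ∀ᶠ r : ℝ in 𝓝[>] 0, ∀ a, r ≤ f a := by
    rw [eventually_all]
    intro a
    exact (eventually_le_nhds (hf a)).filter_mono nhdsWithin_le_nhds
  obtain ⟨r, h1, h2⟩ := (h.and self_mem_nhdsWithin).exists
  exact ⟨r, h2, h1⟩

private theorem HoM_rot (p : ℂ × ℂ) : rot 1 p = p := by
  unfold rot
  rw [inv_one, one_mul, one_mul]

/-- the exchanged charts -/
private theorem HoM_sws (E : LData X D P Λ Γ u B δ) (α : TForm (X \ P) Λ u) {b : ℂ} {η : ℝ} {n : ℕ} (c : Fin n → HCh X) {S : HCh X}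
    (hS : HOk P Λ u b η S) (hc : 1 ≤ S.c) {i j : HoM_ix c} (hi : HoM_ch c i = S) (hj : HoM_ch c j = HoM_sw S) :
    (HoM_atl α b c).Sw i j ∧ (HoM_atl α b c).Sw j i := by
  have hex1 : HoM_ex S = true := (HoM_ex_iff S).2 (Or.inr hc)
  have hex2 : HoM_ex (HoM_sw S) = true := (HoM_ex_iff _).2 (Or.inr hS.a_pos)
  have hT := HoM_ok hS hc
  have ha := hS.a_pos
  constructor
  · refine ⟨?_, ?_, ?_, ?_, ?_, ?_, fun p hp hL => ?_⟩
    · show HoM_ex (HoM_ch c i) = true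
      rw [hi]; exact hex1
    · show HoM_ex (HoM_ch c j) = true
      rw [hj]; exact hex2
    · show (1 : ℤ) ≤ ((HoM_ch c i).c : ℤ)
      rw [hi]; exact_mod_cast hc
    · show ((HoM_ch c j).a : ℤ) = ((HoM_ch c i).c : ℤ)
      rw [hi, hj]; rfl
    · show ((HoM_ch c j).c : ℤ) = ((HoM_ch c i).a : ℤ)
      rw [hi, hj]; rfl
    · show ((HoM_ch c j).ρ : ℂ) = ((HoM_ch c i).ρ : ℂ)
      rw [hi, hj]; rfl
    · have hL' : HoM_L (HoM_ch c j) p ≠ 0 := hL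
      show pr ((HoM_ch c j).χ.σ p) = pr ((HoM_ch c i).χ.σ p.swap) ∧ ∀ t, Complex.exp t = HoM_u (HoM_ch c j) p →
        HoM_L (HoM_ch c j) p * cf α (HoM_ch c j).χ.σ (b + Complex.exp t) p =
          -(HoM_L (HoM_ch c i) p.swap * cf α (HoM_ch c i).χ.σ (b + Complex.exp t) p.swap)
      rw [hj] at hL' ⊢
      rw [hi]
      refine ⟨rfl, fun t ht => ?_⟩
      have h1 := HoM_L_P hT hp hL'
      have h2 : u (S.χ.σ p.swap) - (b + Complex.exp t) ∈ Λ := by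
        rw [ht, ← HoM_u_eq]
        exact hT.mon.lift p hp
      have h3 : cf α (HoM_sw S).χ.σ (b + Complex.exp t) p = -cf α S.χ.σ (b + Complex.exp t) p.swap := HoM_swf E α S.χ hp h1 h2
      rw [h3]
      unfold HoM_L
      rw [if_pos hex1, if_pos hex2, Prod.fst_swap, Prod.snd_swap]
      ring
  · refine ⟨?_, ?_, ?_, ?_, ?_, ?_, fun p hp hL => ?_⟩
    · show HoM_ex (HoM_ch c j) = true
      rw [hj]; exact hex2
    · show HoM_ex (HoM_ch c i) = true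
      rw [hi]; exact hex1
    · show (1 : ℤ) ≤ ((HoM_ch c j).c : ℤ)
      rw [hj]; exact_mod_cast ha
    · show ((HoM_ch c i).a : ℤ) = ((HoM_ch c j).c : ℤ)
      rw [hi, hj]; rfl
    · show ((HoM_ch c i).c : ℤ) = ((HoM_ch c j).a : ℤ)
      rw [hi, hj]; rfl
    · show ((HoM_ch c i).ρ : ℂ) = ((HoM_ch c j).ρ : ℂ)
      rw [hi, hj]; rfl
    · have hL' : HoM_L (HoM_ch c i) p ≠ 0 := hL
      show pr ((HoM_ch c i).χ.σ p) = pr ((HoM_ch c j).χ.σ p.swap) ∧ ∀ t, Complex.exp t = HoM_u (HoM_ch c i) p →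
        HoM_L (HoM_ch c i) p * cf α (HoM_ch c i).χ.σ (b + Complex.exp t) p =
          -(HoM_L (HoM_ch c j) p.swap * cf α (HoM_ch c j).χ.σ (b + Complex.exp t) p.swap)
      rw [hi] at hL' ⊢
      rw [hj]
      refine ⟨rfl, fun t ht => ?_⟩
      have h1 := HoM_L_P hS hp hL'
      have h2 : u (S.χ.σ p) - (b + Complex.exp t) ∈ Λ := by
        rw [ht, ← HoM_u_eq]
        exact hS.mon.lift p hp
      have h3 : cf α (HoM_sw S).χ.σ (b + Complex.exp t) p.swap = -cf α S.χ.σ (b + Complex.exp t) p.swap.swap :=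
        HoM_swf E α S.χ (HoM_swb hp) (by rw [Prod.swap_swap]; exact h1) (by rw [Prod.swap_swap]; exact h2)
      rw [h3, Prod.swap_swap]
      unfold HoM_L
      rw [if_pos hex1, if_pos hex2, Prod.fst_swap, Prod.snd_swap]
      ring

private theorem HoM_cen {p : ℂ × ℂ} (hp : Cen p) : p ∈ ball (0 : ℂ × ℂ) 1 := by
  rw [mem_ball_zero_iff, Prod.norm_def]
  exact max_lt (by have := hp.1; linarith) hp.2

/-- the model -/
private theorem HoM_model (E : LData X D P Λ Γ u B δ) (α : TForm (X \ P) Λ u) {b : ℂ} {η : ℝ} {n : ℕ} {c : Fin n → HCh X} (hη : 0 < η)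
    (hinj : ∀ l ∈ Λ, ‖l‖ < 2 * η → l = 0) (hok0 : ∀ k, HOk P Λ u b η (c k))
    (hch0 : ∀ i : HoM_ix c, i.1.2 = false → HoM_ch c i = c i.1.1) (hch1 : ∀ i : HoM_ix c, i.1.2 = true → HoM_ch c i = HoM_sw (c i.1.1))
    (hok : ∀ i : HoM_ix c, HOk P Λ u b η (HoM_ch c i))
    (hsep : ∀ i j : HoM_ix c, i.1.1 ≠ j.1.1 → HoM_ex (HoM_ch c i) = true → ∀ p : ℂ × ℂ, ‖p.1‖ ≤ 1 / 2 → ‖p.2‖ ≤ 1 / 2 →
      (HoM_ch c i).χ.σ p ∉ (HoM_ch c j).χ.U) {s : ℝ} (hs : 0 < s) :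
    ∃ M : Model (HoM_ix c) (MN N), M.toAtl = HoM_atl α b c ∧ M.ρ ≤ η ∧ M.ρ ≤ s := by
  have hfin : Finite (HoM_ix c) := inferInstance
  choose f hf1 hf2 using fun a : HoM_ix c × HoM_ix c => HoM_unif E.cone (HoM_ch c a.1).χ (HoM_ch c a.2).χ
  obtain ⟨e₀, he₀, he₀'⟩ := HoM_min f hf1
  obtain ⟨e, he⟩ : ∃ e : ℝ, e = min e₀ (1 / 4) := ⟨_, rfl⟩
  have he1 : 0 < e := by
    rw [he]
    exact lt_min he₀ (by norm_num)
  have he2 : e ≤ 1 / 4 := by
    rw [he]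
    exact min_le_right _ _
  have he3 : ∀ a, e ≤ f a := fun a => by
    rw [he]
    exact (min_le_left _ _).trans (he₀' a)
  obtain ⟨ρ₀, hρ₀, hρ₀'⟩ := HoM_min (fun i : HoM_ix c => min (HoM_ch c i).ρ ((e / 4) ^ (HoM_ch c i).a * (HoM_ch c i).ρ * (1 / 2) ^ (HoM_ch c i).c))
    (fun i => lt_min (hok i).mon.pos (by have := (hok i).mon.pos; positivity))
  obtain ⟨ρ, hρ⟩ : ∃ ρ : ℝ, ρ = min ρ₀ (min η s) := ⟨_, rfl⟩
  have hρ1 : 0 < ρ := by
    rw [hρ]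
    exact lt_min hρ₀ (lt_min hη hs)
  have hρη : ρ ≤ η := by
    rw [hρ]
    exact (min_le_right _ _).trans (min_le_left _ _)
  have hρs : ρ ≤ s := by
    rw [hρ]
    exact (min_le_right _ _).trans (min_le_right _ _)
  have hρa : ∀ i, ρ ≤ (HoM_ch c i).ρ := fun i => by
    rw [hρ]
    exact (min_le_left _ _).trans ((hρ₀' i).trans (min_le_left _ _))
  have hρb : ∀ i, ρ ≤ (e / 4) ^ (HoM_ch c i).a * (HoM_ch c i).ρ * (1 / 2) ^ (HoM_ch c i).c := fun i => by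
    rw [hρ]
    exact (min_le_left _ _).trans ((hρ₀' i).trans (min_le_right _ _))
  have hL0 : ∀ (i : HoM_ix c) (p : ℂ × ℂ), (HoM_atl α b c).L i p = HoM_L (HoM_ch c i) p := fun i p => rfl
  have hu0 : ∀ (i : HoM_ix c) (p : ℂ × ℂ), (HoM_atl α b c).u i p = HoM_u (HoM_ch c i) p := fun i p => rfl
  have hnρ : ∀ i, ‖(HoM_atl α b c).k i‖ = (HoM_ch c i).ρ := fun i => by
    show ‖((HoM_ch c i).ρ : ℂ)‖ = _
    rw [Complex.norm_real, Real.norm_eq_abs, abs_of_pos (hok i).mon.pos]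
  refine ⟨⟨HoM_atl α b c, ρ, e, fun _ => 1, hρ1, fun i => ?_, he1, he2, fun i => (hok i).a_pos, fun i h => ?_, fun _ => le_rfl, fun _ => Or.inl rfl,
    fun i p q hp hq _ _ h => ⟨1, one_pow _, ?_⟩, fun i ζ hζ p _ _ => ?_, fun i p hp hL t ht hte => HoM_an E α (hok i) hp hL ht hte,
    fun i j p q hp hq h hLp hLq hu => ?_⟩, rfl, hρη, hρs⟩
  · rw [hnρ]
    exact hρa i
  · have h1 : HoM_ex (HoM_ch c i) = false := h
    have h2 : ¬ (HoM_ch c i).Sp := fun h3 => by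
      rw [← HoM_ex_iff, h1] at h3
      exact Bool.false_ne_true h3
    have h4 : (HoM_ch c i).c = 0 := by
      by_contra h5
      exact h2 (Or.inr (by omega))
    show ((HoM_ch c i).c : ℤ) = 0
    rw [h4]
    rfl
  · rw [HoM_rot]
    have h' : pr ((HoM_ch c i).χ.σ p) = pr ((HoM_ch c i).χ.σ q) := h
    obtain ⟨h1, h2, h3⟩ := (HoM_ch c i).χ.σ_mem p hp
    obtain ⟨h4, h5, h6⟩ := (HoM_ch c i).χ.σ_mem q hq
    obtain ⟨a, ha, h7⟩ := (Pool.Agent.H62.EF.pr_eq_iff (E.cone.ne_zero h1) (E.cone.ne_zero h4)).1 h'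
    rw [← h3, ← h6, h7, (HoM_ch c i).χ.q_smul _ h5 a ha, h6]
  · rw [pow_one] at hζ
    rw [hζ, HoM_rot]
    exact ⟨rfl, fun _ _ => rfl⟩
  · by_cases hij : i.1.1 = j.1.1
    · cases hi : i.1.2 with
      | false =>
        cases hj : j.1.2 with
        | false => exact Or.inl (Subtype.ext (Prod.ext hij (hi.trans hj.symm)))
        | true =>
          refine Or.inr (Or.inl (HoM_sws E α c (hok0 j.1.1) (j.2 hj) ?_ (hch1 j hj)).1)
          rw [hch0 i hi, hij]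
      | true =>
        cases hj : j.1.2 with
        | false =>
          refine Or.inr (Or.inl (HoM_sws E α c (hok0 i.1.1) (i.2 hi) ?_ (hch1 i hi)).2)
          rw [hch0 j hj, hij]
        | true => exact Or.inl (Subtype.ext (Prod.ext hij (hi.trans hj.symm)))
    · right
      right
      have h' : pr ((HoM_ch c i).χ.σ p) = pr ((HoM_ch c j).χ.σ q) := h
      have hp1 := HoM_cen hp
      have hq1 := HoM_cen hq
      have hp2 : p ∈ ball (0 : ℂ × ℂ) 2 := ball_subset_ball (by norm_num) hp1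
      have hq2 : q ∈ ball (0 : ℂ × ℂ) 2 := ball_subset_ball (by norm_num) hq1
      obtain ⟨p3, p4, p5⟩ := (HoM_ch c i).χ.σ_mem p hp2
      obtain ⟨q3, q4, q5⟩ := (HoM_ch c j).χ.σ_mem q hq2
      obtain ⟨a, ha, h7⟩ := (Pool.Agent.H62.EF.pr_eq_iff (E.cone.ne_zero p3) (E.cone.ne_zero q3)).1 h'
      have h8 : (HoM_ch c j).χ.σ q = a⁻¹ • (HoM_ch c i).χ.σ p := by
        rw [h7, smul_smul, inv_mul_cancel₀ ha, one_smul]
      have hUi : (HoM_ch c i).χ.σ p ∈ (HoM_ch c j).χ.U := by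
        rw [h7]
        exact (HoM_ch c j).χ.smul_U _ q4 a ha
      have hUj : (HoM_ch c j).χ.σ q ∈ (HoM_ch c i).χ.U := by
        rw [h8]
        exact (HoM_ch c i).χ.smul_U _ p4 _ (inv_ne_zero ha)
      have hqp : (HoM_ch c i).χ.q ((HoM_ch c j).χ.σ q) = p := by
        rw [h8, (HoM_ch c i).χ.q_smul _ p4 _ (inv_ne_zero ha), p5]
      have hun := hf2 (i, j) q (ball_subset_closedBall hq1) hUj (by rw [hqp]; exact ball_subset_closedBall hp1)
      have hpe : HoM_ex (HoM_ch c i) = true → 1 / 2 ≤ ‖p.2‖ := by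
        intro hex
        by_contra hcon
        push Not at hcon
        exact hsep i j hij hex p hp.1.le hcon.le hUi
      have hqe : HoM_ex (HoM_ch c j) = true → 1 / 2 ≤ ‖q.2‖ := by
        intro hex
        by_contra hcon
        push Not at hcon
        exact hsep j i (fun h => hij h.symm) hex q hq.1.le hcon.le hUj
      refine ⟨fun y => (HoM_ch c i).χ.q ((HoM_ch c j).χ.σ y), hqp, fun y hy => ?_, hpe, hqe, ?_⟩
      · obtain ⟨y1, y2, y3⟩ := hun y (ball_subset_ball (he3 (i, j)) hy)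
        obtain ⟨r1, r2, r3, r4⟩ := HoM_rg E α (hok i) (hok j) hinj y1 y2
        refine ⟨r1, ?_, fun hy1 => ⟨r2, r3, fun t ht => r4 ?_ t ht⟩⟩
        · rw [mem_ball_iff_norm]
          rw [hqp] at y3
          exact y3
        · intro hP
          obtain ⟨t1, t2⟩ := ((hok j).P_iff y y1).1 hP
          have h9 := hqe ((HoM_ex_iff _).2 (Or.inl t1))
          have h10 : ‖q.2 - y.2‖ ≤ ‖q - y‖ := by
            rw [Prod.norm_def]
            exact le_max_right _ _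
          rw [mem_ball_iff_norm, norm_sub_rev] at hy
          rw [t2, sub_zero] at h10
          linarith
      · have h9 : HoM_u (HoM_ch c i) p = HoM_u (HoM_ch c j) q := by
          obtain ⟨-, -, r3, -⟩ := HoM_rg E α (hok i) (hok j) hinj hq2 hUj
          rw [hqp] at r3
          exact r3
        have h10 : ‖HoM_u (HoM_ch c j) q‖ < ρ := by
          rw [← h9]
          exact hu
        have h11 : ‖HoM_u (HoM_ch c j) q‖ = (HoM_ch c j).ρ * ‖q.1‖ ^ (HoM_ch c j).a * ‖q.2‖ ^ (HoM_ch c j).c := by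
          unfold HoM_u
          rw [zpow_natCast, norm_mul, norm_mul, norm_pow, norm_pow, Complex.norm_real, Real.norm_eq_abs, abs_of_pos (hok j).mon.pos]
        have h12 : (1 / 2 : ℝ) ^ (HoM_ch c j).c ≤ ‖q.2‖ ^ (HoM_ch c j).c := by
          rcases Nat.eq_zero_or_pos (HoM_ch c j).c with hc | hc
          · rw [hc, pow_zero, pow_zero]
          · exact pow_le_pow_left₀ (by norm_num) (hqe ((HoM_ex_iff _).2 (Or.inr hc))) _
        have hk := (hok j).mon.pos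
        have h13 : (HoM_ch c j).ρ * ‖q.1‖ ^ (HoM_ch c j).a * (1 / 2) ^ (HoM_ch c j).c <
            (e / 4) ^ (HoM_ch c j).a * (HoM_ch c j).ρ * (1 / 2) ^ (HoM_ch c j).c := by
          refine lt_of_le_of_lt ?_ (h10.trans_le (hρb j))
          rw [h11]
          exact mul_le_mul_of_nonneg_left h12 (by positivity)
        have h14 := lt_of_mul_lt_mul_right h13 (by positivity)
        have h15 : ‖q.1‖ ^ (HoM_ch c j).a < (e / 4) ^ (HoM_ch c j).a := by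
          rw [mul_comm] at h14
          exact lt_of_mul_lt_mul_right h14 hk.le
        exact (lt_of_pow_lt_pow_left₀ _ (by positivity) h15).le

theorem exists_hole_of (E : LData X D P Λ Γ u B δ) {α : TForm (X \ P) Λ u} {b : ℂ} {η : ℝ} {n : ℕ} {c : Fin n → HCh X} (hη : 0 < η)
    (hF : HFam P Λ u b η (Fin n) c) (hbd : ∀ k, HBd α b (c k)) : Nonempty (Hole X P Λ u b α) := by
  have hfin : Finite (HoM_ix c) := inferInstance
  have hch0 : ∀ i : HoM_ix c, i.1.2 = false → HoM_ch c i = c i.1.1 := fun i hi => by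
    unfold HoM_ch
    rw [if_neg (by rw [hi]; exact Bool.false_ne_true)]
  have hch1 : ∀ i : HoM_ix c, i.1.2 = true → HoM_ch c i = HoM_sw (c i.1.1) := fun i hi => by
    unfold HoM_ch
    rw [if_pos hi]
  have hok : ∀ i : HoM_ix c, HOk P Λ u b η (HoM_ch c i) := fun i => by
    cases hi : i.1.2 with
    | false => rw [hch0 i hi]; exact hF.ok _
    | true => rw [hch1 i hi]; exact HoM_ok (hF.ok _) (i.2 hi)
  have hbd' : ∀ i : HoM_ix c, HBd α b (HoM_ch c i) := fun i => by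
    cases hi : i.1.2 with
    | false => rw [hch0 i hi]; exact hbd _
    | true => rw [hch1 i hi]; exact HoM_bd E (hF.ok _) (i.2 hi) (hbd _)
  have hU : ∀ i : HoM_ix c, (HoM_ch c i).χ.U = (c i.1.1).χ.U := fun i => by
    cases hi : i.1.2 with
    | false => rw [hch0 i hi]
    | true => rw [hch1 i hi]; rfl
  have hsep : ∀ i j : HoM_ix c, i.1.1 ≠ j.1.1 → HoM_ex (HoM_ch c i) = true → ∀ p : ℂ × ℂ, ‖p.1‖ ≤ 1 / 2 → ‖p.2‖ ≤ 1 / 2 →
      (HoM_ch c i).χ.σ p ∉ (HoM_ch c j).χ.U := by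
    intro i j hij hex p h1 h2
    rw [hU j]
    rw [HoM_ex_iff] at hex
    cases hi : i.1.2 with
    | false =>
      rw [hch0 i hi] at hex ⊢
      exact hF.sep _ _ hij hex p h1 h2
    | true =>
      rw [hch1 i hi]
      exact hF.sep _ _ hij (Or.inr (i.2 hi)) p.swap h2 h1
  obtain ⟨s, hs, hcov⟩ := hF.cov
  obtain ⟨M, hM, hMη, hMs⟩ := HoM_model E α hη hF.inj hF.ok hch0 hch1 hok hsep hs
  have hMex : ∀ i, M.ex i = HoM_ex (HoM_ch c i) := fun i => by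
    rw [hM]; rfl
  have hMb : ∀ i, M.b i = ((HoM_ch c i).c : ℤ) := fun i => by
    rw [hM]; rfl
  have hMs : ∀ i p, M.s i p = pr ((HoM_ch c i).χ.σ p) := fun i p => by
    rw [hM]; rfl
  have hMu : ∀ i p, M.u i p = HoM_u (HoM_ch c i) p := fun i p => by
    rw [hM]; rfl
  have hML : ∀ i p, M.L i p = HoM_L (HoM_ch c i) p := fun i p => by
    rw [hM]; rfl
  have hMg : ∀ i t p, M.g i t p = HoM_L (HoM_ch c i) p * cf α (HoM_ch c i).χ.σ (b + Complex.exp t) p := fun i t p => by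
    rw [hM]; rfl
  obtain ⟨C₀, κ, hC₀, hκ, hB⟩ := Pool.Agent.EG.RL.bphi_hole M (fun i => by rw [hMb]; positivity) (by
    intro i
    obtain ⟨C, hC⟩ := hbd' i
    refine ⟨C, fun p hp hL t ht => ?_⟩
    rw [hML] at hL
    rw [hMu] at ht
    rw [hMg, hMb]
    have h1 := hC p hp (HoM_L_P (hok i) hp hL)
    rw [HoM_u_eq, ← ht] at h1
    have h1' : ‖(if (HoM_ch c i).hor = true then p.2 else 1) * cf α (HoM_ch c i).χ.σ (b + Complex.exp t) p‖ ≤ C := h1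
    unfold HoM_L
    by_cases hc : 1 ≤ (HoM_ch c i).c
    · have hh : (HoM_ch c i).hor ≠ true := fun h' => absurd ((hok i).hor_c h') (by omega)
      rw [if_neg hh, one_mul] at h1'
      rw [if_pos ((HoM_ex_iff _).2 (Or.inr hc)), if_neg (by omega), norm_mul, norm_mul, mul_comm]
      exact mul_le_mul_of_nonneg_right h1' (by positivity)
    · have hc0 : (HoM_ch c i).c = 0 := by omega
      have hz : ((HoM_ch c i).c : ℤ) = 0 := by rw [hc0]; rfl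
      rw [if_pos hz, mul_one]
      by_cases hh : (HoM_ch c i).hor = true
      · rw [if_pos hh] at h1'
        rw [if_pos ((HoM_ex_iff _).2 (Or.inl hh)), mul_assoc, norm_mul, mul_comm]
        exact mul_le_mul_of_nonneg_right h1' (norm_nonneg _)
      · rw [if_neg hh, one_mul] at h1'
        have hne : HoM_ex (HoM_ch c i) ≠ true := fun h' => by
          rcases (HoM_ex_iff _).1 h' with h2 | h2
          · exact hh h2
          · exact hc h2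
        rw [if_neg hne, mul_one, norm_mul, mul_comm]
        exact mul_le_mul_of_nonneg_right h1' (norm_nonneg _))
  refine ⟨⟨HoM_ix c, hfin, M, fun i => (HoM_ch c i).χ, C₀, κ, η, hC₀, hκ, hMs, fun i => by rw [hMb]; positivity, fun i p hp => ?_, hF.inj,
    fun i p hp => ?_, hMη, fun i p hp => ?_, fun i t p hp hL ht => ?_, fun z hz x hx hxz => ?_, hB⟩⟩
  · rw [hMu, ← HoM_u_eq]
    exact (hok i).mon.lift p hp
  · have h1 := (hok i).small p hp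
    rw [HoM_u_eq, add_sub_cancel_left] at h1
    rw [hMu]
    exact h1
  · rw [hMex, hMb, (hok i).P_iff p hp, HoM_ex_iff]
    constructor
    · rintro ⟨h1, h2⟩
      exact ⟨Or.inl h1, by rw [(hok i).hor_c h1]; rfl, h2⟩
    · rintro ⟨h1 | h1, h2, h3⟩
      · exact ⟨h1, h3⟩
      · omega
  · rw [hMg, hML]
    rfl
  · obtain ⟨k, h1, h2⟩ := hcov z (ball_subset_ball (by assumption) hz) x hx hxz
    rcases h2 with h2 | ⟨h2, h3⟩
    · refine ⟨⟨(k, false), fun h => absurd h Bool.false_ne_true⟩, ?_⟩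
      rw [hch0 _ rfl]
      exact ⟨h1, h2⟩
    · refine ⟨⟨(k, true), fun _ => h2⟩, ?_⟩
      rw [hch1 _ rfl]
      exact ⟨h1, h3⟩

end Pool.Agent.H18.LU
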