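import Pool.Agent.H18.LU.HoB
import Pool.Agent.H18.LU.Cm

/-!
# LU HoN: near points near a bad fibre are near in a cell

`pth M i p v` is the point with `h`-coordinate `h + v` if `p` has `h`-coordinate `h` (`pth_X`: direct computation with `Complex.exp_add`).

`hole_near`: `so_unifK` with `K = {z | r₀ ≤ ‖z - b‖ ∧ ‖z - b‖ ≤ R₀}` and `Q r z y :=` the conclusion for all `x, x'` with `pr x = y`, `dist (pr x') y ≤ r`.  `hloc` at `(f, w)`: `f w = pr x₀`, `x₀ ∈ X` (`so_lift_at`), `x₀ ∉ P` (`so_notP`).  Suppose that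
no `r` works: for `r = 1/(n+1)` there are `z n → w`, `y n → f w`, `x n`, `x' n`, `i n` with `pr (x n) = y n`, `pr (x' n) → f w` for which the conclusion is false; along an ultrafilter `i n = i` is constant (`H.fin`) and `p n = q (x n) → p₀` (`CenS` is
bounded), `‖p₀.1‖ ≤ 3/8`, `‖p₀.2‖ ≤ 7/8`, so `p₀ ∈ ball 0 1`, `Cen p₀`, `pr (σ p₀) = f w` (`y n = pr (σ (p n))` by `surj`).  So `x₀ ∈ U`, `q x₀ = p₀` (`hole_point`); `x' n ∈ U` and `q (x' n) → p₀` (`near_of_pr` at `x₀`: `U` is an open cone, `q` is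
continuous and invariant).  `M.u i (p n) = z n - b = M.u i (q (x' n))` (`hole_u`); in the limit `M.u i p₀ = w - b ≠ 0`, so `p₀.1 ≠ 0`, and `p₀.2 ≠ 0` if `ex i` (`hole_L`).
With `p = p n`, `p' = q (x' n)`: `v = Complex.log (p'.2 / p.2)` if `ex i = true`, `v = p'.2 - p.2` otherwise; `v → 0`.  The second coordinate of `pth p v` is `p'.2`; the quotient `ζ` of the first coordinates satisfies `ζ ^ a = 1`
(`p.1 ^ a p.2 ^ b = p'.1 ^ a p'.2 ^ b`; if `ex = false` then `b = 0`: `H.M.b_ex`) and `ζ → 1`, so `ζ = 1` eventually (`(ζ - 1) ∑ ζ ^ j = 0`, the sum tends to `a ≠ 0`).  `pth p (θ v) → p₀` uniformly in `θ ∈ [0, 1]`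
(`‖θ v‖ ≤ ‖v‖ → 0`, `pth` is continuous at `(p₀, 0)`), so it is in `ball 0 2` and `dist (pr (σ (pth p (θ v)))) (y n) ≤ ε` eventually (`pr ∘ σ` is continuous at `p₀`).  `Cen p'` eventually.  Contradiction.
-/

set_option autoImplicit false

open Topology Filter Metric

namespace Pool.Agent.H18.LU

open Pool.Agent.H36.BP (EN fs wd IsGermChart)
open Pool.Agent.H14.PP (IsCone Chart Tan CurveAt)
open Pool.Agent.H62.EF (Lat MN pr TorusMap Sec Charts DU)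
open Pool.Agent.H62.EL (Gd Ag BadSet IsNC TForm Mon mo)
open Pool.Agent.EG.RL (Model Atl Cen Bphi)

variable {N : ℕ} {X D P : Set (EN N)} {Λ Γ : AddSubgroup ℂ} {u : EN N → ℂ} {B : Set ℂ} {δ : ℝ} {b : ℂ} {α : TForm (X \ P) Λ u}

/-- the point in the same fibre with the cell coordinate increased by `v` -/
noncomputable def pth {ι Y : Type} (M : Atl ι Y) (i : ι) (p : ℂ × ℂ) (v : ℂ) : ℂ × ℂ :=
  (p.1 * Complex.exp (-(M.b i * v / M.a i)), if M.ex i = true then p.2 * Complex.exp v else p.2 + v)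

theorem pth_X {ι Y : Type} (M : Atl ι Y) (i : ι) (μ t h v : ℂ) : pth M i (M.X i μ t h) v = M.X i μ t (h + v) := by
  unfold pth Atl.X
  refine Prod.ext ?_ ?_
  · simp only
    rw [mul_assoc, ← Complex.exp_add]
    congr 2
    ring
  · simp only [Pool.Agent.EG.RL.yb]
    by_cases he : M.ex i = true
    · simp only [he, if_true]
      rw [Complex.exp_add]
    · simp only [he]
      simp

private theorem HoN_cont {ι Y : Type} (M : Atl ι Y) (i : ι) : Continuous (fun q : (ℂ × ℂ) × ℂ => pth M i q.1 q.2) := by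
  unfold pth
  by_cases he : M.ex i = true
  · simp only [he, if_true]
    fun_prop
  · simp only [he]
    simp only [Bool.false_eq_true, if_false]
    fun_prop

private theorem HoN_zero {ι Y : Type} (M : Atl ι Y) (i : ι) (p : ℂ × ℂ) : pth M i p 0 = p := by
  unfold pth
  refine Prod.ext ?_ ?_ <;> simp

/-- the first coordinate -/
private theorem HoN_fst {a : ℕ} {b : ℤ} {k : ℂ} {ex : Bool} (hk : k ≠ 0) (ha : 1 ≤ a) (hb : ex = false → b = 0) {p p' : ℂ × ℂ} {v : ℂ}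
    (hp : p.1 ≠ 0) (hv : ex = true → p.2 ≠ 0 ∧ p.2 * Complex.exp v = p'.2)
    (hu : k * p.1 ^ a * p.2 ^ b = k * p'.1 ^ a * p'.2 ^ b) :
    (p'.1 / (p.1 * Complex.exp (-(b * v / a)))) ^ a = 1 := by
  have ha0 : (a : ℂ) ≠ 0 := by
    exact_mod_cast (by omega : a ≠ 0)
  have h1 : Complex.exp (-(b * v / a)) ^ a = Complex.exp (-(b * v)) := by
    rw [← Complex.exp_nat_mul]
    congr 1
    field_simp
  rw [div_pow, mul_pow, h1, div_eq_one_iff_eq (mul_ne_zero (pow_ne_zero _ hp) (Complex.exp_ne_zero _))]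
  rw [mul_assoc, mul_assoc] at hu
  have hu' := mul_left_cancel₀ hk hu
  by_cases he : ex = true
  · obtain ⟨h2, h3⟩ := hv he
    have h4 : p'.2 ^ b = p.2 ^ b * Complex.exp (b * v) := by
      rw [← h3, mul_zpow, ← Complex.exp_int_mul]
    rw [h4] at hu'
    have h5 : p.2 ^ b ≠ 0 := zpow_ne_zero _ h2
    have h6 : p.1 ^ a = p'.1 ^ a * Complex.exp (b * v) := by
      apply mul_right_cancel₀ h5
      rw [hu']
      ring
    rw [h6, mul_assoc, ← Complex.exp_add]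
    simp
  · have hb0 := hb (by simpa using he)
    subst hb0
    simpa using hu'.symm

private theorem HoN_local {ι Y : Type} (M : Atl ι Y) (i : ι) (hk : M.k i ≠ 0) (ha : 1 ≤ M.a i) (hb : M.ex i = false → M.b i = 0)
    {p₀ : ℂ × ℂ} (hL : M.L i p₀ ≠ 0) {W : Set (ℂ × ℂ)} (hW : W ∈ 𝓝 p₀) :
    ∃ V ∈ 𝓝 p₀, ∀ p ∈ V, ∀ p' ∈ V, M.u i p = M.u i p' →
      ∃ v : ℂ, pth M i p v = p' ∧ ∀ θ ∈ Set.Icc (0 : ℝ) 1, pth M i p (θ * v) ∈ W := by
  unfold Atl.L at hL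
  have hp1 : p₀.1 ≠ 0 := fun h => hL (by rw [h, zero_mul])
  have hp2 : M.ex i = true → p₀.2 ≠ 0 := fun he h => hL (by rw [if_pos he, h, mul_zero])
  -- the increment
  set vv : (ℂ × ℂ) × (ℂ × ℂ) → ℂ := fun q =>
    if M.ex i = true then Complex.log (q.2.2 / q.1.2) else q.2.2 - q.1.2 with hvv
  have hvv0 : vv (p₀, p₀) = 0 := by
    by_cases he : M.ex i = true
    · simp only [hvv, if_pos he]
      rw [div_self (hp2 he), Complex.log_one]
    · simp only [hvv, if_neg he, sub_self]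
  have hvc : ContinuousAt vv (p₀, p₀) := by
    by_cases he : M.ex i = true
    · simp only [hvv, if_pos he]
      have h1 : ContinuousAt (fun q : (ℂ × ℂ) × (ℂ × ℂ) => q.2.2 / q.1.2) (p₀, p₀) := by
        refine ContinuousAt.div ?_ ?_ (hp2 he)
        · exact (continuous_snd.comp continuous_snd).continuousAt
        · exact (continuous_snd.comp continuous_fst).continuousAt
      refine ContinuousAt.clog h1 ?_
      simp only [div_self (hp2 he)]
      exact Complex.one_mem_slitPlane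
    · simp only [hvv, if_neg he]
      exact Continuous.continuousAt (by fun_prop)
  -- the small increments
  have h1 : ∀ᶠ q : (ℂ × ℂ) × ℂ in 𝓝 (p₀, (0 : ℂ)), pth M i q.1 q.2 ∈ W := by
    refine (HoN_cont M i).continuousAt.eventually_mem ?_
    simp only [HoN_zero]
    exact hW
  rw [nhds_prod_eq, Filter.eventually_prod_iff] at h1
  obtain ⟨pa, hpa, pb, hpb, hab⟩ := h1
  obtain ⟨η, hη, hball⟩ := Metric.eventually_nhds_iff.1 hpb
  have h2 : ∀ᶠ q in 𝓝 (p₀, p₀), ‖vv q‖ < η := by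
    have h3 : Tendsto vv (𝓝 (p₀, p₀)) (𝓝 0) := by
      have := hvc.tendsto
      rwa [hvv0] at this
    have h4 := h3.norm
    rw [norm_zero] at h4
    exact h4.eventually (gt_mem_nhds hη)
  have h3 : ∀ᶠ q : (ℂ × ℂ) × (ℂ × ℂ) in 𝓝 (p₀, p₀), pa q.1 :=
    (continuous_fst.tendsto (p₀, p₀)).eventually hpa
  have h4 : ∀ᶠ q : (ℂ × ℂ) × (ℂ × ℂ) in 𝓝 (p₀, p₀), q.1.1 ≠ 0 :=
    (continuous_fst.comp continuous_fst).continuousAt.eventually_ne hp1
  have h5 : ∀ᶠ q : (ℂ × ℂ) × (ℂ × ℂ) in 𝓝 (p₀, p₀), M.ex i = true → q.1.2 ≠ 0 ∧ q.2.2 ≠ 0 := by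
    by_cases he : M.ex i = true
    · have h6 : ∀ᶠ q : (ℂ × ℂ) × (ℂ × ℂ) in 𝓝 (p₀, p₀), q.1.2 ≠ 0 :=
        (continuous_snd.comp continuous_fst).continuousAt.eventually_ne (hp2 he)
      have h7 : ∀ᶠ q : (ℂ × ℂ) × (ℂ × ℂ) in 𝓝 (p₀, p₀), q.2.2 ≠ 0 :=
        (continuous_snd.comp continuous_snd).continuousAt.eventually_ne (hp2 he)
      filter_upwards [h6, h7] with q ha hb _
      exact ⟨ha, hb⟩
    · exact Filter.Eventually.of_forall fun q h => absurd h he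
  -- the quotient
  have hζc : ContinuousAt (fun q : (ℂ × ℂ) × (ℂ × ℂ) =>
      q.2.1 / (q.1.1 * Complex.exp (-(M.b i * vv q / M.a i)))) (p₀, p₀) := by
    refine ContinuousAt.div (continuous_fst.comp continuous_snd).continuousAt ?_
      (mul_ne_zero hp1 (Complex.exp_ne_zero _))
    refine ContinuousAt.mul (continuous_fst.comp continuous_fst).continuousAt ?_
    refine ContinuousAt.cexp ?_
    exact ((continuousAt_const.mul hvc).div_const _).neg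
  have hζ1 : p₀.1 / (p₀.1 * Complex.exp (-(M.b i * vv (p₀, p₀) / M.a i))) = 1 := by
    rw [hvv0]
    simp [div_self hp1]
  have h6 : ∀ᶠ q : (ℂ × ℂ) × (ℂ × ℂ) in 𝓝 (p₀, p₀), (∑ j ∈ Finset.range (M.a i),
      (q.2.1 / (q.1.1 * Complex.exp (-(M.b i * vv q / M.a i)))) ^ j) ≠ 0 := by
    have h7 : ContinuousAt (fun q : (ℂ × ℂ) × (ℂ × ℂ) => ∑ j ∈ Finset.range (M.a i),
        (q.2.1 / (q.1.1 * Complex.exp (-(M.b i * vv q / M.a i)))) ^ j) (p₀, p₀) := by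
      refine tendsto_finsetSum _ fun j _ => ?_
      exact hζc.pow j
    refine h7.eventually_ne ?_
    simp only [hζ1, one_pow, Finset.sum_const, Finset.card_range, nsmul_eq_mul, mul_one]
    exact_mod_cast (by omega : M.a i ≠ 0)
  have hall := ((((h2.and h3).and h4).and h5).and h6)
  rw [nhds_prod_eq, Filter.eventually_prod_self_iff'] at hall
  obtain ⟨V, hV, hVV⟩ := hall
  refine ⟨V, hV, fun p hp p' hp' hu => ?_⟩
  obtain ⟨⟨⟨⟨g1, g2⟩, g3⟩, g4⟩, g5⟩ := hVV p hp p' hp'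
  simp only at g1 g2 g3 g4 g5
  have hsec : M.ex i = true → p.2 * Complex.exp (vv (p, p')) = p'.2 := by
    intro he
    obtain ⟨g6, g7⟩ := g4 he
    simp only [hvv, if_pos he]
    rw [Complex.exp_log (div_ne_zero g7 g6)]
    field_simp
  have hpow := HoN_fst (v := vv (p, p')) hk ha hb g3 (fun he => ⟨(g4 he).1, hsec he⟩) hu
  have hone : p'.1 / (p.1 * Complex.exp (-(M.b i * vv (p, p') / M.a i))) = 1 := by
    have h8 := geom_sum_mul (p'.1 / (p.1 * Complex.exp (-(M.b i * vv (p, p') / M.a i)))) (M.a i)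
    rw [hpow, sub_self] at h8
    rcases mul_eq_zero.1 h8 with h9 | h9
    · exact absurd h9 g5
    · exact sub_eq_zero.1 h9
  refine ⟨vv (p, p'), ?_, fun θ hθ => ?_⟩
  · unfold pth
    refine Prod.ext ?_ ?_
    · simp only
      exact ((div_eq_one_iff_eq (mul_ne_zero g3 (Complex.exp_ne_zero _))).1 hone).symm
    · simp only
      by_cases he : M.ex i = true
      · rw [if_pos he]
        exact hsec he
      · rw [if_neg he]
        simp only [hvv, if_neg he]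
        ring
  · refine hab (x := p) g2 (y := θ * vv (p, p')) (hball ?_)
    rw [dist_zero_right, norm_mul, Complex.norm_real, Real.norm_of_nonneg hθ.1]
    calc θ * ‖vv (p, p')‖ ≤ 1 * ‖vv (p, p')‖ := mul_le_mul_of_nonneg_right hθ.2 (norm_nonneg _)
      _ < η := by rw [one_mul]; exact g1

/-- the statement in one chart, for the points with coordinates in `S` -/
private def HoN_R (_E : LData X D P Λ Γ u B δ) (H : Hole X P Λ u b α) (R₀ ε : ℝ) (f : ℂ → MN N) (w : ℂ) (i : H.ι) (S : Set (ℂ × ℂ))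
    (r : ℝ) : Prop :=
  ∀ z, ‖z - b‖ ≤ R₀ → ∀ y ∈ closedBall (f w) r, ∀ x ∈ X \ P, ∀ x' ∈ X \ P, u x - z ∈ Λ → u x' - z ∈ Λ → pr x = y →
      dist (pr x') y ≤ r → x ∈ (H.χ i).U → (H.χ i).q x ∈ S → x' ∈ (H.χ i).U ∧ Cen ((H.χ i).q x') ∧
        ∃ v : ℂ, pth H.M.toAtl i ((H.χ i).q x) v = (H.χ i).q x' ∧ ∀ θ ∈ Set.Icc (0 : ℝ) 1,
          pth H.M.toAtl i ((H.χ i).q x) (θ * v) ∈ ball (0 : ℂ × ℂ) 2 ∧
            dist (pr ((H.χ i).σ (pth H.M.toAtl i ((H.χ i).q x) (θ * v)))) y ≤ ε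

private theorem HoN_prq (_E : LData X D P Λ Γ u B δ) (χ : Chart X) {x : EN N} (hx : x ∈ X) (hU : x ∈ χ.U) : pr x = pr (χ.σ (χ.q x)) := by
  obtain ⟨_, c, hc, h⟩ := χ.surj x hx hU
  conv_lhs => rw [h]
  exact Pool.Agent.H62.EF.pr_smul _ hc

private theorem HoN_point (E : LData X D P Λ Γ u B δ) (H : Hole X P Λ u b α) {R₀ ε : ℝ} (hR₀ : R₀ < H.M.ρ) (hε : 0 < ε)
    {f : ℂ → MN N} {w : ℂ} (hwρ : w ∈ ball b H.M.ρ) (hwb : w ≠ b) {x₁ : EN N} (hx₁X : x₁ ∈ X) (hx₁u : u x₁ - w ∈ Λ)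
    (hx₁f : pr x₁ = f w) (hnP : f w ∉ pr '' P) (i : H.ι) {p₀ : ℂ × ℂ} (h1 : ‖p₀.1‖ ≤ 3 / 8) (h2 : ‖p₀.2‖ ≤ 7 / 8) :
    ∃ V ∈ 𝓝 p₀, ∀ᶠ r in 𝓝[>] (0 : ℝ), HoN_R E H R₀ ε f w i V r := by
  have hp₀ : p₀ ∈ ball (0 : ℂ × ℂ) 2 := by
    rw [mem_ball_zero_iff, Prod.norm_def]
    exact max_lt (by linarith) (by linarith)
  obtain ⟨hσX, hσU, hqσ⟩ := (H.χ i).σ_mem p₀ hp₀
  have hσ0 : (H.χ i).σ p₀ ≠ 0 := E.cone.ne_zero hσX
  have hcont : ContinuousAt (fun p => pr ((H.χ i).σ p)) p₀ := by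
    have h3 : ContinuousAt (H.χ i).σ p₀ := ((H.χ i).σ_an p₀ hp₀).continuousAt
    exact ContinuousAt.comp (f := (H.χ i).σ) (g := pr) (Pool.Agent.H62.EF.continuousAt_pr hσ0) h3
  by_cases heq : pr ((H.χ i).σ p₀) = f w
  · -- the point is over `f w`
    have hx₁0 : x₁ ≠ 0 := E.cone.ne_zero hx₁X
    have hu₀ : u ((H.χ i).σ p₀) - w ∈ Λ := by
      obtain ⟨c, hc, h3⟩ := (Pool.Agent.H62.EF.pr_eq_iff hσ0 hx₁0).1 (heq.trans hx₁f.symm)
      have h4 := E.tor.smul x₁ hx₁X c hc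
      rw [← h3] at h4
      have h5 := Λ.add_mem h4 hx₁u
      rwa [sub_add_sub_cancel] at h5
    have hP₀ : (H.χ i).σ p₀ ∉ P := fun h => hnP ⟨_, h, heq⟩
    have hL := hole_L E H hσX hP₀ hσU hwρ hwb hu₀
    rw [hqσ] at hL
    have hW : ball (0 : ℂ × ℂ) 2 ∩ {p | dist (pr ((H.χ i).σ p)) (f w) < ε / 2} ∈ 𝓝 p₀ := by
      refine inter_mem (isOpen_ball.mem_nhds hp₀) ?_
      have h3 : ContinuousAt (fun p => dist (pr ((H.χ i).σ p)) (f w)) p₀ := hcont.dist continuousAt_const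
      refine h3.eventually_mem (isOpen_Iio.mem_nhds ?_)
      rw [heq, dist_self]
      exact half_pos hε
    have hk : H.M.k i ≠ 0 := by
      intro h
      have h3 := H.M.ρ_le i
      rw [h, norm_zero] at h3
      exact absurd H.M.ρ_pos (not_lt.2 h3)
    obtain ⟨V, hV, hVV⟩ := HoN_local H.M.toAtl i hk (H.M.a_pos i) (H.M.b_ex i) hL hW
    have hV' : V ∩ {p | Cen p} ∈ 𝓝 p₀ := by
      refine inter_mem hV ?_
      have h3 : {p : ℂ × ℂ | Cen p} = {p : ℂ × ℂ | ‖p.1‖ < 1 / 2} ∩ {p : ℂ × ℂ | ‖p.2‖ < 1} := rfl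
      rw [h3]
      refine IsOpen.mem_nhds ((isOpen_lt (by fun_prop) continuous_const).inter (isOpen_lt (by fun_prop) continuous_const)) ⟨?_, ?_⟩
      · show ‖p₀.1‖ < 1 / 2
        linarith
      · show ‖p₀.2‖ < 1
        linarith
    have hU' : (H.χ i).U ∩ (H.χ i).q ⁻¹' (V ∩ {p | Cen p}) ∈ 𝓝 ((H.χ i).σ p₀) := by
      refine inter_mem ((H.χ i).isOpen_U.mem_nhds hσU) ?_
      have h3 : ContinuousAt (H.χ i).q ((H.χ i).σ p₀) := ((H.χ i).q_an _ hσU).continuousAt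
      refine h3.preimage_mem_nhds ?_
      rw [hqσ]
      exact hV'
    obtain ⟨d, hd, hnear⟩ := Pool.Agent.H62.EF.near_of_pr hσ0 hU'
    refine ⟨V, hV, ?_⟩
    have hmin : (0 : ℝ) < min (d / 2) (ε / 2) := lt_min (half_pos hd) (half_pos hε)
    filter_upwards [Ioo_mem_nhdsGT hmin] with r hr z hz y hy x hx x' hx' hux hux' hpx hpx' hxU hmem
    have hr1 : r < d / 2 := lt_of_lt_of_le hr.2 (min_le_left _ _)
    have hr2 : r < ε / 2 := lt_of_lt_of_le hr.2 (min_le_right _ _)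
    have hzρ : z ∈ ball b H.M.ρ := by
      rw [mem_ball, dist_eq_norm]
      exact lt_of_le_of_lt hz hR₀
    have hx'0 : x' ≠ 0 := E.cone.ne_zero hx'.1
    rw [mem_closedBall] at hy
    obtain ⟨c, hc, hcU, hcq⟩ := hnear x' hx'0 (by
      rw [heq]
      have h3 := dist_triangle (pr x') y (f w)
      linarith)
    have hx'U : x' ∈ (H.χ i).U := by
      have h3 := (H.χ i).smul_U _ hcU c⁻¹ (inv_ne_zero hc)
      rwa [smul_smul, inv_mul_cancel₀ hc, one_smul] at h3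
    have hcq' : (H.χ i).q x' ∈ V ∩ {p | Cen p} := by
      have h3 : (H.χ i).q (c • x') ∈ V ∩ {p | Cen p} := hcq
      rwa [(H.χ i).q_smul x' hx'U c hc] at h3
    have hu1 := hole_u E H hx.1 hxU hzρ hux
    have hu2 := hole_u E H hx'.1 hx'U hzρ hux'
    obtain ⟨v, hv1, hv2⟩ := hVV _ hmem _ hcq'.1 (hu1.trans hu2.symm)
    refine ⟨hx'U, hcq'.2, v, hv1, fun θ hθ => ?_⟩
    obtain ⟨h3, h4⟩ := hv2 θ hθ
    refine ⟨h3, ?_⟩
    have h5 : dist (pr ((H.χ i).σ (pth H.M.toAtl i ((H.χ i).q x) (θ * v)))) (f w) < ε / 2 := h4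
    have h6 := dist_triangle (pr ((H.χ i).σ (pth H.M.toAtl i ((H.χ i).q x) (θ * v)))) (f w) y
    rw [dist_comm (f w) y] at h6
    linarith
  · -- the point is not over `f w`
    have hd : 0 < dist (pr ((H.χ i).σ p₀)) (f w) := dist_pos.2 heq
    refine ⟨{p | dist (pr ((H.χ i).σ p)) (f w) > dist (pr ((H.χ i).σ p₀)) (f w) / 2}, ?_, ?_⟩
    · have h3 : ContinuousAt (fun p => dist (pr ((H.χ i).σ p)) (f w)) p₀ := hcont.dist continuousAt_const
      exact h3.eventually_mem (isOpen_Ioi.mem_nhds (by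
        show dist (pr ((H.χ i).σ p₀)) (f w) / 2 < dist (pr ((H.χ i).σ p₀)) (f w)
        linarith))
    · filter_upwards [Ioo_mem_nhdsGT (half_pos hd)] with r hr z hz y hy x hx x' hx' hux hux' hpx hpx' hxU hmem
      exfalso
      have h3 : dist (pr ((H.χ i).σ ((H.χ i).q x))) (f w) > dist (pr ((H.χ i).σ p₀)) (f w) / 2 := hmem
      rw [← HoN_prq E (H.χ i) hx.1 hxU, hpx] at h3
      rw [mem_closedBall] at hy
      have h4 := hr.2
      linarith

theorem hole_near (E : LData X D P Λ Γ u B δ) (H : Hole X P Λ u b α) {r₀ R₀ ε : ℝ} (hr₀ : 0 < r₀) (hR₀ : R₀ < H.M.ρ)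
    (hB : ∀ z, r₀ ≤ ‖z - b‖ → ‖z - b‖ ≤ R₀ → z ∉ B) (hε : 0 < ε) : ∃ r₁ ε₀ : ℝ, 0 < r₁ ∧ 0 < ε₀ ∧
    ∀ z, r₀ ≤ ‖z - b‖ → ‖z - b‖ ≤ R₀ → ∀ f ∈ SO X D Λ u B (ball z r₁), ∀ x ∈ X \ P, ∀ x' ∈ X \ P, u x - z ∈ Λ → u x' - z ∈ Λ → pr x = f z →
      dist (pr x') (f z) ≤ ε₀ → ∀ i, x ∈ (H.χ i).U → CenS ((H.χ i).q x) → x' ∈ (H.χ i).U ∧ Cen ((H.χ i).q x') ∧
        ∃ v : ℂ, pth H.M.toAtl i ((H.χ i).q x) v = (H.χ i).q x' ∧ ∀ θ ∈ Set.Icc (0 : ℝ) 1,
          pth H.M.toAtl i ((H.χ i).q x) (θ * v) ∈ ball (0 : ℂ × ℂ) 2 ∧ dist (pr ((H.χ i).σ (pth H.M.toAtl i ((H.χ i).q x) (θ * v)))) (f z) ≤ ε := by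
  have hfin := H.fin
  set K : Set ℂ := {z | r₀ ≤ ‖z - b‖ ∧ ‖z - b‖ ≤ R₀} with hKdef
  have hK : IsCompact K := by
    refine (isCompact_closedBall b R₀).of_isClosed_subset ?_ ?_
    · have hc : Continuous (fun z : ℂ => ‖z - b‖) := by fun_prop
      exact (isClosed_le continuous_const hc).inter (isClosed_le hc continuous_const)
    · intro z hz
      rw [mem_closedBall, dist_eq_norm]
      exact hz.2
  set Q : ℝ → ℂ → MN N → Prop := fun r z y => ∀ x ∈ X \ P, ∀ x' ∈ X \ P, u x - z ∈ Λ → u x' - z ∈ Λ → pr x = y →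
      dist (pr x') y ≤ r → ∀ i, x ∈ (H.χ i).U → CenS ((H.χ i).q x) → x' ∈ (H.χ i).U ∧ Cen ((H.χ i).q x') ∧
        ∃ v : ℂ, pth H.M.toAtl i ((H.χ i).q x) v = (H.χ i).q x' ∧ ∀ θ ∈ Set.Icc (0 : ℝ) 1,
          pth H.M.toAtl i ((H.χ i).q x) (θ * v) ∈ ball (0 : ℂ × ℂ) 2 ∧
            dist (pr ((H.χ i).σ (pth H.M.toAtl i ((H.χ i).q x) (θ * v)))) y ≤ ε with hQdef
  have key := so_unifK E hK (fun z hz => hB z hz.1 hz.2) Q ?_ ?_
  · obtain ⟨r₁, ε₀, h1, h2, h3⟩ := key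
    exact ⟨r₁, ε₀, h1, h2, fun z hz1 hz2 f hf x hx x' hx' hux hux' hpx hpx' i => h3 z ⟨hz1, hz2⟩ f hf x hx x' hx' hux hux' hpx hpx' i⟩
  · intro r r' z y _ hle hQ x hx x' hx' hux hux' hpx hpx' i
    exact hQ x hx x' hx' hux hux' hpx (hpx'.trans hle) i
  · intro f hf w hw
    have hwB : w ∉ B := hB w hw.1 hw.2
    have hwρ : w ∈ ball b H.M.ρ := by
      rw [mem_ball, dist_eq_norm]
      exact lt_of_le_of_lt hw.2 hR₀
    have hwb : w ≠ b := by
      rintro rfl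
      have := hw.1
      rw [sub_self, norm_zero] at this
      exact absurd hr₀ (not_lt.2 this)
    obtain ⟨x₁, hx₁X, hx₁u, hx₁f⟩ := so_lift_at E isOpen_univ hf (Set.mem_univ w) hwB
    have hnP := so_notP E hf hwB
    -- the statement for the points in a set, in one chart
    have hall : ∀ i, ∀ᶠ r in 𝓝[>] (0 : ℝ), HoN_R E H R₀ ε f w i {p | ‖p.1‖ ≤ 3 / 8 ∧ ‖p.2‖ ≤ 7 / 8} r := by
      intro i
      have hC : IsCompact {p : ℂ × ℂ | ‖p.1‖ ≤ 3 / 8 ∧ ‖p.2‖ ≤ 7 / 8} := by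
        refine ((isCompact_closedBall (0 : ℂ) (3 / 8)).prod (isCompact_closedBall (0 : ℂ) (7 / 8))).of_isClosed_subset ?_ ?_
        · have hc1 : Continuous (fun p : ℂ × ℂ => ‖p.1‖) := by fun_prop
          have hc2 : Continuous (fun p : ℂ × ℂ => ‖p.2‖) := by fun_prop
          exact (isClosed_le hc1 continuous_const).inter (isClosed_le hc2 continuous_const)
        · rintro p ⟨h1, h2⟩
          exact ⟨by simpa using h1, by simpa using h2⟩
      refine hC.induction_on (p := fun S => ∀ᶠ r in 𝓝[>] (0 : ℝ), HoN_R E H R₀ ε f w i S r) ?_ ?_ ?_ ?_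
      · exact Filter.Eventually.of_forall fun r z _ y _ x _ x' _ _ _ _ _ _ hmem => absurd hmem (Set.notMem_empty _)
      · intro S T hST hT
        filter_upwards [hT] with r hr z hz y hy x hx x' hx' hux hux' hpx hpx' hxU hmem
        exact hr z hz y hy x hx x' hx' hux hux' hpx hpx' hxU (hST hmem)
      · intro S T hS hT
        filter_upwards [hS, hT] with r hr hr' z hz y hy x hx x' hx' hux hux' hpx hpx' hxU hmem
        rcases hmem with hmem | hmem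
        · exact hr z hz y hy x hx x' hx' hux hux' hpx hpx' hxU hmem
        · exact hr' z hz y hy x hx x' hx' hux hux' hpx hpx' hxU hmem
      · intro p₀ hp₀
        obtain ⟨V, hV, hVr⟩ := HoN_point E H hR₀ hε (f := f) hwρ hwb hx₁X hx₁u hx₁f hnP i hp₀.1 hp₀.2
        exact ⟨V, mem_nhdsWithin_of_mem_nhds hV, hVr⟩
    have hall' := (Filter.eventually_all.2 hall).and self_mem_nhdsWithin
    obtain ⟨r, hr, hr0⟩ := hall'.exists
    refine ⟨r, hr0, fun z hz hzw y hy x hx x' hx' hux hux' hpx hpx' i hxU hCen => ?_⟩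
    exact hr i z hz.2 y hy x hx x' hx' hux hux' hpx hpx' hxU ⟨hCen.1.le, hCen.2.le⟩

end Pool.Agent.H18.LU
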