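import Pool.Agent.H18.LU.CpL
import Pool.Agent.H62.EL.Jan

/-!
# LU JnL: properties of the integral

`II_contO`: `II_eqO` for the two pairs: `IRel` gives lifts in `V` over `z` of the four points; for `y₁` near `y` (`dist y₁ y + ε ≤ r`) both values are `(A (χ.q x') - A (χ.q x)) / ρ` (`A` a primitive, `exists_prim`);
`χ.q` of the lifts depends continuously on `pr` (the private lemma `tendsto_q` of EL Jan, copy it; `dist y' y ≤ ε < r`, so the lift of `y'` is in `χ.U`, by `Cap.cap`), `A` is continuous.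
`II_analyticL`: port of `II_analytic` (EL Jan): lifts in `V` from `so_liftV` (`f z₀ ∉ pr '' P` because of `hrel` at `z₀`: `f z₀ = pr (χ'.σ p)`, `χ'.σ p ∈ V = X \ P`, and `P` is a cone; same for `g`).
`II_bddL`: `so_unif` with `Q s z y := ∀ y', ‖II α ε z y y'‖ ≤ 1 / s`; translation: `II_per` (EL JanA; `E.vTor`).  `hloc` at `(f, w)`: `hcap` at `w` for `f ∈ SO univ ⊆ SO (ball w r₁)`: `Cap` of radius `r > ε`, primitive `A`, bounded by `M`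
on `closedBall 0 1`.  For `z ∈ closedBall w s`, `dist y (f w) ≤ s`, `s ≤ r - ε` small: if there is no `v` with `IRel`, `II = 0`; otherwise `II_eqO`: both lifts have `χ.q _ ∈ closedBall 0 1` (`Cap.cap`; `dist y' (f w) ≤ ε + s ≤ r`):
`‖II‖ ≤ 2 M / ρ ≤ 1 / s` for `s` small.
-/

set_option autoImplicit false

open Topology Filter Metric

namespace Pool.Agent.H18.LU

open Pool.Agent.H36.BP (EN fs wd IsGermChart)
open Pool.Agent.H14.PP (IsCone Chart Tan CurveAt)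
open Pool.Agent.H62.EF (Lat MN pr TorusMap Sec Charts DU)
open Pool.Agent.H62.EL (Gd Ag BadSet IsNC TForm Mon mo Cap IRel II tc IsPrim Per)

variable {N : ℕ} {X D P : Set (EN N)} {Λ Γ : AddSubgroup ℂ} {u : EN N → ℂ} {B : Set ℂ} {δ : ℝ}

/-- uniform charts -/
def HasCap (X D P : Set (EN N)) (Λ : AddSubgroup ℂ) (u : EN N → ℂ) (B : Set ℂ) (δ' R r₁ r : ℝ) : Prop :=
  ∀ z ∈ Gd B δ', z ∈ Nb Λ R → ∀ f ∈ SO X D Λ u B (ball z r₁), ∃ (χ : Chart (X \ P)) (c : ℂ) (ρ : ℝ), Cap Λ u χ c ρ z (f z) r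

/-- near points are joined by short paths -/
def HasRel (D : Set (EN N)) (B : Set ℂ) (α : TForm (X \ P) Λ u) (δ' R r₁ ε ε₀ : ℝ) : Prop :=
  ∀ z ∈ Gd B δ', z ∈ Nb Λ R → ∀ f ∈ SO X D Λ u B (ball z r₁), ∀ x ∈ X \ P, u x - z ∈ Λ → dist (f z) (pr x) ≤ ε₀ →
    ∃ v, IRel α ε z (f z) (pr x) v

private theorem JnL_lifts {V : Set (EN N)} {α : TForm V Λ u} {ε : ℝ} {z v : ℂ} {y y' : MN N} (h : IRel α ε z y y' v) :
    (∃ x ∈ V, u x - z ∈ Λ ∧ pr x = y) ∧ (∃ x ∈ V, u x - z ∈ Λ ∧ pr x = y') ∧ 0 ≤ ε ∧ dist y' y ≤ ε := by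
  obtain ⟨χ, c, ρ, A, p, p', hm, -, hp, hp', hpz, hpz', hy, hy', hθ, -⟩ := h
  have hmo : ∀ q : ℂ × ℂ, mo c ρ 1 0 q = c + ρ * q.1 := by
    intro q
    simp [mo]
  refine ⟨⟨χ.σ p, (χ.σ_mem p hp).1, ?_, hy⟩, ⟨χ.σ p', (χ.σ_mem p' hp').1, ?_, hy'⟩, ?_, ?_⟩
  · have h1 := hm.lift p hp
    rwa [hmo, hpz] at h1
  · have h1 := hm.lift p' hp'
    rwa [hmo, hpz'] at h1
  · exact dist_nonneg.trans (hθ 0 ⟨le_refl _, zero_le_one⟩)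
  · have h1 := hθ 1 ⟨zero_le_one, le_refl _⟩
    have h2 : p + ((1 : ℝ) : ℂ) • (p' - p) = p' := by
      rw [Complex.ofReal_one, one_smul]
      abel
    rw [h2, hy'] at h1
    exact h1

private theorem JnL_q {V : Set (EN N)} (χ : Chart V) {x : EN N} (hx : x ∈ χ.U) (hx0 : x ≠ 0) {W : Set (ℂ × ℂ)} (hW : W ∈ 𝓝 (χ.q x)) :
    ∃ κ : ℝ, 0 < κ ∧ ∀ y : EN N, y ≠ 0 → dist (pr y) (pr x) < κ → χ.q y ∈ W := by
  have hU : χ.U ∩ χ.q ⁻¹' W ∈ 𝓝 x := inter_mem (χ.isOpen_U.mem_nhds hx) ((χ.q_an x hx).continuousAt hW)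
  obtain ⟨δ, hδ, hn⟩ := Pool.Agent.H62.EF.near_of_pr hx0 hU
  refine ⟨δ, hδ, fun y h2 h3 => ?_⟩
  obtain ⟨c, hc, h4, h5⟩ := hn y h2 h3
  have h6 : y ∈ χ.U := by
    have := χ.smul_U _ h4 c⁻¹ (inv_ne_zero hc)
    rwa [smul_smul, inv_mul_cancel₀ hc, one_smul] at this
  have h7 : χ.q (c • y) ∈ W := h5
  rw [χ.q_smul _ h6 c hc] at h7
  exact h7

private theorem JnL_sub : closedBall (0 : ℂ × ℂ) 1 ⊆ ball (0 : ℂ × ℂ) 2 := closedBall_subset_ball (by norm_num)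

theorem II_contO {V : Set (EN N)} (hV : OCone V) (hu : TorusMap V Λ u) (hΛ : Dsc Λ) {α : TForm V Λ u} {ε r : ℝ} {z : ℂ} {y y' : MN N}
    {χ : Chart V} {c : ℂ} {ρ : ℝ} (hc : Cap Λ u χ c ρ z y r) (hr : ε < r) (h : ∃ v, IRel α ε z y y' v) {η : ℝ} (hη : 0 < η) :
    ∃ κ : ℝ, 0 < κ ∧ ∀ y₁ y₁' : MN N, dist y₁ y < κ → dist y₁' y' < κ → (∃ v, IRel α ε z y₁ y₁' v) →
      dist (II α ε z y₁ y₁') (II α ε z y y') < η := by
  obtain ⟨A, hA⟩ := Pool.Agent.H62.EL.exists_prim α χ hc.mon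
  obtain ⟨v₀, hv₀⟩ := h
  obtain ⟨⟨x, hxV, hxu, hxy⟩, ⟨x', hxV', hxu', hxy'⟩, hε, hyy⟩ := JnL_lifts hv₀
  have hr0 : 0 < r := lt_of_le_of_lt hε hr
  have hzr : z ∈ closedBall z r := mem_closedBall_self hr0.le
  have hρ := hc.mon.pos
  obtain ⟨hU, hq, -⟩ := hc.cap z hzr x hxV hxu (by rw [hxy, dist_self]; exact hr0.le)
  obtain ⟨hU', hq', -⟩ := hc.cap z hzr x' hxV' hxu' (by rw [hxy']; exact hyy.trans hr.le)
  have hηρ : 0 < η * ρ / 2 := by positivity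
  have w1 : {p : ℂ × ℂ | dist (A p) (A (χ.q x)) < η * ρ / 2} ∈ 𝓝 (χ.q x) :=
    (hA.an _ (JnL_sub hq)).continuousAt.eventually (ball_mem_nhds _ hηρ)
  have w2 : {p : ℂ × ℂ | dist (A p) (A (χ.q x')) < η * ρ / 2} ∈ 𝓝 (χ.q x') :=
    (hA.an _ (JnL_sub hq')).continuousAt.eventually (ball_mem_nhds _ hηρ)
  obtain ⟨κ₁, hκ₁, k1⟩ := JnL_q χ hU (hV.ne_zero hxV) w1
  obtain ⟨κ₂, hκ₂, k2⟩ := JnL_q χ hU' (hV.ne_zero hxV') w2
  refine ⟨min (min κ₁ κ₂) (r - ε), lt_min (lt_min hκ₁ hκ₂) (by linarith), ?_⟩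
  intro y₁ y₁' h1 h2 h3
  have h11 : dist y₁ y < κ₁ := lt_of_lt_of_le h1 ((min_le_left _ _).trans (min_le_left _ _))
  have h12 : dist y₁ y < r - ε := lt_of_lt_of_le h1 (min_le_right _ _)
  have h21 : dist y₁' y' < κ₂ := lt_of_lt_of_le h2 ((min_le_left _ _).trans (min_le_right _ _))
  obtain ⟨⟨x₁, hx₁V, hx₁u, hx₁y⟩, ⟨x₁', hx₁V', hx₁u', hx₁y'⟩, -, -⟩ := JnL_lifts h3.choose_spec
  have e1 := II_eqO hV hu hΛ ⟨v₀, hv₀⟩ hc hA hzr (by rw [dist_self]; linarith) hxV hxV' hxy hxy'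
  have e2 := II_eqO hV hu hΛ h3 hc hA hzr (by linarith) hx₁V hx₁V' hx₁y hx₁y'
  have d1 : dist (A (χ.q x₁)) (A (χ.q x)) < η * ρ / 2 := k1 x₁ (hV.ne_zero hx₁V) (by rw [hx₁y, hxy]; exact h11)
  have d2 : dist (A (χ.q x₁')) (A (χ.q x')) < η * ρ / 2 := k2 x₁' (hV.ne_zero hx₁V') (by rw [hx₁y', hxy']; exact h21)
  rw [e1, e2, dist_eq_norm, ← sub_div, norm_div, Complex.norm_real, Real.norm_of_nonneg hρ.le, div_lt_iff₀ hρ]
  rw [dist_eq_norm] at d1 d2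
  have e3 : A (χ.q x₁') - A (χ.q x₁) - (A (χ.q x') - A (χ.q x)) = (A (χ.q x₁') - A (χ.q x')) - (A (χ.q x₁) - A (χ.q x)) := by ring
  rw [e3]
  have e4 := norm_sub_le (A (χ.q x₁') - A (χ.q x')) (A (χ.q x₁) - A (χ.q x))
  linarith

private theorem JnL_notP (E : LData X D P Λ Γ u B δ) {x : EN N} (hx : x ∈ X \ P) : pr x ∉ pr '' P := by
  rintro ⟨x', hx', h⟩
  have hX := E.cone
  have hx'0 : x' ≠ 0 := hX.ne_zero (E.D_sub (E.P_sub hx'))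
  obtain ⟨c, hc, e⟩ := (Pool.Agent.H62.EF.pr_eq_iff (hX.ne_zero hx.1) hx'0).1 h.symm
  exact hx.2 (by rw [e]; exact E.P_smul x' hx' c hc)

theorem II_analyticL (E : LData X D P Λ Γ u B δ) {α : TForm (X \ P) Λ u} {ε r : ℝ} {Ω : Set ℂ} (hΩ : IsOpen Ω) {f g : ℂ → MN N}
    (hf : f ∈ SO X D Λ u B Ω) (hg : g ∈ SO X D Λ u B Ω) {z₀ : ℂ} (hz₀ : z₀ ∈ Ω) (hz₀B : z₀ ∉ B) {χ : Chart (X \ P)} {c : ℂ} {ρ : ℝ}
    (hc : Cap Λ u χ c ρ z₀ (f z₀) r) (hr : ε < r) (hrel : ∀ᶠ z in 𝓝 z₀, ∃ v, IRel α ε z (f z) (g z) v) :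
    AnalyticAt ℂ (fun z => II α ε z (f z) (g z)) z₀ := by
  obtain ⟨v₀, hv₀⟩ := hrel.self_of_nhds
  obtain ⟨⟨a, haV, hau, haf⟩, ⟨b, hbV, hbu, hbg⟩, hε, hfg⟩ := JnL_lifts hv₀
  obtain ⟨r₁, Ψ, hr₁, -, hΨ, hΨ'⟩ := so_liftV E hΩ hf hz₀ hz₀B (by rw [← haf]; exact JnL_notP E haV)
  obtain ⟨r₂, Φ, hr₂, -, hΦ, hΦ'⟩ := so_liftV E hΩ hg hz₀ hz₀B (by rw [← hbg]; exact JnL_notP E hbV)
  obtain ⟨A, hA⟩ := Pool.Agent.H62.EL.exists_prim α χ hc.mon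
  have hr0 : 0 < r := lt_of_le_of_lt hε hr
  have hV := E.vCone
  obtain ⟨-, hΨX, hΨu, hΨf⟩ := hΨ' z₀ (mem_ball_self hr₁)
  obtain ⟨-, hΦX, hΦu, hΦg⟩ := hΦ' z₀ (mem_ball_self hr₂)
  have hz₀r : z₀ ∈ closedBall z₀ r := mem_closedBall_self hr0.le
  obtain ⟨hΨU, hΨq, -⟩ := hc.cap z₀ hz₀r (Ψ z₀) hΨX hΨu (by rw [hΨf, dist_self]; exact hr0.le)
  obtain ⟨hΦU, hΦq, -⟩ := hc.cap z₀ hz₀r (Φ z₀) hΦX hΦu (by rw [hΦg]; exact hfg.trans hr.le)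
  have hΨa : AnalyticAt ℂ Ψ z₀ := hΨ.analyticAt (ball_mem_nhds _ hr₁)
  have hΦa : AnalyticAt ℂ Φ z₀ := hΦ.analyticAt (ball_mem_nhds _ hr₂)
  have a1 : AnalyticAt ℂ (fun z => A (χ.q (Ψ z))) z₀ :=
    AnalyticAt.comp (f := fun z => χ.q (Ψ z)) (g := A) (hA.an _ (JnL_sub hΨq))
      (AnalyticAt.comp (f := Ψ) (g := χ.q) (χ.q_an _ hΨU) hΨa)
  have a2 : AnalyticAt ℂ (fun z => A (χ.q (Φ z))) z₀ :=
    AnalyticAt.comp (f := fun z => χ.q (Φ z)) (g := A) (hA.an _ (JnL_sub hΦq))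
      (AnalyticAt.comp (f := Φ) (g := χ.q) (χ.q_an _ hΦU) hΦa)
  have hρ : (ρ : ℂ) ≠ 0 := by
    have := hc.mon.pos
    exact_mod_cast this.ne'
  have a3 : AnalyticAt ℂ (fun z => (A (χ.q (Φ z)) - A (χ.q (Ψ z))) / (ρ : ℂ)) z₀ := (a2.sub a1).div analyticAt_const hρ
  refine a3.congr ?_
  have e1 : ∀ᶠ z in 𝓝 z₀, z ∈ ball z₀ r₁ := ball_mem_nhds _ hr₁
  have e2 : ∀ᶠ z in 𝓝 z₀, z ∈ ball z₀ r₂ := ball_mem_nhds _ hr₂
  have e3 : ∀ᶠ z in 𝓝 z₀, z ∈ closedBall z₀ r := closedBall_mem_nhds _ hr0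
  have e4 : ∀ᶠ z in 𝓝 z₀, dist (pr (Ψ z)) (pr (Ψ z₀)) < r - ε := by
    have h1 : ContinuousAt (fun z => pr (Ψ z)) z₀ := ContinuousAt.comp (f := Ψ) (g := pr)
      (Pool.Agent.H62.EF.continuousAt_pr (hV.ne_zero hΨX)) hΨa.continuousAt
    exact h1.eventually (ball_mem_nhds _ (by linarith))
  filter_upwards [e1, e2, e3, e4, hrel] with z h1 h2 h3 h4 h5
  obtain ⟨-, k1, -, k3⟩ := hΨ' z h1
  obtain ⟨-, m1, -, m3⟩ := hΦ' z h2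
  have h6 : dist (f z) (f z₀) + ε ≤ r := by
    rw [k3, hΨf] at h4
    linarith
  exact (II_eqO hV E.vTor E.dsc h5 hc hA h3 h6 k1 m1 k3 m3).symm

theorem II_bddL (E : LData X D P Λ Γ u B δ) {α : TForm (X \ P) Λ u} (hper : Per α Γ) {δ' R r₁ ε r : ℝ} (hδ' : 0 < δ') (hr : ε < r)
    (hr₁ : 0 < r₁) (hcap : HasCap X D P Λ u B δ' R r₁ r) :
    ∃ r₂ C : ℝ, 0 < r₂ ∧ 0 ≤ C ∧ ∀ z ∈ Gd B δ', z ∈ Nb Λ R → ∀ f ∈ SO X D Λ u B (ball z r₂), ∀ y' : MN N, ‖II α ε z (f z) y'‖ ≤ C := by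
  obtain ⟨Q, hQ⟩ : ∃ Q : ℝ → ℂ → MN N → Prop, Q = fun s z y => ∀ y' : MN N, ‖II α ε z y y'‖ ≤ 1 / s := ⟨_, rfl⟩
  suffices hsuf : ∃ r₂ s : ℝ, 0 < r₂ ∧ 0 < s ∧ ∀ z ∈ Gd B δ', z ∈ Nb Λ R → ∀ f ∈ SO X D Λ u B (ball z r₂), Q s z (f z) by
    obtain ⟨r₂, s, hr₂, hs, h⟩ := hsuf
    rw [hQ] at h
    exact ⟨r₂, 1 / s, hr₂, (one_div_pos.2 hs).le, h⟩
  refine so_unif E hδ' R Q ?_ ?_ ?_ <;> rw [hQ]
  · intro t t' z y ht' htt h y'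
    exact (h y').trans (one_div_le_one_div_of_le ht' htt)
  · intro t z y l hl h y'
    rw [Pool.Agent.H62.EL.II_per E.vTor E.le hper hl ε z y y']
    exact h y'
  · intro f hf w hw hwR
    obtain ⟨χ, c, ρ, hc⟩ := hcap w hw hwR f (so_anti (Set.subset_univ _) hf)
    obtain ⟨A, hA⟩ := Pool.Agent.H62.EL.exists_prim α χ hc.mon
    have hAc : ContinuousOn A (closedBall (0 : ℂ × ℂ) 1) := fun p hp => (hA.an p (JnL_sub hp)).continuousAt.continuousWithinAt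
    obtain ⟨M, hM⟩ := (isCompact_closedBall (0 : ℂ × ℂ) 1).exists_bound_of_continuousOn hAc
    have hM0 : 0 ≤ M := (norm_nonneg _).trans (hM 0 (mem_closedBall_self zero_le_one))
    have hρ := hc.mon.pos
    have hMρ : 0 < 2 * M / ρ + 1 := by positivity
    refine ⟨min (r - ε) (2 * M / ρ + 1)⁻¹, lt_min (by linarith) (inv_pos.2 hMρ), ?_⟩
    intro z hz y hy y'
    have hspos : 0 < min (r - ε) (2 * M / ρ + 1)⁻¹ := lt_min (by linarith) (inv_pos.2 hMρ)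
    have hs1 : 2 * M / ρ + 1 ≤ 1 / min (r - ε) (2 * M / ρ + 1)⁻¹ := by
      rw [le_div_iff₀ hspos]
      have h1 := mul_le_mul_of_nonneg_left (min_le_right (r - ε) (2 * M / ρ + 1)⁻¹) hMρ.le
      rwa [mul_inv_cancel₀ hMρ.ne'] at h1
    by_cases hex : ∃ v, IRel α ε z y y' v
    · obtain ⟨⟨x, hxV, hxu, hxy⟩, ⟨x', hxV', hxu', hxy'⟩, hε, hyy⟩ := JnL_lifts hex.choose_spec
      have hz1 : dist z w ≤ r - ε := (mem_closedBall.1 hz).trans (min_le_left _ _)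
      have hy1 : dist y (f w) ≤ r - ε := (mem_closedBall.1 hy).trans (min_le_left _ _)
      have hzr : z ∈ closedBall w r := mem_closedBall.2 (by linarith)
      obtain ⟨-, hq, -⟩ := hc.cap z hzr x hxV hxu (by rw [hxy]; linarith)
      obtain ⟨-, hq', -⟩ := hc.cap z hzr x' hxV' hxu' (by
        rw [hxy']
        have := dist_triangle y' y (f w)
        linarith)
      rw [II_eqO E.vCone E.vTor E.dsc hex hc hA hzr (by linarith) hxV hxV' hxy hxy', norm_div, Complex.norm_real, Real.norm_of_nonneg hρ.le]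
      have h5 : ‖A (χ.q x') - A (χ.q x)‖ ≤ 2 * M := by
        have h6 := norm_sub_le (A (χ.q x')) (A (χ.q x))
        have h7 := hM _ hq
        have h8 := hM _ hq'
        linarith
      have h9 : ‖A (χ.q x') - A (χ.q x)‖ / ρ ≤ 2 * M / ρ := div_le_div_of_nonneg_right h5 hρ.le
      linarith
    · have h1 : II α ε z y y' = 0 := by
        unfold II
        rw [dif_neg hex]
      rw [h1, norm_zero]
      exact (one_div_pos.2 hspos).le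

end Pool.Agent.H18.LU
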