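import Pool.Agent.H18.LU.OTc
import Pool.Agent.H18.LU.OUn

/-!
# LU JnP: the integral in a family of curves

`II_param`: `A` a primitive for the chart `χ` (`exists_prim`).  By `II_eqO` `II = (A (χ.q (Φ (z, w₁))) - A (χ.q (Φ (z, w₀)))) / ρ`.  Let `p_θ = (z, w₀ + θ (w₁ - w₀))`, `κ p = χ.q (Φ p)`, analytic near `p_θ` (`Φ p_θ ∈ χ.U` by
`Cap.cap`), `Φ p = a p • χ.σ (κ p)`, and `c + ρ (κ p).1 = p.1` near `p_θ` (both sides differ by an element of `Λ`, equal at `p_θ` by `Cap.cap`, continuity).  So `ρ ∂₁κ₁ = 1`, `∂₂κ₁ = 0`, and the derivative of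
`θ ↦ A (κ p_θ)` is `(w₁ - w₀) (∂₂A) (κ p_θ) ∂₂κ₂ = (w₁ - w₀) tc α χ _ (κ p_θ) ∂₂κ₂`.  On the other hand `α.toFun z (Φ p_θ) (∂₁Φ) (∂₂Φ) = tc α χ _ (κ p_θ) (∂₁κ₁ ∂₂κ₂ - ∂₂κ₁ ∂₁κ₂) = tc ∂₂κ₂ / ρ` (as in the proof of `tc_transO`:
`∂Φ = a • Dχ.σ (∂κ) + (∂a) • χ.σ`; `add_smul`, `scale`, `det` of `TForm`).  The integrand is continuous in `θ` (`TForm.analytic`); fundamental theorem of calculus.
-/

set_option autoImplicit false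

open Topology Filter Metric

namespace Pool.Agent.H18.LU

open Pool.Agent.H36.BP (EN fs wd IsGermChart)
open Pool.Agent.H14.PP (IsCone Chart Tan CurveAt)
open Pool.Agent.H62.EF (Lat MN pr TorusMap Sec Charts DU)
open Pool.Agent.H62.EL (Gd Ag BadSet IsNC TForm Mon mo Cap IRel II tc IsPrim Per)

variable {N : ℕ} {Λ : AddSubgroup ℂ} {u : EN N → ℂ}

private theorem JP_open {X : Set (EN N)} (hX : OCone X) : Pool.Agent.H14.PP.IsOpenPart X X :=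
  ⟨subset_rfl, hX.smul_mem, fun _ _ => Eventually.of_forall fun _ h => h⟩

private theorem JP_tan_smul {X : Set (EN N)} (hX : OCone X) {x v : EN N} (h : Tan X x v) {c : ℂ} (hc : c ≠ 0) :
    Tan X (c • x) (c • v) := by
  obtain ⟨F, hF, hF0, hFd⟩ := h
  refine ⟨fun z => c • F z, ⟨AnalyticAt.fun_smul analyticAt_const hF.1, ?_⟩, ?_, ?_⟩
  · filter_upwards [hF.2] with z hz
    exact hX.smul_mem _ hz c hc
  · show c • F 0 = c • x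
    rw [hF0]
  · have h1 : HasDerivAt (fun z => c • F z) (c • deriv F 0) 0 :=
      hF.1.differentiableAt.hasDerivAt.const_smul c
    rw [h1.deriv, hFd]

/-- The lift: `Φ y = c y • χ.σ (τ y)` near `p`, with `c` differentiable at `p`. -/
private theorem JP_lift {X : Set (EN N)} (hX : OCone X) (χ' : Chart X) {Φ : ℂ × ℂ → EN N} {p : ℂ × ℂ}
    (hΦ : AnalyticAt ℂ Φ p) (hΦX : ∀ᶠ y in 𝓝 p, Φ y ∈ X) (hU : Φ p ∈ χ'.U) :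
    ∃ (c : ℂ) (c' : (ℂ × ℂ) →L[ℂ] ℂ), c ≠ 0 ∧ χ'.q (Φ p) ∈ ball (0 : ℂ × ℂ) 2 ∧
      Φ p = c • χ'.σ (χ'.q (Φ p)) ∧
      ∀ w : ℂ × ℂ, fderiv ℂ Φ p w =
        c • fderiv ℂ χ'.σ (χ'.q (Φ p)) (fderiv ℂ (fun y => χ'.q (Φ y)) p w) +
          c' w • χ'.σ (χ'.q (Φ p)) := by
  obtain ⟨hτ, c0, hc0, hx⟩ := χ'.surj (Φ p) hΦX.self_of_nhds hU
  set x' : EN N := χ'.σ (χ'.q (Φ p)) with hx'
  have hx'0 : x' ≠ 0 := χ'.sigma_ne_zeroO hX hτ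
  have hin : inner ℂ x' x' ≠ 0 := by
    rw [Ne, inner_self_eq_zero]
    exact hx'0
  have hτan : AnalyticAt ℂ (fun y => χ'.q (Φ y)) p :=
    AnalyticAt.comp (g := χ'.q) (f := Φ) (χ'.q_an _ hU) hΦ
  have hσ'an : AnalyticAt ℂ (fun y => χ'.σ (χ'.q (Φ y))) p :=
    AnalyticAt.comp (g := χ'.σ) (f := fun y => χ'.q (Φ y)) (χ'.σ_an _ hτ) hτan
  have hnum : AnalyticAt ℂ (fun y => innerSL ℂ x' (Φ y)) p :=
    AnalyticAt.comp (g := fun v => innerSL ℂ x' v) (f := Φ)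
      ((innerSL ℂ x').analyticAt _) hΦ
  have hden : AnalyticAt ℂ (fun y => innerSL ℂ x' (χ'.σ (χ'.q (Φ y)))) p :=
    AnalyticAt.comp (g := fun v => innerSL ℂ x' v) (f := fun y => χ'.σ (χ'.q (Φ y)))
      ((innerSL ℂ x').analyticAt _) hσ'an
  have hden0 : innerSL ℂ x' (χ'.σ (χ'.q (Φ p))) ≠ 0 := by
    rw [← hx', innerSL_apply_apply]
    exact hin
  let C : ℂ × ℂ → ℂ := fun y => innerSL ℂ x' (Φ y) / innerSL ℂ x' (χ'.σ (χ'.q (Φ y)))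
  have hC : AnalyticAt ℂ C p := hnum.div hden hden0
  have hCp : C p = c0 := by
    show innerSL ℂ x' (Φ p) / innerSL ℂ x' (χ'.σ (χ'.q (Φ p))) = c0
    rw [div_eq_iff hden0]
    conv_lhs => rw [hx]
    rw [map_smul, smul_eq_mul]
  have hev : ∀ᶠ y in 𝓝 p, Φ y = C y • χ'.σ (χ'.q (Φ y)) := by
    have h2 : ∀ᶠ y in 𝓝 p, Φ y ∈ χ'.U :=
      hΦ.continuousAt.eventually (χ'.isOpen_U.mem_nhds hU)
    have h3 : ∀ᶠ y in 𝓝 p, innerSL ℂ x' (χ'.σ (χ'.q (Φ y))) ≠ 0 :=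
      hden.continuousAt.eventually_ne hden0
    filter_upwards [hΦX, h2, h3] with y hy1 hy2 hy3
    obtain ⟨-, b, hb, hxb⟩ := χ'.surj (Φ y) hy1 hy2
    have h4 : C y = b := by
      show innerSL ℂ x' (Φ y) / innerSL ℂ x' (χ'.σ (χ'.q (Φ y))) = b
      rw [div_eq_iff hy3]
      conv_lhs => rw [hxb]
      rw [map_smul, smul_eq_mul]
    rw [h4]
    exact hxb
  refine ⟨c0, fderiv ℂ C p, hc0, hτ, hx, fun w => ?_⟩
  have hD1 : HasFDerivAt (fun y => χ'.σ (χ'.q (Φ y)))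
      ((fderiv ℂ χ'.σ (χ'.q (Φ p))).comp (fderiv ℂ (fun y => χ'.q (Φ y)) p)) p :=
    HasFDerivAt.comp (g := χ'.σ) (f := fun y => χ'.q (Φ y)) p
      (χ'.σ_an _ hτ).differentiableAt.hasFDerivAt hτan.differentiableAt.hasFDerivAt
  have hD2 : HasFDerivAt (fun y => C y • χ'.σ (χ'.q (Φ y)))
      (C p • ((fderiv ℂ χ'.σ (χ'.q (Φ p))).comp (fderiv ℂ (fun y => χ'.q (Φ y)) p)) +
        (fderiv ℂ C p).smulRight (χ'.σ (χ'.q (Φ p)))) p :=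
    hC.differentiableAt.hasFDerivAt.smul hD1
  have hD3 : HasFDerivAt Φ
      (C p • ((fderiv ℂ χ'.σ (χ'.q (Φ p))).comp (fderiv ℂ (fun y => χ'.q (Φ y)) p)) +
        (fderiv ℂ C p).smulRight (χ'.σ (χ'.q (Φ p)))) p :=
    hD2.congr_of_eventuallyEq hev
  rw [hD3.fderiv, hCp]
  rfl

private theorem JP_pair (L : (ℂ × ℂ) →L[ℂ] EN N) (w : ℂ × ℂ) :
    L w = w.1 • L (1, 0) + w.2 • L (0, 1) := by
  rw [← map_smul, ← map_smul, ← map_add]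
  congr 1
  ext
  · simp
  · simp

private theorem JP_val {X : Set (EN N)} (hX : OCone X) (α : TForm X Λ u) (χ : Chart X) {p : ℂ × ℂ} {z : ℂ}
    (hp : p ∈ ball (0 : ℂ × ℂ) 2) (hl : u (χ.σ p) - z ∈ Λ) (A B : ℂ × ℂ) :
    α.toFun z (χ.σ p) (fderiv ℂ χ.σ p A) (fderiv ℂ χ.σ p B) =
      (A.1 * B.2 - A.2 * B.1) * α.toFun z (χ.σ p) (fderiv ℂ χ.σ p (1, 0)) (fderiv ℂ χ.σ p (0, 1)) := by
  have hx := (χ.σ_mem p hp).1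
  have h3 := α.det z (χ.σ p) hx hl _ _ (χ.tan (JP_open hX) hp hx (1, 0)) (χ.tan (JP_open hX) hp hx (0, 1))
    A.1 A.2 B.1 B.2
  rw [← JP_pair, ← JP_pair] at h3
  exact h3

private theorem JP_form {X : Set (EN N)} (hX : OCone X) (hu : TorusMap X Λ u) (α : TForm X Λ u) (χ : Chart X) {υ : ℂ × ℂ → ℂ}
    {Φ : ℂ × ℂ → EN N} {p : ℂ × ℂ} {z : ℂ} (hΦ : AnalyticAt ℂ Φ p) (hΦX : ∀ᶠ y in 𝓝 p, Φ y ∈ X) (hU : Φ p ∈ χ.U)
    (hl : u (Φ p) - z ∈ Λ) (he : υ (χ.q (Φ p)) = z) :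
    α.toFun z (Φ p) (fderiv ℂ Φ p (1, 0)) (fderiv ℂ Φ p (0, 1)) =
      tc α χ υ (χ.q (Φ p)) * Pool.Agent.H14.PP.jac (fun y => χ.q (Φ y)) p := by
  obtain ⟨c, c', hc, hτ, hx, hD⟩ := JP_lift hX χ hΦ hΦX hU
  have hx'X : χ.σ (χ.q (Φ p)) ∈ X := (χ.σ_mem _ hτ).1
  set x' : EN N := χ.σ (χ.q (Φ p)) with hx'
  set A : ℂ × ℂ := fderiv ℂ (fun y => χ.q (Φ y)) p (1, 0) with hA
  set B : ℂ × ℂ := fderiv ℂ (fun y => χ.q (Φ y)) p (0, 1) with hB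
  have htA : Tan X x' (fderiv ℂ χ.σ (χ.q (Φ p)) A) := χ.tan (JP_open hX) hτ hx'X A
  have htB : Tan X x' (fderiv ℂ χ.σ (χ.q (Φ p)) B) := χ.tan (JP_open hX) hτ hx'X B
  have hV : fderiv ℂ Φ p (1, 0) =
      c • fderiv ℂ χ.σ (χ.q (Φ p)) A + (c' (1, 0) * c⁻¹) • (c • x') := by
    rw [hD (1, 0), smul_smul, mul_assoc, inv_mul_cancel₀ hc, mul_one]
  have hW : fderiv ℂ Φ p (0, 1) =
      c • fderiv ℂ χ.σ (χ.q (Φ p)) B + (c' (0, 1) * c⁻¹) • (c • x') := by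
    rw [hD (0, 1), smul_smul, mul_assoc, inv_mul_cancel₀ hc, mul_one]
  have hcx : c • x' ∈ X := hX.smul_mem _ hx'X c hc
  have hl1 : u (c • x') - z ∈ Λ := by rw [← hx]; exact hl
  have hl2 : u x' - z ∈ Λ := by
    have h := Λ.sub_mem hl1 (hu.smul x' hx'X c hc)
    have e : u (c • x') - z - (u (c • x') - u x') = u x' - z := by ring
    rwa [e] at h
  have h1 := α.add_smul z (c • x') hcx hl1 _ _ (JP_tan_smul hX htA hc) (JP_tan_smul hX htB hc)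
    (c' (1, 0) * c⁻¹) (c' (0, 1) * c⁻¹)
  have h2 := α.scale z x' hx'X hl2 _ _ htA htB c hc
  have h3 := JP_val hX α χ hτ (z := z) hl2 A B
  have h4 : α.toFun z (Φ p) (fderiv ℂ Φ p (1, 0)) (fderiv ℂ Φ p (0, 1)) =
      α.toFun z (c • x') (c • fderiv ℂ χ.σ (χ.q (Φ p)) A) (c • fderiv ℂ χ.σ (χ.q (Φ p)) B) := by
    rw [← h1, ← hV, ← hW, ← hx]
  rw [h4, h2, h3]
  have h5 : Pool.Agent.H14.PP.jac (fun y => χ.q (Φ y)) p = A.1 * B.2 - A.2 * B.1 := by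
    show A.1 * B.2 - B.1 * A.2 = _
    ring
  rw [h5, mul_comm]
  congr 1
  show _ = α.toFun (υ (χ.q (Φ p))) _ _ _
  rw [he]

private theorem JP_mo (c : ℂ) (ρ : ℝ) (p : ℂ × ℂ) : Pool.Agent.H62.EL.mo c ρ 1 0 p = c + ρ * p.1 := by
  simp [Pool.Agent.H62.EL.mo]

/-- near `p` the first coordinate is `(p.1 - c) / ρ` -/
private theorem JP_fst {X : Set (EN N)} (hu : TorusMap X Λ u) (hΛ : Dsc Λ) {χ : Chart X} {c : ℂ} {ρ : ℝ}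
    (hm : Mon Λ u χ c ρ 1 0) {Φ : ℂ × ℂ → EN N} {q : ℂ × ℂ} (hΦ : AnalyticAt ℂ Φ q)
    (hΦX : ∀ᶠ p in 𝓝 q, Φ p ∈ X ∧ u (Φ p) - p.1 ∈ Λ) (hU : Φ q ∈ χ.U)
    (he : c + ρ * (χ.q (Φ q)).1 = q.1) :
    ∀ᶠ y in 𝓝 q, c + ρ * (χ.q (Φ y)).1 = y.1 := by
  obtain ⟨δ, hδ, hdisc⟩ := hΛ.discrete
  have hτ : ContinuousAt (fun y => χ.q (Φ y)) q := (χ.q_an _ hU).continuousAt.comp hΦ.continuousAt
  have hτ1 : ContinuousAt (fun y => (χ.q (Φ y)).1) q := continuous_fst.continuousAt.comp hτ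
  have hcont : ContinuousAt (fun y : ℂ × ℂ => c + ρ * (χ.q (Φ y)).1 - y.1) q :=
    (continuousAt_const.add (continuousAt_const.mul hτ1)).sub continuous_fst.continuousAt
  have hsmall : ∀ᶠ y in 𝓝 q, ‖c + ρ * (χ.q (Φ y)).1 - y.1‖ < δ := by
    have h1 := hcont.norm
    have h2 : ‖c + ρ * (χ.q (Φ q)).1 - q.1‖ < δ := by
      rw [he, sub_self, norm_zero]
      exact hδ
    exact h1.eventually_lt_const h2
  filter_upwards [hsmall, hΦX, hΦ.continuousAt (χ.isOpen_U.mem_nhds hU)] with y h1 h2 h3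
  obtain ⟨hb, a, ha, hay⟩ := χ.surj _ h2.1 h3
  have h5 := hm.lift _ hb
  have h6 : u (Φ y) - u (χ.σ (χ.q (Φ y))) ∈ Λ := by
    have := hu.smul _ (χ.σ_mem _ hb).1 a ha
    rwa [← hay] at this
  rw [JP_mo] at h5
  have h7 : c + ρ * (χ.q (Φ y)).1 - y.1 ∈ Λ := by
    have h8 := Λ.sub_mem (Λ.sub_mem h2.2 h6) h5
    convert h8 using 1
    ring
  exact sub_eq_zero.mp (hdisc _ h7 h1)

private theorem JP_vert (L : ℂ × ℂ →L[ℂ] ℂ) (d : ℂ × ℂ) (hd : d.1 = 0) : L d = d.2 * L (0, 1) := by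
  have h1 : d = d.2 • ((0, 1) : ℂ × ℂ) := by
    ext
    · simp [hd]
    · simp
  conv_lhs => rw [h1]
  rw [map_smul, smul_eq_mul]

/-- the derivative of the primitive along the family -/
private theorem JP_deriv {X : Set (EN N)} (hX : OCone X) (hu : TorusMap X Λ u) (hΛ : Dsc Λ) (α : TForm X Λ u) {χ : Chart X} {c : ℂ} {ρ : ℝ}
    (hm : Mon Λ u χ c ρ 1 0) {A : ℂ × ℂ → ℂ} (hA : IsPrim α χ (Pool.Agent.H62.EL.mo c ρ 1 0) A)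
    {Φ : ℂ × ℂ → EN N} {q : ℂ × ℂ} (hΦ : AnalyticAt ℂ Φ q)
    (hΦX : ∀ᶠ p in 𝓝 q, Φ p ∈ X ∧ u (Φ p) - p.1 ∈ Λ) (hU : Φ q ∈ χ.U)
    (he : c + ρ * (χ.q (Φ q)).1 = q.1) :
    HasFDerivAt (fun y => A (χ.q (Φ y))) (fderiv ℂ (fun y => A (χ.q (Φ y))) q) q ∧
      fderiv ℂ (fun y => A (χ.q (Φ y))) q (0, 1) =
        ρ * α.toFun q.1 (Φ q) (fderiv ℂ Φ q (1, 0)) (fderiv ℂ Φ q (0, 1)) := by
  have hρ : (ρ : ℂ) ≠ 0 := by exact_mod_cast hm.pos.ne'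
  have hΦX' : ∀ᶠ p in 𝓝 q, Φ p ∈ X := hΦX.mono fun p hp => hp.1
  have hb : χ.q (Φ q) ∈ ball (0 : ℂ × ℂ) 2 := (χ.surj _ hΦX'.self_of_nhds hU).1
  have hτ : HasFDerivAt (fun y => χ.q (Φ y)) (fderiv ℂ (fun y => χ.q (Φ y)) q) q :=
    ((χ.q_an _ hU).differentiableAt.comp q hΦ.differentiableAt).hasFDerivAt
  have hAd : HasFDerivAt A (fderiv ℂ A (χ.q (Φ q))) (χ.q (Φ q)) := (hA.an _ hb).differentiableAt.hasFDerivAt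
  have hcomp : HasFDerivAt (fun y => A (χ.q (Φ y))) ((fderiv ℂ A (χ.q (Φ q))).comp (fderiv ℂ (fun y => χ.q (Φ y)) q)) q :=
    hAd.comp q hτ
  have hform := JP_form hX hu α χ (υ := Pool.Agent.H62.EL.mo c ρ 1 0) hΦ hΦX' hU hΦX.self_of_nhds.2 (by rw [JP_mo]; exact he)
  set D := fderiv ℂ (fun y => χ.q (Φ y)) q with hD
  have hfst : ∀ w : ℂ × ℂ, ρ * (D w).1 = w.1 := by
    intro w
    have h1 := JP_fst hu hΛ hm hΦ hΦX hU he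
    have h2 : HasFDerivAt (fun y : ℂ × ℂ => c + ρ * (χ.q (Φ y)).1)
        ((ρ : ℂ) • ((ContinuousLinearMap.fst ℂ ℂ ℂ).comp D)) q := by
      have h3 : HasFDerivAt (fun y => (χ.q (Φ y)).1) ((ContinuousLinearMap.fst ℂ ℂ ℂ).comp D) q :=
        (ContinuousLinearMap.fst ℂ ℂ ℂ).hasFDerivAt.comp q hτ
      exact (h3.const_mul (ρ : ℂ)).const_add c
    have h5 : HasFDerivAt (fun y : ℂ × ℂ => c + ρ * (χ.q (Φ y)).1) (ContinuousLinearMap.fst ℂ ℂ ℂ) q :=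
      (ContinuousLinearMap.fst ℂ ℂ ℂ).hasFDerivAt.congr_of_eventuallyEq h1
    have h6 := h2.unique h5
    have h7 := congrArg (fun L : ℂ × ℂ →L[ℂ] ℂ => L w) h6
    simpa using h7
  have hD01 : (D (0, 1)).1 = 0 := by
    have h1 := hfst (0, 1)
    exact (mul_eq_zero.mp h1).resolve_left hρ
  have hD10 : ρ * (D (1, 0)).1 = 1 := hfst (1, 0)
  have hjac : ρ * Pool.Agent.H14.PP.jac (fun y => χ.q (Φ y)) q = (D (0, 1)).2 := by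
    unfold Pool.Agent.H14.PP.jac
    rw [← hD, hD01]
    linear_combination (D (0, 1)).2 * hD10
  refine ⟨by rw [hcomp.fderiv]; exact hcomp, ?_⟩
  rw [hcomp.fderiv, ContinuousLinearMap.comp_apply, JP_vert _ _ hD01, hA.der _ hb, hform]
  linear_combination -(tc α χ (Pool.Agent.H62.EL.mo c ρ 1 0) (χ.q (Φ q))) * hjac

theorem II_param {V : Set (EN N)} (hV : OCone V) (hu : TorusMap V Λ u) (hΛ : Dsc Λ) {α : TForm V Λ u} {ε r : ℝ} {z : ℂ} {y y' : MN N}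
    {χ : Chart V} {c : ℂ} {ρ : ℝ} (hc : Cap Λ u χ c ρ z y r) (hr : ε ≤ r) (h : ∃ v, IRel α ε z y y' v) {Φ : ℂ × ℂ → EN N} {w₀ w₁ : ℂ}
    (hΦ : ∀ θ ∈ Set.Icc (0 : ℝ) 1, AnalyticAt ℂ Φ (z, w₀ + θ * (w₁ - w₀)) ∧
      (∀ᶠ p in 𝓝 (z, w₀ + θ * (w₁ - w₀)), Φ p ∈ V ∧ u (Φ p) - p.1 ∈ Λ) ∧ dist (pr (Φ (z, w₀ + θ * (w₁ - w₀)))) y ≤ r)
    (h₀ : pr (Φ (z, w₀)) = y) (h₁ : pr (Φ (z, w₁)) = y') :
    II α ε z y y' = ∫ θ in (0 : ℝ)..1, (w₁ - w₀) * α.toFun z (Φ (z, w₀ + θ * (w₁ - w₀)))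
      (fderiv ℂ Φ (z, w₀ + θ * (w₁ - w₀)) (1, 0)) (fderiv ℂ Φ (z, w₀ + θ * (w₁ - w₀)) (0, 1)) := by
  have hε : 0 ≤ ε := by
    obtain ⟨v, χ', c', ρ', A', p, p', -, -, -, -, -, -, -, -, hseg, -⟩ := h
    exact le_trans dist_nonneg (hseg 0 ⟨le_rfl, zero_le_one⟩)
  have hr0 : 0 ≤ r := hε.trans hr
  have hm := hc.mon
  have hρ : (ρ : ℂ) ≠ 0 := by exact_mod_cast hm.pos.ne'
  obtain ⟨A, hA⟩ := Pool.Agent.H62.EL.exists_prim α χ hc.mon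
  have hcap : ∀ θ ∈ Set.Icc (0 : ℝ) 1, Φ (z, w₀ + θ * (w₁ - w₀)) ∈ χ.U ∧
      c + ρ * (χ.q (Φ (z, w₀ + θ * (w₁ - w₀)))).1 = z := by
    intro θ hθ
    obtain ⟨-, h2, h3⟩ := hΦ θ hθ
    obtain ⟨h4, -, h5⟩ := hc.cap z (mem_closedBall_self hr0) _ h2.self_of_nhds.1 h2.self_of_nhds.2 h3
    exact ⟨h4, h5⟩
  have e0 : w₀ + ((0 : ℝ) : ℂ) * (w₁ - w₀) = w₀ := by simp
  have e1 : w₀ + ((1 : ℝ) : ℂ) * (w₁ - w₀) = w₁ := by simp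
  have hx₀ : Φ (z, w₀) ∈ V := by
    have h1 := (hΦ 0 ⟨le_rfl, zero_le_one⟩).2.1.self_of_nhds.1
    rwa [e0] at h1
  have hx₁ : Φ (z, w₁) ∈ V := by
    have h1 := (hΦ 1 ⟨zero_le_one, le_rfl⟩).2.1.self_of_nhds.1
    rwa [e1] at h1
  rw [II_eqO hV hu hΛ h hc hA (mem_closedBall_self hr0) (by rw [dist_self, zero_add]; exact hr) hx₀ hx₁ h₀ h₁]
  have hder : ∀ θ ∈ Set.Icc (0 : ℝ) 1, HasDerivAt (fun t : ℝ => A (χ.q (Φ (z, w₀ + t * (w₁ - w₀)))) / ρ)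
      ((w₁ - w₀) * α.toFun z (Φ (z, w₀ + θ * (w₁ - w₀)))
      (fderiv ℂ Φ (z, w₀ + θ * (w₁ - w₀)) (1, 0)) (fderiv ℂ Φ (z, w₀ + θ * (w₁ - w₀)) (0, 1))) θ := by
    intro θ hθ
    obtain ⟨h1, h2, -⟩ := hΦ θ hθ
    obtain ⟨h3, h4⟩ := JP_deriv hV hu hΛ α hm hA h1 h2 (hcap θ hθ).1 (hcap θ hθ).2
    have hPd : HasDerivAt (fun t : ℂ => ((z, w₀ + t * (w₁ - w₀)) : ℂ × ℂ)) (0, w₁ - w₀) (θ : ℂ) := by
      have h5 : HasDerivAt (fun t : ℂ => w₀ + t * (w₁ - w₀)) (w₁ - w₀) (θ : ℂ) := by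
        have h6 := ((hasDerivAt_id (θ : ℂ)).mul_const (w₁ - w₀)).const_add w₀
        rw [one_mul] at h6
        exact h6
      exact (hasDerivAt_const (θ : ℂ) z).prodMk h5
    have h5 : HasDerivAt (fun t : ℂ => A (χ.q (Φ (z, w₀ + t * (w₁ - w₀)))))
        (fderiv ℂ (fun y => A (χ.q (Φ y))) (z, w₀ + (θ : ℂ) * (w₁ - w₀)) (0, w₁ - w₀)) (θ : ℂ) :=
      HasFDerivAt.comp_hasDerivAt (l := fun y => A (χ.q (Φ y))) (f := fun t : ℂ => ((z, w₀ + t * (w₁ - w₀)) : ℂ × ℂ)) (θ : ℂ) h3 hPd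
    have h6 := (h5.div_const (ρ : ℂ)).comp_ofReal
    rw [JP_vert _ _ rfl, h4] at h6
    convert h6 using 1
    field_simp
  have hcont : ContinuousOn (fun θ : ℝ => (w₁ - w₀) * α.toFun z (Φ (z, w₀ + θ * (w₁ - w₀)))
      (fderiv ℂ Φ (z, w₀ + θ * (w₁ - w₀)) (1, 0)) (fderiv ℂ Φ (z, w₀ + θ * (w₁ - w₀)) (0, 1))) (Set.Icc (0 : ℝ) 1) := by
    intro θ hθ
    obtain ⟨h1, h2, -⟩ := hΦ θ hθ
    have h3 := (α.analytic Φ Prod.fst _ h1 analyticAt_fst h2).continuousAt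
    have h4 : ContinuousAt (fun t : ℝ => ((z, w₀ + t * (w₁ - w₀)) : ℂ × ℂ)) θ := by
      fun_prop
    have h5 : ContinuousAt (fun t : ℝ => α.toFun z (Φ (z, w₀ + t * (w₁ - w₀)))
      (fderiv ℂ Φ (z, w₀ + t * (w₁ - w₀)) (1, 0)) (fderiv ℂ Φ (z, w₀ + t * (w₁ - w₀)) (0, 1))) θ :=
      ContinuousAt.comp (f := fun t : ℝ => ((z, w₀ + t * (w₁ - w₀)) : ℂ × ℂ))
        (g := fun y : ℂ × ℂ => α.toFun y.1 (Φ y) (fderiv ℂ Φ y (1, 0)) (fderiv ℂ Φ y (0, 1))) h3 h4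
    exact (continuousAt_const.mul h5).continuousWithinAt
  have hint := intervalIntegral.integral_eq_sub_of_hasDerivAt (a := (0 : ℝ)) (b := 1)
    (f := fun t : ℝ => A (χ.q (Φ (z, w₀ + t * (w₁ - w₀)))) / ρ)
    (f' := fun θ : ℝ => (w₁ - w₀) * α.toFun z (Φ (z, w₀ + θ * (w₁ - w₀)))
      (fderiv ℂ Φ (z, w₀ + θ * (w₁ - w₀)) (1, 0)) (fderiv ℂ Φ (z, w₀ + θ * (w₁ - w₀)) (0, 1)))
    (fun θ hθ => hder θ (by rwa [Set.uIcc_of_le zero_le_one] at hθ))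
    (by
      apply ContinuousOn.intervalIntegrable
      rw [Set.uIcc_of_le zero_le_one]
      exact hcont)
  rw [hint]
  simp only [e0, e1]
  rw [sub_div]

end Pool.Agent.H18.LU
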