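import Pool.Agent.H18.LU.HoN
import Pool.Agent.H18.LU.JnL
import Pool.Agent.H18.LU.JnP
import Pool.Agent.EG.RL.Prim
import Pool.Agent.EG.LE.Frm

/-!
# LU HoS: the start of the continuation

`hole_start`: `z₀ = b + exp t₀`, `p t = q (F (b + exp t))`, `p' t = q (G (b + exp t))` (`q = (H.χ i).q`), analytic at `t₀`.  `exists_cell_of` (`EG/RL/Sec`; `hole_L`, `hole_u`: `M.u i (p t) = exp t` near `t₀`): `μ`, `hf` with
`M.X i μ t (hf t) = p t` near `t₀`.  `hg`: if `ex i = true`: `hg t = hf t + v₀ + Complex.log (((p' t).2 / (p' t₀).2) * ((p t₀).2 / (p t).2))`, otherwise `hg t = (p' t).2`; analytic at `t₀`, `hg t₀ = hf t₀ + v₀`,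
the second coordinate of `M.X i μ t (hg t)` is `(p' t).2`; the quotient of the first coordinates is `1` at `t₀` (`pth_X`, `hv`) and an `a`-th root of unity near `t₀` (`M.u i (p' t) = exp t = M.u i (M.X ..)`: `u_X`), so it is `1` near `t₀` (`root_near`
in `EG/RL/Sec`).  `Dat` for `f` and `g`: `Cen` (`CenS` implies `Cen`).
The equation: for `t` near `t₀`, `z = b + exp t`: the path `θ ↦ M.X i μ t (hf t + θ (hg t - hf t))`, `θ ∈ [0, 1]`, is in `ball 0 2` and `pr (σ ..)` is within `r` of `pr (F z)` (true at `t₀` with `ε' < r` by `hpath` and `pth_X`; `[0, 1]` is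
compact: `generalized tube lemma` / `IsCompact.eventually_forall_..`).  Local logarithm: `T` analytic at `z`, `exp (T ζ) = ζ - b` near `z`, `T z = t`.  `Φ (ζ, w) = σ (M.X i μ (T ζ) w)`: analytic at `(z, w)` for the `w` on the segment, `Φ p ∈ X \ P`
(`P_iff`: the second coordinate is `≠ 0` if `ex`), `u (Φ p) - p.1 ∈ Λ` (`u_eq`, `u_X`: `M.u i (M.X i μ (T ζ) w) = exp (T ζ) = ζ - b`).  `II_param` (`V = X \ P`, `E.vCone`, `E.vTor`, `hcap` at `z`, `y = pr (F z) = pr (σ (p t))`):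
`II α ε z _ _ = ∫ θ, (hg t - hf t) * α.toFun z (Φ ..) (∂₁ Φ) (∂₂ Φ)`.  Chain rule: `∂₁ Φ = T' • Dσ (∂_t X)`, `T' z = exp (-t)`, `∂₂ Φ = Dσ (∂_h X)`, so (`det` of `TForm`; tangent vectors: `Tan` of the curves) the integrand is
`(hg t - hf t) exp (-t) jac X * coefficient`, `jac X = M.L i (X) / a` (`jac_X`), and `M.L * coefficient = M.g i t` (`g_eq`), so it is `(hg t - hf t) exp (-t) M.phi i μ t (..)`.  `P_deriv` (`EG/RL/Prim`) along the segment and the fundamental theorem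
of calculus: the integral is `exp (-t) (M.P i μ t (hg t) - M.P i μ t (hf t))`.
-/

set_option autoImplicit false

open Topology Filter Metric

namespace Pool.Agent.H18.LU

open Pool.Agent.H36.BP (EN fs wd IsGermChart)
open Pool.Agent.H14.PP (IsCone Chart Tan CurveAt jac)
open Pool.Agent.H62.EF (Lat MN pr TorusMap Sec Charts DU)
open Pool.Agent.H62.EL (Gd Ag BadSet IsNC TForm Mon mo Cap IRel II)
open Pool.Agent.EG.RL (Model Atl Cen Bphi Start)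
open Pool.Agent.EG.LE (cf cf_change)

variable {N : ℕ} {X D P : Set (EN N)} {Λ Γ : AddSubgroup ℂ} {u : EN N → ℂ} {B : Set ℂ} {δ : ℝ} {b : ℂ} {α : TForm (X \ P) Λ u}

/-- the integral of the density along a segment -/
private theorem hs_seg {ι Y : Type} (M : Model ι Y) {i : ι} {μ t w₀ w₁ : ℂ} (hμ : M.k i * μ ^ M.a i = 1) (ht : ‖Complex.exp t‖ < M.ρ)
    (hX : ∀ θ ∈ Set.Icc (0 : ℝ) 1, M.X i μ t (w₀ + θ * (w₁ - w₀)) ∈ ball (0 : ℂ × ℂ) 2) :
    (∫ θ in (0 : ℝ)..1, (w₁ - w₀) * M.phi i μ t (w₀ + θ * (w₁ - w₀))) = M.P i μ t w₁ - M.P i μ t w₀ := by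
  have hder : ∀ θ ∈ Set.Icc (0 : ℝ) 1, HasDerivAt (fun θ : ℝ => M.P i μ t (w₀ + θ * (w₁ - w₀)))
      ((w₁ - w₀) * M.phi i μ t (w₀ + θ * (w₁ - w₀))) θ := by
    intro θ hθ
    have h2 := Pool.Agent.EG.RL.P_deriv M hμ ht (hX θ hθ)
    have h3 : HasDerivAt (fun θ : ℝ => w₀ + (θ : ℂ) * (w₁ - w₀)) (w₁ - w₀) θ := by
      have h4 : HasDerivAt (fun θ : ℝ => (θ : ℂ)) 1 θ := Complex.ofRealCLM.hasDerivAt
      have h5 := (h4.mul_const (w₁ - w₀)).const_add w₀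
      rwa [one_mul] at h5
    have h6 := HasDerivAt.comp (𝕜 := ℝ) (𝕜' := ℂ) (h := fun θ : ℝ => w₀ + (θ : ℂ) * (w₁ - w₀)) θ h2 h3
    have h7 : M.phi i μ t (w₀ + θ * (w₁ - w₀)) * (w₁ - w₀) = (w₁ - w₀) * M.phi i μ t (w₀ + θ * (w₁ - w₀)) := mul_comm _ _
    rw [h7] at h6
    exact h6
  have hcont : ContinuousOn (fun θ : ℝ => (w₁ - w₀) * M.phi i μ t (w₀ + θ * (w₁ - w₀))) (Set.Icc 0 1) := by
    intro θ hθ
    have h2 := (Pool.Agent.EG.RL.phi_an M hμ (p := (t, w₀ + (θ : ℂ) * (w₁ - w₀))) (hX θ hθ)).continuousAt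
    have h3 : ContinuousAt (fun θ : ℝ => ((t, w₀ + (θ : ℂ) * (w₁ - w₀)) : ℂ × ℂ)) θ := by fun_prop
    have h4 : ContinuousAt (fun θ : ℝ => M.phi i μ t (w₀ + θ * (w₁ - w₀))) θ :=
      ContinuousAt.comp (g := fun p : ℂ × ℂ => M.phi i μ p.1 p.2) (f := fun θ : ℝ => ((t, w₀ + (θ : ℂ) * (w₁ - w₀)) : ℂ × ℂ)) h2 h3
    exact (continuousAt_const.mul h4).continuousWithinAt
  rw [intervalIntegral.integral_eq_sub_of_hasDerivAt (f := fun θ : ℝ => M.P i μ t (w₀ + θ * (w₁ - w₀)))]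
  · simp only [Complex.ofReal_one, one_mul, add_sub_cancel, Complex.ofReal_zero, zero_mul, add_zero]
  · intro θ hθ
    rw [Set.uIcc_of_le zero_le_one] at hθ
    exact hder θ hθ
  · exact (hcont.mono (by rw [Set.uIcc_of_le zero_le_one])).intervalIntegrable

/-- the coefficient of the form in the family of curves `(ζ, w) ↦ σ (X (T ζ) w)` -/
private theorem hs_cf (E : LData X D P Λ Γ u B δ) (H : Hole X P Λ u b α) {i : H.ι} {μ t w : ℂ} (hμ : H.M.k i * μ ^ H.M.a i = 1)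
    (hX : H.M.X i μ t w ∈ ball (0 : ℂ × ℂ) 2) {T : ℂ → ℂ} (hT : AnalyticAt ℂ T (b + Complex.exp t)) (hTt : T (b + Complex.exp t) = t)
    (hTe : ∀ᶠ ζ in 𝓝 (b + Complex.exp t), Complex.exp (T ζ) = ζ - b) :
    AnalyticAt ℂ (fun q : ℂ × ℂ => (H.χ i).σ (H.M.X i μ (T q.1) q.2)) (b + Complex.exp t, w) ∧
      (∀ᶠ q in 𝓝 ((b + Complex.exp t, w) : ℂ × ℂ), (H.χ i).σ (H.M.X i μ (T q.1) q.2) ∈ X \ P ∧ u ((H.χ i).σ (H.M.X i μ (T q.1) q.2)) - q.1 ∈ Λ) ∧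
      cf α (fun q : ℂ × ℂ => (H.χ i).σ (H.M.X i μ (T q.1) q.2)) (b + Complex.exp t) (b + Complex.exp t, w) * Complex.exp t = H.M.phi i μ t w := by
  set z := b + Complex.exp t with hz
  have hTq : AnalyticAt ℂ (fun q : ℂ × ℂ => T q.1) (z, w) := AnalyticAt.fun_comp (g := T) (f := fun q : ℂ × ℂ => q.1) hT analyticAt_fst
  have hpair : AnalyticAt ℂ (fun q : ℂ × ℂ => ((T q.1, q.2) : ℂ × ℂ)) (z, w) := hTq.prod analyticAt_snd
  have hXX : AnalyticAt ℂ (fun q : ℂ × ℂ => H.M.X i μ q.1 q.2) (T z, w) := Pool.Agent.EG.RL.X_an H.M i μ (T z, w)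
  have hτ : AnalyticAt ℂ (fun q : ℂ × ℂ => H.M.X i μ (T q.1) q.2) (z, w) :=
    AnalyticAt.fun_comp (g := fun q : ℂ × ℂ => H.M.X i μ q.1 q.2) (f := fun q : ℂ × ℂ => ((T q.1, q.2) : ℂ × ℂ)) hXX hpair
  have hXz : H.M.X i μ (T z) w ∈ ball (0 : ℂ × ℂ) 2 := by
    rw [hTt]
    exact hX
  have hσ : AnalyticAt ℂ (H.χ i).σ (H.M.X i μ (T z) w) := (H.χ i).σ_an _ hXz
  have hΦ : AnalyticAt ℂ (fun q : ℂ × ℂ => (H.χ i).σ (H.M.X i μ (T q.1) q.2)) (z, w) :=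
    AnalyticAt.fun_comp (g := (H.χ i).σ) (f := fun q : ℂ × ℂ => H.M.X i μ (T q.1) q.2) hσ hτ
  have hmem : ∀ p ∈ ball (0 : ℂ × ℂ) 2, H.M.L i p ≠ 0 → (H.χ i).σ p ∈ X \ P := fun p hp hL => by
    refine ⟨((H.χ i).σ_mem p hp).1, fun hP => ?_⟩
    obtain ⟨h1, h2, h3⟩ := (H.P_iff i p hp).1 hP
    apply hL
    unfold Atl.L
    rw [if_pos h1, h3, mul_zero]
  have hev : ∀ᶠ q in 𝓝 ((z, w) : ℂ × ℂ), (H.χ i).σ (H.M.X i μ (T q.1) q.2) ∈ X \ P ∧ u ((H.χ i).σ (H.M.X i μ (T q.1) q.2)) - q.1 ∈ Λ := by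
    have h1 : ∀ᶠ q in 𝓝 ((z, w) : ℂ × ℂ), H.M.X i μ (T q.1) q.2 ∈ ball (0 : ℂ × ℂ) 2 :=
      hτ.continuousAt.eventually_mem (isOpen_ball.mem_nhds hXz)
    have h2 : ∀ᶠ q in 𝓝 ((z, w) : ℂ × ℂ), Complex.exp (T q.1) = q.1 - b :=
      (continuous_fst.tendsto ((z, w) : ℂ × ℂ)).eventually hTe
    filter_upwards [h1, h2] with q hq1 hq2
    refine ⟨hmem _ hq1 (Pool.Agent.EG.RL.L_X_ne H.M hμ _ _), ?_⟩
    have h3 := H.u_eq i _ hq1
    rw [Pool.Agent.EG.RL.u_X H.M hμ, hq2, add_sub_cancel] at h3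
    exact h3
  refine ⟨hΦ, hev, ?_⟩
  have h0 : (0 : EN N) ∉ X \ P := fun h => E.cone.zero_notMem h.1
  have hsm : ∀ x ∈ X \ P, ∀ c : ℂ, c ≠ 0 → c • x ∈ X \ P := E.vCone.smul_mem
  have hVev : ∀ᶠ y in 𝓝 (H.M.X i μ (T z) w), (H.χ i).σ y ∈ X \ P := by
    have h1 : ContinuousAt (fun p : ℂ × ℂ => H.M.L i p) (H.M.X i μ (T z) w) := by
      unfold Atl.L
      split_ifs <;> fun_prop
    filter_upwards [isOpen_ball.mem_nhds hXz, h1.eventually_ne (Pool.Agent.EG.RL.L_X_ne H.M hμ _ _)] with y hy hL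
    exact hmem y hy hL
  have hcf := cf_change (α := α) h0 hsm (φ := fun q : ℂ × ℂ => (H.χ i).σ (H.M.X i μ (T q.1) q.2)) (ψ := (H.χ i).σ)
    (τ := fun q : ℂ × ℂ => H.M.X i μ (T q.1) q.2) (p := (z, w)) (t := z) hΦ hσ hτ hVev hev.self_of_nhds.2
    (Eventually.of_forall fun y => ⟨1, one_ne_zero, (one_smul _ _).symm⟩)
  rw [hcf]
  -- the jacobian
  have hTd : HasDerivAt T (Complex.exp (-t)) z := by
    have h1 := hT.differentiableAt.hasDerivAt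
    have h2 : HasDerivAt (fun ζ => Complex.exp (T ζ)) (Complex.exp (T z) * deriv T z) z := h1.cexp
    have h3 : HasDerivAt (fun ζ : ℂ => ζ - b) 1 z := (hasDerivAt_id z).sub_const b
    have h4 : HasDerivAt (fun ζ => Complex.exp (T ζ)) 1 z := h3.congr_of_eventuallyEq hTe
    have h5 := h2.unique h4
    rw [hTt] at h5
    have h6 : deriv T z = Complex.exp (-t) := by
      rw [Complex.exp_neg]
      exact eq_inv_of_mul_eq_one_right h5
    rw [← h6]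
    exact h1
  have hjac : jac (fun q : ℂ × ℂ => H.M.X i μ (T q.1) q.2) (z, w) = Complex.exp (-t) * (H.M.L i (H.M.X i μ t w) / H.M.a i) := by
    have h1 := Pool.Agent.EG.RL.jac_X H.M i μ (t, w)
    have hTz : T z = t := hTt
    rw [hTz] at hXX
    have h2 : HasFDerivAt (fun q : ℂ × ℂ => H.M.X i μ q.1 q.2) (fderiv ℂ (fun q : ℂ × ℂ => H.M.X i μ q.1 q.2) (t, w)) (T z, w) := by
      rw [hTz]
      exact hXX.differentiableAt.hasFDerivAt
    have h3 : HasFDerivAt (fun q : ℂ × ℂ => ((T q.1, q.2) : ℂ × ℂ))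
        ((Complex.exp (-t) • ContinuousLinearMap.fst ℂ ℂ ℂ).prod (ContinuousLinearMap.snd ℂ ℂ ℂ)) (z, w) := by
      refine HasFDerivAt.prodMk ?_ hasFDerivAt_snd
      exact HasDerivAt.comp_hasFDerivAt (z, w) (h₂ := T) hTd hasFDerivAt_fst
    have h4 := HasFDerivAt.comp (z, w) (g := fun q : ℂ × ℂ => H.M.X i μ q.1 q.2) h2 h3
    have h5 : fderiv ℂ (fun q : ℂ × ℂ => H.M.X i μ (T q.1) q.2) (z, w) =
        (fderiv ℂ (fun q : ℂ × ℂ => H.M.X i μ q.1 q.2) (t, w)).comp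
          ((Complex.exp (-t) • ContinuousLinearMap.fst ℂ ℂ ℂ).prod (ContinuousLinearMap.snd ℂ ℂ ℂ)) := h4.fderiv
    rw [← h1]
    unfold jac
    rw [h5]
    have h6 : ((Complex.exp (-t) • ContinuousLinearMap.fst ℂ ℂ ℂ).prod (ContinuousLinearMap.snd ℂ ℂ ℂ)) (1, 0) =
        Complex.exp (-t) • ((1, 0) : ℂ × ℂ) := by
      simp
    have h7 : ((Complex.exp (-t) • ContinuousLinearMap.fst ℂ ℂ ℂ).prod (ContinuousLinearMap.snd ℂ ℂ ℂ)) (0, 1) = ((0, 1) : ℂ × ℂ) := by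
      simp
    rw [ContinuousLinearMap.comp_apply, ContinuousLinearMap.comp_apply, h6, h7, map_smul]
    simp only [Prod.smul_fst, Prod.smul_snd, smul_eq_mul]
    ring
  rw [hjac]
  have hcfX : cf α (H.χ i).σ z (H.M.X i μ t w) * H.M.L i (H.M.X i μ t w) = H.M.g i t (H.M.X i μ t w) := by
    rw [H.g_eq i t _ hX (Pool.Agent.EG.RL.L_X_ne H.M hμ _ _) (Pool.Agent.EG.RL.u_X H.M hμ t w).symm, mul_comm]
    rfl
  simp only [hTt]
  unfold Atl.phi
  rw [← hcfX, Complex.exp_neg]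
  field_simp

/-- the integral of the form in one cell -/
private theorem hs_int (E : LData X D P Λ Γ u B δ) (H : Hole X P Λ u b α) {i : H.ι} {μ t w₀ w₁ : ℂ} (hμ : H.M.k i * μ ^ H.M.a i = 1)
    (ht : ‖Complex.exp t‖ < H.M.ρ) {ε r : ℝ} (hεr : ε ≤ r) {χ' : Chart (X \ P)} {c : ℂ} {ρ : ℝ}
    (hcap : Cap Λ u χ' c ρ (b + Complex.exp t) (pr ((H.χ i).σ (H.M.X i μ t w₀))) r)
    (hrel : ∃ v, IRel α ε (b + Complex.exp t) (pr ((H.χ i).σ (H.M.X i μ t w₀))) (pr ((H.χ i).σ (H.M.X i μ t w₁))) v)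
    (hX : ∀ θ ∈ Set.Icc (0 : ℝ) 1, H.M.X i μ t (w₀ + θ * (w₁ - w₀)) ∈ ball (0 : ℂ × ℂ) 2 ∧
      dist (pr ((H.χ i).σ (H.M.X i μ t (w₀ + θ * (w₁ - w₀))))) (pr ((H.χ i).σ (H.M.X i μ t w₀))) ≤ r) :
    II α ε (b + Complex.exp t) (pr ((H.χ i).σ (H.M.X i μ t w₀))) (pr ((H.χ i).σ (H.M.X i μ t w₁))) * Complex.exp t =
      H.M.P i μ t w₁ - H.M.P i μ t w₀ := by
  obtain ⟨T, hT, hTt, hTe⟩ : ∃ T : ℂ → ℂ, AnalyticAt ℂ T (b + Complex.exp t) ∧ T (b + Complex.exp t) = t ∧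
      ∀ᶠ ζ in 𝓝 (b + Complex.exp t), Complex.exp (T ζ) = ζ - b := by
    refine ⟨fun ζ => t + Complex.log ((ζ - b) / Complex.exp t), ?_, ?_, ?_⟩
    · refine analyticAt_const.add (AnalyticAt.clog ?_ ?_)
      · exact (analyticAt_id.sub analyticAt_const).div analyticAt_const (Complex.exp_ne_zero t)
      · rw [add_sub_cancel_left, div_self (Complex.exp_ne_zero t)]
        exact Complex.one_mem_slitPlane
    · show t + Complex.log ((b + Complex.exp t - b) / Complex.exp t) = t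
      rw [add_sub_cancel_left, div_self (Complex.exp_ne_zero t), Complex.log_one, add_zero]
    · have h1 : ∀ᶠ ζ in 𝓝 (b + Complex.exp t), ζ ≠ b := by
        refine isOpen_ne.mem_nhds ?_
        intro h
        simp at h
      filter_upwards [h1] with ζ hζ
      rw [Complex.exp_add, Complex.exp_log (div_ne_zero (sub_ne_zero.2 hζ) (Complex.exp_ne_zero t)), mul_div_cancel₀ _ (Complex.exp_ne_zero t)]
  have key : ∀ θ ∈ Set.Icc (0 : ℝ) 1, _ := fun θ hθ => hs_cf E H hμ (hX θ hθ).1 hT hTt hTe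
  have h1 := II_param E.vCone E.vTor E.dsc hcap hεr hrel (Φ := fun q : ℂ × ℂ => (H.χ i).σ (H.M.X i μ (T q.1) q.2)) (w₀ := w₀) (w₁ := w₁)
    (fun θ hθ => ⟨(key θ hθ).1, (key θ hθ).2.1, by
      show dist (pr ((H.χ i).σ (H.M.X i μ (T (b + Complex.exp t)) (w₀ + θ * (w₁ - w₀))))) _ ≤ r
      rw [hTt]
      exact (hX θ hθ).2⟩)
    (by
      show pr ((H.χ i).σ (H.M.X i μ (T (b + Complex.exp t)) w₀)) = _
      rw [hTt]) (by
      show pr ((H.χ i).σ (H.M.X i μ (T (b + Complex.exp t)) w₁)) = _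
      rw [hTt])
  rw [h1, ← hs_seg H.M hμ ht fun θ hθ => (hX θ hθ).1, ← intervalIntegral.integral_mul_const]
  refine intervalIntegral.integral_congr fun θ hθ => ?_
  rw [Set.uIcc_of_le zero_le_one] at hθ
  show (w₁ - w₀) * _ * Complex.exp t = (w₁ - w₀) * _
  rw [mul_assoc, ← (key θ hθ).2.2]
  rfl

theorem hole_start (E : LData X D P Λ Γ u B δ) (H : Hole X P Λ u b α) {F G : ℂ → EN N} {t₀ : ℂ} (ht₀ : ‖Complex.exp t₀‖ < H.M.ρ)
    (hF : SecAt X D Λ u F (b + Complex.exp t₀)) (hG : SecAt X D Λ u G (b + Complex.exp t₀)) {ε ε' r : ℝ} (hε' : ε' < r) (hεr : ε ≤ r)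
    (hcap : ∀ᶠ z in 𝓝 (b + Complex.exp t₀), (∃ (χ : Chart (X \ P)) (c : ℂ) (ρ : ℝ), Cap Λ u χ c ρ z (pr (F z)) r) ∧
      ∃ v, IRel α ε z (pr (F z)) (pr (G z)) v) {i : H.ι} (hi : F (b + Complex.exp t₀) ∈ (H.χ i).U)
    (hc : CenS ((H.χ i).q (F (b + Complex.exp t₀)))) (hi' : G (b + Complex.exp t₀) ∈ (H.χ i).U)
    (hc' : Cen ((H.χ i).q (G (b + Complex.exp t₀)))) {v₀ : ℂ}
    (hv : pth H.M.toAtl i ((H.χ i).q (F (b + Complex.exp t₀))) v₀ = (H.χ i).q (G (b + Complex.exp t₀)))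
    (hpath : ∀ θ ∈ Set.Icc (0 : ℝ) 1, pth H.M.toAtl i ((H.χ i).q (F (b + Complex.exp t₀))) (θ * v₀) ∈ ball (0 : ℂ × ℂ) 2 ∧
      dist (pr ((H.χ i).σ (pth H.M.toAtl i ((H.χ i).q (F (b + Complex.exp t₀))) (θ * v₀)))) (pr (F (b + Complex.exp t₀))) ≤ ε') :
    Start H.M (fun w => pr (F (b + w))) (fun w => pr (G (b + w)))
      (fun w => II α ε (b + w) (pr (F (b + w))) (pr (G (b + w)))) t₀ := by
  have hM := H.M
  have hz₀ : b + Complex.exp t₀ ∈ ball b H.M.ρ := by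
    rw [mem_ball, dist_eq_norm, add_sub_cancel_left]
    exact ht₀
  have hz₀b : b + Complex.exp t₀ ≠ b := by
    intro h
    simp at h
  have hexp : AnalyticAt ℂ (fun t : ℂ => b + Complex.exp t) t₀ := by fun_prop
  have htend : Tendsto (fun t : ℂ => b + Complex.exp t) (𝓝 t₀) (𝓝 (b + Complex.exp t₀)) := hexp.continuousAt
  have hball : ∀ᶠ t in 𝓝 t₀, b + Complex.exp t ∈ ball b H.M.ρ ∧ ‖Complex.exp t‖ < H.M.ρ := by
    filter_upwards [htend.eventually_mem (isOpen_ball.mem_nhds hz₀)] with t ht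
    refine ⟨ht, ?_⟩
    rw [mem_ball, dist_eq_norm, add_sub_cancel_left] at ht
    exact ht
  -- a section in the chart `i`
  have hsec : ∀ F' : ℂ → EN N, SecAt X D Λ u F' (b + Complex.exp t₀) → F' (b + Complex.exp t₀) ∈ (H.χ i).U →
      AnalyticAt ℂ (fun t => (H.χ i).q (F' (b + Complex.exp t))) t₀ ∧ H.M.L i ((H.χ i).q (F' (b + Complex.exp t₀))) ≠ 0 ∧
      ∀ᶠ t in 𝓝 t₀, H.M.u i ((H.χ i).q (F' (b + Complex.exp t))) = Complex.exp t ∧
        pr (F' (b + Complex.exp t)) = pr ((H.χ i).σ ((H.χ i).q (F' (b + Complex.exp t)))) := by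
    intro F' hF' hU
    have h1 : AnalyticAt ℂ (fun t : ℂ => F' (b + Complex.exp t)) t₀ := AnalyticAt.fun_comp (g := F') (f := fun t : ℂ => b + Complex.exp t) hF'.1 hexp
    refine ⟨AnalyticAt.fun_comp (g := (H.χ i).q) (f := fun t : ℂ => F' (b + Complex.exp t)) ((H.χ i).q_an _ hU) h1, ?_, ?_⟩
    · have h2 := hF'.2.self_of_nhds
      exact hole_L E H h2.1 (fun hP => h2.2.1 (E.P_sub hP)) hU hz₀ hz₀b h2.2.2
    · filter_upwards [hball, htend.eventually hF'.2, h1.continuousAt.eventually_mem ((H.χ i).isOpen_U.mem_nhds hU)] with t h2 h3 h4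
      refine ⟨?_, ?_⟩
      · rw [hole_u E H h3.1 h4 h2.1 h3.2.2, add_sub_cancel_left]
      · obtain ⟨_, c, hc, h5⟩ := (H.χ i).surj _ h3.1 h4
        exact (congrArg pr h5).trans (Pool.Agent.H62.EF.pr_smul _ hc)
  obtain ⟨hFan, hFL, hFev⟩ := hsec F hF hi
  obtain ⟨hGan, hGL, hGev⟩ := hsec G hG hi'
  set pF : ℂ → ℂ × ℂ := fun t => (H.χ i).q (F (b + Complex.exp t)) with hpF
  set pG : ℂ → ℂ × ℂ := fun t => (H.χ i).q (G (b + Complex.exp t)) with hpG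
  have hF0 : (H.χ i).q (F (b + Complex.exp t₀)) = pF t₀ := rfl
  have hG0 : (H.χ i).q (G (b + Complex.exp t₀)) = pG t₀ := rfl
  rw [hF0] at hc hv hFL hpath
  rw [hG0] at hc' hv hGL
  obtain ⟨μ, hf, hμ, hfan, hfX⟩ := Pool.Agent.EG.RL.exists_cell_of H.M (p := pF) hFan hFL (hFev.mono fun t ht => ht.1)
  have hfX0 := hfX.self_of_nhds
  have hF1 : (pF t₀).1 ≠ 0 := left_ne_zero_of_mul hFL
  have hG1 : (pG t₀).1 ≠ 0 := left_ne_zero_of_mul hGL
  -- the second function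
  obtain ⟨hg, hgan, hg0, hg2⟩ : ∃ hg : ℂ → ℂ, AnalyticAt ℂ hg t₀ ∧ hg t₀ = hf t₀ + v₀ ∧ ∀ᶠ t in 𝓝 t₀, (H.M.X i μ t (hg t)).2 = (pG t).2 := by
    have hv2 := congrArg Prod.snd hv
    by_cases hex : H.M.ex i = true
    · have hF2 : (pF t₀).2 ≠ 0 := by
        have h1 := right_ne_zero_of_mul hFL
        rwa [if_pos hex] at h1
      have hG2 : (pG t₀).2 ≠ 0 := by
        have h1 := right_ne_zero_of_mul hGL
        rwa [if_pos hex] at h1
      have hFan2 : AnalyticAt ℂ (fun t => (pF t).2) t₀ := AnalyticAt.fun_comp (g := Prod.snd) (f := pF) analyticAt_snd hFan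
      have hGan2 : AnalyticAt ℂ (fun t => (pG t).2) t₀ := AnalyticAt.fun_comp (g := Prod.snd) (f := pG) analyticAt_snd hGan
      have hq0 : (pG t₀).2 / (pG t₀).2 * ((pF t₀).2 / (pF t₀).2) = 1 := by
        rw [div_self hG2, div_self hF2, one_mul]
      refine ⟨fun t => hf t + v₀ + Complex.log ((pG t).2 / (pG t₀).2 * ((pF t₀).2 / (pF t).2)), ?_, ?_, ?_⟩
      · refine (hfan.add analyticAt_const).add (AnalyticAt.clog ?_ ?_)
        · exact (hGan2.div analyticAt_const hG2).mul (analyticAt_const.div hFan2 hF2)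
        · rw [hq0]
          exact Complex.one_mem_slitPlane
      · show hf t₀ + v₀ + Complex.log ((pG t₀).2 / (pG t₀).2 * ((pF t₀).2 / (pF t₀).2)) = _
        rw [hq0, Complex.log_one, add_zero]
      · filter_upwards [hfX, hFan2.continuousAt.eventually_ne hF2, hGan2.continuousAt.eventually_ne hG2] with t h1 h2 h3
        have h4 : (H.M.X i μ t (hf t)).2 = Complex.exp (hf t) := by
          show Pool.Agent.EG.RL.yb (H.M.ex i) (hf t) = _
          rw [hex, Pool.Agent.EG.RL.yb_true]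
        rw [h1] at h4
        show Pool.Agent.EG.RL.yb (H.M.ex i) _ = _
        rw [hex, Pool.Agent.EG.RL.yb_true, Complex.exp_add, Complex.exp_add, ← h4, Complex.exp_log (by positivity)]
        unfold pth at hv2
        simp only [hex, if_true] at hv2
        rw [← hv2]
        field_simp
    · have hex' : H.M.ex i = false := by simpa using hex
      have hGan2 : AnalyticAt ℂ (fun t => (pG t).2) t₀ := AnalyticAt.fun_comp (g := Prod.snd) (f := pG) analyticAt_snd hGan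
      refine ⟨fun t => (pG t).2, hGan2, ?_, ?_⟩
      · unfold pth at hv2
        simp only [hex', Bool.false_eq_true, if_false] at hv2
        have h4 : (H.M.X i μ t₀ (hf t₀)).2 = hf t₀ := by
          show Pool.Agent.EG.RL.yb (H.M.ex i) (hf t₀) = _
          rw [hex', Pool.Agent.EG.RL.yb_false]
        rw [hfX0] at h4
        rw [← h4]
        exact hv2.symm
      · refine Eventually.of_forall fun t => ?_
        show Pool.Agent.EG.RL.yb (H.M.ex i) _ = _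
        rw [hex', Pool.Agent.EG.RL.yb_false]
  -- the first coordinates
  have hX0 : H.M.X i μ t₀ (hg t₀) = pG t₀ := by
    rw [hg0, ← pth_X, hfX0]
    exact hv
  have hgX : ∀ᶠ t in 𝓝 t₀, H.M.X i μ t (hg t) = pG t := by
    have hXan : AnalyticAt ℂ (fun t => H.M.X i μ t (hg t)) t₀ :=
      AnalyticAt.fun_comp (g := fun q : ℂ × ℂ => H.M.X i μ q.1 q.2) (f := fun t => ((t, hg t) : ℂ × ℂ)) (Pool.Agent.EG.RL.X_an H.M i μ (t₀, hg t₀))
        (analyticAt_id.prod hgan)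
    have hX1 : ∀ t, (H.M.X i μ t (hg t)).1 ≠ 0 := fun t => Pool.Agent.EG.RL.X_fst_ne H.M hμ _ _
    have hζ : ContinuousAt (fun t => (pG t).1 / (H.M.X i μ t (hg t)).1) t₀ :=
      hGan.continuousAt.fst.div hXan.continuousAt.fst (hX1 t₀)
    have hζ0 : (fun t => (pG t).1 / (H.M.X i μ t (hg t)).1) t₀ = 1 := by
      show (pG t₀).1 / (H.M.X i μ t₀ (hg t₀)).1 = 1
      rw [hX0, div_self hG1]
    have h1 := Pool.Agent.EG.RL.root_near (H.M.a_pos i) hζ hζ0 (by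
      filter_upwards [hg2, hGev] with t h2 h3
      have h4 := Pool.Agent.EG.RL.u_X H.M hμ t (hg t)
      rw [← h3.1] at h4
      unfold Atl.u at h4
      have h5 : (pG t).2 ^ H.M.b i ≠ 0 := by
        have h6 : H.M.u i (pG t) ≠ 0 := by
          rw [h3.1]
          exact Complex.exp_ne_zero t
        exact right_ne_zero_of_mul h6
      rw [h2] at h4
      have h6 := mul_right_cancel₀ h5 h4
      have h7 := mul_left_cancel₀ (Pool.Agent.EG.RL.k_ne H.M i) h6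
      show ((pG t).1 / (H.M.X i μ t (hg t)).1) ^ H.M.a i = 1
      rw [div_pow, h7, div_self]
      exact h7 ▸ pow_ne_zero _ (hX1 t))
    filter_upwards [h1, hg2] with t h2 h3
    refine Prod.ext ?_ h3
    have h4 : (pG t).1 / (H.M.X i μ t (hg t)).1 = 1 := h2
    rw [div_eq_one_iff_eq (hX1 t)] at h4
    exact h4.symm
  -- the path
  have hpath0 : ∀ θ ∈ Set.Icc (0 : ℝ) 1, H.M.X i μ t₀ (hf t₀ + θ * (hg t₀ - hf t₀)) ∈ ball (0 : ℂ × ℂ) 2 ∧
      dist (pr ((H.χ i).σ (H.M.X i μ t₀ (hf t₀ + θ * (hg t₀ - hf t₀))))) (pr ((H.χ i).σ (H.M.X i μ t₀ (hf t₀)))) < r := by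
    intro θ hθ
    have h1 := hpath θ hθ
    have h2 : hg t₀ - hf t₀ = v₀ := by
      rw [hg0, add_sub_cancel_left]
    rw [h2, ← pth_X, hfX0]
    refine ⟨h1.1, ?_⟩
    have h3 := hFev.self_of_nhds.2
    have h4 : pr (F (b + Complex.exp t₀)) = pr ((H.χ i).σ (pF t₀)) := h3
    rw [← h4]
    exact h1.2.trans_lt hε'
  have hpathev : ∀ᶠ t in 𝓝 t₀, ∀ θ ∈ Set.Icc (0 : ℝ) 1, H.M.X i μ t (hf t + θ * (hg t - hf t)) ∈ ball (0 : ℂ × ℂ) 2 ∧
      dist (pr ((H.χ i).σ (H.M.X i μ t (hf t + θ * (hg t - hf t))))) (pr ((H.χ i).σ (H.M.X i μ t (hf t)))) < r := by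
    have h1 : ∀ θ ∈ Set.Icc (0 : ℝ) 1, ∀ᶠ q in 𝓝 ((θ, t₀) : ℝ × ℂ), H.M.X i μ q.2 (hf q.2 + q.1 * (hg q.2 - hf q.2)) ∈ ball (0 : ℂ × ℂ) 2 ∧
        dist (pr ((H.χ i).σ (H.M.X i μ q.2 (hf q.2 + q.1 * (hg q.2 - hf q.2))))) (pr ((H.χ i).σ (H.M.X i μ q.2 (hf q.2)))) < r := by
      intro θ hθ
      have hfc : ContinuousAt (fun q : ℝ × ℂ => hf q.2) (θ, t₀) := ContinuousAt.comp (g := hf) (f := fun q : ℝ × ℂ => q.2) hfan.continuousAt continuousAt_snd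
      have hgc : ContinuousAt (fun q : ℝ × ℂ => hg q.2) (θ, t₀) := ContinuousAt.comp (g := hg) (f := fun q : ℝ × ℂ => q.2) hgan.continuousAt continuousAt_snd
      have hwc : ContinuousAt (fun q : ℝ × ℂ => hf q.2 + q.1 * (hg q.2 - hf q.2)) (θ, t₀) := by
        refine hfc.add (ContinuousAt.mul ?_ (hgc.sub hfc))
        exact (Complex.continuous_ofReal.comp continuous_fst).continuousAt
      have hXc : ∀ w : ℝ × ℂ → ℂ, ContinuousAt w (θ, t₀) → ContinuousAt (fun q : ℝ × ℂ => H.M.X i μ q.2 (w q)) (θ, t₀) := by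
        intro w hw
        have h2 : ContinuousAt (fun q : ℝ × ℂ => ((q.2, w q) : ℂ × ℂ)) (θ, t₀) := continuousAt_snd.prodMk hw
        exact ContinuousAt.comp (g := fun p : ℂ × ℂ => H.M.X i μ p.1 p.2) (f := fun q : ℝ × ℂ => ((q.2, w q) : ℂ × ℂ))
          (Pool.Agent.EG.RL.X_an H.M i μ (t₀, w (θ, t₀))).continuousAt h2
      have hprc : ∀ w : ℝ × ℂ → ℂ, ContinuousAt w (θ, t₀) → H.M.X i μ t₀ (w (θ, t₀)) ∈ ball (0 : ℂ × ℂ) 2 →
          ContinuousAt (fun q : ℝ × ℂ => pr ((H.χ i).σ (H.M.X i μ q.2 (w q)))) (θ, t₀) := by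
        intro w hw hb
        have h2 : ContinuousAt (fun q : ℝ × ℂ => (H.χ i).σ (H.M.X i μ q.2 (w q))) (θ, t₀) :=
          ContinuousAt.comp (g := (H.χ i).σ) (f := fun q : ℝ × ℂ => H.M.X i μ q.2 (w q)) ((H.χ i).σ_an _ hb).continuousAt (hXc w hw)
        refine ContinuousAt.comp (g := pr) (f := fun q : ℝ × ℂ => (H.χ i).σ (H.M.X i μ q.2 (w q))) (Pool.Agent.H62.EF.continuousAt_pr ?_) h2
        intro h0
        have h3 := ((H.χ i).σ_mem _ hb).1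
        have h4 : (H.χ i).σ (H.M.X i μ t₀ (w (θ, t₀))) = 0 := h0
        rw [h4] at h3
        exact E.cone.zero_notMem h3
      have h00 : H.M.X i μ t₀ (hf t₀) ∈ ball (0 : ℂ × ℂ) 2 := by
        have h2 := (hpath0 0 ⟨le_rfl, zero_le_one⟩).1
        simpa using h2
      have hXθ := hpath0 θ hθ
      have h2 := (hXc _ hwc).eventually_mem (isOpen_ball.mem_nhds hXθ.1)
      have h3 : ContinuousAt (fun q : ℝ × ℂ => dist (pr ((H.χ i).σ (H.M.X i μ q.2 (hf q.2 + q.1 * (hg q.2 - hf q.2)))))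
          (pr ((H.χ i).σ (H.M.X i μ q.2 (hf q.2))))) (θ, t₀) := (hprc _ hwc hXθ.1).dist (hprc _ hfc h00)
      have h4 := h3.eventually_lt continuousAt_const hXθ.2
      exact h2.and h4
    have h5 := isCompact_Icc.eventually_forall_of_forall_eventually (x₀ := t₀) (K := Set.Icc (0 : ℝ) 1)
      (P := fun t θ => H.M.X i μ t (hf t + (θ : ℝ) * (hg t - hf t)) ∈ ball (0 : ℂ × ℂ) 2 ∧
        dist (pr ((H.χ i).σ (H.M.X i μ t (hf t + (θ : ℝ) * (hg t - hf t))))) (pr ((H.χ i).σ (H.M.X i μ t (hf t)))) < r) (by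
        intro θ hθ
        exact (continuous_swap.tendsto ((t₀, θ) : ℂ × ℝ)).eventually (h1 θ hθ))
    exact h5
  refine ⟨i, μ, hf, hg, ⟨hμ, hfan, ?_, ?_⟩, ⟨hμ, hgan, ?_, ?_⟩, ?_⟩
  · rw [hfX0]
    exact ⟨by linarith [hc.1], by linarith [hc.2]⟩
  · filter_upwards [hfX, hFev] with t h1 h2
    show pr (F (b + Complex.exp t)) = H.M.s i (H.M.X i μ t (hf t))
    rw [h1, H.s_eq]
    exact h2.2
  · rw [hX0]
    exact hc'
  · filter_upwards [hgX, hGev] with t h1 h2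
    show pr (G (b + Complex.exp t)) = H.M.s i (H.M.X i μ t (hg t))
    rw [h1, H.s_eq]
    exact h2.2
  · filter_upwards [hfX, hgX, hFev, hGev, hpathev, htend.eventually hcap, hball] with t h1 h2 h3 h4 h5 h6 h7
    have h8 : pr (F (b + Complex.exp t)) = pr ((H.χ i).σ (H.M.X i μ t (hf t))) := by
      rw [h1]
      exact h3.2
    have h9 : pr (G (b + Complex.exp t)) = pr ((H.χ i).σ (H.M.X i μ t (hg t))) := by
      rw [h2]
      exact h4.2
    obtain ⟨⟨χ', c, ρ, hcap'⟩, hrel⟩ := h6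
    show II α ε (b + Complex.exp t) (pr (F (b + Complex.exp t))) (pr (G (b + Complex.exp t))) * Complex.exp t = _
    rw [h8] at hcap' hrel ⊢
    rw [h9] at hrel ⊢
    exact hs_int E H hμ h7.2 hεr hcap' hrel fun θ hθ => ⟨(h5 θ hθ).1, (h5 θ hθ).2.le⟩

end Pool.Agent.H18.LU
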