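import Pool.Agent.H18.LU.HoS
import Pool.Agent.H18.LU.HoF
import Pool.Agent.H18.LU.HoM

/-!
# LU HoX: the integral extends over the bad fibre

`exists_hole`: `exists_hfam`, `exists_hole_of`.
`ring_gd`: `BadSet.sep`: the other points of `B` are at distance `≥ 8δ - 3δ`.
`hole_cross`: `r₂`, `ε₀` from `hole_near` (with `r₀ = δ`, `R₀ = 3δ`, `ε := 2ε`), `r₂ ≥ r₁`, `ε₀ ≤ ε₁`.  Let `A w = II α ε (b + w) (pr (F (b + w))) (pr (G (b + w)))`.  For `z` with `δ ≤ ‖z - b‖ ≤ 3δ`: `ball z r₂ ⊆ ball b (3δ + r₂)`, so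
`pr ∘ F`, `pr ∘ G ∈ SO (ball z r₂)` (`sec_so`) and `hcap`, `hrel` apply (`z ∈ Gd B δ`, `ring_gd`).  `A` is analytic for `δ < ‖w‖ < 3δ` (`II_analyticL` with `Ω = ball b (3δ + r₂)`).  `rl` with `r = 2δ`, `r' = 5δ/2 < 3δ ≤ H.M.ρ / 2`: `Hol`, `Cov`:
`hole_sec`; `Start` at `t₀`, `re t₀ = log (2δ)`: `‖exp t₀‖ = 2δ`; `H.cov` at `F (b + exp t₀)` gives `i`; `hole_near` (`x = F z₀`, `x' = G z₀`, both in `X \ P`: `P ⊆ D`) and `hole_start` with `ε' = 2ε < r = 3ε`.
Result: `B` on `ball 0 R`, `2δ < R`, `B = A` near the circle `‖w‖ = 2δ`.  `J z = if ‖z - b‖ < 2δ then B (z - b) else A (z - b)`: differentiable on `ball b (3δ)` (near the circle it is both).  `J = A` for `δ < ‖w‖ < 2δ`: identity theorem on the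
annulus `δ < ‖w‖ < min R (3δ)` (preconnected, e.g. image of a connected set under `exp`).
-/

set_option autoImplicit false

open Topology Filter Metric

namespace Pool.Agent.H18.LU

open Pool.Agent.H36.BP (EN fs wd IsGermChart)
open Pool.Agent.H14.PP (IsCone Chart Tan CurveAt)
open Pool.Agent.H62.EF (Lat MN pr TorusMap Sec Charts DU)
open Pool.Agent.H62.EL (Gd Ag BadSet IsNC TForm Mon mo Cap IRel II)
open Pool.Agent.EG.RL (Model Atl Cen Bphi Start)

variable {N : ℕ} {X D P : Set (EN N)} {Λ Γ : AddSubgroup ℂ} {u : EN N → ℂ} {B : Set ℂ} {δ : ℝ} {b : ℂ} {α : TForm (X \ P) Λ u}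

theorem exists_hole (E : LData X D P Λ Γ u B δ) (hlog : LogP α) (hb : b ∈ B) : Nonempty (Hole X P Λ u b α) := by
  obtain ⟨η, n, c, hη, hF, hbd⟩ := exists_hfam E hlog hb
  exact exists_hole_of E hη hF hbd

theorem ring_gd (hB : BadSet B Λ δ) (hb : b ∈ B) {z : ℂ} (h1 : δ ≤ ‖z - b‖) (h2 : ‖z - b‖ ≤ 3 * δ) : z ∈ Gd B δ := by
  intro b' hb'
  by_cases hbb : b = b'
  · rw [← hbb]
    exact h1
  · have h8 := hB.sep b hb b' hb' hbb
    have h0 := hB.pos
    have h9 : ‖b - b'‖ ≤ ‖z - b'‖ + ‖z - b‖ := by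
      have : b - b' = (z - b') - (z - b) := by ring
      rw [this]
      exact norm_sub_le _ _
    linarith

private theorem HoX_preconn {a c : ℝ} (ha : 0 < a) (hc : 0 < c) : IsPreconnected {z : ℂ | a < ‖z‖ ∧ ‖z‖ < c} := by
  have h1 : IsPreconnected ({z : ℂ | Real.log a < z.re} ∩ {z : ℂ | z.re < Real.log c}) :=
    ((convex_halfSpace_re_gt (Real.log a)).inter (convex_halfSpace_re_lt (Real.log c))).isPreconnected
  have h2 := h1.image Complex.exp Complex.continuous_exp.continuousOn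
  have h3 : Complex.exp '' ({z : ℂ | Real.log a < z.re} ∩ {z : ℂ | z.re < Real.log c}) = {z : ℂ | a < ‖z‖ ∧ ‖z‖ < c} := by
    ext z
    constructor
    · rintro ⟨w, ⟨hw1, hw2⟩, rfl⟩
      have hw1' : Real.log a < w.re := hw1
      have hw2' : w.re < Real.log c := hw2
      refine ⟨?_, ?_⟩
      · rw [Complex.norm_exp]
        exact (Real.log_lt_iff_lt_exp ha).1 hw1'
      · rw [Complex.norm_exp]
        exact (Real.lt_log_iff_exp_lt hc).1 hw2'
    · rintro ⟨hz0, hz1⟩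
      have h0 : z ≠ 0 := norm_pos_iff.1 (ha.trans hz0)
      refine ⟨Complex.log z, ⟨?_, ?_⟩, Complex.exp_log h0⟩
      · show Real.log a < (Complex.log z).re
        rw [Complex.log_re]
        exact Real.log_lt_log ha hz0
      · show (Complex.log z).re < Real.log c
        rw [Complex.log_re]
        exact Real.log_lt_log (ha.trans hz0) hz1
  rwa [h3] at h2

theorem hole_cross (E : LData X D P Λ Γ u B δ) (hb : b ∈ B) (H : Hole X P Λ u b α) (hρ : 6 * δ < H.M.ρ) {ε ε₁ r₁ R : ℝ} (hε : 0 < ε)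
    (hε₁ : 0 < ε₁) (hr₁ : 0 < r₁) (hR : ∀ z, ‖z - b‖ ≤ 3 * δ → z ∈ Nb Λ R) (hcap : HasCap X D P Λ u B δ R r₁ (3 * ε))
    (hrel : HasRel D B α δ R r₁ ε ε₁) : ∃ r₂ ε₀ : ℝ, 0 < r₂ ∧ 0 < ε₀ ∧ ∀ F G : ℂ → EN N,
      (∀ z ∈ ball b (3 * δ + r₂), SecAt X D Λ u F z ∧ SecAt X D Λ u G z) →
      (∀ z, δ ≤ ‖z - b‖ → ‖z - b‖ ≤ 3 * δ → dist (pr (F z)) (pr (G z)) ≤ ε₀) →
      ∃ J : ℂ → ℂ, DifferentiableOn ℂ J (ball b (3 * δ)) ∧
        ∀ z, δ < ‖z - b‖ → ‖z - b‖ < 3 * δ → J z = II α ε z (pr (F z)) (pr (G z)) := by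
  have hδ := E.bad.pos
  have hringB : ∀ z, δ ≤ ‖z - b‖ → ‖z - b‖ ≤ 3 * δ → z ∉ B := by
    intro z h1 h2 hzB
    have h3 := ring_gd E.bad hb h1 h2 z hzB
    rw [sub_self, norm_zero] at h3
    linarith
  obtain ⟨r₂, ε₂, hr₂, hε₂, hnear⟩ := hole_near E H (r₀ := δ) (R₀ := 3 * δ) (ε := 2 * ε) hδ (by linarith) hringB (by linarith)
  refine ⟨max r₁ r₂, min ε₁ ε₂, lt_max_of_lt_left hr₁, lt_min hε₁ hε₂, fun F G hFG hcl => ?_⟩
  set r₃ : ℝ := max r₁ r₂ with hr₃
  have hr₁₃ : r₁ ≤ r₃ := le_max_left _ _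
  have hr₂₃ : r₂ ≤ r₃ := le_max_right _ _
  have hr₃0 : 0 < r₃ := hr₁.trans_le hr₁₃
  have hfS : (fun z => pr (F z)) ∈ SO X D Λ u B (ball b (3 * δ + r₃)) := sec_so fun z hz => (hFG z hz).1
  have hgS : (fun z => pr (G z)) ∈ SO X D Λ u B (ball b (3 * δ + r₃)) := sec_so fun z hz => (hFG z hz).2
  have hsub : ∀ (z : ℂ) (r : ℝ), ‖z - b‖ ≤ 3 * δ → r ≤ r₃ → ball z r ⊆ ball b (3 * δ + r₃) := by
    intro z r hz hr
    refine ball_subset_ball' ?_
    rw [dist_eq_norm]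
    linarith
  have hmem : ∀ z : ℂ, ‖z - b‖ ≤ 3 * δ → z ∈ ball b (3 * δ + r₃) := fun z hz => by
    rw [mem_ball, dist_eq_norm]
    linarith
  have hsec : ∀ z : ℂ, ‖z - b‖ ≤ 3 * δ → SecAt X D Λ u F z ∧ SecAt X D Λ u G z := fun z hz => hFG z (hmem z hz)
  have hnotP : ∀ {F : ℂ → EN N} {z : ℂ}, SecAt X D Λ u F z → F z ∈ X \ P := fun h =>
    ⟨h.mem.1, fun hP => h.mem.2.1 (E.P_sub hP)⟩
  -- the integral near the ring
  have hcapz : ∀ z : ℂ, δ ≤ ‖z - b‖ → ‖z - b‖ ≤ 3 * δ →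
      (∃ (χ : Chart (X \ P)) (c : ℂ) (ρ : ℝ), Cap Λ u χ c ρ z (pr (F z)) (3 * ε)) ∧ ∃ v, IRel α ε z (pr (F z)) (pr (G z)) v := by
    intro z h1 h2
    have hgd := ring_gd E.bad hb h1 h2
    have hfz := so_anti (hsub z r₁ h2 hr₁₃) hfS
    refine ⟨hcap z hgd (hR z h2) _ hfz, ?_⟩
    exact hrel z hgd (hR z h2) _ hfz (G z) (hnotP (hsec z h2).2) (hsec z h2).2.mem.2.2 ((hcl z h1 h2).trans (min_le_left _ _))
  have hring : ∀ z : ℂ, δ < ‖z - b‖ → ‖z - b‖ < 3 * δ → ∀ᶠ w in 𝓝 z, δ < ‖w - b‖ ∧ ‖w - b‖ < 3 * δ := by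
    intro z h1 h2
    have hc : ContinuousAt (fun w : ℂ => ‖w - b‖) z := (continuous_id.sub continuous_const).norm.continuousAt
    exact (hc.eventually (lt_mem_nhds h1)).and (hc.eventually (gt_mem_nhds h2))
  have hcapev : ∀ z : ℂ, δ < ‖z - b‖ → ‖z - b‖ < 3 * δ → ∀ᶠ w in 𝓝 z,
      (∃ (χ : Chart (X \ P)) (c : ℂ) (ρ : ℝ), Cap Λ u χ c ρ w (pr (F w)) (3 * ε)) ∧ ∃ v, IRel α ε w (pr (F w)) (pr (G w)) v := by
    intro z h1 h2
    filter_upwards [hring z h1 h2] with w hw using hcapz w hw.1.le hw.2.le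
  set A' : ℂ → ℂ := fun z => II α ε z (pr (F z)) (pr (G z)) with hA'
  have hA'an : ∀ z : ℂ, δ < ‖z - b‖ → ‖z - b‖ < 3 * δ → AnalyticAt ℂ A' z := by
    intro z h1 h2
    obtain ⟨⟨χ, c, ρ, hχ⟩, -⟩ := hcapz z h1.le h2.le
    exact II_analyticL E (Ω := ball b (3 * δ + r₃)) isOpen_ball hfS hgS (hmem z h2.le) (hringB z h1.le h2.le) hχ (by linarith)
      ((hcapev z h1 h2).mono fun w hw => hw.2)
  -- the extension theorem
  have := H.fin
  obtain ⟨Bf, R', hR', hBd, hBA⟩ := Pool.Agent.EG.RL.rl H.M H.C₀_nonneg H.κ_pos H.bphi (f := fun w => pr (F (b + w)))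
    (g := fun w => pr (G (b + w))) (A := fun w => A' (b + w)) (r := 2 * δ) (r' := 5 * δ / 2) (by linarith) (by linarith) (by linarith)
    (fun z hz => hole_sec E H (by linarith) (hsec (b + z) (by
      rw [add_sub_cancel_left]
      linarith)).1)
    (fun z hz => hole_sec E H (by linarith) (hsec (b + z) (by
      rw [add_sub_cancel_left]
      linarith)).2) (by
      intro t₀ ht₀
      have hn : ‖Complex.exp t₀‖ = 2 * δ := by
        rw [Complex.norm_exp, ht₀, Real.exp_log (by linarith)]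
      have hz₀ : ‖b + Complex.exp t₀ - b‖ = 2 * δ := by rw [add_sub_cancel_left, hn]
      have h1 : δ ≤ ‖b + Complex.exp t₀ - b‖ := by rw [hz₀]; linarith
      have h2 : ‖b + Complex.exp t₀ - b‖ ≤ 3 * δ := by rw [hz₀]; linarith
      obtain ⟨hF, hG⟩ := hsec _ h2
      have hball : b + Complex.exp t₀ ∈ ball b H.M.ρ := by
        rw [mem_ball, dist_eq_norm, hz₀]
        linarith
      obtain ⟨i, hi, hci⟩ := H.cov _ hball _ hF.mem.1 hF.mem.2.2
      obtain ⟨hi', hci', v, hv, hpath⟩ := hnear _ h1 h2 (fun z => pr (F z)) (so_anti (hsub _ r₂ h2 hr₂₃) hfS) _ (hnotP hF) _ (hnotP hG)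
        hF.mem.2.2 hG.mem.2.2 rfl (by
          rw [dist_comm]
          exact (hcl _ h1 h2).trans (min_le_right _ _)) i hi hci
      exact hole_start E H (by rw [hn]; linarith) hF hG (ε := ε) (ε' := 2 * ε) (r := 3 * ε) (by linarith) (by linarith)
        (hcapev _ (by rw [hz₀]; linarith) (by rw [hz₀]; linarith)) hi hci hi' hci' hv hpath)
  -- glue
  have hannA : AnalyticOnNhd ℂ (fun w => A' (b + w)) {w : ℂ | δ < ‖w‖ ∧ ‖w‖ < min R' (3 * δ)} := by
    intro w hw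
    have h1 := hA'an (b + w) (by rw [add_sub_cancel_left]; exact hw.1) (by
      rw [add_sub_cancel_left]
      exact hw.2.trans_le (min_le_right _ _))
    exact AnalyticAt.fun_comp (f := fun w : ℂ => b + w) h1 (analyticAt_const.add analyticAt_id)
  have hannB : AnalyticOnNhd ℂ Bf {w : ℂ | δ < ‖w‖ ∧ ‖w‖ < min R' (3 * δ)} := by
    intro w hw
    have h1 : w ∈ ball (0 : ℂ) R' := by
      rw [mem_ball_zero_iff]
      exact hw.2.trans_le (min_le_left _ _)
    exact hBd.analyticAt (isOpen_ball.mem_nhds h1)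
  have heq : Set.EqOn Bf (fun w => A' (b + w)) {w : ℂ | δ < ‖w‖ ∧ ‖w‖ < min R' (3 * δ)} := by
    have h2δ : ‖((2 * δ : ℝ) : ℂ)‖ = 2 * δ := by
      rw [Complex.norm_real, Real.norm_eq_abs, abs_of_pos (by linarith)]
    refine hannB.eqOn_of_preconnected_of_eventuallyEq hannA (HoX_preconn hδ (lt_min (by linarith) (by linarith)))
      (z₀ := ((2 * δ : ℝ) : ℂ)) ?_ (hBA _ h2δ)
    refine ⟨?_, ?_⟩
    · rw [h2δ]
      linarith
    · rw [h2δ]
      exact lt_min hR' (by linarith)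
  refine ⟨fun z => if ‖z - b‖ < 2 * δ then Bf (z - b) else A' z, ?_, ?_⟩
  · intro z hz
    rw [mem_ball, dist_eq_norm] at hz
    refine DifferentiableAt.differentiableWithinAt ?_
    rcases lt_trichotomy ‖z - b‖ (2 * δ) with h | h | h
    · have hc : ContinuousAt (fun w : ℂ => ‖w - b‖) z := (continuous_id.sub continuous_const).norm.continuousAt
      have hev : (fun z => if ‖z - b‖ < 2 * δ then Bf (z - b) else A' z) =ᶠ[𝓝 z] fun w => Bf (w - b) := by
        filter_upwards [hc.eventually (gt_mem_nhds h)] with w hw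
        exact if_pos hw
      refine DifferentiableAt.congr_of_eventuallyEq ?_ hev
      have h1 : DifferentiableAt ℂ Bf (z - b) := hBd.differentiableAt (isOpen_ball.mem_nhds (by
        rw [mem_ball_zero_iff]
        linarith))
      exact h1.comp z (differentiableAt_id.sub_const b)
    · have h1 := (hA'an z (by linarith) (by linarith))
      refine DifferentiableAt.congr_of_eventuallyEq h1.differentiableAt ?_
      have h2 := hBA (z - b) h
      have h3 : Tendsto (fun w : ℂ => w - b) (𝓝 z) (𝓝 (z - b)) := (continuous_id.sub continuous_const).continuousAt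
      filter_upwards [h3.eventually h2] with w hw
      show (if ‖w - b‖ < 2 * δ then Bf (w - b) else A' w) = A' w
      split_ifs with h4
      · rw [hw]
        show A' (b + (w - b)) = A' w
        rw [add_sub_cancel]
      · rfl
    · have hc : ContinuousAt (fun w : ℂ => ‖w - b‖) z := (continuous_id.sub continuous_const).norm.continuousAt
      have hev : (fun z => if ‖z - b‖ < 2 * δ then Bf (z - b) else A' z) =ᶠ[𝓝 z] A' := by
        filter_upwards [hc.eventually (lt_mem_nhds h)] with w hw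
        exact if_neg (not_lt.2 (le_of_lt hw))
      exact DifferentiableAt.congr_of_eventuallyEq (hA'an z (by linarith) hz).differentiableAt hev
  · intro z h1 h2
    show (if ‖z - b‖ < 2 * δ then Bf (z - b) else A' z) = A' z
    split_ifs with h3
    · have h4 := heq (x := z - b) ⟨h1, lt_min (by linarith) h2⟩
      rw [h4]
      show A' (b + (z - b)) = A' z
      rw [add_sub_cancel]
    · rfl

end Pool.Agent.H18.LU
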