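import Pool.Agent.H18.LU.Bas
import Pool.Agent.H62.EF.LimL
import Pool.Agent.H62.Log.Hurwitz

/-!
# LU Hz: Hurwitz' theorem for the boundary

`hor_hurwitz`: let `σ`, `τ` be from `HorAt` at `x = Ψ z₀`.  Near `x` every `y ∈ X` is `c • σ (τ y)`, `c ≠ 0`, `τ y` near `0` (`τ` is continuous at `x = σ 0`, `τ (σ 0) = 0` by `left`), so
`y ∈ D ↔ σ (τ y) ∈ D ↔ (τ y).2 = 0`.  On a small ball about `z₀` the functions `(τ (φ n z)).2` are holomorphic without zeros for `𝒰`-almost all `n` (locally uniform convergence: `φ n z` is near `x`),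
and `(τ (φ n (z n))).2 → (τ (Ψ z')).2` if `z n → z'` (continuity of `τ` near `x`); by `Pool.Agent.H62.Log.hurwitz` the limit has no zeros or is `0`; it is `0` at `z₀` (`Ψ z₀ ∈ D`).  So `Ψ z ∈ D` near `z₀`.
`hor_fibre`: near `z₀`, `Ψ z = c z • σ (s z, 0)` with `s z = (τ (Ψ z)).1` analytic, `u (Ψ z) - (b + (s z) ^ i) ∈ Λ` (`TorusMap.smul`), and `u (Ψ z) - c₀ ∈ Λ`, so `(s z) ^ i` is constant near `z₀` (continuous modulo
the discrete group `Λ`: `Dsc`), so `s` is constant near `z₀` (finite set of values, continuous; `1 ≤ i`).  So all points `Ψ z` near `z₀` are proportional to the one vector `v₀ = σ (s z₀, 0)`; then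
`deriv Ψ z₀` is proportional to `Ψ z₀` (`Pool.Agent.H36.BP.Brody_deriv_line`, or: `Ψ z = ⟨v₀, Ψ z⟩ / ‖v₀‖² • v₀` near `z₀`) and `fs (Ψ z₀) (deriv Ψ z₀) = 0` (`wd_eq_zero`).
`limit_dich`: `A = {ζ | H ζ ∈ D}`.  It is closed (`D_closed`).  It is open: at `ζ₀ ∈ A` let `w = H ζ₀`; its value is not in `B + Λ`, so `hor` applies and `hor_hurwitz` (near `ζ₀` the curves `φ n`, multiples of
`G n`, converge to `ψ`, a multiple of `H`; the conditions are invariant under scaling).  `ℂ` is connected.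
-/

set_option autoImplicit false

open Topology Filter Metric

namespace Pool.Agent.H18.LU

open Pool.Agent.H36.BP (EN fs wd IsGermChart)
open Pool.Agent.H14.PP (IsCone Chart Tan CurveAt)
open Pool.Agent.H62.EF (Lat MN pr TorusMap Sec Charts DU)
open Pool.Agent.H62.EL (Gd Ag BadSet IsNC TForm)

variable {N : ℕ} {X D P : Set (EN N)} {Λ Γ : AddSubgroup ℂ} {u : EN N → ℂ} {B : Set ℂ} {δ : ℝ}

/-- near `x ∈ D` the boundary is `{τ.2 = 0}` -/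
private lemma hz_near (hD : ∀ x ∈ D, ∀ c : ℂ, c ≠ 0 → c • x ∈ D) {x : EN N} {σ : ℂ × ℂ → EN N} {τ : EN N → ℂ × ℂ}
    (hg : IsGermChart X σ τ) (hσ : σ 0 = x) (hDσ : ∀ᶠ p in 𝓝 (0 : ℂ × ℂ), σ p ∈ D ↔ p.2 = 0) :
    ∃ ε : ℝ, 0 < ε ∧ ∀ y, dist y x < ε → AnalyticAt ℂ τ y ∧ (y ∈ X → (y ∈ D ↔ (τ y).2 = 0)) := by
  subst hσ
  have hτ0 : τ (σ 0) = 0 := hg.left.self_of_nhds
  have hτc : ContinuousAt τ (σ 0) := hg.τ_an.continuousAt
  have hτt : Tendsto τ (𝓝 (σ 0)) (𝓝 0) := by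
    have h1 := hτc.tendsto
    rwa [hτ0] at h1
  have h1 : ∀ᶠ y in 𝓝 (σ 0), AnalyticAt ℂ τ y := hg.τ_an.eventually_analyticAt
  have h2 : ∀ᶠ y in 𝓝 (σ 0), σ (τ y) ∈ D ↔ (τ y).2 = 0 := hτt.eventually hDσ
  obtain ⟨ε, hε, h3⟩ := Metric.eventually_nhds_iff.1 (h1.and (h2.and hg.right))
  refine ⟨ε, hε, fun y hy => ?_⟩
  obtain ⟨h4, h5, h6⟩ := h3 hy
  refine ⟨h4, fun hyX => ?_⟩
  obtain ⟨c, hc, h7⟩ := h6 hyX
  rw [← h5]
  have h9 : σ (τ y) = c⁻¹ • y := by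
    conv_rhs => rw [h7]
    rw [smul_smul, inv_mul_cancel₀ hc, one_smul]
  constructor
  · intro h8
    rw [h9]
    exact hD _ h8 _ (inv_ne_zero hc)
  · intro h8
    rw [h7]
    exact hD _ h8 _ hc

/-- the derivative of a curve in a line -/
private lemma hz_deriv_line {H : ℂ → EN N} {z₀ : ℂ} (hH : DifferentiableAt ℂ H z₀) (h : ∀ᶠ z in 𝓝 z₀, ∃ c : ℂ, H z = c • H z₀) :
    ∃ a : ℂ, deriv H z₀ = a • H z₀ := by
  have hcl : IsClosed ((ℂ ∙ H z₀ : Submodule ℂ (EN N)) : Set (EN N)) := Submodule.closed_of_finiteDimensional _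
  have hmem : deriv H z₀ ∈ (ℂ ∙ H z₀ : Submodule ℂ (EN N)) := by
    have ht := (hasDerivAt_iff_tendsto_slope.mp hH.hasDerivAt)
    refine hcl.mem_of_tendsto ht ?_
    filter_upwards [nhdsWithin_le_nhds h] with z hz
    obtain ⟨c, hc⟩ := hz
    rw [slope_def_module]
    refine Submodule.smul_mem _ _ (Submodule.sub_mem _ ?_ (Submodule.mem_span_singleton_self _))
    rw [hc]
    exact Submodule.smul_mem _ _ (Submodule.mem_span_singleton_self _)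
  obtain ⟨a, ha⟩ := Submodule.mem_span_singleton.1 hmem
  exact ⟨a, ha.symm⟩

theorem hor_hurwitz (hX : OCone X) (hD : ∀ x ∈ D, ∀ c : ℂ, c ≠ 0 → c • x ∈ D) (𝒰 : Ultrafilter ℕ) (φ : ℕ → ℂ → EN N) {Ψ : ℂ → EN N} {z₀ : ℂ}
    {r : ℝ} (hr : 0 < r) {b : ℂ} {i : ℕ} (h : HorAt X Λ u D (Ψ z₀) b i)
    (hφ : ∀ᶠ n in (𝒰 : Filter ℕ), DifferentiableOn ℂ (φ n) (ball z₀ r) ∧ ∀ z ∈ ball z₀ r, φ n z ∈ X ∧ φ n z ∉ D)
    (hΨ : DifferentiableOn ℂ Ψ (ball z₀ r)) (hΨX : ∀ z ∈ ball z₀ r, Ψ z ∈ X) (hlim : TendstoLocallyUniformlyOn φ Ψ 𝒰 (ball z₀ r))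
    (h0 : Ψ z₀ ∈ D) : ∀ᶠ z in 𝓝 z₀, Ψ z ∈ D := by
  obtain ⟨σ, τ, hg, hσ, -, hDσ⟩ := h
  obtain ⟨ε, hε, hV⟩ := hz_near hD hg hσ hDσ
  have hz₀ : z₀ ∈ ball z₀ r := mem_ball_self hr
  -- locally uniform closeness
  obtain ⟨t, ht, hu⟩ := (Metric.tendstoLocallyUniformlyOn_iff.1 hlim) (ε / 2) (by positivity) z₀ hz₀
  have ht' : t ∈ 𝓝 z₀ := by
    rwa [isOpen_ball.nhdsWithin_eq hz₀] at ht
  have hΨc : ContinuousAt Ψ z₀ := (hΨ.differentiableAt (isOpen_ball.mem_nhds hz₀)).continuousAt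
  have hcl : ∀ᶠ z in 𝓝 z₀, dist (Ψ z) (Ψ z₀) < ε / 2 := Metric.tendsto_nhds.1 hΨc.tendsto _ (by positivity)
  obtain ⟨r', hr', hball⟩ := Metric.eventually_nhds_iff_ball.1
    ((isOpen_ball.eventually_mem hz₀).and ((eventually_mem_set.2 ht').and hcl))
  have hsub : ball z₀ r' ⊆ ball z₀ r := fun z hz => (hball z hz).1
  have hVΨ : ∀ z ∈ ball z₀ r', dist (Ψ z) (Ψ z₀) < ε := fun z hz => lt_trans (hball z hz).2.2 (by linarith)
  have hev : ∀ᶠ n in (𝒰 : Filter ℕ), DifferentiableOn ℂ (fun z => (τ (φ n z)).2) (ball z₀ r') ∧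
      ∀ z ∈ ball z₀ r', (τ (φ n z)).2 ≠ 0 := by
    filter_upwards [hφ, hu] with n h1 h2
    have h3 : ∀ z ∈ ball z₀ r', dist (φ n z) (Ψ z₀) < ε := by
      intro z hz
      have h4 := h2 z (hball z hz).2.1
      have h5 := (hball z hz).2.2
      calc dist (φ n z) (Ψ z₀) ≤ dist (φ n z) (Ψ z) + dist (Ψ z) (Ψ z₀) := dist_triangle _ _ _
        _ < ε := by rw [dist_comm (φ n z)]; linarith
    constructor
    · intro z hz
      have h4 : DifferentiableAt ℂ (φ n) z := h1.1.differentiableAt (isOpen_ball.mem_nhds (hsub hz))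
      have h5 : DifferentiableAt ℂ τ (φ n z) := (hV _ (h3 z hz)).1.differentiableAt
      have h6 : DifferentiableAt ℂ (fun z => τ (φ n z)) z := h5.comp z h4
      exact h6.snd.differentiableWithinAt
    · intro z hz h4
      have h5 := h1.2 z (hsub hz)
      exact h5.2 (((hV _ (h3 z hz)).2 h5.1).2 h4)
  have hdΨ : DifferentiableOn ℂ (fun z => (τ (Ψ z)).2) (ball z₀ r') := by
    intro z hz
    have h4 : DifferentiableAt ℂ Ψ z := hΨ.differentiableAt (isOpen_ball.mem_nhds (hsub hz))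
    have h5 : DifferentiableAt ℂ τ (Ψ z) := (hV _ (hVΨ z hz)).1.differentiableAt
    have h6 : DifferentiableAt ℂ (fun z => τ (Ψ z)) z := h5.comp z h4
    exact h6.snd.differentiableWithinAt
  have hH := Pool.Agent.H62.Log.hurwitz 𝒰 (φ := fun n z => (τ (φ n z)).2) (ψ := fun z => (τ (Ψ z)).2) (a := z₀) (r := r')
    (hev.mono fun n h => h.1) (hev.mono fun n h => h.2) hdΨ (by
      intro z z' hz' hz
      have h1 : ContinuousWithinAt Ψ (ball z₀ r) z' := (hΨ.continuousOn) z' (hsub hz')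
      have h2 : Tendsto z (𝒰 : Filter ℕ) (𝓝[ball z₀ r] z') := by
        rw [isOpen_ball.nhdsWithin_eq (hsub hz')]
        exact hz
      have h3 := hlim.tendsto_comp h1 (hsub hz') h2
      have h4 : ContinuousAt (fun y => (τ y).2) (Ψ z') := (hV _ (hVΨ z' hz')).1.continuousAt.snd
      exact h4.tendsto.comp h3)
  rcases hH with h1 | h1
  · filter_upwards [ball_mem_nhds z₀ hr'] with z hz
    exact ((hV _ (hVΨ z hz)).2 (hΨX z (hsub hz))).2 (h1 z hz)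
  · exfalso
    exact h1 z₀ (mem_ball_self hr') (((hV _ (hVΨ z₀ (mem_ball_self hr'))).2 (hΨX z₀ hz₀)).1 h0)

theorem hor_fibre (hX : OCone X) (hD : ∀ x ∈ D, ∀ c : ℂ, c ≠ 0 → c • x ∈ D) (hu : TorusMap X Λ u) (hΛ : Dsc Λ) {Ψ : ℂ → EN N} {z₀ : ℂ} {b c₀ : ℂ}
    {i : ℕ} (hi : 1 ≤ i) (h : HorAt X Λ u D (Ψ z₀) b i) (hΨ : AnalyticAt ℂ Ψ z₀) (hΨX : ∀ᶠ z in 𝓝 z₀, Ψ z ∈ X ∧ Ψ z ∈ D)
    (hc : ∀ᶠ z in 𝓝 z₀, u (Ψ z) - c₀ ∈ Λ) : fs (Ψ z₀) (deriv Ψ z₀) = 0 := by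
  obtain ⟨σ, τ, hg, hσ, huσ, hDσ⟩ := h
  obtain ⟨ε, hε, hV⟩ := hz_near hD hg hσ hDσ
  have hτ0 : τ (Ψ z₀) = 0 := by
    rw [← hσ]
    exact hg.left.self_of_nhds
  have hΨ0 : Ψ z₀ ∈ X := (hΨX.self_of_nhds).1
  have hτan : AnalyticAt ℂ τ (Ψ z₀) := hσ ▸ hg.τ_an
  have hs : AnalyticAt ℂ (fun z => τ (Ψ z)) z₀ := hτan.comp hΨ
  have hst : Tendsto (fun z => τ (Ψ z)) (𝓝 z₀) (𝓝 0) := by
    have h1 := hs.continuousAt.tendsto
    simpa [hτ0] using h1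
  have hΨt : Tendsto Ψ (𝓝 z₀) (𝓝 (σ 0)) := by
    rw [hσ]
    exact hΨ.continuousAt.tendsto
  have hmain : ∀ᶠ z in 𝓝 z₀, (τ (Ψ z)).2 = 0 ∧ (∃ c : ℂ, c ≠ 0 ∧ Ψ z = c • σ (τ (Ψ z))) ∧ b + (τ (Ψ z)).1 ^ i - c₀ ∈ Λ ∧
      ContinuousAt (fun z => τ (Ψ z)) z := by
    filter_upwards [hΨX, hc, hst.eventually huσ, hst.eventually hg.σ_mem, hΨt.eventually hg.right,
      Metric.tendsto_nhds.1 hΨ.continuousAt.tendsto ε hε, hs.eventually_analyticAt] with z h1 h2 h3 h4 h5 h6 h7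
    refine ⟨((hV _ h6).2 h1.1).1 h1.2, h5 h1.1, ?_, h7.continuousAt⟩
    obtain ⟨c, hc0, hcz⟩ := h5 h1.1
    have h8 := hu.smul _ h4 c hc0
    rw [← hcz] at h8
    have h9 : b + (τ (Ψ z)).1 ^ i - c₀ = (u (Ψ z) - c₀) - (u (Ψ z) - u (σ (τ (Ψ z)))) - (u (σ (τ (Ψ z))) - (b + (τ (Ψ z)).1 ^ i)) := by
      ring
    rw [h9]
    exact Λ.sub_mem (Λ.sub_mem h2 h8) h3
  obtain ⟨r, hr, hb⟩ := Metric.eventually_nhds_iff_ball.1 hmain
  have hcont : ContinuousOn (fun z => b + (τ (Ψ z)).1 ^ i - c₀) (ball z₀ r) := by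
    intro z hz
    have h1 : ContinuousAt (fun z => (τ (Ψ z)).1) z := (hb z hz).2.2.2.fst
    exact ((continuousAt_const.add (h1.pow i)).sub continuousAt_const).continuousWithinAt
  have hconst := hΛ.const (convex_ball z₀ r).isPreconnected hcont (fun z hz => (hb z hz).2.2.1)
  have hzero : ∀ z ∈ ball z₀ r, τ (Ψ z) = 0 := by
    intro z hz
    have h1 := hconst z hz z₀ (mem_ball_self hr)
    simp only [hτ0] at h1
    have h2 : (τ (Ψ z)).1 ^ i = 0 := by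
      have h3 : ((0 : ℂ × ℂ).1) ^ i = 0 := by
        simp only [Prod.fst_zero]
        exact zero_pow (by omega)
      rw [h3] at h1
      linear_combination h1
    have h3 : (τ (Ψ z)).1 = 0 := by
      exact pow_eq_zero_iff (by omega) |>.1 h2
    exact Prod.ext h3 (hb z hz).1
  have hline : ∀ᶠ z in 𝓝 z₀, ∃ c : ℂ, Ψ z = c • Ψ z₀ := by
    filter_upwards [ball_mem_nhds z₀ hr] with z hz
    obtain ⟨c, -, hcz⟩ := (hb z hz).2.1
    refine ⟨c, ?_⟩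
    rw [hzero z hz, hσ] at hcz
    exact hcz
  obtain ⟨a, ha⟩ := hz_deriv_line hΨ.differentiableAt hline
  have hne : Ψ z₀ ≠ 0 := hX.ne_zero hΨ0
  unfold fs
  rw [(Pool.Agent.H36.BP.wd_eq_zero hne).2 ⟨a, ha⟩, zero_div]

/-- a limit of curves which avoid `D`, in a fibre which is not bad, is in `D` or avoids `D` -/
theorem limit_dich (E : LFib X D Λ Γ u B δ) (𝒰 : Ultrafilter ℕ) (G : ℕ → ℂ → EN N) (ρ : ℕ → ℝ) (hρ : Tendsto ρ 𝒰 atTop)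
    (hG : ∀ᶠ n in (𝒰 : Filter ℕ), DifferentiableOn ℂ (G n) (ball 0 (ρ n)) ∧ ∀ z ∈ ball (0 : ℂ) (ρ n), G n z ∈ X ∧ G n z ∉ D)
    {H : ℂ → EN N} (hH : Differentiable ℂ H) (hHX : ∀ z, H z ∈ X) (hB : ∀ z, ∀ b ∈ B, u (H z) - b ∉ Λ)
    (hloc : ∀ z₀, ∃ (r : ℝ) (φ : ℕ → ℂ → EN N) (ψ : ℂ → EN N), 0 < r ∧
        (∀ᶠ n in (𝒰 : Filter ℕ), DifferentiableOn ℂ (φ n) (ball z₀ r) ∧ ∀ z ∈ ball z₀ r, ∃ c : ℂ, c ≠ 0 ∧ φ n z = c • G n z) ∧
        DifferentiableOn ℂ ψ (ball z₀ r) ∧ (∀ z ∈ ball z₀ r, ∃ c : ℂ, c ≠ 0 ∧ ψ z = c • H z) ∧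
        TendstoLocallyUniformlyOn φ ψ 𝒰 (ball z₀ r)) : (∀ z, H z ∈ D) ∨ ∀ z, H z ∉ D := by
  have hopen : IsOpen {z | H z ∈ D} := by
    rw [isOpen_iff_mem_nhds]
    intro ζ hζ
    obtain ⟨r, φ, ψ, hr, hφ, hψ, hψH, hlim⟩ := hloc ζ
    have hζr : ζ ∈ ball ζ r := mem_ball_self hr
    have hψX : ∀ z ∈ ball ζ r, ψ z ∈ X := by
      intro z hz
      obtain ⟨c, hc, hcz⟩ := hψH z hz
      rw [hcz]
      exact E.cone.smul_mem _ (hHX z) c hc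
    obtain ⟨c₀, hc₀, hψζ⟩ := hψH ζ hζr
    have hψD : ψ ζ ∈ D := by
      rw [hψζ]
      exact E.D_smul _ hζ c₀ hc₀
    have hval : ∀ b ∈ B, u (ψ ζ) - b ∉ Λ := by
      intro b hb h1
      apply hB ζ b hb
      have h2 := E.tor.smul _ (hHX ζ) c₀ hc₀
      rw [← hψζ] at h2
      have h3 : u (H ζ) - b = (u (ψ ζ) - b) - (u (ψ ζ) - u (H ζ)) := by ring
      rw [h3]
      exact Λ.sub_mem h1 h2
    have h := E.hor _ hψD hval
    have hφ' : ∀ᶠ n in (𝒰 : Filter ℕ), DifferentiableOn ℂ (φ n) (ball ζ r) ∧ ∀ z ∈ ball ζ r, φ n z ∈ X ∧ φ n z ∉ D := by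
      filter_upwards [hφ, hG, hρ.eventually_ge_atTop (‖ζ‖ + r)] with n h1 h2 h3
      refine ⟨h1.1, fun z hz => ?_⟩
      have hz' : z ∈ ball (0 : ℂ) (ρ n) := by
        refine ball_subset_ball' ?_ hz
        rw [dist_zero_right]
        linarith
      obtain ⟨c, hc, hcz⟩ := h1.2 z hz
      have h4 := h2.2 z hz'
      refine ⟨?_, ?_⟩
      · rw [hcz]
        exact E.cone.smul_mem _ h4.1 c hc
      · intro h5
        apply h4.2
        have h6 : G n z = c⁻¹ • φ n z := by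
          rw [hcz, smul_smul, inv_mul_cancel₀ hc, one_smul]
        rw [h6]
        exact E.D_smul _ h5 _ (inv_ne_zero hc)
    have hres := hor_hurwitz E.cone E.D_smul 𝒰 φ hr h hφ' hψ hψX hlim hψD
    filter_upwards [hres, ball_mem_nhds ζ hr] with z h1 h2
    obtain ⟨c, hc, hcz⟩ := hψH z h2
    have h6 : H z = c⁻¹ • ψ z := by
      rw [hcz, smul_smul, inv_mul_cancel₀ hc, one_smul]
    show H z ∈ D
    rw [h6]
    exact E.D_smul _ h1 _ (inv_ne_zero hc)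
  have hclosed : IsClosed {z | H z ∈ D} := by
    rw [← isOpen_compl_iff, isOpen_iff_mem_nhds]
    intro ζ hζ
    exact (hH ζ).continuousAt.tendsto.eventually (E.D_closed _ (hHX ζ) hζ)
  rcases isClopen_iff.1 ⟨hclosed, hopen⟩ with h1 | h1
  · right
    intro z hz
    have : z ∈ {z | H z ∈ D} := hz
    rw [h1] at this
    exact this
  · left
    intro z
    have : z ∈ {z | H z ∈ D} := by
      rw [h1]
      exact Set.mem_univ z
    exact this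

end Pool.Agent.H18.LU
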