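import Pool.Agent.H18.LU.Nm
import Pool.Agent.H18.LU.Base
import Pool.Agent.H36.BPB.Defs
import Mathlib.Analysis.Complex.HasPrimitives
import Mathlib.Analysis.Complex.AbsMax

/-!
# LU Lc: limit curves which are not sections

`LCur`: entire curves in `X` which are limits, outside a closed discrete set, of curves in `X \ D` over larger and larger discs (no condition on `u`).

`lcur_of_limit`: `IsLimit K l F H` (BPB Defs) with `K = X \ D`: `Z = {z | ¬ ConvAt l F H z}` is closed (`ConvAt` is open) and discrete (`conv`).  `K₀` compact, disjoint from `Z`: near each point of `K₀` `φ n • F n → H` uniformly, so `pr (F n) → pr H`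
uniformly (`pr` is continuous and invariant; `H ≠ 0`; uniform continuity on compact sets), finitely many points suffice; `l` is not trivial and `≤ atTop`, so there is such an `n ≥ R`.
`lcur_fibre`: `R = ‖c‖ + 1`, `3 δ' ≤ ` the distance of `c` to `B` (`BadSet.exists_gd` for `c ∉ B`), `δ' ≤ 1`.  Let `K = closedBall 0 r`.  Take `G n` as in the definition with `R := r + 3`, `ε = 1/(n+1)`, compact sets `K n` exhausting the complement of `Z` in
`closedBall 0 (r + 3)`.  `u ∘ G n` has a holomorphic lift `υ n` on `ball 0 (r + 3)` (local lifts `v ∘ G n` of `TorusMap.loc`, the disc is simply connected: see `Pool.Agent.H62.EF` (LI, `exists_global_lift` is for the cone) — or: the derivative of the local lifts is a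
holomorphic function on the disc, take a primitive).  On circles `‖z - z₀‖ = s` which do not meet `Z`: `u (G n z) - c` is near `Λ` uniformly (`part_unif` for `part X Λ u R`; `G n z ∈ part` because ... `pr (G n z)` is near `pr (H z)`; use `TorusMap.loc` at the
points `H z`), so after adding an element of `Λ` `υ n → c` uniformly on a connected compact set `closedBall 0 (r+2) \ ⋃ balls around the points of Z`, and by the maximum principle on `closedBall 0 (r + 2)`.  So for large `n`: `υ n ∈ closedBall c δ'` there: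
`disc_boundL` on the discs `z + ball 0 1`, `z ∈ closedBall 0 (r+1)`: `fs (G n z) (G n' z) ≤ L`; the curves are uniformly Lipschitz (`pr_lipschitz`), so `pr (G n) → pr H` uniformly on `closedBall 0 (r + 1)` (density of the complement of `Z`), with
lifts (private lemma `SbB_local` of EL SbB, `so_lift` is similar).  So `H` is locally the limit of multiples of the `G n`: `limit_dich` (values of `H` are `c ∉ B`): `H` is in `D` or avoids `D`.  `D`: `hor_fibre` at every point gives `fs (H z) (H' z) = 0`; so `pr ∘ H` is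
constant (`pr_lipschitz` with `L = 0`).  `H` avoids `D`: `E.fib`: `u (H 0) - b ∈ Λ` contradicts `c ∉ B` (`BadSet.inv`), so all `H z`, `H w` are proportional.
`lcur_aff`: put `φ z = a z + c`, `f z = pr (H ((z - c) / a))`, `F z = H ((z - c) / a) ∈ Sec X Λ u`.  `Z' = φ Z`.  Given `R`, `ε`, `K`: take `G n` for the radius `R₁ = (R + ‖c‖ + 3) / ‖a‖` and compact sets exhausting the complement of `Z`, `ε → 0`; lifts `υ n` of `u ∘ G n` on
`ball 0 R₁` with `υ n → φ` uniformly on compact sets (as above).  For large `n` `υ n` is injective on a slightly smaller disc, with `ball 0 (R + 1) ⊆ υ n (..)`: (`‖υ n' - a‖ ≤ ‖a‖ / 2` gives injectivity on convex sets, and the image: Rouché or the open mapping /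
Banach fixed point argument `z ↦ z - (υ n z - w) / a`).  `G n ∘ (υ n)⁻¹` is the required section over `closedBall 0 R` (the inverse is holomorphic: `HasStrictDerivAt.to_localInverse` or `DifferentiableOn` of the inverse of an injective holomorphic function), and
`(υ n)⁻¹ → φ⁻¹` uniformly; on `K` (disjoint from `Z'`) the curves `pr (G n)` converge uniformly near `φ⁻¹ K` and `pr ∘ H` is uniformly continuous there.
-/

set_option autoImplicit false

open Topology Filter Metric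

namespace Pool.Agent.H18.LU

open Pool.Agent.H36.BP (EN fs wd IsGermChart)
open Pool.Agent.H14.PP (IsCone Chart Tan CurveAt)
open Pool.Agent.H62.EF (Lat MN pr TorusMap Sec Charts DU)
open Pool.Agent.H62.EL (Gd Ag BadSet IsNC TForm)

variable {N : ℕ} {X D : Set (EN N)} {Λ Γ : AddSubgroup ℂ} {u : EN N → ℂ} {B : Set ℂ} {δ : ℝ}

/-! ### lifts over discs (copy of EF TorB for discrete groups) -/

private theorem lc_local (hu : TorusMap X Λ u) {F : ℂ → EN N} {z₁ : ℂ} (hF : AnalyticAt ℂ F z₁)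
    (hX₁ : F z₁ ∈ X) (hFX : ∀ᶠ z in 𝓝 z₁, F z ∈ X) :
    ∃ E : ℂ → ℂ, AnalyticAt ℂ E z₁ ∧ ∀ᶠ z in 𝓝 z₁, u (F z) - E z ∈ Λ := by
  obtain ⟨v, hv, hv2⟩ := hu.loc (F z₁) hX₁
  refine ⟨v ∘ F, hv.comp hF, ?_⟩
  filter_upwards [hF.continuousAt.eventually hv2, hFX] with z h1 h2
  exact h1 h2

private theorem lc_const (hΛ : Dsc Λ) {w : ℂ → ℂ} {E E' : ℂ → ℂ} {z₁ : ℂ} (hE : AnalyticAt ℂ E z₁)
    (hE' : AnalyticAt ℂ E' z₁) (h : ∀ᶠ z in 𝓝 z₁, w z - E z ∈ Λ)
    (h' : ∀ᶠ z in 𝓝 z₁, w z - E' z ∈ Λ) : ∃ c : ℂ, ∀ᶠ z in 𝓝 z₁, E z = E' z + c := by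
  obtain ⟨ε, hε, hb⟩ := Metric.eventually_nhds_iff_ball.mp
    (hE.eventually_analyticAt.and (hE'.eventually_analyticAt.and (h.and h')))
  have hc : ContinuousOn (fun z => E z - E' z) (ball z₁ ε) := fun z hz =>
    ((hb z hz).1.continuousAt.sub (hb z hz).2.1.continuousAt).continuousWithinAt
  have hm : ∀ z ∈ ball z₁ ε, E z - E' z ∈ Λ := by
    intro z hz
    have := Λ.sub_mem (hb z hz).2.2.2 (hb z hz).2.2.1
    simpa using this
  have hk := hΛ.const (convex_ball z₁ ε).isPreconnected hc hm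
  refine ⟨E z₁ - E' z₁, ?_⟩
  filter_upwards [ball_mem_nhds z₁ hε] with z hz
  have h5 : E z - E' z = E z₁ - E' z₁ := hk z hz z₁ (mem_ball_self hε)
  rw [← h5]
  ring

private theorem lc_lift_ball (hu : TorusMap X Λ u) (hΛ : Dsc Λ) {F : ℂ → EN N} {z₀ : ℂ} {r : ℝ} (hr : 0 < r)
    (hF : DifferentiableOn ℂ F (ball z₀ r)) (hFX : ∀ z ∈ ball z₀ r, F z ∈ X) :
    ∃ D : ℂ → ℂ, DifferentiableOn ℂ D (ball z₀ r) ∧ D z₀ = u (F z₀) ∧ ∀ z ∈ ball z₀ r, u (F z) - D z ∈ Λ := by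
  have hU : IsOpen (ball z₀ r) := isOpen_ball
  have hUc : IsPreconnected (ball z₀ r) := (convex_ball z₀ r).isPreconnected
  have hz₀ : z₀ ∈ ball z₀ r := mem_ball_self hr
  have h1 : ∀ z₁ : ℂ, ∃ E : ℂ → ℂ, z₁ ∈ ball z₀ r →
      AnalyticAt ℂ E z₁ ∧ ∀ᶠ z in 𝓝 z₁, u (F z) - E z ∈ Λ := by
    intro z₁
    by_cases hz : z₁ ∈ ball z₀ r
    · obtain ⟨E, hE⟩ := lc_local hu (hF.analyticAt (hU.mem_nhds hz)) (hFX _ hz)
        (by filter_upwards [hU.mem_nhds hz] with z h using hFX z h)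
      exact ⟨E, fun _ => hE⟩
    · exact ⟨0, fun h => absurd h hz⟩
  choose E hE using h1
  set d : ℂ → ℂ := fun z => deriv (E z) z with hd
  have h2 : ∀ z₁ ∈ ball z₀ r, d =ᶠ[𝓝 z₁] deriv (E z₁) := by
    intro z₁ hz₁
    obtain ⟨hA, hL⟩ := hE z₁ hz₁
    filter_upwards [hA.eventually_analyticAt, hL.eventually_nhds, hU.mem_nhds hz₁] with z hz1 hz2 hz3
    obtain ⟨hA', hL'⟩ := hE z hz3
    obtain ⟨c, hc⟩ := lc_const hΛ hA' hz1 hL' hz2
    have h5 : deriv (E z) z = deriv (fun w => E z₁ w + c) z := Filter.EventuallyEq.deriv_eq hc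
    show deriv (E z) z = deriv (E z₁) z
    rw [h5, deriv_add_const]
  have h3 : DifferentiableOn ℂ d (ball z₀ r) := by
    intro z₁ hz₁
    have h5 := (hE z₁ hz₁).1.deriv
    exact (h5.differentiableAt.congr_of_eventuallyEq (h2 z₁ hz₁)).differentiableWithinAt
  obtain ⟨D, hD0, hD⟩ := (h3.isExactOn_ball).with_val_at z₀ (u (F z₀))
  refine ⟨D, fun z hz => (hD z hz).differentiableAt.differentiableWithinAt, hD0, ?_⟩
  have h4 : ∀ z₁ ∈ ball z₀ r, ∃ c : ℂ, ∀ᶠ z in 𝓝 z₁, D z = E z₁ z + c := by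
    intro z₁ hz₁
    obtain ⟨hA, _⟩ := hE z₁ hz₁
    obtain ⟨ε, hε, hb⟩ := Metric.eventually_nhds_iff_ball.mp
      (hA.eventually_analyticAt.and ((h2 z₁ hz₁).and (hU.mem_nhds hz₁)))
    obtain ⟨c, hc⟩ := isOpen_ball.exists_eq_add_of_deriv_eq (convex_ball z₁ ε).isPreconnected
      (f := D) (g := E z₁)
      (fun z hz => (hD z (hb z hz).2.2).differentiableAt.differentiableWithinAt)
      (fun z hz => (hb z hz).1.differentiableAt.differentiableWithinAt)
      (fun z hz => by rw [(hD z (hb z hz).2.2).deriv]; exact (hb z hz).2.1)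
    refine ⟨c, ?_⟩
    filter_upwards [ball_mem_nhds z₁ hε] with z hz
    exact hc hz
  have h5 : ∀ z₁ ∈ ball z₀ r, ∀ᶠ z in 𝓝 z₁, (u (F z₁) - D z₁ ∈ Λ ↔ u (F z) - D z ∈ Λ) := by
    intro z₁ hz₁
    obtain ⟨c, hc⟩ := h4 z₁ hz₁
    obtain ⟨_, hL⟩ := hE z₁ hz₁
    have h6 : ∀ z, D z = E z₁ z + c → u (F z) - E z₁ z ∈ Λ → (u (F z) - D z ∈ Λ ↔ c ∈ Λ) := by
      intro z ha hb
      have h7 : u (F z) - D z = (u (F z) - E z₁ z) - c := by rw [ha]; ring
      rw [h7]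
      constructor
      · intro h8
        have := Λ.sub_mem hb h8
        simpa using this
      · intro h8
        exact Λ.sub_mem hb h8
    have h7 := h6 z₁ hc.self_of_nhds hL.self_of_nhds
    filter_upwards [hc, hL] with z ha hb
    rw [h7, h6 z ha hb]
  intro z hz
  have h6 := hUc.induction₂ (fun a b => (u (F a) - D a ∈ Λ ↔ u (F b) - D b ∈ Λ))
    (fun x hx => (h5 x hx).filter_mono nhdsWithin_le_nhds)
    (fun x y w _ _ _ h h' => h.trans h') (fun x y _ _ h => h.symm) hz₀ hz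
  apply h6.mp
  rw [hD0, sub_self]
  exact Λ.zero_mem

/-! ### closeness modulo `Λ` -/

/-- a continuous function which is near `Λ` on a connected set is near one element -/
private theorem lc_conn {S : Set ℂ} (hS : IsPreconnected S) {d ε : ℝ} (hd : ∀ l ∈ Λ, ‖l‖ < d → l = 0) (hε : 0 < ε) (hεd : 4 * ε ≤ d)
    {g : ℂ → ℂ} (hg : ContinuousOn g S) (h : ∀ w ∈ S, ∃ l ∈ Λ, ‖g w - l‖ ≤ ε) : ∃ l ∈ Λ, ∀ w ∈ S, ‖g w - l‖ ≤ 2 * ε := by
  by_cases hne : S.Nonempty
  swap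
  · exact ⟨0, Λ.zero_mem, fun w hw => absurd ⟨w, hw⟩ hne⟩
  obtain ⟨w₀, hw₀⟩ := hne
  obtain ⟨l₀, hl₀, h0⟩ := h w₀ hw₀
  refine ⟨l₀, hl₀, ?_⟩
  have hU : IsOpen (ball l₀ (2 * ε)) := isOpen_ball
  have hV : IsOpen {z : ℂ | 2 * ε < ‖z - l₀‖} :=
    isOpen_lt continuous_const ((continuous_id.sub continuous_const).norm)
  have hdis : Disjoint (ball l₀ (2 * ε)) {z : ℂ | 2 * ε < ‖z - l₀‖} := by
    rw [Set.disjoint_left]
    intro z hz hz2
    rw [mem_ball, dist_eq_norm] at hz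
    exact absurd hz2 (not_lt.2 hz.le)
  have hsub : g '' S ⊆ ball l₀ (2 * ε) ∪ {z : ℂ | 2 * ε < ‖z - l₀‖} := by
    rintro _ ⟨w, hw, rfl⟩
    obtain ⟨l, hl, h1⟩ := h w hw
    by_cases hll : l = l₀
    · left
      rw [mem_ball, dist_eq_norm, ← hll]
      linarith
    · right
      show 2 * ε < ‖g w - l₀‖
      have h2 : d ≤ ‖l - l₀‖ := by
        by_contra hlt
        push Not at hlt
        exact hll (sub_eq_zero.1 (hd _ (Λ.sub_mem hl hl₀) hlt))
      have h3 : l - l₀ = (g w - l₀) - (g w - l) := by ring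
      rw [h3] at h2
      have h4 := norm_sub_le (g w - l₀) (g w - l)
      linarith
  have hpre : IsPreconnected (g '' S) := hS.image g hg
  have hfin := hpre.subset_left_of_subset_union hU hV hdis hsub
    ⟨g w₀, ⟨w₀, hw₀, rfl⟩, by rw [mem_ball, dist_eq_norm]; linarith⟩
  intro w hw
  have h1 := hfin ⟨w, hw, rfl⟩
  rw [mem_ball, dist_eq_norm] at h1
  exact h1.le

/-- `u` is continuous modulo `Λ` in terms of `pr` -/
private theorem lc_pt (hX : OCone X) (hu : TorusMap X Λ u) {x₀ : EN N} (hx₀ : x₀ ∈ X) {ε : ℝ} (hε : 0 < ε) :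
    ∃ η : ℝ, 0 < η ∧ ∀ x ∈ X, dist (pr x) (pr x₀) < η → ∃ l ∈ Λ, ‖u x - u x₀ - l‖ < ε := by
  obtain ⟨v, hv, hvu⟩ := hu.loc x₀ hx₀
  have hvc : ∀ᶠ z in 𝓝 x₀, ‖v z - v x₀‖ < ε := by
    have := Metric.tendsto_nhds.1 hv.continuousAt ε hε
    simpa [dist_eq_norm] using this
  have hnb : {y | (y ∈ X → u y - v y ∈ Λ) ∧ ‖v y - v x₀‖ < ε} ∈ 𝓝 x₀ := hvu.and hvc
  obtain ⟨η, hη, h⟩ := Pool.Agent.H62.EF.near_of_pr (hX.ne_zero hx₀) hnb
  refine ⟨η, hη, fun x hx hd => ?_⟩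
  obtain ⟨c, hc, h1, h2⟩ := h x (hX.ne_zero hx) hd
  have h3 := h1 (hX.smul_mem x hx c hc)
  have h4 := hvu.self_of_nhds hx₀
  have h5 := hu.smul x hx c hc
  refine ⟨-(u (c • x) - u x) + (u (c • x) - v (c • x)) - (u x₀ - v x₀), Λ.sub_mem (Λ.add_mem (Λ.neg_mem h5) h3) h4, ?_⟩
  have h6 : u x - u x₀ - (-(u (c • x) - u x) + (u (c • x) - v (c • x)) - (u x₀ - v x₀)) = v (c • x) - v x₀ := by ring
  rw [h6]
  exact h2

private theorem lc_unif (hX : OCone X) (hu : TorusMap X Λ u) {H : ℂ → EN N} (hH : Continuous H) (hHX : ∀ z, H z ∈ X) {K : Set ℂ}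
    (hK : IsCompact K) {ε : ℝ} (hε : 0 < ε) :
    ∃ η : ℝ, 0 < η ∧ ∀ z ∈ K, ∀ x ∈ X, dist (pr x) (pr (H z)) < η → ∃ l ∈ Λ, ‖u x - u (H z) - l‖ < ε := by
  refine hK.induction_on (p := fun S => ∃ η : ℝ, 0 < η ∧ ∀ z ∈ S, ∀ x ∈ X, dist (pr x) (pr (H z)) < η → ∃ l ∈ Λ, ‖u x - u (H z) - l‖ < ε)
    ⟨1, one_pos, fun z hz => absurd hz (Set.notMem_empty z)⟩ ?_ ?_ ?_
  · rintro s t hst ⟨η, hη, h⟩
    exact ⟨η, hη, fun z hz => h z (hst hz)⟩
  · rintro s t ⟨η, hη, h⟩ ⟨η', hη', h'⟩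
    refine ⟨min η η', lt_min hη hη', fun z hz x hx hd => ?_⟩
    rcases hz with hz | hz
    · exact h z hz x hx (hd.trans_le (min_le_left _ _))
    · exact h' z hz x hx (hd.trans_le (min_le_right _ _))
  · intro z₀ _
    obtain ⟨η, hη, h⟩ := lc_pt hX hu (hHX z₀) (half_pos hε)
    have hc : ContinuousAt (fun z => pr (H z)) z₀ :=
      (Pool.Agent.H62.EF.continuousAt_pr (hX.ne_zero (hHX z₀))).comp hH.continuousAt
    have hev : ∀ᶠ z in 𝓝 z₀, dist (pr (H z)) (pr (H z₀)) < η / 2 := Metric.tendsto_nhds.1 hc _ (by positivity)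
    refine ⟨{z | dist (pr (H z)) (pr (H z₀)) < η / 2}, mem_nhdsWithin_of_mem_nhds hev, η / 2, by positivity, ?_⟩
    intro z hz x hx hd
    have hz' : dist (pr (H z)) (pr (H z₀)) < η / 2 := hz
    obtain ⟨l, hl, h1⟩ := h x hx ((dist_triangle _ (pr (H z)) _).trans_lt (by linarith))
    obtain ⟨m, hm, h2⟩ := h (H z) (hHX z) (hz'.trans (by linarith))
    refine ⟨l - m, Λ.sub_mem hl hm, ?_⟩
    have h3 : u x - u (H z) - (l - m) = (u x - u (H z₀) - l) - (u (H z) - u (H z₀) - m) := by ring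
    rw [h3]
    refine (norm_sub_le _ _).trans_lt ?_
    linarith

/-- a function on a disc, near `Λ` on a circle, is near one element of `Λ` inside -/
private theorem lc_circle {z₀ : ℂ} {s d ε : ℝ} (hs : 0 < s) (hd : ∀ l ∈ Λ, ‖l‖ < d → l = 0) (hε : 0 < ε) (hεd : 4 * ε ≤ d) {g : ℂ → ℂ}
    (hg : ∀ z ∈ closedBall z₀ s, AnalyticAt ℂ g z) (h : ∀ w ∈ sphere z₀ s, ∃ l ∈ Λ, ‖g w - l‖ ≤ ε) :
    ∃ l ∈ Λ, ∀ w ∈ closedBall z₀ s, ‖g w - l‖ ≤ 2 * ε := by
  have hpre : IsPreconnected (sphere z₀ s) := isPreconnected_sphere (by simp) z₀ s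
  have hc : ContinuousOn g (sphere z₀ s) := fun z hz => (hg z (sphere_subset_closedBall hz)).continuousAt.continuousWithinAt
  obtain ⟨l, hl, h1⟩ := lc_conn hpre hd hε hεd hc h
  refine ⟨l, hl, ?_⟩
  intro w hw
  have hdc : DiffContOnCl ℂ (fun z => g z - l) (ball z₀ s) := by
    refine DifferentiableOn.diffContOnCl ?_
    rw [closure_ball z₀ hs.ne']
    intro z hz
    exact ((hg z hz).differentiableAt.sub_const l).differentiableWithinAt
  refine Complex.norm_le_of_forall_mem_frontier_norm_le isBounded_ball hdc (C := 2 * ε) ?_ (z := w) ?_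
  · intro z hz
    rw [frontier_ball z₀ hs.ne'] at hz
    exact h1 z hz
  · rw [closure_ball z₀ hs.ne']
    exact hw

/-- convergence of the lifts -/
private theorem lc_lift (hX : OCone X) (hu : TorusMap X Λ u) (hΛ : Dsc Λ) {H : ℂ → EN N} (hH : Continuous H) (hHX : ∀ z, H z ∈ X)
    {ψ : ℂ → ℂ} (hψ : Differentiable ℂ ψ) (hψu : ∀ z, u (H z) - ψ z ∈ Λ) {Z : Set ℂ} (hZ : ∀ z, ∀ᶠ w in 𝓝[≠] z, w ∉ Z)
    {R : ℝ} (hR : 0 ≤ R) {ε : ℝ} (hε : 0 < ε) :
    ∃ η : ℝ, 0 < η ∧ ∃ K : Set ℂ, IsCompact K ∧ (∀ z ∈ K, z ∉ Z ∧ ‖z‖ ≤ R + 1) ∧ ∀ G : ℂ → EN N,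
      (∀ z ∈ closedBall (0 : ℂ) (R + 1), AnalyticAt ℂ G z ∧ G z ∈ X) → (∀ z ∈ K, dist (pr (G z)) (pr (H z)) < η) →
      ∃ υ : ℂ → ℂ, DifferentiableOn ℂ υ (ball 0 (R + 1)) ∧ (∀ z ∈ ball (0 : ℂ) (R + 1), u (G z) - υ z ∈ Λ) ∧
        ∀ z ∈ closedBall (0 : ℂ) R, ‖υ z - ψ z‖ < ε := by
  obtain ⟨d, hd0, hd⟩ := hΛ.discrete
  set ε₀ : ℝ := min ε d / 16 with hε₀
  have hm : 0 < min ε d := lt_min hε hd0
  have hε0 : 0 < ε₀ := by positivity
  have hεε : 16 * ε₀ ≤ ε := by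
    have : min ε d ≤ ε := min_le_left _ _
    rw [hε₀]; linarith
  have hεd : 16 * ε₀ ≤ d := by
    have : min ε d ≤ d := min_le_right _ _
    rw [hε₀]; linarith
  have main : ∃ η : ℝ, 0 < η ∧ ∃ K : Set ℂ, IsCompact K ∧ (∀ z ∈ K, z ∉ Z ∧ ‖z‖ ≤ R + 1) ∧ ∀ (G : ℂ → EN N) (υ : ℂ → ℂ),
      (∀ z ∈ K, G z ∈ X) → (∀ z ∈ K, dist (pr (G z)) (pr (H z)) < η) → DifferentiableOn ℂ υ (ball 0 (R + 1)) →
      (∀ z ∈ ball (0 : ℂ) (R + 1), u (G z) - υ z ∈ Λ) → ∀ z ∈ closedBall (0 : ℂ) R, ∃ l ∈ Λ, ‖υ z - ψ z - l‖ ≤ 2 * ε₀ := by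
    refine (isCompact_closedBall (0 : ℂ) R).induction_on (p := fun S => ∃ η : ℝ, 0 < η ∧ ∃ K : Set ℂ, IsCompact K ∧
      (∀ z ∈ K, z ∉ Z ∧ ‖z‖ ≤ R + 1) ∧ ∀ (G : ℂ → EN N) (υ : ℂ → ℂ),
      (∀ z ∈ K, G z ∈ X) → (∀ z ∈ K, dist (pr (G z)) (pr (H z)) < η) → DifferentiableOn ℂ υ (ball 0 (R + 1)) →
      (∀ z ∈ ball (0 : ℂ) (R + 1), u (G z) - υ z ∈ Λ) → ∀ z ∈ S, ∃ l ∈ Λ, ‖υ z - ψ z - l‖ ≤ 2 * ε₀) ?_ ?_ ?_ ?_
    · exact ⟨1, one_pos, ∅, isCompact_empty, fun z hz => absurd hz (Set.notMem_empty z), fun _ _ _ _ _ _ z hz => absurd hz (Set.notMem_empty z)⟩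
    · rintro s t hst ⟨η, hη, K, hK, hKZ, h⟩
      exact ⟨η, hη, K, hK, hKZ, fun G υ a b c e z hz => h G υ a b c e z (hst hz)⟩
    · rintro s t ⟨η, hη, K, hK, hKZ, h⟩ ⟨η', hη', K', hK', hKZ', h'⟩
      refine ⟨min η η', lt_min hη hη', K ∪ K', hK.union hK', ?_, ?_⟩
      · rintro z (hz | hz)
        · exact hKZ z hz
        · exact hKZ' z hz
      · intro G υ a b c e z hz
        rcases hz with hz | hz
        · exact h G υ (fun z hz => a z (Or.inl hz)) (fun z hz => (b z (Or.inl hz)).trans_le (min_le_left _ _)) c e z hz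
        · exact h' G υ (fun z hz => a z (Or.inr hz)) (fun z hz => (b z (Or.inr hz)).trans_le (min_le_right _ _)) c e z hz
    · intro z₀ hz₀
      have hz0 : ‖z₀‖ ≤ R := by simpa using hz₀
      -- a circle around `z₀` which does not meet `Z`
      obtain ⟨r, hr, hrZ⟩ := Metric.mem_nhdsWithin_iff.1 (hZ z₀)
      set s : ℝ := min r 1 / 2 with hs
      have hs0 : 0 < s := by positivity
      have hsr : s < r := by
        have h1 : min r 1 ≤ r := min_le_left _ _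
        rw [hs]; linarith
      have hs1 : s < 1 := by
        have h1 : min r 1 ≤ 1 := min_le_right _ _
        rw [hs]; linarith
      have hball : closedBall z₀ s ⊆ ball (0 : ℂ) (R + 1) := by
        intro z hz
        rw [mem_closedBall, dist_eq_norm] at hz
        rw [mem_ball, dist_zero_right]
        have h1 : z = z₀ + (z - z₀) := by ring
        rw [h1]
        refine (norm_add_le _ _).trans_lt ?_
        linarith
      have hKc : IsCompact (sphere z₀ s) := isCompact_sphere z₀ s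
      obtain ⟨η, hη, hun⟩ := lc_unif hX hu hH hHX hKc hε0
      refine ⟨closedBall z₀ s, mem_nhdsWithin_of_mem_nhds (closedBall_mem_nhds z₀ hs0), η, hη, sphere z₀ s, hKc, ?_, ?_⟩
      · intro z hz
        have hzs : dist z z₀ = s := hz
        refine ⟨hrZ ⟨?_, ?_⟩, ?_⟩
        · rw [mem_ball, hzs]; exact hsr
        · intro h
          have h' : z = z₀ := h
          rw [h', dist_self] at hzs
          exact hs0.ne hzs
        · have h1 := hball (sphere_subset_closedBall hz)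
          rw [mem_ball, dist_zero_right] at h1
          exact h1.le
      · intro G υ hG hd1 hυ hυu z hz
        have hg : ∀ z ∈ closedBall z₀ s, AnalyticAt ℂ (fun w => υ w - ψ w) z := fun z hz =>
          (hυ.analyticAt (isOpen_ball.mem_nhds (hball hz))).sub (hψ.analyticAt z)
        have hnear : ∀ w ∈ sphere z₀ s, ∃ l ∈ Λ, ‖(fun w => υ w - ψ w) w - l‖ ≤ ε₀ := by
          intro w hw
          obtain ⟨l, hl, h1⟩ := hun w hw (G w) (hG w hw) (hd1 w hw)
          have h2 := hυu w (hball (sphere_subset_closedBall hw))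
          have h3 := hψu w
          refine ⟨l - (u (G w) - υ w) + (u (H w) - ψ w), Λ.add_mem (Λ.sub_mem hl h2) h3, ?_⟩
          have h4 : υ w - ψ w - (l - (u (G w) - υ w) + (u (H w) - ψ w)) = u (G w) - u (H w) - l := by ring
          show ‖υ w - ψ w - (l - (u (G w) - υ w) + (u (H w) - ψ w))‖ ≤ ε₀
          rw [h4]
          exact h1.le
        obtain ⟨l, hl, h1⟩ := lc_circle hs0 hd hε0 (by linarith) hg hnear
        exact ⟨l, hl, h1 z hz⟩
  obtain ⟨η, hη, K, hK, hKZ, h⟩ := main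
  refine ⟨η, hη, K, hK, hKZ, ?_⟩
  intro G hG hdG
  have hR1 : 0 < R + 1 := by linarith
  have hGd : DifferentiableOn ℂ G (ball 0 (R + 1)) := fun z hz =>
    (hG z (ball_subset_closedBall hz)).1.differentiableAt.differentiableWithinAt
  obtain ⟨υ, hυ, -, hυu⟩ := lc_lift_ball hu hΛ hR1 hGd (fun z hz => (hG z (ball_subset_closedBall hz)).2)
  have hKb : ∀ z ∈ K, z ∈ closedBall (0 : ℂ) (R + 1) := fun z hz => by
    rw [mem_closedBall, dist_zero_right]
    exact (hKZ z hz).2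
  have h1 := h G υ (fun z hz => (hG z (hKb z hz)).2) hdG hυ hυu
  have hsub : closedBall (0 : ℂ) R ⊆ ball 0 (R + 1) := closedBall_subset_ball (by linarith)
  have hc : ContinuousOn (fun w => υ w - ψ w) (closedBall (0 : ℂ) R) :=
    (hυ.continuousOn.mono hsub).sub hψ.continuous.continuousOn
  obtain ⟨l, hl, h2⟩ := lc_conn (convex_closedBall (0 : ℂ) R).isPreconnected hd (ε := 2 * ε₀) (by linarith) (by linarith) hc h1
  refine ⟨fun z => υ z - l, hυ.sub_const l, ?_, ?_⟩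
  · intro z hz
    have h3 : u (G z) - (υ z - l) = (u (G z) - υ z) + l := by ring
    rw [h3]
    exact Λ.add_mem (hυu z hz) hl
  · intro z hz
    have h3 := h2 z hz
    have h4 : υ z - l - ψ z = υ z - ψ z - l := by ring
    show ‖υ z - l - ψ z‖ < ε
    rw [h4]
    refine h3.trans_lt ?_
    linarith


/-! ### the inverse of a holomorphic function near the identity -/

private theorem lc_inverse {ρ ε : ℝ} (hε : 0 < ε) (hε1 : ε ≤ 1 / 4) {θ : ℂ → ℂ}
    (hθ : DifferentiableOn ℂ θ (ball 0 (ρ + 3))) (hn : ∀ w ∈ ball (0 : ℂ) (ρ + 3), ‖θ w - w‖ < ε) :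
    ∃ κ : ℂ → ℂ, DifferentiableOn ℂ κ (ball 0 (ρ + 1)) ∧ ∀ w ∈ ball (0 : ℂ) (ρ + 1), θ (κ w) = w ∧ ‖κ w - w‖ ≤ ε := by
  -- `h = θ - id` is Lipschitz with constant `1/4` on `ball 0 (ρ + 2)`
  have hlip : ∀ z ∈ ball (0 : ℂ) (ρ + 2), ∀ w ∈ ball (0 : ℂ) (ρ + 2), ‖(θ z - z) - (θ w - w)‖ ≤ 1 / 4 * ‖z - w‖ := by
    have hder : ∀ z ∈ ball (0 : ℂ) (ρ + 2), DifferentiableAt ℂ (fun z => θ z - z) z ∧ ‖deriv (fun z => θ z - z) z‖ ≤ 1 / 4 := by
      intro z hz
      have hz' : ‖z‖ < ρ + 2 := by simpa using hz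
      have hsub : closedBall z 1 ⊆ ball (0 : ℂ) (ρ + 3) := by
        intro w hw
        rw [mem_closedBall, dist_eq_norm] at hw
        rw [mem_ball, dist_zero_right]
        have h1 : w = z + (w - z) := by ring
        rw [h1]
        refine (norm_add_le _ _).trans_lt ?_
        linarith
      have hd : DifferentiableOn ℂ (fun z => θ z - z) (ball 0 (ρ + 3)) := hθ.sub differentiableOn_id
      refine ⟨hd.differentiableAt (isOpen_ball.mem_nhds (hsub (mem_closedBall_self zero_le_one))), ?_⟩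
      have hdc : DiffContOnCl ℂ (fun z => θ z - z) (ball z 1) := by
        refine DifferentiableOn.diffContOnCl ?_
        rw [closure_ball z one_ne_zero]
        exact hd.mono hsub
      have h1 := Complex.norm_deriv_le_of_forall_mem_sphere_norm_le (one_pos) hdc (C := ε)
        (fun w hw => (hn w (hsub (sphere_subset_closedBall hw))).le)
      rw [div_one] at h1
      exact h1.trans hε1
    intro z hz w hw
    have h1 := (convex_ball (0 : ℂ) (ρ + 2)).norm_image_sub_le_of_norm_deriv_le (fun x hx => (hder x hx).1) (fun x hx => (hder x hx).2) hw hz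
    exact h1
  -- existence
  have hex : ∀ w ∈ ball (0 : ℂ) (ρ + 1), ∃ z, ‖z - w‖ ≤ ε ∧ θ z = w := by
    intro w hw
    have hw' : ‖w‖ < ρ + 1 := by simpa using hw
    have hin : ∀ z ∈ closedBall w ε, z ∈ ball (0 : ℂ) (ρ + 2) := by
      intro z hz
      rw [mem_closedBall, dist_eq_norm] at hz
      rw [mem_ball, dist_zero_right]
      have h1 : z = w + (z - w) := by ring
      rw [h1]
      refine (norm_add_le _ _).trans_lt ?_
      linarith
    have hmaps : Set.MapsTo (fun z => w - (θ z - z)) (closedBall w ε) (closedBall w ε) := by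
      intro z hz
      have h1 := hn z (ball_subset_ball (by linarith) (hin z hz))
      rw [mem_closedBall, dist_eq_norm]
      have h2 : w - (θ z - z) - w = -(θ z - z) := by ring
      show ‖w - (θ z - z) - w‖ ≤ ε
      rw [h2, norm_neg]
      exact h1.le
    have hcon : ContractingWith (1 / 4 : NNReal) (hmaps.restrict (fun z => w - (θ z - z)) (closedBall w ε) (closedBall w ε)) := by
      refine ⟨by norm_num, LipschitzWith.of_dist_le_mul ?_⟩
      intro x y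
      have h1 := hlip x.1 (hin x.1 x.2) y.1 (hin y.1 y.2)
      have h2 : dist (hmaps.restrict (fun z => w - (θ z - z)) (closedBall w ε) (closedBall w ε) x)
          (hmaps.restrict (fun z => w - (θ z - z)) (closedBall w ε) (closedBall w ε) y) = ‖(θ x.1 - x.1) - (θ y.1 - y.1)‖ := by
        show dist (w - (θ x.1 - x.1)) (w - (θ y.1 - y.1)) = _
        rw [dist_eq_norm]
        have h3 : w - (θ x.1 - x.1) - (w - (θ y.1 - y.1)) = -((θ x.1 - x.1) - (θ y.1 - y.1)) := by ring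
        rw [h3, norm_neg]
      rw [h2]
      have h4 : dist x y = ‖x.1 - y.1‖ := by
        rw [Subtype.dist_eq, dist_eq_norm]
      rw [h4]
      simpa using h1
    obtain ⟨z, hz, hfix, -⟩ := ContractingWith.exists_fixedPoint' (isClosed_closedBall.isComplete) hmaps hcon (x := w)
      (mem_closedBall_self hε.le) (edist_ne_top _ _)
    refine ⟨z, by rwa [mem_closedBall, dist_eq_norm] at hz, ?_⟩
    have h1 : w - (θ z - z) = z := hfix
    linear_combination -h1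
  have hex' : ∀ w : ℂ, ∃ z : ℂ, w ∈ ball (0 : ℂ) (ρ + 1) → ‖z - w‖ ≤ ε ∧ θ z = w := by
    intro w
    by_cases hw : w ∈ ball (0 : ℂ) (ρ + 1)
    · obtain ⟨z, hz⟩ := hex w hw
      exact ⟨z, fun _ => hz⟩
    · exact ⟨0, fun h => absurd h hw⟩
  choose κ hκ using hex'
  have hκb : ∀ w ∈ ball (0 : ℂ) (ρ + 1), κ w ∈ ball (0 : ℂ) (ρ + 2) := by
    intro w hw
    have hw' : ‖w‖ < ρ + 1 := by simpa using hw
    rw [mem_ball, dist_zero_right]
    have h1 : κ w = w + (κ w - w) := by ring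
    rw [h1]
    refine (norm_add_le _ _).trans_lt ?_
    have := (hκ w hw).1
    linarith
  have hκl : ∀ w ∈ ball (0 : ℂ) (ρ + 1), ∀ w' ∈ ball (0 : ℂ) (ρ + 1), ‖κ w - κ w'‖ ≤ 2 * ‖w - w'‖ := by
    intro w hw w' hw'
    have h1 := hlip (κ w) (hκb w hw) (κ w') (hκb w' hw')
    rw [(hκ w hw).2, (hκ w' hw').2] at h1
    have h2 : κ w - κ w' = (w - w') - ((w - κ w) - (w' - κ w')) := by ring
    have h3 : ‖κ w - κ w'‖ ≤ ‖w - w'‖ + ‖(w - κ w) - (w' - κ w')‖ := by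
      conv_lhs => rw [h2]
      exact norm_sub_le _ _
    linarith [norm_nonneg (κ w - κ w'), norm_nonneg (w - w')]
  refine ⟨κ, ?_, fun w hw => ⟨(hκ w hw).2, (hκ w hw).1⟩⟩
  intro w hw
  have hnb : ball (0 : ℂ) (ρ + 1) ∈ 𝓝 w := isOpen_ball.mem_nhds hw
  have hcont : ContinuousAt κ w := by
    rw [Metric.continuousAt_iff]
    intro ε' hε'
    obtain ⟨r, hr, hrb⟩ := Metric.mem_nhds_iff.1 hnb
    refine ⟨min r (ε' / 2), lt_min hr (by positivity), fun {w'} hw' => ?_⟩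
    rw [dist_eq_norm]
    have h1 := hκl w' (hrb (hw'.trans_le (min_le_left _ _))) w hw
    rw [dist_eq_norm] at hw'
    have h2 := hw'.trans_le (min_le_right _ _)
    linarith
  have hda : DifferentiableAt ℂ θ (κ w) :=
    hθ.differentiableAt (isOpen_ball.mem_nhds (ball_subset_ball (by linarith) (hκb w hw)))
  have hne : deriv θ (κ w) ≠ 0 := by
    intro h0
    -- `θ - id` has derivative `-1` at `κ w`, but it is Lipschitz with constant `1/4`
    have h1 : HasDerivAt (fun z => θ z - z) (deriv θ (κ w) - 1) (κ w) := hda.hasDerivAt.sub (hasDerivAt_id (κ w))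
    rw [h0, zero_sub] at h1
    have h2 : ‖(-1 : ℂ)‖ ≤ 1 / 4 := by
      refine h1.le_of_lip' (by norm_num) ?_
      filter_upwards [isOpen_ball.mem_nhds (hκb w hw)] with z hz
      exact hlip z hz (κ w) (hκb w hw)
    rw [norm_neg, norm_one] at h2
    linarith
  have hinv : ∀ᶠ y in 𝓝 w, θ (κ y) = y := by
    filter_upwards [hnb] with y hy
    exact (hκ y hy).2
  exact (HasDerivAt.of_local_left_inverse hcont hda.hasDerivAt hne hinv).differentiableAt.differentiableWithinAt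

/-! ### the main statements -/

/-- entire curves in `X` which are limits, outside a closed discrete set, of curves in `X \ D` over larger and larger discs -/
def LCur (X D : Set (EN N)) : Set (ℂ → EN N) :=
  {H | Differentiable ℂ H ∧ (∀ z, H z ∈ X) ∧ ∃ Z : Set ℂ, IsClosed Z ∧ (∀ z, ∀ᶠ w in 𝓝[≠] z, w ∉ Z) ∧
    ∀ R ε : ℝ, 0 < ε → ∀ K : Set ℂ, IsCompact K → (∀ z ∈ K, z ∉ Z) →
      ∃ G : ℂ → EN N, (∀ z ∈ closedBall (0 : ℂ) R, AnalyticAt ℂ G z ∧ G z ∈ X ∧ G z ∉ D) ∧ ∀ z ∈ K, ‖z‖ ≤ R → dist (pr (G z)) (pr (H z)) < ε}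

theorem lcur_of_limit (hX : IsCone X) {l : Filter ℕ} {F : ℕ → ℂ → EN N} {H : ℂ → EN N} (h : Pool.Agent.H36.BPB.IsLimit (X \ D) l F H)
    (hH : ∀ z, H z ∈ X) : H ∈ LCur X D := by
  have hX0 : ∀ x ∈ X, x ≠ 0 := fun x hx h0 => hX.zero_notMem (h0 ▸ hx)
  set C : Set ℂ := {z | Pool.Agent.H36.BPB.ConvAt l F H z} with hC
  have hCo : IsOpen C := by
    rw [Metric.isOpen_iff]
    rintro z ⟨s, hs, φ, hφ, hlim⟩
    refine ⟨s, hs, fun w hw => ?_⟩
    obtain ⟨t, ht, htb⟩ := Metric.mem_nhds_iff.1 (isOpen_ball.mem_nhds hw)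
    refine ⟨t, ht, φ, ?_, hlim.mono htb⟩
    filter_upwards [hφ] with n hn
    exact ⟨hn.1.mono htb, fun y hy => hn.2 y (htb hy)⟩
  have hconv : TendstoLocallyUniformlyOn (fun n z => pr (F n z)) (fun z => pr (H z)) l C := by
    rw [Metric.tendstoLocallyUniformlyOn_iff]
    intro ε hε z₀ hz₀
    obtain ⟨s, hs, φ, hφ, hlim⟩ := hz₀
    have hpc := Metric.continuousAt_iff.1 (Pool.Agent.H62.EF.continuousAt_pr (hX0 _ (hH z₀))) (ε / 2) (by positivity)
    obtain ⟨η, hη, hpr⟩ := hpc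
    have hHc : ∀ᶠ z in 𝓝 z₀, dist (H z) (H z₀) < η / 2 := Metric.tendsto_nhds.1 h.hol.continuous.continuousAt _ (by positivity)
    obtain ⟨t, ht, hev⟩ := (Metric.tendstoLocallyUniformlyOn_iff.1 hlim) (η / 2) (by positivity) z₀ (mem_ball_self hs)
    rw [isOpen_ball.nhdsWithin_eq (mem_ball_self hs)] at ht
    refine ⟨t ∩ ({z | dist (H z) (H z₀) < η / 2} ∩ ball z₀ s), mem_nhdsWithin_of_mem_nhds
      (inter_mem ht (inter_mem hHc (ball_mem_nhds z₀ hs))), ?_⟩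
    filter_upwards [hev, hφ] with n hn hφn
    rintro w ⟨hwt, hw1, hw2⟩
    have hw1' : dist (H w) (H z₀) < η / 2 := hw1
    have h1 : dist (pr (H w)) (pr (H z₀)) < ε / 2 := hpr (hw1'.trans (by linarith))
    have h2 : dist (φ n w • F n w) (H z₀) < η := by
      have h3 := hn w hwt
      rw [dist_comm] at h3
      exact (dist_triangle _ (H w) _).trans_lt (by linarith)
    have h3 : dist (pr (φ n w • F n w)) (pr (H z₀)) < ε / 2 := hpr h2
    rw [Pool.Agent.H62.EF.pr_smul _ (hφn.2 w hw2)] at h3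
    rw [dist_comm] at h3
    exact (dist_triangle _ (pr (H z₀)) _).trans_lt (by linarith)
  refine ⟨h.hol, hH, Cᶜ, hCo.isClosed_compl, ?_, ?_⟩
  · intro z
    filter_upwards [h.conv z] with w hw
    exact fun hn => hn hw
  · intro R ε hε K hK hKZ
    have hKC : K ⊆ C := fun z hz => not_not.1 (hKZ z hz)
    have h1 : TendstoUniformlyOn (fun n z => pr (F n z)) (fun z => pr (H z)) l K :=
      (tendstoLocallyUniformlyOn_iff_tendstoUniformlyOn_of_compact hK).1 (hconv.mono hKC)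
    have h2 := Metric.tendstoUniformlyOn_iff.1 h1 ε hε
    have h3 : ∀ᶠ n : ℕ in l, R < (n : ℝ) + 1 := by
      refine h.le_atTop ?_
      have : Tendsto (fun n : ℕ => (n : ℝ) + 1) atTop atTop := tendsto_natCast_atTop_atTop.atTop_add tendsto_const_nhds
      exact this.eventually_gt_atTop R
    have := h.neBot
    obtain ⟨n, hn1, hn2⟩ := (h2.and h3).exists
    refine ⟨F n, fun z hz => ?_, fun z hz _ => ?_⟩
    · have hz' : z ∈ ball (0 : ℂ) (n + 1) := by
        rw [mem_closedBall, dist_zero_right] at hz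
        rw [mem_ball, dist_zero_right]
        linarith
      exact ⟨(h.diff n).analyticAt (isOpen_ball.mem_nhds hz'), h.mem n z hz'⟩
    · rw [dist_comm]
      exact hn1 z hz

/-- a local limit of curves with bounded derivatives (copy of the private lemma of EL SbB) -/
private theorem lc_montel (hX : IsCone X) {L : ℝ} (hL : 0 < L) (𝒰 : Ultrafilter ℕ) (F : ℕ → ℂ → EN N) {z₀ : ℂ} {r₀ : ℝ}
    (hr₀ : 0 < r₀) (hF : ∀ᶠ n in (𝒰 : Filter ℕ), DifferentiableOn ℂ (F n) (ball z₀ r₀) ∧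
      ∀ z ∈ ball z₀ r₀, F n z ∈ X ∧ fs (F n z) (deriv (F n) z) ≤ L) :
    ∃ (r : ℝ) (φ : ℕ → ℂ → EN N) (ψ : ℂ → EN N), 0 < r ∧ r ≤ r₀ ∧
        (∀ᶠ n in (𝒰 : Filter ℕ), DifferentiableOn ℂ (φ n) (ball z₀ r) ∧ ∀ z ∈ ball z₀ r, F n z ∈ X ∧ ∃ c : ℂ, c ≠ 0 ∧ φ n z = c • F n z) ∧
        DifferentiableOn ℂ ψ (ball z₀ r) ∧ (∀ z ∈ ball z₀ r, ψ z ∈ X) ∧
        TendstoLocallyUniformlyOn φ ψ 𝒰 (ball z₀ r) := by
  have hne0 : ∀ {x : EN N}, x ∈ X → x ≠ 0 := fun {x} hx h0 => hX.zero_notMem (h0 ▸ hx)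
  set r : ℝ := min r₀ (1 / (8 * L)) with hr
  have hr0 : 0 < r := lt_min hr₀ (by positivity)
  have hrr : r ≤ r₀ := min_le_left _ _
  have hrL : r ≤ 1 / (8 * L) := min_le_right _ _
  have hz₀ : z₀ ∈ ball z₀ r := mem_ball_self hr0
  have hev : ∀ᶠ n in (𝒰 : Filter ℕ), DifferentiableOn ℂ (F n) (ball z₀ r) ∧
      ∀ z ∈ ball z₀ r, F n z ∈ X ∧ ‖F n z₀‖ * ‖F n z‖ ≤ 2 * ‖inner ℂ (F n z₀) (F n z)‖ := by
    filter_upwards [hF] with n h1
    obtain ⟨h1, h3⟩ := h1
    have hsub : ball z₀ r ⊆ ball z₀ r₀ := ball_subset_ball hrr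
    refine ⟨h1.mono hsub, fun z hz => ⟨(h3 z (hsub hz)).1, ?_⟩⟩
    have hx0 : F n z₀ ≠ 0 := hne0 (h3 z₀ (hsub hz₀)).1
    have hy0 : F n z ≠ 0 := hne0 (h3 z (hsub hz)).1
    have hlip := Pool.Agent.H62.EF.pr_lipschitz isOpen_ball (convex_ball z₀ r) (h1.mono hsub)
      (fun w hw => hne0 (h3 w (hsub hw)).1) (fun w hw => (h3 w (hsub hw)).2) z₀ hz₀ z hz
    have h4 : ‖z₀ - z‖ ≤ r := by
      rw [← dist_eq_norm, dist_comm]
      exact (mem_ball.mp hz).le
    have h5 : dist (pr (F n z₀)) (pr (F n z)) ≤ 1 / 4 := by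
      calc dist (pr (F n z₀)) (pr (F n z)) ≤ 2 * L * ‖z₀ - z‖ := hlip
        _ ≤ 2 * L * (1 / (8 * L)) := by gcongr; exact h4.trans hrL
        _ = 1 / 4 := by field_simp; norm_num
    have h6 := Pool.Agent.H62.EF.norm_inner_sq hx0 hy0
    have h7 : dist (pr (F n z₀)) (pr (F n z)) ^ 2 ≤ 1 := by
      have := dist_nonneg (x := pr (F n z₀)) (y := pr (F n z))
      nlinarith
    have h8 : (‖F n z₀‖ * ‖F n z‖) ^ 2 ≤ (2 * ‖inner ℂ (F n z₀) (F n z)‖) ^ 2 := by
      rw [mul_pow, mul_pow, h6]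
      have h9 : 0 ≤ ‖F n z₀‖ ^ 2 * ‖F n z‖ ^ 2 := by positivity
      nlinarith
    exact abs_le_of_sq_le_sq' h8 (by positivity) |>.2
  set φ : ℕ → ℂ → EN N := fun n z => (((‖F n z₀‖ : ℝ) : ℂ) / inner ℂ (F n z₀) (F n z)) • F n z with hφ
  have hev2 : ∀ᶠ n in (𝒰 : Filter ℕ), DifferentiableOn ℂ (F n) (ball z₀ r) ∧ DifferentiableOn ℂ (φ n) (ball z₀ r) ∧
      ∀ z ∈ ball z₀ r, F n z ∈ X ∧ (∃ c : ℂ, c ≠ 0 ∧ φ n z = c • F n z) ∧ ‖φ n z‖ ≤ 2 ∧ 1 ≤ ‖φ n z‖ := by
    filter_upwards [hev] with n h1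
    obtain ⟨h1, h2⟩ := h1
    have hx0 : F n z₀ ≠ 0 := hne0 (h2 z₀ hz₀).1
    have hxn : 0 < ‖F n z₀‖ := norm_pos_iff.mpr hx0
    have hin : ∀ z ∈ ball z₀ r, (inner ℂ (F n z₀) (F n z) : ℂ) ≠ 0 := by
      intro z hz h
      have h3 := (h2 z hz).2
      have hyn : 0 < ‖F n z‖ := norm_pos_iff.mpr (hne0 (h2 z hz).1)
      rw [h, norm_zero, mul_zero] at h3
      have : 0 < ‖F n z₀‖ * ‖F n z‖ := mul_pos hxn hyn
      linarith
    refine ⟨h1, ?_, fun z hz => ⟨(h2 z hz).1, ⟨_, ?_, rfl⟩, ?_, ?_⟩⟩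
    · have h3 : DifferentiableOn ℂ (fun z => (inner ℂ (F n z₀) (F n z) : ℂ)) (ball z₀ r) :=
        (innerSL ℂ (F n z₀)).differentiable.comp_differentiableOn h1
      have h4 : DifferentiableOn ℂ (fun z => ((‖F n z₀‖ : ℝ) : ℂ) / (inner ℂ (F n z₀) (F n z) : ℂ)) (ball z₀ r) :=
        (differentiableOn_const _).div h3 hin
      exact h4.smul h1
    · exact div_ne_zero (Complex.ofReal_ne_zero.mpr hxn.ne') (hin z hz)
    · have h3 := (h2 z hz).2
      have h4 : 0 < ‖(inner ℂ (F n z₀) (F n z) : ℂ)‖ := norm_pos_iff.mpr (hin z hz)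
      simp only [hφ]
      rw [norm_smul, norm_div, Complex.norm_real, norm_norm, div_mul_eq_mul_div, div_le_iff₀ h4]
      exact h3
    · have h4 : 0 < ‖(inner ℂ (F n z₀) (F n z) : ℂ)‖ := norm_pos_iff.mpr (hin z hz)
      simp only [hφ]
      rw [norm_smul, norm_div, Complex.norm_real, norm_norm, div_mul_eq_mul_div, le_div_iff₀ h4, one_mul]
      exact norm_inner_le_norm _ _
  obtain ⟨ψ, hψ, hconv⟩ := Pool.Agent.H17.montel_ultrafilter 𝒰 (F := φ) (a := z₀) (r := r) (B := 2)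
    (hev2.mono fun n h => h.2.1) (hev2.mono fun n h z hz => ((h.2.2 z hz).2.2.1))
  refine ⟨r, φ, ψ, hr0, hrr, hev2.mono fun n h => ⟨h.2.1, fun z hz => ⟨(h.2.2 z hz).1, (h.2.2 z hz).2.1⟩⟩, hψ, ?_, hconv⟩
  intro z hz
  have h1 : Tendsto (fun n => φ n z) 𝒰 (𝓝 (ψ z)) := hconv.tendsto_at hz
  have h2 : ψ z ∈ insert 0 X := by
    refine hX.closed.mem_of_tendsto h1 ?_
    filter_upwards [hev2] with n h
    obtain ⟨h3, ⟨c, hc, h4⟩, -⟩ := h.2.2 z hz
    rw [h4]
    exact Or.inr (hX.smul_mem _ h3 c hc)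
  have h3 : 1 ≤ ‖ψ z‖ := by
    refine ge_of_tendsto h1.norm ?_
    filter_upwards [hev2] with n h
    exact (h.2.2 z hz).2.2.2
  rcases h2 with h2 | h2
  · rw [h2, norm_zero] at h3
    linarith
  · exact h2

/-- the sequence of curves near a limit curve in a fibre -/
private theorem lc_seq (E : LFib X D Λ Γ u B δ) {H : ℂ → EN N} (hHd : Differentiable ℂ H) (hHX : ∀ z, H z ∈ X) {Z : Set ℂ}
    (hZd : ∀ z, ∀ᶠ w in 𝓝[≠] z, w ∉ Z)
    (hap : ∀ R ε : ℝ, 0 < ε → ∀ K : Set ℂ, IsCompact K → (∀ z ∈ K, z ∉ Z) →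
      ∃ G : ℂ → EN N, (∀ z ∈ closedBall (0 : ℂ) R, AnalyticAt ℂ G z ∧ G z ∈ X ∧ G z ∉ D) ∧ ∀ z ∈ K, ‖z‖ ≤ R → dist (pr (G z)) (pr (H z)) < ε)
    {c : ℂ} (hc : ∀ z, u (H z) - c ∈ Λ) {δ' : ℝ} (hδ' : 0 < δ') (n : ℕ) :
    ∃ (G : ℂ → EN N) (υ : ℂ → ℂ), (∀ z ∈ closedBall (0 : ℂ) ((n : ℝ) + 2 + 1), AnalyticAt ℂ G z ∧ G z ∈ X ∧ G z ∉ D) ∧
      DifferentiableOn ℂ υ (ball 0 ((n : ℝ) + 2 + 1)) ∧ (∀ z ∈ ball (0 : ℂ) ((n : ℝ) + 2 + 1), u (G z) - υ z ∈ Λ) ∧
      (∀ z ∈ closedBall (0 : ℂ) ((n : ℝ) + 2), ‖υ z - c‖ < δ') ∧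
      ∀ z, ‖z‖ ≤ n → (∀ w ∈ Z, 1 / ((n : ℝ) + 1) ≤ dist z w) → dist (pr (G z)) (pr (H z)) < 1 / ((n : ℝ) + 1) := by
  have hn0 : (0 : ℝ) ≤ (n : ℝ) + 2 := by positivity
  have hn1 : (0 : ℝ) < 1 / ((n : ℝ) + 1) := by positivity
  obtain ⟨η, hη, K, hK, hKZ, hlift⟩ := lc_lift (ψ := fun _ => c) E.cone E.tor E.dsc hHd.continuous hHX (differentiable_const c) hc hZd hn0 hδ'
  set Kn : Set ℂ := {z | ‖z‖ ≤ n ∧ ∀ w ∈ Z, 1 / ((n : ℝ) + 1) ≤ dist z w} with hKn
  have hKnc : IsCompact Kn := by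
    refine (isCompact_closedBall (0 : ℂ) n).of_isClosed_subset ?_ (fun z hz => by simpa using hz.1)
    have h1 : Kn = {z | ‖z‖ ≤ n} ∩ ⋂ w ∈ Z, {z | 1 / ((n : ℝ) + 1) ≤ dist z w} := by
      ext z
      simp only [hKn, Set.mem_inter_iff, Set.mem_iInter, Set.mem_ofPred_eq]
    rw [h1]
    refine (isClosed_le continuous_norm continuous_const).inter ?_
    exact isClosed_biInter fun w _ => isClosed_le continuous_const (continuous_id.dist continuous_const)
  have hKnZ : ∀ z ∈ Kn, z ∉ Z := by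
    intro z hz hzZ
    have h1 := hz.2 z hzZ
    rw [dist_self] at h1
    linarith
  obtain ⟨G, hG1, hG2⟩ := hap ((n : ℝ) + 2 + 1) (min η (1 / ((n : ℝ) + 1))) (lt_min hη hn1) (K ∪ Kn) (hK.union hKnc)
    (by
      rintro z (hz | hz)
      · exact (hKZ z hz).1
      · exact hKnZ z hz)
  obtain ⟨υ, hυ1, hυ2, hυ3⟩ := hlift G (fun z hz => ⟨(hG1 z hz).1, (hG1 z hz).2.1⟩)
    (fun z hz => (hG2 z (Or.inl hz) (hKZ z hz).2).trans_le (min_le_left _ _))
  refine ⟨G, υ, hG1, hυ1, hυ2, hυ3, fun z hz1 hz2 => ?_⟩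
  exact (hG2 z (Or.inr ⟨hz1, hz2⟩) (by linarith)).trans_le (min_le_right _ _)

theorem lcur_fibre (E : LFib X D Λ Γ u B δ) {H : ℂ → EN N} (hH : H ∈ LCur X D) {c : ℂ} (hc : ∀ z, u (H z) - c ∈ Λ) (hcB : c ∉ B) (z w : ℂ) :
    pr (H z) = pr (H w) := by
  obtain ⟨hHd, hHX, Z, hZc, hZd, hap⟩ := hH
  have hH0 : ∀ z, H z ≠ 0 := fun z => E.cone.ne_zero (hHX z)
  have hB : ∀ z, ∀ b ∈ B, u (H z) - b ∉ Λ := by
    intro z b hb hmem
    have h1 : c - b ∈ Λ := by
      have h2 := Λ.sub_mem hmem (hc z)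
      have h3 : u (H z) - b - (u (H z) - c) = c - b := by ring
      rwa [h3] at h2
    have h2 := E.bad.inv b hb _ h1
    have h3 : b + (c - b) = c := by ring
    rw [h3] at h2
    exact hcB h2
  obtain ⟨δ₂, hδ₂, hcg⟩ := E.bad.exists_gd hcB
  set δ' : ℝ := min (δ₂ / 2) (1 / 2) with hδ'
  have hδ'0 : 0 < δ' := lt_min (by positivity) (by norm_num)
  have hδ'2 : δ' ≤ δ₂ / 2 := min_le_left _ _
  have hδ'1 : δ' ≤ 1 / 2 := min_le_right _ _
  have hgd : ∀ y : ℂ, ‖y - c‖ < δ' → y ∈ Gd B δ' := by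
    intro y hy b hb
    have h1 := hcg b hb
    have h2 : c - b = (y - b) - (y - c) := by ring
    rw [h2] at h1
    have h3 := norm_sub_le (y - b) (y - c)
    linarith
  have hnb : ∀ y : ℂ, ‖y - c‖ < δ' → y ∈ Nb Λ (‖c‖ + 1) := by
    intro y hy
    refine ⟨0, Λ.zero_mem, ?_⟩
    have h2 : y - 0 = c + (y - c) := by ring
    rw [h2]
    have h3 := norm_add_le c (y - c)
    linarith
  obtain ⟨L, hL0, hL⟩ := disc_boundL E hδ'0 (‖c‖ + 1)
  choose G υ hG hυd hυu hυc hGH using fun n => lc_seq E hHd hHX hZd hap hc hδ'0 n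
  -- the bound for the derivatives
  have hbd : ∀ n : ℕ, ∀ z ∈ ball (0 : ℂ) ((n : ℝ) + 1), fs (G n z) (deriv (G n) z) ≤ L := by
    intro n z hz
    rw [mem_ball, dist_zero_right] at hz
    have hzw : ∀ w ∈ closedBall (0 : ℂ) 1, z + w ∈ closedBall (0 : ℂ) ((n : ℝ) + 2) := by
      intro w hw
      rw [mem_closedBall, dist_zero_right] at hw ⊢
      refine (norm_add_le _ _).trans ?_
      linarith
    have hsub1 : closedBall (0 : ℂ) ((n : ℝ) + 2) ⊆ ball 0 ((n : ℝ) + 2 + 1) := closedBall_subset_ball (by linarith)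
    have h1 := hL (fun w => G n (z + w)) (fun w => υ n (z + w)) ?_
    · have h2 : deriv (fun w => G n (z + w)) 0 = deriv (G n) z := by
        rw [deriv_comp_const_add, add_zero]
      rw [h2] at h1
      simpa only [add_zero] using h1
    · intro w hw
      have hzw' := hzw w hw
      have hzw'' := hsub1 hzw'
      have hc0 := hυc n (z + w) hzw'
      have hadd : AnalyticAt ℂ (fun w : ℂ => z + w) w := analyticAt_const.add analyticAt_id
      refine ⟨?_, ?_, ?_, ?_, ?_, ?_, ?_, ?_⟩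
      · exact AnalyticAt.fun_comp (hG n _ (ball_subset_closedBall hzw'')).1 hadd
      · exact AnalyticAt.fun_comp ((hυd n).analyticAt (isOpen_ball.mem_nhds hzw'')) hadd
      · exact (hG n _ (ball_subset_closedBall hzw'')).2.1
      · exact (hG n _ (ball_subset_closedBall hzw'')).2.2
      · exact hυu n _ hzw''
      · exact hgd _ hc0
      · exact hnb _ hc0
      · have hc1 := hυc n (z + 0) (hzw 0 (mem_closedBall_self zero_le_one))
        have h4 : υ n (z + w) - υ n (z + 0) = (υ n (z + w) - c) - (υ n (z + 0) - c) := by ring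
        show ‖υ n (z + w) - υ n (z + 0)‖ ≤ 1
        rw [h4]
        have h5 := norm_sub_le (υ n (z + w) - c) (υ n (z + 0) - c)
        linarith
  have hpart : ∀ n : ℕ, ∀ z ∈ ball (0 : ℂ) ((n : ℝ) + 1), G n z ∈ part X Λ u (‖c‖ + 1) := by
    intro n z hz
    rw [mem_ball, dist_zero_right] at hz
    have h1 : z ∈ closedBall (0 : ℂ) ((n : ℝ) + 2) := by
      rw [mem_closedBall, dist_zero_right]
      linarith
    have h2 : z ∈ ball (0 : ℂ) ((n : ℝ) + 2 + 1) := closedBall_subset_ball (by linarith) h1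
    exact part_mem_of_val (hG n z (ball_subset_closedBall h2)).2.1 (hnb _ (hυc n z h1)) (hυu n z h2)
  have hGd : ∀ n : ℕ, DifferentiableOn ℂ (G n) (ball 0 ((n : ℝ) + 1)) := by
    intro n z hz
    refine (hG n z ?_).1.differentiableAt.differentiableWithinAt
    rw [mem_ball, dist_zero_right] at hz
    rw [mem_closedBall, dist_zero_right]
    linarith
  set 𝒰 : Ultrafilter ℕ := hyperfilter ℕ with h𝒰
  have h𝒰t : (𝒰 : Filter ℕ) ≤ atTop := Nat.hyperfilter_le_atTop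
  have hρ : Tendsto (fun n : ℕ => (n : ℝ) + 1) 𝒰 atTop :=
    (tendsto_natCast_atTop_atTop.atTop_add tendsto_const_nhds).mono_left h𝒰t
  have h0 : Tendsto (fun n : ℕ => 1 / ((n : ℝ) + 1)) 𝒰 (𝓝 0) := tendsto_one_div_add_atTop_nhds_zero_nat.mono_left h𝒰t
  -- convergence outside `Z`
  have hlim : ∀ z, z ∉ Z → Tendsto (fun n => pr (G n z)) 𝒰 (𝓝 (pr (H z))) := by
    intro z hz
    obtain ⟨s, hs, hsb⟩ := Metric.mem_nhds_iff.1 (hZc.isOpen_compl.mem_nhds hz)
    have e1 : ∀ᶠ n : ℕ in 𝒰, 1 / ((n : ℝ) + 1) < s := h0.eventually_lt_const hs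
    have e2 : ∀ᶠ n : ℕ in 𝒰, ‖z‖ + 1 < (n : ℝ) + 1 := hρ.eventually_gt_atTop _
    rw [tendsto_iff_dist_tendsto_zero]
    refine squeeze_zero' (Filter.Eventually.of_forall fun n => dist_nonneg) ?_ h0
    filter_upwards [e1, e2] with n h1 h2
    refine (hGH n z (by linarith) ?_).le
    intro w hw
    by_contra hlt
    push Not at hlt
    have h3 : w ∈ ball z s := by
      rw [mem_ball, dist_comm]
      exact hlt.trans h1
    exact hsb h3 hw
  have hloc : ∀ z₀, ∃ (r : ℝ) (φ : ℕ → ℂ → EN N) (ψ : ℂ → EN N), 0 < r ∧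
        (∀ᶠ n in (𝒰 : Filter ℕ), DifferentiableOn ℂ (φ n) (ball z₀ r) ∧ ∀ z ∈ ball z₀ r, ∃ c : ℂ, c ≠ 0 ∧ φ n z = c • G n z) ∧
        DifferentiableOn ℂ ψ (ball z₀ r) ∧ (∀ z ∈ ball z₀ r, ∃ c : ℂ, c ≠ 0 ∧ ψ z = c • H z) ∧
        TendstoLocallyUniformlyOn φ ψ 𝒰 (ball z₀ r) := by
    intro z₀
    have e1 : ∀ᶠ n in (𝒰 : Filter ℕ), DifferentiableOn ℂ (G n) (ball z₀ 1) ∧
      ∀ z ∈ ball z₀ 1, G n z ∈ part X Λ u (‖c‖ + 1) ∧ fs (G n z) (deriv (G n) z) ≤ L := by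
      filter_upwards [hρ.eventually_gt_atTop (‖z₀‖ + 1)] with n hn
      have hsub : ball z₀ 1 ⊆ ball (0 : ℂ) ((n : ℝ) + 1) := by
        intro y hy
        rw [mem_ball, dist_eq_norm] at hy
        rw [mem_ball, dist_zero_right]
        have h1 : y = z₀ + (y - z₀) := by ring
        rw [h1]
        refine (norm_add_le _ _).trans_lt ?_
        linarith
      exact ⟨(hGd n).mono hsub, fun z hz => ⟨hpart n z (hsub hz), hbd n z (hsub hz)⟩⟩
    have hcone := E.part_isCone (‖c‖ + 1)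
    obtain ⟨r, φ, ψ, hr, hr1, hφ, hψd, hψX, hconv⟩ := lc_montel hcone hL0 𝒰 G one_pos e1
    have hψ0 : ∀ z ∈ ball z₀ r, ψ z ≠ 0 := fun z hz h0 => hcone.zero_notMem (h0 ▸ hψX z hz)
    have hprψ : ∀ z ∈ ball z₀ r, Tendsto (fun n => pr (G n z)) 𝒰 (𝓝 (pr (ψ z))) := by
      intro z hz
      have h1 : Tendsto (fun n => φ n z) 𝒰 (𝓝 (ψ z)) := hconv.tendsto_at hz
      have h2 : Tendsto (fun n => pr (φ n z)) 𝒰 (𝓝 (pr (ψ z))) :=
        (Pool.Agent.H62.EF.continuousAt_pr (hψ0 z hz)).tendsto.comp h1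
      refine h2.congr' ?_
      filter_upwards [hφ] with n h
      obtain ⟨-, c, hc, h4⟩ := h.2 z hz
      rw [h4, Pool.Agent.H62.EF.pr_smul _ hc]
    have hoff : ∀ z ∈ ball z₀ r, z ∉ Z → pr (ψ z) = pr (H z) := fun z hz hzZ =>
      tendsto_nhds_unique (hprψ z hz) (hlim z hzZ)
    have hall : ∀ z ∈ ball z₀ r, pr (ψ z) = pr (H z) := by
      intro z hz
      have c1 : ContinuousAt (fun z => pr (ψ z)) z :=
        (Pool.Agent.H62.EF.continuousAt_pr (hψ0 z hz)).comp (hψd.differentiableAt (isOpen_ball.mem_nhds hz)).continuousAt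
      have c2 : ContinuousAt (fun z => pr (H z)) z :=
        (Pool.Agent.H62.EF.continuousAt_pr (hH0 z)).comp hHd.continuous.continuousAt
      have t1 : Tendsto (fun z => pr (ψ z)) (𝓝[≠] z) (𝓝 (pr (ψ z))) := c1.tendsto.mono_left nhdsWithin_le_nhds
      have t2 : Tendsto (fun z => pr (H z)) (𝓝[≠] z) (𝓝 (pr (H z))) := c2.tendsto.mono_left nhdsWithin_le_nhds
      refine tendsto_nhds_unique (t1.congr' ?_) t2
      filter_upwards [hZd z, mem_nhdsWithin_of_mem_nhds (isOpen_ball.mem_nhds hz)] with y hy1 hy2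
      exact hoff y hy2 hy1
    refine ⟨r, φ, ψ, hr, hφ.mono fun n h => ⟨h.1, fun z hz => (h.2 z hz).2⟩, hψd, fun z hz => ?_, hconv⟩
    exact (Pool.Agent.H62.EF.pr_eq_iff (hψ0 z hz) (hH0 z)).1 (hall z hz)
  have hdich := limit_dich E 𝒰 G (fun n : ℕ => (n : ℝ) + 1) hρ
    (Filter.Eventually.of_forall fun n => ⟨hGd n, fun z hz => by
      have h1 : z ∈ closedBall (0 : ℂ) ((n : ℝ) + 2 + 1) := by
        rw [mem_ball, dist_zero_right] at hz
        rw [mem_closedBall, dist_zero_right]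
        linarith
      exact (hG n z h1).2⟩) hHd hHX hB hloc
  rcases hdich with hinD | hoffD
  · have hfs : ∀ z₀, fs (H z₀) (deriv H z₀) ≤ 0 := by
      intro z₀
      exact (hor_fibre E.cone E.D_smul E.tor E.dsc le_rfl (E.hor (H z₀) (hinD z₀) (hB z₀)) (hHd.analyticAt z₀)
        (Filter.Eventually.of_forall fun z => ⟨hHX z, hinD z⟩) (c₀ := c) (Filter.Eventually.of_forall hc)).le
    have h1 := Pool.Agent.H62.EF.pr_lipschitz isOpen_univ convex_univ hHd.differentiableOn (fun z _ => hH0 z) (fun z _ => hfs z)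
      z (Set.mem_univ z) w (Set.mem_univ w)
    rw [mul_zero, zero_mul] at h1
    exact dist_le_zero.1 h1
  · by_contra hne
    obtain ⟨b, hb, hb2⟩ := E.fib H hHd (fun z => ⟨hHX z, hoffD z⟩)
      (fun z w => by
        have h1 := Λ.sub_mem (hc z) (hc w)
        have h2 : u (H z) - c - (u (H w) - c) = u (H z) - u (H w) := by ring
        rwa [h2] at h1)
      ⟨z, w, fun c' he => by
        have hc' : c' ≠ 0 := by
          rintro rfl
          rw [zero_smul] at he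
          exact hH0 z he
        apply hne
        rw [he, Pool.Agent.H62.EF.pr_smul _ hc']⟩
    exact hB 0 b hb hb2

theorem lcur_aff (hX : OCone X) (hcl : ∀ R : ℝ, IsClosed (insert 0 (part X Λ u R))) (hu : TorusMap X Λ u) (hΛ : Dsc Λ)
    (hD : ∀ x ∈ X, x ∉ D → ∀ᶠ y in 𝓝 x, y ∉ D) {H : ℂ → EN N} (hH : H ∈ LCur X D) {a c : ℂ} (ha : a ≠ 0)
    (h : ∀ z, u (H z) - (a * z + c) ∈ Λ) : (fun z => pr (H ((z - c) / a))) ∈ LSec X D Λ u := by
  obtain ⟨hHd, hHX, Z, hZc, hZd, hap⟩ := hH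
  obtain ⟨σ, hσ⟩ : ∃ σ : ℂ → ℂ, σ = fun z => (z - c) / a := ⟨_, rfl⟩
  have hσd : Differentiable ℂ σ := by
    rw [hσ]
    exact (differentiable_id.sub_const c).div_const a
  have hσc : Continuous σ := hσd.continuous
  have hσv : ∀ z, a * σ z + c = z := by
    intro z
    rw [hσ]
    field_simp
    ring
  have hσs : ∀ z w, σ z - σ w = (z - w) / a := by
    intro z w
    rw [hσ]
    field_simp
    ring
  have hσinj : Function.Injective σ := by
    intro z w hzw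
    rw [← hσv z, ← hσv w, hzw]
  have hgoal : (fun z => pr (H ((z - c) / a))) = fun z => pr (H (σ z)) := by rw [hσ]
  rw [hgoal]
  have hprc : Continuous (fun z => pr (H z)) := continuous_iff_continuousAt.2 fun z =>
    (Pool.Agent.H62.EF.continuousAt_pr (hX.ne_zero (hHX z))).comp hHd.continuous.continuousAt
  refine ⟨⟨fun z => H (σ z), ⟨hHd.comp hσd, fun z => hHX _, fun z => ?_⟩, fun z => rfl⟩, σ ⁻¹' Z, hZc.preimage hσc, ?_, ?_⟩
  · have h1 := h (σ z)
    rwa [hσv z] at h1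
  · intro z
    have h1 : Tendsto σ (𝓝[≠] z) (𝓝[≠] (σ z)) :=
      tendsto_nhdsWithin_of_tendsto_nhds_of_eventually_within σ (hσc.continuousAt.mono_left nhdsWithin_le_nhds)
        (by filter_upwards [self_mem_nhdsWithin] with w hw; exact fun e => hw (hσinj e))
    exact h1.eventually (hZd (σ z))
  · intro R ε hε K hK hKZ
    have ha0 : 0 < ‖a‖ := norm_pos_iff.2 ha
    have hR' : R ≤ |R| := le_abs_self R
    have hR0 : 0 ≤ |R| := abs_nonneg R
    set R₁ : ℝ := (|R| + 3 + ‖c‖) / ‖a‖ with hR₁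
    have hR₁0 : 0 ≤ R₁ := by positivity
    have hσb : ∀ w : ℂ, ‖w‖ < |R| + 3 → ‖σ w‖ ≤ R₁ := by
      intro w hw
      rw [hσ, hR₁]
      show ‖(w - c) / a‖ ≤ _
      rw [norm_div]
      gcongr
      exact (norm_sub_le _ _).trans (by linarith)
    have hLc : IsCompact (σ '' K) := hK.image hσc
    have hLZ : σ '' K ⊆ Zᶜ := by
      rintro _ ⟨w, hw, rfl⟩
      exact hKZ w hw
    obtain ⟨s, hs, hsZ⟩ := hLc.exists_cthickening_subset_open hZc.isOpen_compl hLZ
    have hL'c : IsCompact (cthickening s (σ '' K)) := hLc.cthickening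
    obtain ⟨t, ht, hut⟩ := Metric.uniformContinuousOn_iff.1 (hL'c.uniformContinuousOn_of_continuous hprc.continuousOn) (ε / 2) (by positivity)
    set ε₁ : ℝ := min (1 / 4) (‖a‖ * min s (t / 2)) with hε₁
    have hst : 0 < min s (t / 2) := lt_min hs (by positivity)
    have hε₁0 : 0 < ε₁ := lt_min (by norm_num) (mul_pos ha0 hst)
    have hε₁1 : ε₁ ≤ 1 / 4 := min_le_left _ _
    have hε₁2 : ε₁ / ‖a‖ ≤ min s (t / 2) := by
      rw [div_le_iff₀ ha0, mul_comm]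
      exact min_le_right _ _
    obtain ⟨η, hη, Kl, hKl, hKlZ, hlift⟩ := lc_lift (ψ := fun z => a * z + c) hX hu hΛ hHd.continuous hHX
      ((differentiable_id.const_mul a).add_const c) h hZd hR₁0 hε₁0
    obtain ⟨G, hG1, hG2⟩ := hap (R₁ + 1) (min η (ε / 2)) (lt_min hη (by positivity)) (Kl ∪ cthickening s (σ '' K)) (hKl.union hL'c)
      (by
        rintro z (hz | hz)
        · exact (hKlZ z hz).1
        · exact hsZ hz)
    obtain ⟨υ, hυ1, hυ2, hυ3⟩ := hlift G (fun z hz => ⟨(hG1 z hz).1, (hG1 z hz).2.1⟩)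
      (fun z hz => (hG2 z (Or.inl hz) (hKlZ z hz).2).trans_le (min_le_left _ _))
    have hσm : ∀ w ∈ ball (0 : ℂ) (|R| + 3), σ w ∈ closedBall (0 : ℂ) R₁ := by
      intro w hw
      rw [mem_closedBall, dist_zero_right]
      exact hσb w (by simpa using hw)
    have hsub1 : closedBall (0 : ℂ) R₁ ⊆ ball 0 (R₁ + 1) := closedBall_subset_ball (by linarith)
    obtain ⟨κ, hκ1, hκ2⟩ := lc_inverse (ρ := |R|) hε₁0 hε₁1 (θ := fun w => υ (σ w))
      (hυ1.comp hσd.differentiableOn fun w hw => hsub1 (hσm w hw))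
      (fun w hw => by
        have h1 := hυ3 (σ w) (hσm w hw)
        have h2 : a * σ w + c = w := hσv w
        have h1' : ‖υ (σ w) - (a * σ w + c)‖ < ε₁ := h1
        rw [h2] at h1'
        exact h1')
    have hκb : ∀ w ∈ ball (0 : ℂ) (|R| + 1), κ w ∈ ball (0 : ℂ) (|R| + 3) := by
      intro w hw
      rw [mem_ball, dist_zero_right] at hw ⊢
      have h1 : κ w = w + (κ w - w) := by ring
      rw [h1]
      refine (norm_add_le _ _).trans_lt ?_
      have := (hκ2 w (by simpa using hw)).2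
      linarith
    have hKb : ∀ z : ℂ, ‖z‖ ≤ R → z ∈ ball (0 : ℂ) (|R| + 1) := by
      intro z hz
      rw [mem_ball, dist_zero_right]
      linarith
    refine ⟨fun w => G (σ (κ w)), ?_, ?_⟩
    · intro z hz
      have hzb := hKb z (by simpa using hz)
      have hmem : ∀ w ∈ ball (0 : ℂ) (|R| + 1), σ (κ w) ∈ closedBall (0 : ℂ) R₁ := fun w hw => hσm _ (hκb w hw)
      refine ⟨?_, ?_⟩
      · have h1 : AnalyticAt ℂ κ z := hκ1.analyticAt (isOpen_ball.mem_nhds hzb)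
        have h2 : AnalyticAt ℂ (fun w => σ (κ w)) z := AnalyticAt.fun_comp (hσd.analyticAt (κ z)) h1
        exact AnalyticAt.fun_comp (f := fun w => σ (κ w)) (hG1 _ (closedBall_subset_closedBall (by linarith) (hmem z hzb))).1 h2
      · filter_upwards [isOpen_ball.mem_nhds hzb] with w hw
        have h1 := hG1 _ (closedBall_subset_closedBall (by linarith) (hmem w hw))
        refine ⟨h1.2.1, h1.2.2, ?_⟩
        have h2 := hυ2 _ (hsub1 (hmem w hw))
        have h3 : υ (σ (κ w)) = w := (hκ2 w hw).1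
        rw [h3] at h2
        exact h2
    · intro z hz hzR
      have hzb := hKb z hzR
      have h1 := (hκ2 z hzb).2
      have hy : σ z ∈ σ '' K := ⟨z, hz, rfl⟩
      have hy' : σ z ∈ cthickening s (σ '' K) := self_subset_cthickening _ hy
      have hd : dist (σ (κ z)) (σ z) ≤ min s (t / 2) := by
        rw [dist_eq_norm, hσs, norm_div]
        refine le_trans ?_ hε₁2
        gcongr
      have hy2 : σ (κ z) ∈ cthickening s (σ '' K) := mem_cthickening_of_dist_le _ _ _ _ hy (hd.trans (min_le_left _ _))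
      have h3 : dist (pr (H (σ (κ z)))) (pr (H (σ z))) < ε / 2 := by
        refine hut _ hy2 _ hy' (hd.trans_lt ?_)
        have : min s (t / 2) ≤ t / 2 := min_le_right _ _
        linarith
      have h4 := hG2 (σ (κ z)) (Or.inr hy2) (by
        have := hσb (κ z) (by simpa using hκb z hzb)
        linarith)
      have h5 := h4.trans_le (min_le_right _ _)
      exact (dist_triangle _ (pr (H (σ (κ z)))) _).trans_lt (by linarith)

end Pool.Agent.H18.LU
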