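import Pool.Agent.H18.LU.SoB
import Pool.Agent.H62.EL.SbB

/-!
# LU Lf: the members of `SO` are holomorphic curves

`so_lift`: port of `sb_lift` (EL SbB) with a closed ball `closedBall z₀ s ⊆ Ω` as `K`: `f` is a uniform limit on `K ∩ Gd B δ'` of `pr ∘ F n`, `SecAt (F n)` on `K`; all values are in `part X Λ u R` (a cone in the old sense),
bound of the derivative: `sec_boundL`; the private lemma `SbB_local` of `SbB.lean` (copy it) with this cone gives `φ n = c n • F n → Ψ` locally uniformly on a ball `ball z₀ r`, `Ψ z ∈ part`, `pr (Ψ z) = f z`,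
`u (Ψ z) - z ∈ Λ` (`part_unif`, `Dsc.mem_of_close`).  Dichotomy: `A = {z ∈ ball z₀ r | Ψ z ∈ D}` is relatively closed (`D_closed`) and open: at `z₁ ∈ A` (`z₁ ∉ B` if `r` is small: `ball z₀ r ⊆ Gd B δ'`) `hor` applies to
`Ψ z₁` (`u (Ψ z₁) - b ∈ Λ` would give `z₁ - b ∈ Λ`, `z₁ ∈ B`), and `hor_hurwitz`.  The ball is connected.
`so_dichP`: if `Ψ` avoids `D` it avoids `P`; if it is in `D` then `{z | Ψ z ∈ P}` is open (`P_open`) and closed (`P_closed`).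
`so_uniq`: port of `sb_uniq`: `Ω \ B` is preconnected: `Ω` is open and convex, `B` is countable; e.g. `Set.Countable.isPathConnected_compl_of_one_lt_rank` is for the whole space; for a convex open set: `IsOpen.isConnected_compl_..`,
or directly: the set of the points `z ∈ Ω` such that `f = g` on `U \ B` for a neighbourhood `U` of `z` is open, and closed in `Ω` (a point `b ∈ B ∩ Ω` has a punctured neighbourhood free of `B`, connected; or a point `z₁ ∉ B`: lifts and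
identity theorem), and `Ω` is preconnected.
`so_unique_lift`: `Ψ` and `Ψ'` are proportional: `pr_eq_iff`.
-/

set_option autoImplicit false

open Topology Filter Metric

namespace Pool.Agent.H18.LU

open Pool.Agent.H36.BP (EN fs wd IsGermChart)
open Pool.Agent.H14.PP (IsCone Chart Tan CurveAt)
open Pool.Agent.H62.EF (Lat MN pr TorusMap Sec Charts DU)
open Pool.Agent.H62.EL (Gd Ag BadSet IsNC TForm)
open Pool.Agent.H62.EF (pr_lipschitz norm_inner_sq continuousAt_pr pr_smul pr_eq_iff)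
open Pool.Agent.H62.EL (gd_notMem)

variable {N : ℕ} {X D P : Set (EN N)} {Λ Γ : AddSubgroup ℂ} {u : EN N → ℂ} {B : Set ℂ} {δ : ℝ}

private theorem Lf_ne_zero (hX : IsCone X) {x : EN N} (hx : x ∈ X) : x ≠ 0 := by
  rintro rfl
  exact hX.zero_notMem hx

private theorem Lf_local (hX : IsCone X) {L : ℝ} (hL : 0 < L) (𝒰 : Ultrafilter ℕ) (F : ℕ → ℂ → EN N) {z₀ : ℂ} {r₀ : ℝ}
    (hr₀ : 0 < r₀) (hF : ∀ᶠ n in (𝒰 : Filter ℕ), DifferentiableOn ℂ (F n) (ball z₀ r₀) ∧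
      ∀ z ∈ ball z₀ r₀, F n z ∈ X ∧ fs (F n z) (deriv (F n) z) ≤ L) :
    ∃ (r : ℝ) (φ : ℕ → ℂ → EN N) (ψ : ℂ → EN N), 0 < r ∧ r ≤ r₀ ∧
        (∀ᶠ n in (𝒰 : Filter ℕ), DifferentiableOn ℂ (φ n) (ball z₀ r) ∧ ∀ z ∈ ball z₀ r, F n z ∈ X ∧ ∃ c : ℂ, c ≠ 0 ∧ φ n z = c • F n z) ∧
        DifferentiableOn ℂ ψ (ball z₀ r) ∧ (∀ z ∈ ball z₀ r, ψ z ∈ X) ∧
        TendstoLocallyUniformlyOn φ ψ 𝒰 (ball z₀ r) := by
  set r : ℝ := min r₀ (1 / (8 * L)) with hr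
  have hr0 : 0 < r := lt_min hr₀ (by positivity)
  have hrr : r ≤ r₀ := min_le_left _ _
  have hrL : r ≤ 1 / (8 * L) := min_le_right _ _
  have hz₀ : z₀ ∈ ball z₀ r := mem_ball_self hr0
  have hev : ∀ᶠ n in (𝒰 : Filter ℕ), DifferentiableOn ℂ (F n) (ball z₀ r) ∧
      ∀ z ∈ ball z₀ r, F n z ∈ X ∧ ‖F n z₀‖ * ‖F n z‖ ≤ 2 * ‖inner ℂ (F n z₀) (F n z)‖ := by
    filter_upwards [hF] with n h1
    obtain ⟨h1, h3⟩ := h1
    have hsub : ball z₀ r ⊆ ball z₀ r₀ := ball_subset_ball hrr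
    refine ⟨h1.mono hsub, fun z hz => ⟨(h3 z (hsub hz)).1, ?_⟩⟩
    have hx0 : F n z₀ ≠ 0 := Lf_ne_zero hX (h3 z₀ (hsub hz₀)).1
    have hy0 : F n z ≠ 0 := Lf_ne_zero hX (h3 z (hsub hz)).1
    have hlip := pr_lipschitz isOpen_ball (convex_ball z₀ r) (h1.mono hsub)
      (fun w hw => Lf_ne_zero hX (h3 w (hsub hw)).1) (fun w hw => (h3 w (hsub hw)).2) z₀ hz₀ z hz
    have h4 : ‖z₀ - z‖ ≤ r := by
      rw [← dist_eq_norm, dist_comm]
      exact (mem_ball.mp hz).le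
    have h5 : dist (pr (F n z₀)) (pr (F n z)) ≤ 1 / 4 := by
      calc dist (pr (F n z₀)) (pr (F n z)) ≤ 2 * L * ‖z₀ - z‖ := hlip
        _ ≤ 2 * L * (1 / (8 * L)) := by gcongr; exact h4.trans hrL
        _ = 1 / 4 := by field_simp; norm_num
    have h6 := norm_inner_sq hx0 hy0
    have h7 : dist (pr (F n z₀)) (pr (F n z)) ^ 2 ≤ 1 := by
      have := dist_nonneg (x := pr (F n z₀)) (y := pr (F n z))
      nlinarith
    have h8 : (‖F n z₀‖ * ‖F n z‖) ^ 2 ≤ (2 * ‖inner ℂ (F n z₀) (F n z)‖) ^ 2 := by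
      rw [mul_pow, mul_pow, h6]
      have h9 : 0 ≤ ‖F n z₀‖ ^ 2 * ‖F n z‖ ^ 2 := by positivity
      nlinarith
    exact abs_le_of_sq_le_sq' h8 (by positivity) |>.2
  set φ : ℕ → ℂ → EN N := fun n z => (((‖F n z₀‖ : ℝ) : ℂ) / inner ℂ (F n z₀) (F n z)) • F n z with hφ
  have hev2 : ∀ᶠ n in (𝒰 : Filter ℕ), DifferentiableOn ℂ (F n) (ball z₀ r) ∧ DifferentiableOn ℂ (φ n) (ball z₀ r) ∧
      ∀ z ∈ ball z₀ r, F n z ∈ X ∧ (∃ c : ℂ, c ≠ 0 ∧ φ n z = c • F n z) ∧ ‖φ n z‖ ≤ 2 ∧ 1 ≤ ‖φ n z‖ := by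
    filter_upwards [hev] with n h1
    obtain ⟨h1, h2⟩ := h1
    have hx0 : F n z₀ ≠ 0 := Lf_ne_zero hX (h2 z₀ hz₀).1
    have hxn : 0 < ‖F n z₀‖ := norm_pos_iff.mpr hx0
    have hin : ∀ z ∈ ball z₀ r, (inner ℂ (F n z₀) (F n z) : ℂ) ≠ 0 := by
      intro z hz h
      have h3 := (h2 z hz).2
      have hyn : 0 < ‖F n z‖ := norm_pos_iff.mpr (Lf_ne_zero hX (h2 z hz).1)
      rw [h, norm_zero, mul_zero] at h3
      have : 0 < ‖F n z₀‖ * ‖F n z‖ := mul_pos hxn hyn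
      linarith
    refine ⟨h1, ?_, fun z hz => ⟨(h2 z hz).1, ⟨_, ?_, rfl⟩, ?_, ?_⟩⟩
    · have h3 : DifferentiableOn ℂ (fun z => (inner ℂ (F n z₀) (F n z) : ℂ)) (ball z₀ r) :=
        (innerSL ℂ (F n z₀)).differentiable.comp_differentiableOn h1
      have h4 : DifferentiableOn ℂ (fun z => ((‖F n z₀‖ : ℝ) : ℂ) / (inner ℂ (F n z₀) (F n z) : ℂ)) (ball z₀ r) :=
        (differentiableOn_const _).div h3 hin
      exact h4.smul h1
    · exact div_ne_zero (Complex.ofReal_ne_zero.mpr hxn.ne') (hin z hz)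
    · have h3 := (h2 z hz).2
      have h4 : 0 < ‖(inner ℂ (F n z₀) (F n z) : ℂ)‖ := norm_pos_iff.mpr (hin z hz)
      simp only [hφ]
      rw [norm_smul, norm_div, Complex.norm_real, norm_norm, div_mul_eq_mul_div, div_le_iff₀ h4]
      exact h3
    · have h4 : 0 < ‖(inner ℂ (F n z₀) (F n z) : ℂ)‖ := norm_pos_iff.mpr (hin z hz)
      simp only [hφ]
      rw [norm_smul, norm_div, Complex.norm_real, norm_norm, div_mul_eq_mul_div, le_div_iff₀ h4, one_mul]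
      exact norm_inner_le_norm _ _
  obtain ⟨ψ, hψ, hconv⟩ := Pool.Agent.H17.montel_ultrafilter 𝒰 (F := φ) (a := z₀) (r := r) (B := 2)
    (hev2.mono fun n h => h.2.1) (hev2.mono fun n h z hz => ((h.2.2 z hz).2.2.1))
  refine ⟨r, φ, ψ, hr0, hrr, hev2.mono fun n h => ⟨h.2.1, fun z hz => ⟨(h.2.2 z hz).1, (h.2.2 z hz).2.1⟩⟩, hψ, ?_, hconv⟩
  intro z hz
  have h1 : Tendsto (fun n => φ n z) 𝒰 (𝓝 (ψ z)) := hconv.tendsto_at hz
  have h2 : ψ z ∈ insert 0 X := by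
    refine hX.closed.mem_of_tendsto h1 ?_
    filter_upwards [hev2] with n h
    obtain ⟨h3, ⟨c, hc, h4⟩, -⟩ := h.2.2 z hz
    rw [h4]
    exact Or.inr (hX.smul_mem _ h3 c hc)
  have h3 : 1 ≤ ‖ψ z‖ := by
    refine ge_of_tendsto h1.norm ?_
    filter_upwards [hev2] with n h
    exact (h.2.2 z hz).2.2.2
  rcases h2 with h2 | h2
  · rw [h2, norm_zero] at h3
    linarith
  · exact h2

private theorem Lf_preconn (z₀ : ℂ) (ρ : ℝ) : IsPreconnected (ball z₀ ρ \ {z₀}) := by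
  have h1 : IsPreconnected (Set.Ioo (0 : ℝ) ρ ×ˢ (Set.univ : Set ℝ)) := isPreconnected_Ioo.prod isPreconnected_univ
  have h2 := h1.image (fun p : ℝ × ℝ => z₀ + (p.1 : ℂ) * Complex.exp (p.2 * Complex.I))
    (by fun_prop : Continuous fun p : ℝ × ℝ => z₀ + (p.1 : ℂ) * Complex.exp (p.2 * Complex.I)).continuousOn
  convert h2 using 1
  ext z
  constructor
  · rintro ⟨hz, hne⟩
    refine ⟨(‖z - z₀‖, Complex.arg (z - z₀)), ⟨⟨?_, ?_⟩, Set.mem_univ _⟩, ?_⟩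
    · exact norm_pos_iff.2 (sub_ne_zero.2 hne)
    · simpa [dist_eq_norm] using hz
    · simp only
      rw [Complex.norm_mul_exp_arg_mul_I]
      ring
  · rintro ⟨⟨s, t⟩, ⟨⟨h3, h4⟩, _⟩, rfl⟩
    have h5 : ‖(s : ℂ) * Complex.exp (t * Complex.I)‖ = s := by
      rw [norm_mul, Complex.norm_exp_ofReal_mul_I, mul_one, Complex.norm_real, Real.norm_of_nonneg h3.le]
    refine ⟨?_, ?_⟩
    · simp only [mem_ball, dist_eq_norm, add_sub_cancel_left]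
      rw [h5]
      exact h4
    · intro h6
      have h7 : (s : ℂ) * Complex.exp (t * Complex.I) = 0 := by
        simpa using h6
      rw [h7, norm_zero] at h5
      simp only at h3
      linarith

/-- open and closed parts of a preconnected set -/
private theorem Lf_dich {T V : Set ℂ} (hV : IsPreconnected V) (ho : ∀ z ∈ V, z ∈ T → ∀ᶠ w in 𝓝 z, w ∈ T)
    (hc : ∀ z ∈ V, z ∉ T → ∀ᶠ w in 𝓝 z, w ∉ T) : (∀ z ∈ V, z ∈ T) ∨ ∀ z ∈ V, z ∉ T := by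
  by_cases h : ∃ z ∈ V, z ∈ T
  · left
    obtain ⟨z₁, hz₁, hz₁T⟩ := h
    have h1 : V ⊆ interior T := by
      refine hV.subset_of_closure_inter_subset isOpen_interior ⟨z₁, hz₁, mem_interior_iff_mem_nhds.2 (ho z₁ hz₁ hz₁T)⟩ ?_
      rintro z ⟨hzc, hzV⟩
      rw [mem_interior_iff_mem_nhds]
      refine ho z hzV ?_
      by_contra hzT
      obtain ⟨W, hW, hWo, hzW⟩ := _root_.mem_nhds_iff.1 (hc z hzV hzT)
      obtain ⟨w, hwW, hwT⟩ := _root_.mem_closure_iff.1 hzc W hWo hzW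
      exact hW hwW (interior_subset hwT)
    exact fun z hz => interior_subset (h1 hz)
  · right
    push Not at h
    exact h

theorem so_lift (E : LData X D P Λ Γ u B δ) {Ω : Set ℂ} (hΩ : IsOpen Ω) {f : ℂ → MN N} (hf : f ∈ SO X D Λ u B Ω) {z₀ : ℂ} (hz₀ : z₀ ∈ Ω)
    (hz₀B : z₀ ∉ B) : ∃ (r : ℝ) (Ψ : ℂ → EN N), 0 < r ∧ ball z₀ r ⊆ Ω ∧ DifferentiableOn ℂ Ψ (ball z₀ r) ∧
      (∀ z ∈ ball z₀ r, z ∉ B ∧ Ψ z ∈ X ∧ u (Ψ z) - z ∈ Λ ∧ pr (Ψ z) = f z) ∧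
      ((∀ z ∈ ball z₀ r, Ψ z ∈ D) ∨ ∀ z ∈ ball z₀ r, Ψ z ∉ D) ∧ ((∀ z ∈ ball z₀ r, Ψ z ∈ P) ∨ ∀ z ∈ ball z₀ r, Ψ z ∉ P) := by
  have hC : ∀ R : ℝ, IsCone (part X Λ u R) := fun R => E.toLFib.part_isCone R
  obtain ⟨δ₂, hδ₂, hzg⟩ := E.bad.exists_gd hz₀B
  obtain ⟨s, hs, hsΩ⟩ := Metric.nhds_basis_closedBall.mem_iff.1 (hΩ.mem_nhds hz₀)
  set δ' : ℝ := min (δ₂ / 2) (s / 2) with hδ'
  have hδ'0 : 0 < δ' := lt_min (half_pos hδ₂) (half_pos hs)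
  have hδ'1 : δ' ≤ δ₂ / 2 := min_le_left _ _
  have hδ'2 : δ' ≤ s / 2 := min_le_right _ _
  have hsub : ∀ z ∈ ball z₀ δ', z ∈ Gd B δ' := by
    intro z hz b hb
    have h1 := hzg b hb
    have h2 : ‖z - z₀‖ < δ' := by
      rw [← dist_eq_norm]
      exact mem_ball.1 hz
    have h3 : ‖z₀ - b‖ ≤ ‖z - z₀‖ + ‖z - b‖ := by
      have h4 : z₀ - b = -(z - z₀) + (z - b) := by ring
      rw [h4]
      refine (norm_add_le _ _).trans ?_
      rw [norm_neg]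
    linarith
  have hcl : ∀ z ∈ ball z₀ δ', closedBall z δ' ⊆ closedBall z₀ s := by
    intro z hz
    refine closedBall_subset_closedBall' ?_
    have h1 := mem_ball.1 hz
    linarith
  have hbs : ball z₀ δ' ⊆ closedBall z₀ s := fun z hz => hcl z hz (mem_closedBall_self hδ'0.le)
  set R : ℝ := ‖z₀‖ + s with hR
  have hNb : ∀ z ∈ closedBall z₀ s, z ∈ Nb Λ R := by
    intro z hz
    refine nb_mono ?_ (mem_nb_norm z)
    have h1 : ‖z - z₀‖ ≤ s := by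
      rw [← dist_eq_norm]
      exact mem_closedBall.1 hz
    have h2 : ‖z‖ ≤ ‖z₀‖ + ‖z - z₀‖ := by
      have h4 : z = z₀ + (z - z₀) := by ring
      conv_lhs => rw [h4]
      exact norm_add_le _ _
    linarith
  obtain ⟨L, hL0, hL⟩ := sec_boundL E.toLFib hδ'0 R
  have hch : ∀ n : ℕ, ∃ F : ℂ → EN N, (∀ z ∈ closedBall z₀ s, SecAt X D Λ u F z) ∧
      ∀ z ∈ closedBall z₀ s, z ∈ Gd B δ' → dist (pr (F z)) (f z) < 1 / ((n : ℝ) + 1) := fun n =>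
    hf (closedBall z₀ s) hsΩ (isCompact_closedBall z₀ s) δ' (1 / ((n : ℝ) + 1)) hδ'0 (by positivity)
  choose F hF hFd using hch
  have hFp : ∀ n, ∀ z ∈ closedBall z₀ s, F n z ∈ part X Λ u R := fun n z hz =>
    part_mem_of_val (hF n z hz).mem.1 (hNb z hz) (hF n z hz).mem.2.2
  set 𝒰 : Ultrafilter ℕ := hyperfilter ℕ with h𝒰
  have h𝒰t : (𝒰 : Filter ℕ) ≤ atTop := Nat.hyperfilter_le_atTop
  obtain ⟨r, φ, ψ, hr, hrr, hev, hψd, hψX, hconv⟩ := Lf_local (hC R) hL0 𝒰 F (z₀ := z₀) hδ'0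
    (Filter.Eventually.of_forall fun n => ⟨fun z hz => (hF n z (hbs hz)).1.differentiableAt.differentiableWithinAt,
      fun z hz => ⟨hFp n z (hbs hz), hL (F n) z (hsub z hz) (hNb z (hbs hz)) fun w hw => hF n w (hcl z hz hw)⟩⟩)
  have hball : ball z₀ r ⊆ ball z₀ δ' := ball_subset_ball hrr
  have hbK : ball z₀ r ⊆ closedBall z₀ s := hball.trans hbs
  have hlimf : ∀ z ∈ ball z₀ r, Tendsto (fun n => pr (F n z)) 𝒰 (𝓝 (f z)) := by
    intro z hz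
    have h1 : Tendsto (fun n : ℕ => 1 / ((n : ℝ) + 1)) 𝒰 (𝓝 0) := tendsto_one_div_add_atTop_nhds_zero_nat.mono_left h𝒰t
    rw [tendsto_iff_dist_tendsto_zero]
    exact squeeze_zero (fun n => dist_nonneg) (fun n => (hFd n z (hbK hz) (hsub z (hball hz))).le) h1
  have hlimψ : ∀ z ∈ ball z₀ r, Tendsto (fun n => pr (F n z)) 𝒰 (𝓝 (pr (ψ z))) := by
    intro z hz
    have h1 : Tendsto (fun n => φ n z) 𝒰 (𝓝 (ψ z)) := hconv.tendsto_at hz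
    have h2 : Tendsto (fun n => pr (φ n z)) 𝒰 (𝓝 (pr (ψ z))) :=
      (continuousAt_pr (Lf_ne_zero (hC R) (hψX z hz))).tendsto.comp h1
    refine h2.congr' ?_
    filter_upwards [hev] with n h
    obtain ⟨-, c, hc, h4⟩ := h.2 z hz
    rw [h4, pr_smul _ hc]
  have hval : ∀ z ∈ ball z₀ r, u (ψ z) - z ∈ Λ := by
    intro z hz
    apply Dsc.mem_of_close E.dsc
    intro ε hε
    obtain ⟨δ₁, hδ₁, hδ2⟩ := E.toLFib.part_unif R hε
    have h1 : ∀ᶠ n in (𝒰 : Filter ℕ), dist (pr (F n z)) (pr (ψ z)) < δ₁ := Metric.tendsto_nhds.1 (hlimψ z hz) δ₁ hδ₁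
    obtain ⟨n, hn1⟩ := h1.exists
    obtain ⟨l, hl, hl2⟩ := hδ2 (F n z) (hFp n z (hbK hz)) (ψ z) (hψX z hz) hn1
    refine ⟨(u (F n z) - z) - l, Λ.sub_mem ((hF n z (hbK hz)).mem.2.2) hl, ?_⟩
    have h2 : u (ψ z) - z - ((u (F n z) - z) - l) = -(u (F n z) - u (ψ z) - l) := by ring
    rw [h2, norm_neg]
    exact hl2
  have hnB : ∀ z ∈ ball z₀ r, z ∉ B := fun z hz => gd_notMem hδ'0 (hsub z (hball hz))
  have hψc : ∀ z ∈ ball z₀ r, ContinuousAt ψ z := fun z hz => (hψd.differentiableAt (isOpen_ball.mem_nhds hz)).continuousAt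
  have hD : (∀ z ∈ ball z₀ r, ψ z ∈ D) ∨ ∀ z ∈ ball z₀ r, ψ z ∉ D := by
    refine Lf_dich (T := ψ ⁻¹' D) (convex_ball z₀ r).isPreconnected ?_ ?_
    · intro z hz hzD
      have hzD' : ψ z ∈ D := hzD
      obtain ⟨r₁, hr₁, hr₁s⟩ := Metric.isOpen_iff.1 isOpen_ball z hz
      have hor : HorAt X Λ u D (ψ z) (u (ψ z)) 1 := by
        refine E.hor (ψ z) hzD' ?_
        intro b hb hub
        have h1 : z - b ∈ Λ := by
          have h2 : z - b = (u (ψ z) - b) - (u (ψ z) - z) := by ring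
          rw [h2]
          exact Λ.sub_mem hub (hval z hz)
        refine hnB z hz ?_
        have h3 := E.bad.inv b hb (z - b) h1
        rwa [add_sub_cancel] at h3
      refine hor_hurwitz E.cone E.D_smul 𝒰 φ hr₁ hor ?_ (hψd.mono hr₁s) (fun w hw => (hψX w (hr₁s hw)).1)
        (hconv.mono hr₁s) hzD'
      filter_upwards [hev] with n h
      refine ⟨h.1.mono hr₁s, fun w hw => ?_⟩
      obtain ⟨hFX, c, hc, h4⟩ := h.2 w (hr₁s hw)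
      have h5 := (hF n w (hbK (hr₁s hw))).mem
      refine ⟨?_, ?_⟩
      · rw [h4]
        exact E.cone.smul_mem _ hFX.1 c hc
      · intro h6
        apply h5.2.1
        have h7 := E.D_smul _ h6 c⁻¹ (inv_ne_zero hc)
        rwa [h4, smul_smul, inv_mul_cancel₀ hc, one_smul] at h7
    · intro z hz hzD
      exact (hψc z hz).eventually (E.D_closed (ψ z) (hψX z hz).1 hzD)
  have hP : (∀ z ∈ ball z₀ r, ψ z ∈ P) ∨ ∀ z ∈ ball z₀ r, ψ z ∉ P := by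
    rcases hD with hD | hD
    · refine Lf_dich (T := ψ ⁻¹' P) (convex_ball z₀ r).isPreconnected ?_ ?_
      · intro z hz hzP
        filter_upwards [(hψc z hz).eventually (E.P_open (ψ z) hzP), isOpen_ball.mem_nhds hz] with w hw hwb
        exact hw (hD w hwb)
      · intro z hz hzP
        exact (hψc z hz).eventually (E.P_closed (ψ z) (hψX z hz).1 hzP)
    · exact Or.inr fun z hz h => hD z hz (E.P_sub h)
  exact ⟨r, ψ, hr, hbK.trans hsΩ, hψd, fun z hz => ⟨hnB z hz, (hψX z hz).1, hval z hz,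
    tendsto_nhds_unique (hlimψ z hz) (hlimf z hz)⟩, hD, hP⟩

/-- the lift at one point -/
theorem so_lift_at (E : LData X D P Λ Γ u B δ) {Ω : Set ℂ} (hΩ : IsOpen Ω) {f : ℂ → MN N} (hf : f ∈ SO X D Λ u B Ω) {z : ℂ} (hz : z ∈ Ω)
    (hzB : z ∉ B) : ∃ x ∈ X, u x - z ∈ Λ ∧ pr x = f z := by
  obtain ⟨r, Ψ, hr, -, -, h, -⟩ := so_lift E hΩ hf hz hzB
  obtain ⟨-, h1, h2, h3⟩ := h z (mem_ball_self hr)
  exact ⟨Ψ z, h1, h2, h3⟩

/-- the lift outside `P` -/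
theorem so_liftV (E : LData X D P Λ Γ u B δ) {Ω : Set ℂ} (hΩ : IsOpen Ω) {f : ℂ → MN N} (hf : f ∈ SO X D Λ u B Ω) {z₀ : ℂ} (hz₀ : z₀ ∈ Ω)
    (hz₀B : z₀ ∉ B) (hP : f z₀ ∉ pr '' P) : ∃ (r : ℝ) (Ψ : ℂ → EN N), 0 < r ∧ ball z₀ r ⊆ Ω ∧ DifferentiableOn ℂ Ψ (ball z₀ r) ∧
      ∀ z ∈ ball z₀ r, z ∉ B ∧ Ψ z ∈ X \ P ∧ u (Ψ z) - z ∈ Λ ∧ pr (Ψ z) = f z := by
  obtain ⟨r, Ψ, hr, hs, hd, h, -, hdP⟩ := so_lift E hΩ hf hz₀ hz₀B
  refine ⟨r, Ψ, hr, hs, hd, fun z hz => ?_⟩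
  obtain ⟨h0, h1, h2, h3⟩ := h z hz
  refine ⟨h0, ⟨h1, ?_⟩, h2, h3⟩
  rcases hdP with h4 | h4
  · exact absurd ⟨Ψ z₀, h4 z₀ (mem_ball_self hr), (h z₀ (mem_ball_self hr)).2.2.2⟩ hP
  · exact h4 z hz

theorem so_cont (E : LData X D P Λ Γ u B δ) {Ω : Set ℂ} (hΩ : IsOpen Ω) {f : ℂ → MN N} (hf : f ∈ SO X D Λ u B Ω) {z₀ : ℂ} (hz₀ : z₀ ∈ Ω)
    (hz₀B : z₀ ∉ B) : ContinuousAt f z₀ := by
  obtain ⟨r, Ψ, hr, -, hd, h, -⟩ := so_lift E hΩ hf hz₀ hz₀B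
  have hb : ball z₀ r ∈ 𝓝 z₀ := isOpen_ball.mem_nhds (mem_ball_self hr)
  have h1 : ContinuousAt Ψ z₀ := (hd.differentiableAt hb).continuousAt
  have h2 : ContinuousAt (fun z => pr (Ψ z)) z₀ :=
    ContinuousAt.comp (f := Ψ) (continuousAt_pr (E.cone.ne_zero (h z₀ (mem_ball_self hr)).2.1)) h1
  refine h2.congr ?_
  filter_upwards [hb] with z hz
  exact (h z hz).2.2.2

private theorem Lf_uniq_loc (E : LData X D P Λ Γ u B δ) {Ω : Set ℂ} (hΩ : IsOpen Ω) {f g : ℂ → MN N} (hf : f ∈ SO X D Λ u B Ω)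
    (hg : g ∈ SO X D Λ u B Ω) {z₁ : ℂ} (hz₁Ω : z₁ ∈ Ω) (hz₁ : z₁ ∉ B) (h : ∃ᶠ z in 𝓝[≠] z₁, f z = g z) : ∀ᶠ z in 𝓝 z₁, f z = g z := by
  obtain ⟨r, Ψ, hr, -, hΨd, hΨ, -⟩ := so_lift E hΩ hf hz₁Ω hz₁
  obtain ⟨s, Φ, hs, -, hΦd, hΦ, -⟩ := so_lift E hΩ hg hz₁Ω hz₁
  have hbr : ball z₁ r ∈ 𝓝 z₁ := isOpen_ball.mem_nhds (mem_ball_self hr)
  have hbs : ball z₁ s ∈ 𝓝 z₁ := isOpen_ball.mem_nhds (mem_ball_self hs)
  have hΨa : AnalyticAt ℂ Ψ z₁ := hΨd.analyticAt hbr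
  have hΦa : AnalyticAt ℂ Φ z₁ := hΦd.analyticAt hbs
  have hco : ∀ (H : ℂ → EN N), AnalyticAt ℂ H z₁ → ∀ i, AnalyticAt ℂ (fun z => H z i) z₁ := by
    intro H hH i
    exact ((EuclideanSpace.proj (𝕜 := ℂ) i : EN N →L[ℂ] ℂ).analyticAt _).comp hH
  have hmin : ∀ i j, ∀ᶠ z in 𝓝 z₁, Ψ z i * Φ z j - Ψ z j * Φ z i = 0 := by
    intro i j
    have ha : AnalyticAt ℂ (fun z => Ψ z i * Φ z j - Ψ z j * Φ z i) z₁ :=
      ((hco Ψ hΨa i).mul (hco Φ hΦa j)).sub ((hco Ψ hΨa j).mul (hco Φ hΦa i))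
    refine ha.frequently_zero_iff_eventually_zero.1 ?_
    have h1 : ∀ᶠ z in 𝓝[≠] z₁, z ∈ ball z₁ r ∧ z ∈ ball z₁ s :=
      mem_nhdsWithin_of_mem_nhds (Filter.inter_mem hbr hbs)
    refine (h.and_eventually h1).mono ?_
    rintro z ⟨hfg, hzr, hzs⟩
    obtain ⟨-, hX1, -, h2⟩ := hΨ z hzr
    obtain ⟨-, hX2, -, h3⟩ := hΦ z hzs
    have h4 : pr (Ψ z) = pr (Φ z) := by rw [h2, h3, hfg]
    obtain ⟨c, _, hc⟩ := (pr_eq_iff (E.cone.ne_zero hX1) (E.cone.ne_zero hX2)).1 h4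
    have h5 : ∀ k, Ψ z k = c * Φ z k := by
      intro k
      rw [hc]
      simp
    rw [h5 i, h5 j]
    ring
  have hall : ∀ᶠ z in 𝓝 z₁, ∀ i j, Ψ z i * Φ z j - Ψ z j * Φ z i = 0 :=
    Filter.eventually_all.2 fun i => Filter.eventually_all.2 fun j => hmin i j
  filter_upwards [hall, hbr, hbs] with z hz hzr hzs
  obtain ⟨-, hX1, -, h2⟩ := hΨ z hzr
  obtain ⟨-, hX2, -, h3⟩ := hΦ z hzs
  have h10 : Ψ z ≠ 0 := E.cone.ne_zero hX1
  have h20 : Φ z ≠ 0 := E.cone.ne_zero hX2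
  obtain ⟨j, hj⟩ : ∃ j, Φ z j ≠ 0 := by
    by_contra hcon
    push Not at hcon
    apply h20
    ext k
    simpa using hcon k
  have hFc : Ψ z = (Ψ z j / Φ z j) • Φ z := by
    ext k
    have h1 := hz k j
    simp only [PiLp.smul_apply, smul_eq_mul]
    field_simp
    linear_combination h1
  have hne : Ψ z j / Φ z j ≠ 0 := by
    intro h'
    rw [h', zero_smul] at hFc
    exact h10 hFc
  rw [← h2, ← h3]
  exact (pr_eq_iff h10 h20).2 ⟨_, hne, hFc⟩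

/-- the bad set is discrete -/
private theorem Lf_sep (h : BadSet B Λ δ) (z : ℂ) : ∃ ρ : ℝ, 0 < ρ ∧ ∀ w ∈ ball z ρ, w ≠ z → w ∉ B := by
  by_cases hz : z ∈ B
  · refine ⟨8 * δ, by linarith [h.pos], fun w hw hwz hwB => ?_⟩
    have h1 := h.sep w hwB z hz hwz
    have h2 := mem_ball.1 hw
    rw [dist_eq_norm] at h2
    linarith
  · obtain ⟨δ', hδ', hg⟩ := h.exists_gd hz
    refine ⟨δ', hδ', fun w hw _ hwB => ?_⟩
    have h1 := hg w hwB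
    have h2 := mem_ball.1 hw
    rw [dist_comm, dist_eq_norm] at h2
    linarith

theorem so_uniq (E : LData X D P Λ Γ u B δ) {Ω : Set ℂ} (hΩ : IsOpen Ω) (hc : Convex ℝ Ω) {f g : ℂ → MN N} (hf : f ∈ SO X D Λ u B Ω)
    (hg : g ∈ SO X D Λ u B Ω) {z₀ : ℂ} (hz₀ : z₀ ∈ Ω) (hz₀B : z₀ ∉ B) (h : ∃ᶠ z in 𝓝[≠] z₀, f z = g z) : ∀ z ∈ Ω, z ∉ B → f z = g z := by
  have hloc : ∀ z ∈ Ω, z ∉ B → (∃ᶠ w in 𝓝[≠] z, f w = g w) → ∀ᶠ w in 𝓝 z, f w = g w := fun z hz hzB hh =>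
    Lf_uniq_loc E hΩ hf hg hz hzB hh
  set T : Set ℂ := {z | ∀ᶠ w in 𝓝[≠] z, f w = g w} with hT
  have hTo : ∀ z ∈ T, ∀ᶠ w in 𝓝 z, w ≠ z → ∀ᶠ y in 𝓝 w, f y = g y := by
    intro z hz
    have h1 : ∀ᶠ w in 𝓝 z, w ≠ z → f w = g w := eventually_nhdsWithin_iff.1 hz
    filter_upwards [h1.eventually_nhds] with w hw hwz
    filter_upwards [hw, isOpen_ne.mem_nhds hwz] with y hy hyz
    exact hy hyz
  have hTopen : ∀ z ∈ T, ∀ᶠ w in 𝓝 z, w ∈ T := by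
    intro z hz
    filter_upwards [hTo z hz] with w hw
    by_cases hwz : w = z
    · rw [hwz]
      exact hz
    · exact nhdsWithin_le_nhds (hw hwz)
  have hTcl : ∀ z ∈ Ω, z ∈ closure T → z ∈ T := by
    intro z hz hzc
    obtain ⟨ρ₁, hρ₁, hρ₁B⟩ := Lf_sep E.bad z
    obtain ⟨ρ₂, hρ₂, hρ₂Ω⟩ := Metric.isOpen_iff.1 hΩ z hz
    set ρ : ℝ := min ρ₁ ρ₂ with hρ
    have hρ0 : 0 < ρ := lt_min hρ₁ hρ₂
    have hV1 : ∀ w ∈ ball z ρ \ {z}, w ∈ Ω ∧ w ∉ B := fun w hw =>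
      ⟨hρ₂Ω (ball_subset_ball (min_le_right _ _) hw.1), hρ₁B w (ball_subset_ball (min_le_left _ _) hw.1) hw.2⟩
    obtain ⟨t, htb, htT⟩ := _root_.mem_closure_iff.1 hzc (ball z ρ) isOpen_ball (mem_ball_self hρ0)
    -- a point of the punctured ball
    have ht' : ∃ t' ∈ ball z ρ \ {z}, ∀ᶠ y in 𝓝 t', f y = g y := by
      have h1 : ∀ᶠ w in 𝓝[≠] t, ∀ᶠ y in 𝓝 w, f y = g y := by
        filter_upwards [mem_nhdsWithin_of_mem_nhds (hTo t htT), self_mem_nhdsWithin] with w hw hwt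
        exact hw hwt
      have h2 : ∀ᶠ w in 𝓝[≠] t, w ∈ ball z ρ := mem_nhdsWithin_of_mem_nhds (isOpen_ball.mem_nhds htb)
      have h3 : ∀ᶠ w in 𝓝[≠] t, w ≠ z := by
        by_cases htz : t = z
        · rw [← htz]
          exact self_mem_nhdsWithin
        · exact mem_nhdsWithin_of_mem_nhds (isOpen_ne.mem_nhds htz)
      obtain ⟨w, hw1, hw2, hw3⟩ := (h1.and (h2.and h3)).exists
      exact ⟨w, ⟨hw2, hw3⟩, hw1⟩
    obtain ⟨t', ht'V, ht'⟩ := ht'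
    have hdich := Lf_dich (T := {y | ∀ᶠ x in 𝓝 y, f x = g x}) (Lf_preconn z ρ) (fun y _ hy => Filter.Eventually.eventually_nhds hy) ?_
    · rcases hdich with h1 | h1
      · have h2 : ball z ρ ∈ 𝓝 z := isOpen_ball.mem_nhds (mem_ball_self hρ0)
        show ∀ᶠ w in 𝓝[≠] z, f w = g w
        filter_upwards [mem_nhdsWithin_of_mem_nhds h2, self_mem_nhdsWithin] with w hw hwz
        have h3 : ∀ᶠ x in 𝓝 w, f x = g x := h1 w ⟨hw, hwz⟩
        exact h3.self_of_nhds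
      · exact absurd ht' (h1 t' ht'V)
    · intro y hy hyT
      obtain ⟨hyΩ, hyB⟩ := hV1 y hy
      have h1 : ¬ ∃ᶠ w in 𝓝[≠] y, f w = g w := fun hfr => hyT (hloc y hyΩ hyB hfr)
      rw [Filter.not_frequently, eventually_nhdsWithin_iff] at h1
      filter_upwards [h1.eventually_nhds] with w hw hwT
      have hwT' : ∀ᶠ x in 𝓝 w, f x = g x := hwT
      have h2 : ∀ᶠ x in 𝓝[≠] w, x ≠ y := by
        by_cases hwy : w = y
        · rw [← hwy]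
          exact self_mem_nhdsWithin
        · exact mem_nhdsWithin_of_mem_nhds (isOpen_ne.mem_nhds hwy)
      have h3 : ∀ᶠ x in 𝓝[≠] w, x ∈ ({y}ᶜ : Set ℂ) → ¬ f x = g x := mem_nhdsWithin_of_mem_nhds hw
      have h4 : ∀ᶠ x in 𝓝[≠] w, f x = g x := mem_nhdsWithin_of_mem_nhds hwT'
      obtain ⟨x, hx1, hx2, hx3⟩ := (h2.and (h3.and h4)).exists
      exact hx2 hx1 hx3
  have hz₀T : z₀ ∈ T := nhdsWithin_le_nhds (hloc z₀ hz₀ hz₀B h)
  have hall : ∀ z ∈ Ω, z ∈ T := by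
    have h1 := Lf_dich (T := T) hc.isPreconnected (fun z _ hzT => hTopen z hzT) ?_
    · rcases h1 with h2 | h2
      · exact h2
      · exact absurd hz₀T (h2 z₀ hz₀)
    · intro z hz hzT
      have h2 : z ∉ closure T := fun h3 => hzT (hTcl z hz h3)
      filter_upwards [isClosed_closure.isOpen_compl.mem_nhds h2] with w hw hwT
      exact hw (subset_closure hwT)
  intro z hz hzB
  have h1 : ∀ᶠ w in 𝓝[≠] z, f w = g w := hall z hz
  exact (hloc z hz hzB h1.frequently).self_of_nhds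

end Pool.Agent.H18.LU
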