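import Pool.Agent.H62.EF.TorA
import Pool.Agent.H14.PP.ChartBasic

/-!
# LU Oc: open cones and discrete groups

`OCone` is `IsCone` without the closedness, `Dsc` is `Lat` without `cocompact`.  The lemmas on charts, forms and short integrals of EF and EL do not use these two
conditions; the files `O*.lean` are copies of the corresponding files of EF and EL.
-/

set_option autoImplicit false

open Topology Filter Metric

namespace Pool.Agent.H18.LU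

open Pool.Agent.H36.BP (EN fs wd)
open Pool.Agent.H14.PP (IsCone Chart Tan CurveAt IsOpenPart)
open Pool.Agent.H62.EF (Lat MN pr TorusMap Sec Charts DU)

variable {N : ℕ} {X : Set (EN N)} {Λ : AddSubgroup ℂ} {u : EN N → ℂ}

/-- a cone (without `0`) -/
structure OCone (X : Set (EN N)) : Prop where
  zero_notMem : (0 : EN N) ∉ X
  smul_mem : ∀ x ∈ X, ∀ c : ℂ, c ≠ 0 → c • x ∈ X

/-- a discrete subgroup of `ℂ` -/
structure Dsc (Λ : AddSubgroup ℂ) : Prop where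
  discrete : ∃ δ : ℝ, 0 < δ ∧ ∀ l ∈ Λ, ‖l‖ < δ → l = 0

theorem _root_.Pool.Agent.H14.PP.IsCone.ocone (hX : IsCone X) : OCone X := ⟨hX.zero_notMem, hX.smul_mem⟩

theorem _root_.Pool.Agent.H62.EF.Lat.dsc (hΛ : Lat Λ) : Dsc Λ := ⟨hΛ.discrete⟩

theorem OCone.ne_zero (hX : OCone X) {x : EN N} (hx : x ∈ X) : x ≠ 0 := fun h => hX.zero_notMem (h ▸ hx)

theorem Dsc.const (hΛ : Dsc Λ) {U : Set ℂ} (hU : IsPreconnected U) {E : ℂ → ℂ} (hE : ContinuousOn E U) (h : ∀ z ∈ U, E z ∈ Λ) :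
    ∀ z ∈ U, ∀ w ∈ U, E z = E w := by
  obtain ⟨δ, hδ, hd⟩ := hΛ.discrete
  have hdisc : DiscreteTopology (Λ : Set ℂ) := by
    refine DiscreteTopology.of_forall_le_dist hδ ?_
    intro a b hab
    by_contra hlt
    push Not at hlt
    apply hab
    have h1 : ‖(a : ℂ) - b‖ < δ := by rw [← dist_eq_norm]; exact hlt
    have h2 := hd _ (Λ.sub_mem a.2 b.2) h1
    exact Subtype.ext (sub_eq_zero.1 h2)
  intro z hz w hw
  exact hU.constant_of_mapsTo (T := (Λ : Set ℂ)) ⟨hdisc⟩ hE (fun x hx => h x hx) hz hw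

theorem Dsc.mem_of_close (hΛ : Dsc Λ) {a : ℂ} (h : ∀ ε : ℝ, 0 < ε → ∃ l ∈ Λ, ‖a - l‖ < ε) : a ∈ Λ := by
  obtain ⟨δ, hδ, hd⟩ := hΛ.discrete
  obtain ⟨l₀, hl₀, h0⟩ := h (δ / 2) (by positivity)
  have key : a = l₀ := by
    by_contra hne
    have hpos : 0 < ‖a - l₀‖ := norm_pos_iff.2 (sub_ne_zero.2 hne)
    obtain ⟨l, hl, h1⟩ := h (min ‖a - l₀‖ (δ / 2)) (lt_min hpos (by positivity))
    have h2 : ‖l - l₀‖ < δ := by
      have h3 : l - l₀ = (a - l₀) - (a - l) := by ring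
      rw [h3]
      have h4 := norm_sub_le (a - l₀) (a - l)
      have h5 := lt_of_lt_of_le h1 (min_le_right _ _)
      linarith
    have h6 : l = l₀ := sub_eq_zero.1 (hd _ (Λ.sub_mem hl hl₀) h2)
    subst h6
    exact absurd (lt_of_lt_of_le h1 (min_le_left _ _)) (lt_irrefl _)
  rw [key]
  exact hl₀

theorem _root_.Pool.Agent.H14.PP.Chart.sigma_ne_zeroO (hX : OCone X) (χ : Chart X) {p : ℂ × ℂ}
    (hp : p ∈ ball (0 : ℂ × ℂ) 2) : χ.σ p ≠ 0 :=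
  hX.ne_zero (χ.σ_mem p hp).1

theorem _root_.Pool.Agent.H14.PP.Chart.curveO (hX : OCone X) (χ : Chart X) {F : ℂ → EN N} {z₀ : ℂ} (hF : CurveAt X F z₀)
    (hU : F z₀ ∈ χ.U) :
    AnalyticAt ℂ (fun z => χ.q (F z)) z₀ ∧
    deriv (fun z => χ.q (F z)) z₀ = fderiv ℂ χ.q (F z₀) (deriv F z₀) ∧
    ∃ c : ℂ → ℂ, AnalyticAt ℂ c z₀ ∧ c z₀ ≠ 0 ∧
      ∀ᶠ z in 𝓝 z₀, χ.q (F z) ∈ ball (0 : ℂ × ℂ) 2 ∧ F z = c z • χ.σ (χ.q (F z)) := by
  have hq : AnalyticAt ℂ χ.q (F z₀) := χ.q_an _ hU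
  have hqF : AnalyticAt ℂ (fun z => χ.q (F z)) z₀ := AnalyticAt.comp hq hF.1
  refine ⟨hqF, ?_, ?_⟩
  · have h1 : HasFDerivAt χ.q (fderiv ℂ χ.q (F z₀)) (F z₀) := hq.differentiableAt.hasFDerivAt
    have h2 : HasDerivAt F (deriv F z₀) z₀ := hF.1.differentiableAt.hasDerivAt
    exact (h1.comp_hasDerivAt z₀ h2).deriv
  · have hX0 : F z₀ ∈ X := hF.mem
    obtain ⟨hb, c0, hc0, hF0⟩ := χ.surj _ hX0 hU
    have hσ : AnalyticAt ℂ (fun z => χ.σ (χ.q (F z))) z₀ :=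
      AnalyticAt.comp (g := χ.σ) (f := fun z => χ.q (F z)) (χ.σ_an _ hb) hqF
    set y : EN N := χ.σ (χ.q (F z₀)) with hy
    have hy0 : y ≠ 0 := Chart.sigma_ne_zeroO hX χ hb
    have hn : AnalyticAt ℂ (fun z => inner ℂ y (F z)) z₀ :=
      AnalyticAt.comp (g := fun x : EN N => (innerSL ℂ y) x) (f := F)
        ((innerSL ℂ y).analyticAt _) hF.1
    have hd : AnalyticAt ℂ (fun z => inner ℂ y (χ.σ (χ.q (F z)))) z₀ :=
      AnalyticAt.comp (g := fun x : EN N => (innerSL ℂ y) x) (f := fun z => χ.σ (χ.q (F z)))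
        ((innerSL ℂ y).analyticAt _) hσ
    have hd0 : (fun z => inner ℂ y (χ.σ (χ.q (F z)))) z₀ ≠ (0 : ℂ) := by
      show inner ℂ y y ≠ (0 : ℂ)
      exact inner_self_ne_zero.2 hy0
    refine ⟨fun z => inner ℂ y (F z) / inner ℂ y (χ.σ (χ.q (F z))), hn.div hd hd0, ?_, ?_⟩
    · refine div_ne_zero ?_ hd0
      rw [hF0, inner_smul_right]
      exact mul_ne_zero hc0 (inner_self_ne_zero.2 hy0)
    · have hev : ∀ᶠ z in 𝓝 z₀, (fun z => inner ℂ y (χ.σ (χ.q (F z)))) z ≠ (0 : ℂ) :=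
        hd.continuousAt.eventually_ne hd0
      have hevU : ∀ᶠ z in 𝓝 z₀, F z ∈ χ.U :=
        hF.1.continuousAt.eventually_mem (χ.isOpen_U.mem_nhds hU)
      filter_upwards [hev, hevU, hF.2] with z h1 h2 h3
      obtain ⟨h4, c, hc, h5⟩ := χ.surj _ h3 h2
      refine ⟨h4, ?_⟩
      have h6 : inner ℂ y (F z) / inner ℂ y (χ.σ (χ.q (F z))) = c := by
        rw [div_eq_iff h1]
        conv_lhs => rw [h5]
        rw [inner_smul_right]
      rw [h6]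
      exact h5

end Pool.Agent.H18.LU
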