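import Pool.Agent.H18.LU.Nm

/-!
# LU SoA: the limits of the sections, first facts

`so_lip`: `L` from `sec_lipL` for `δ'`, `R`.  Let `f ∈ SO Ω`, `closedBall z δ' ⊆ Ω`, `w, w' ∈ closedBall z (δ'/2)` and `ε > 0`; definition of `SO` for `K = closedBall z δ'`, `δ'/2`: there is `F` with `SecAt` on `K` and
`dist (pr (F y)) (f y) < ε` at `y = w, w'` (they are in `Gd B (δ'/2)`); so `dist (f w) (f w') ≤ L ‖w - w'‖ + 2ε`.
`so_mem`: `z ∈ Gd B δ'` for some `δ' > 0` (`BadSet.exists_gd`); with `K = {z}`: `f z` is a limit of `pr (F n z)`, `F n z ∈ part X Λ u R`, `R = ‖z‖` (`mem_nb_norm`); `pr '' part` is compact (`isCompact_pr`).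
`so_trans`: `K + l` is compact, `F (· + l)`, `secAt_add`, `gd_add`.
-/

set_option autoImplicit false

open Topology Filter Metric

namespace Pool.Agent.H18.LU

open Pool.Agent.H36.BP (EN fs wd IsGermChart)
open Pool.Agent.H14.PP (IsCone Chart Tan CurveAt)
open Pool.Agent.H62.EF (Lat MN pr TorusMap Sec Charts DU)
open Pool.Agent.H62.EL (Gd Ag BadSet IsNC TForm)

variable {N : ℕ} {X D P : Set (EN N)} {Λ Γ : AddSubgroup ℂ} {u : EN N → ℂ} {B : Set ℂ} {δ : ℝ}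

theorem so_anti {Ω Ω' : Set ℂ} (h : Ω' ⊆ Ω) : SO X D Λ u B Ω ⊆ SO X D Λ u B Ω' := fun _ hf K hK => hf K (hK.trans h)

theorem sec_so {Ω : Set ℂ} {F : ℂ → EN N} (h : ∀ z ∈ Ω, SecAt X D Λ u F z) : (fun z => pr (F z)) ∈ SO X D Λ u B Ω := by
  intro K hK _ δ' ε _ hε
  refine ⟨F, fun z hz => h z (hK hz), fun z _ _ => ?_⟩
  rw [dist_self]
  exact hε

theorem so_congr {Ω : Set ℂ} {f g : ℂ → MN N} (hf : f ∈ SO X D Λ u B Ω) (h : ∀ z ∈ Ω, z ∉ B → g z = f z) : g ∈ SO X D Λ u B Ω := by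
  intro K hK hKc δ' ε hδ' hε
  obtain ⟨F, hF, hFd⟩ := hf K hK hKc δ' ε hδ' hε
  refine ⟨F, hF, fun z hz hzG => ?_⟩
  rw [h z (hK hz) (Pool.Agent.H62.EL.gd_notMem hδ' hzG)]
  exact hFd z hz hzG

theorem so_trans (E : LData X D P Λ Γ u B δ) {Ω : Set ℂ} {f : ℂ → MN N} (hf : f ∈ SO X D Λ u B Ω) {l : ℂ} (hl : l ∈ Λ) :
    (fun z => f (z + l)) ∈ SO X D Λ u B {z | z + l ∈ Ω} := by
  intro K hK hKc δ' ε hδ' hε
  have hcont : Continuous fun z : ℂ => z + l := continuous_id.add continuous_const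
  obtain ⟨F, hF, hFd⟩ := hf ((fun z => z + l) '' K) (by rintro _ ⟨z, hz, rfl⟩; exact hK hz) (hKc.image hcont) δ' ε hδ' hε
  refine ⟨fun z => F (z + l), fun z hz => (secAt_add hl).2 (hF _ ⟨z, hz, rfl⟩), fun z hz hzG => ?_⟩
  exact hFd _ ⟨z, hz, rfl⟩ ((E.bad.gd_add δ' hl).2 hzG)

theorem so_lip (E : LData X D P Λ Γ u B δ) {δ' : ℝ} (hδ' : 0 < δ') (R : ℝ) : ∃ L : ℝ, 0 < L ∧ ∀ (Ω : Set ℂ), ∀ f ∈ SO X D Λ u B Ω,
    ∀ z ∈ Gd B δ', z ∈ Nb Λ R → closedBall z δ' ⊆ Ω → ∀ w ∈ closedBall z (δ' / 2), ∀ w' ∈ closedBall z (δ' / 2),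
      dist (f w) (f w') ≤ L * ‖w - w'‖ := by
  obtain ⟨L, hL0, hlip⟩ := sec_lipL E.toLFib hδ' R
  refine ⟨L, hL0, fun Ω f hf z hz hzR hsub w hw w' hw' => ?_⟩
  refine le_of_forall_pos_le_add fun ε hε => ?_
  obtain ⟨F, hF, hFd⟩ := hf (closedBall z δ') hsub (isCompact_closedBall z δ') (δ' / 2) (ε / 2) (by linarith) (by linarith)
  have hgd : ∀ y ∈ closedBall z (δ' / 2), y ∈ closedBall z δ' ∧ y ∈ Gd B (δ' / 2) := by
    intro y hy
    refine ⟨closedBall_subset_closedBall (by linarith) hy, fun b hb => ?_⟩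
    have h1 := hz b hb
    rw [mem_closedBall, dist_comm, dist_eq_norm] at hy
    have h2 : ‖z - b‖ ≤ ‖z - y‖ + ‖y - b‖ := by
      have h3 : z - b = (z - y) + (y - b) := by ring
      rw [h3]
      exact norm_add_le _ _
    linarith
  have h1 := hFd w (hgd w hw).1 (hgd w hw).2
  have h2 := hFd w' (hgd w' hw').1 (hgd w' hw').2
  have h3 := hlip F z hz hzR hF w hw w' hw'
  calc dist (f w) (f w') ≤ dist (f w) (pr (F w)) + dist (pr (F w)) (pr (F w')) + dist (pr (F w')) (f w') :=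
        dist_triangle4 _ _ _ _
    _ ≤ ε / 2 + L * ‖w - w'‖ + ε / 2 := by
        rw [dist_comm (f w)]
        linarith
    _ = L * ‖w - w'‖ + ε := by ring

theorem so_mem (E : LData X D P Λ Γ u B δ) {Ω : Set ℂ} {f : ℂ → MN N} (hf : f ∈ SO X D Λ u B Ω) {z : ℂ} (hz : z ∈ Ω) (hzB : z ∉ B) {R : ℝ}
    (hR : z ∈ Nb Λ R) : f z ∈ pr '' part X Λ u R := by
  obtain ⟨δ', hδ', hz'⟩ := E.bad.exists_gd hzB
  have hc := (Pool.Agent.H62.EF.isCompact_pr (E.part_isCone R)).isClosed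
  rw [← hc.closure_eq, Metric.mem_closure_iff]
  intro ε hε
  obtain ⟨F, hF, hFd⟩ := hf {z} (Set.singleton_subset_iff.2 hz) isCompact_singleton δ' ε hδ' hε
  obtain ⟨h1, -, h3⟩ := (hF z rfl).mem
  refine ⟨pr (F z), ⟨F z, part_mem_of_val h1 hR h3, rfl⟩, ?_⟩
  rw [dist_comm]
  exact hFd z rfl hz'

end Pool.Agent.H18.LU
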