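import Pool.Agent.H18.LU.SoA

/-!
# LU SoB: limits of members of `SO`

`so_limO`: port of `sb_lim` (EL SbA).  Let `K ⊆ Ω` be compact, `δ', ε > 0`.  `Ω` is open, so `cthickening s K ⊆ Ω` for some `s ≤ δ'` (`IsCompact.exists_cthickening_subset_open`), a compact set; `K ⊆ Nb Λ R` for `R` large
(`mem_nb_norm`).  For `𝒰`-almost all `n`: `cthickening s K ⊆ Ω n`, `F n ∈ SO (Ω n)`.  `so_lip` with `s`: on `K ∩ Gd B δ'` (`⊆ Gd B s`) the `F n` and the limit `f` satisfy `dist (F n w) (F n w') ≤ L ‖w - w'‖` for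
`‖w - w'‖ ≤ s/2` (centre `w`).  `K ∩ Gd B δ'` is compact (`isClosed_gd`): finite net of mesh `≤ min (s/2) (ε/(8L))`; so there is `n` with `dist (F n z) (f z) < ε/2` for all `z ∈ K ∩ Gd B δ'`; then take `F` for `F n` with
`ε/2` (`K ⊆ Ω n`).
`so_exists_lim`: for `z ∉ B` the values `F n z` are for almost all `n` in the compact set `pr '' part X Λ u ‖z‖` (`so_mem`), so they converge along `𝒰`; define `f z` as the limit (`f z = 0` for `z ∈ B`); `so_limO`.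
`so_centre`: `l n ∈ Γ` with `‖z n - l n‖ ≤ R₁` (`LData.exists_rep`) for the `n` with `z n ∈ Nb Λ R` (otherwise `l n = 0`); `F n (· + l n) ∈ SO` of the translated ball (`so_trans`, `E.le`); `z n - l n → w` along `𝒰`
(bounded), `w ∈ Gd B δ'` (`isClosed_gd`, `gd_add`), `w ∈ Nb Λ R` (`isClosed_nb`, `nb_add`); the translated balls contain `ball 0 R'` eventually; `so_exists_lim`, `so_along` (at `w`, along `z n - l n`).
`so_along`: `z ∈ Gd B δ'` (`exists_gd`), `dist (F n (w n)) (F n z) ≤ L ‖w n - z‖ → 0` by `so_lip` (centre `z`, `closedBall z δ' ⊆ Ω n` for almost all `n`).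
-/

set_option autoImplicit false

open Topology Filter Metric

namespace Pool.Agent.H18.LU

open Pool.Agent.H36.BP (EN fs wd IsGermChart)
open Pool.Agent.H14.PP (IsCone Chart Tan CurveAt)
open Pool.Agent.H62.EF (Lat MN pr TorusMap Sec Charts DU)
open Pool.Agent.H62.EL (Gd Ag BadSet IsNC TForm)

variable {N : ℕ} {X D P : Set (EN N)} {Λ Γ : AddSubgroup ℂ} {u : EN N → ℂ} {B : Set ℂ} {δ : ℝ}

theorem so_limO (E : LData X D P Λ Γ u B δ) (𝒰 : Ultrafilter ℕ) (Ω : ℕ → Set ℂ) {Ω' : Set ℂ} (hΩ' : IsOpen Ω')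
    (hΩ : ∀ K : Set ℂ, K ⊆ Ω' → IsCompact K → ∀ᶠ n in (𝒰 : Filter ℕ), K ⊆ Ω n) (F : ℕ → ℂ → MN N) (f : ℂ → MN N)
    (hF : ∀ᶠ n in (𝒰 : Filter ℕ), F n ∈ SO X D Λ u B (Ω n)) (hf : ∀ z ∈ Ω', z ∉ B → Tendsto (fun n => F n z) 𝒰 (𝓝 (f z))) :
    f ∈ SO X D Λ u B Ω' := by
  intro K hK hKc δ' ε hδ' hε
  obtain ⟨s₀, hs₀, hs₀K⟩ := hKc.exists_cthickening_subset_open hΩ' hK
  obtain ⟨s, hs, hss₀, hsδ⟩ : ∃ s : ℝ, 0 < s ∧ s ≤ s₀ ∧ s ≤ δ' := ⟨min s₀ δ', lt_min hs₀ hδ', min_le_left _ _, min_le_right _ _⟩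
  have hsub : cthickening s K ⊆ Ω' := (cthickening_mono hss₀ K).trans hs₀K
  have hbig := hΩ (cthickening s K) hsub hKc.cthickening
  have hcl : ∀ z ∈ K, closedBall z s ⊆ cthickening s K := fun z hz => closedBall_subset_cthickening hz s
  obtain ⟨R, hR⟩ := hKc.isBounded.subset_closedBall (0 : ℂ)
  have hnb : ∀ z ∈ K, z ∈ Nb Λ R := fun z hz => by
    have h1 := hR hz
    rw [mem_closedBall_zero_iff] at h1
    exact nb_mono h1 (mem_nb_norm z)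
  obtain ⟨L, hL0, hlip⟩ := so_lip E hs R
  have hgs : ∀ z ∈ Gd B δ', z ∈ Gd B s := fun z hz => Pool.Agent.H62.EL.gd_mono hsδ hz
  have hgd : ∀ z ∈ Gd B δ', ∀ w ∈ closedBall z (s / 2), w ∉ B := by
    intro z hz w hw hwB
    have h1 := hz w hwB
    rw [mem_closedBall, dist_comm, dist_eq_norm] at hw
    linarith
  have hself : ∀ z : ℂ, z ∈ closedBall z (s / 2) := fun z => mem_closedBall_self (by linarith)
  have hflip : ∀ z ∈ K, z ∈ Gd B δ' → ∀ w ∈ closedBall z (s / 2), dist (f z) (f w) ≤ L * ‖z - w‖ := by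
    intro z hzK hz w hw
    have hwΩ : w ∈ Ω' := hsub (hcl z hzK (closedBall_subset_closedBall (by linarith) hw))
    refine le_of_tendsto ((hf z (hK hzK) (Pool.Agent.H62.EL.gd_notMem hδ' hz)).dist (hf w hwΩ (hgd z hz w hw))) ?_
    filter_upwards [hF, hbig] with n hn hn2 using hlip (Ω n) (F n) hn z (hgs z hz) (hnb z hzK) ((hcl z hzK).trans hn2) z (hself z) w hw
  have hcomp : IsCompact (K ∩ Gd B δ') := hKc.inter_right (Pool.Agent.H62.EL.isClosed_gd δ')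
  have hs' : 0 < min (s / 2) (ε / (8 * L)) := by positivity
  obtain ⟨t, htS, htf, hcov⟩ := hcomp.finite_cover_balls hs'
  have hev : ∀ᶠ n in (𝒰 : Filter ℕ), (F n ∈ SO X D Λ u B (Ω n) ∧ cthickening s K ⊆ Ω n) ∧ ∀ y ∈ t, dist (F n y) (f y) < ε / 8 := by
    refine (hF.and hbig).and ((Filter.eventually_all_finite htf).2 fun y hy => ?_)
    exact (Metric.tendsto_nhds.1 (hf y (hK (htS hy).1) (Pool.Agent.H62.EL.gd_notMem hδ' (htS hy).2))) (ε / 8) (by linarith)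
  obtain ⟨n, ⟨hn, hnb'⟩, hnt⟩ := hev.exists
  obtain ⟨G, hG, hGd⟩ := hn K (fun z hz => hnb' (hcl z hz (mem_closedBall_self hs.le))) hKc δ' (ε / 2) hδ' (by linarith)
  refine ⟨G, hG, fun z hz hzG => ?_⟩
  have h1 := hGd z hz hzG
  obtain ⟨y, hyt, hzy⟩ : ∃ y ∈ t, z ∈ ball y (min (s / 2) (ε / (8 * L))) := by
    have h2 := hcov ⟨hz, hzG⟩
    obtain ⟨y, hy, hzy⟩ := Set.mem_iUnion₂.1 h2
    exact ⟨y, hy, hzy⟩
  have hzy' : z ∈ closedBall y (s / 2) := ball_subset_closedBall (ball_subset_ball (min_le_left _ _) hzy)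
  obtain ⟨hyK, hy⟩ := htS hyt
  have hyz : ‖y - z‖ ≤ ε / (8 * L) := by
    rw [mem_ball, dist_comm, dist_eq_norm] at hzy
    exact hzy.le.trans (min_le_right _ _)
  have hLz : L * ‖y - z‖ ≤ ε / 8 := by
    calc L * ‖y - z‖ ≤ L * (ε / (8 * L)) := mul_le_mul_of_nonneg_left hyz hL0.le
      _ = ε / 8 := by field_simp
  have h3 := hlip (Ω n) (F n) hn y (hgs y hy) (hnb y hyK) ((hcl y hyK).trans hnb') y (hself y) z hzy'
  have h4 := hflip y hyK hy z hzy'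
  have h5 := hnt y hyt
  have h6 : dist (F n z) (f z) ≤ dist (F n z) (F n y) + dist (F n y) (f y) + dist (f y) (f z) :=
    dist_triangle4 _ _ _ _
  rw [dist_comm (F n z) (F n y)] at h6
  have h7 := dist_triangle (pr (G z)) (F n z) (f z)
  linarith

theorem so_lim (E : LData X D P Λ Γ u B δ) (𝒰 : Ultrafilter ℕ) (Ω : ℕ → Set ℂ) (hΩ : ∀ R : ℝ, ∀ᶠ n in (𝒰 : Filter ℕ), ball 0 R ⊆ Ω n)
    (F : ℕ → ℂ → MN N) (f : ℂ → MN N) (hF : ∀ᶠ n in (𝒰 : Filter ℕ), F n ∈ SO X D Λ u B (Ω n))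
    (hf : ∀ z, z ∉ B → Tendsto (fun n => F n z) 𝒰 (𝓝 (f z))) : f ∈ SO X D Λ u B Set.univ := by
  refine so_limO E 𝒰 Ω isOpen_univ (fun K _ hK => ?_) F f hF fun z _ hz => hf z hz
  obtain ⟨R, hR⟩ := hK.isBounded.subset_ball (0 : ℂ)
  filter_upwards [hΩ R] with n hn using hR.trans hn

/-- along an ultrafilter every sequence which is eventually in a compact set converges -/
private theorem exists_tendsto {Y : Type} [TopologicalSpace Y] {K : Set Y} (hK : IsCompact K) (𝒰 : Ultrafilter ℕ) (y : ℕ → Y)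
    (h : ∀ᶠ n in (𝒰 : Filter ℕ), y n ∈ K) : ∃ a ∈ K, Tendsto y 𝒰 (𝓝 a) := by
  have h1 : ((𝒰.map y : Ultrafilter Y) : Filter Y) ≤ 𝓟 K := by
    rw [Filter.le_principal_iff]
    exact h
  obtain ⟨a, ha, h2⟩ := hK.ultrafilter_le_nhds (𝒰.map y) h1
  exact ⟨a, ha, h2⟩

theorem so_exists_lim (E : LData X D P Λ Γ u B δ) (𝒰 : Ultrafilter ℕ) (Ω : ℕ → Set ℂ) (hΩ : ∀ R : ℝ, ∀ᶠ n in (𝒰 : Filter ℕ), ball 0 R ⊆ Ω n)
    (F : ℕ → ℂ → MN N) (hF : ∀ᶠ n in (𝒰 : Filter ℕ), F n ∈ SO X D Λ u B (Ω n)) :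
    ∃ f ∈ SO X D Λ u B Set.univ, ∀ z, z ∉ B → Tendsto (fun n => F n z) 𝒰 (𝓝 (f z)) := by
  have h1 : ∀ z : ℂ, ∃ y : MN N, z ∉ B → Tendsto (fun n => F n z) 𝒰 (𝓝 y) := by
    intro z
    by_cases hz : z ∈ B
    · exact ⟨pr 0, fun h => absurd hz h⟩
    · obtain ⟨y, -, hy⟩ := exists_tendsto (Pool.Agent.H62.EF.isCompact_pr (E.part_isCone ‖z‖)) 𝒰 (fun n => F n z) (by
        filter_upwards [hF, hΩ (‖z‖ + 1)] with n hn hn2
        exact so_mem E hn (hn2 (by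
          rw [mem_ball_zero_iff]
          linarith)) hz (mem_nb_norm z))
      exact ⟨y, fun _ => hy⟩
  choose f hf using h1
  exact ⟨f, so_lim E 𝒰 Ω hΩ F f hF hf, hf⟩

theorem so_along (E : LData X D P Λ Γ u B δ) (𝒰 : Ultrafilter ℕ) (Ω : ℕ → Set ℂ) (hΩ : ∀ R : ℝ, ∀ᶠ n in (𝒰 : Filter ℕ), ball 0 R ⊆ Ω n)
    (F : ℕ → ℂ → MN N) {f : ℂ → MN N} (hF : ∀ᶠ n in (𝒰 : Filter ℕ), F n ∈ SO X D Λ u B (Ω n))
    (hf : ∀ z, z ∉ B → Tendsto (fun n => F n z) 𝒰 (𝓝 (f z))) {w : ℕ → ℂ} {z : ℂ} (hz : z ∉ B) (hw : Tendsto w 𝒰 (𝓝 z)) :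
    Tendsto (fun n => F n (w n)) 𝒰 (𝓝 (f z)) := by
  obtain ⟨δ', hδ', hz'⟩ := E.bad.exists_gd hz
  obtain ⟨L, hL0, hlip⟩ := so_lip E hδ' ‖z‖
  rw [Metric.tendsto_nhds]
  intro ε hε
  have h1 : ∀ᶠ n in (𝒰 : Filter ℕ), dist (w n) z < min (δ' / 2) (ε / (2 * L)) :=
    Metric.tendsto_nhds.1 hw _ (lt_min (by linarith) (by positivity))
  have h2 : ∀ᶠ n in (𝒰 : Filter ℕ), dist (F n z) (f z) < ε / 2 := Metric.tendsto_nhds.1 (hf z hz) _ (by linarith)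
  filter_upwards [h1, h2, hF, hΩ (‖z‖ + δ' + 1)] with n h3 h4 h5 h6
  have hcl : closedBall z δ' ⊆ Ω n := fun y hy => h6 (by
    rw [mem_closedBall, dist_eq_norm] at hy
    rw [mem_ball_zero_iff]
    have h7 : y = (y - z) + z := by ring
    rw [h7]
    refine (norm_add_le _ _).trans_lt ?_
    linarith)
  have h8 := hlip (Ω n) (F n) h5 z hz' (mem_nb_norm z) hcl (w n) (by
    rw [mem_closedBall]
    exact (h3.trans_le (min_le_left _ _)).le) z (mem_closedBall_self (by linarith))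
  have h9 : L * ‖w n - z‖ < ε / 2 := by
    rw [dist_eq_norm] at h3
    calc L * ‖w n - z‖ < L * (ε / (2 * L)) := mul_lt_mul_of_pos_left (h3.trans_le (min_le_right _ _)) hL0
      _ = ε / 2 := by field_simp
  have h10 := dist_triangle (F n (w n)) (F n z) (f z)
  linarith

/-- the compactness principle for the centre: balls with centres `z n` at bounded distance from `Λ` and radii which tend to infinity -/
theorem so_centre (E : LData X D P Λ Γ u B δ) {δ' R : ℝ} (𝒰 : Ultrafilter ℕ) (z : ℕ → ℂ) (ρ : ℕ → ℝ) (hρ : Tendsto ρ 𝒰 atTop)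
    (hz : ∀ᶠ n in (𝒰 : Filter ℕ), z n ∈ Gd B δ' ∧ z n ∈ Nb Λ R) (F : ℕ → ℂ → MN N)
    (hF : ∀ᶠ n in (𝒰 : Filter ℕ), F n ∈ SO X D Λ u B (ball (z n) (ρ n))) (hδ' : 0 < δ') :
    ∃ (l : ℕ → ℂ) (w : ℂ) (f : ℂ → MN N), (∀ n, l n ∈ Γ) ∧ w ∈ Gd B δ' ∧ w ∈ Nb Λ R ∧ Tendsto (fun n => z n - l n) 𝒰 (𝓝 w) ∧
      f ∈ SO X D Λ u B Set.univ ∧ (∀ᶠ n in (𝒰 : Filter ℕ), (fun y => F n (y + l n)) ∈ SO X D Λ u B (ball (z n - l n) (ρ n))) ∧
      (∀ y, y ∉ B → Tendsto (fun n => F n (y + l n)) 𝒰 (𝓝 (f y))) ∧ Tendsto (fun n => F n (z n)) 𝒰 (𝓝 (f w)) := by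
  obtain ⟨R₁, hR₁, hrep⟩ := E.toLFib.exists_rep R
  have h1 : ∀ n, ∃ l ∈ Γ, z n ∈ Nb Λ R → ‖z n - l‖ ≤ R₁ := by
    intro n
    by_cases h : z n ∈ Nb Λ R
    · obtain ⟨l, hl, hl'⟩ := hrep (z n) h
      exact ⟨l, hl, fun _ => hl'⟩
    · exact ⟨0, Γ.zero_mem, fun h' => absurd h' h⟩
  choose l hl hlz using h1
  have hlΛ : ∀ n, l n ∈ Λ := fun n => E.le (hl n)
  have hzl : ∀ n, z n - l n + l n = z n := fun n => sub_add_cancel _ _
  obtain ⟨w, -, hw⟩ := exists_tendsto (isCompact_closedBall (0 : ℂ) R₁) 𝒰 (fun n => z n - l n) (by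
    filter_upwards [hz] with n hn
    rw [mem_closedBall_zero_iff]
    exact hlz n hn.2)
  have hgd : ∀ᶠ n in (𝒰 : Filter ℕ), z n - l n ∈ Gd B δ' := by
    filter_upwards [hz] with n hn
    rw [← E.bad.gd_add δ' (hlΛ n), hzl]
    exact hn.1
  have hnb : ∀ᶠ n in (𝒰 : Filter ℕ), z n - l n ∈ Nb Λ R := by
    filter_upwards [hz] with n hn
    rw [← nb_add (hlΛ n), hzl]
    exact hn.2
  have hwG : w ∈ Gd B δ' := (Pool.Agent.H62.EL.isClosed_gd δ').mem_of_tendsto hw hgd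
  have hwN : w ∈ Nb Λ R := (isClosed_nb E.dsc R).mem_of_tendsto hw hnb
  have hFl : ∀ᶠ n in (𝒰 : Filter ℕ), (fun y => F n (y + l n)) ∈ SO X D Λ u B (ball (z n - l n) (ρ n)) := by
    filter_upwards [hF] with n hn
    have h2 := so_trans E hn (hlΛ n)
    have h3 : {y : ℂ | y + l n ∈ ball (z n) (ρ n)} = ball (z n - l n) (ρ n) := by
      ext y
      show y + l n ∈ ball (z n) (ρ n) ↔ _
      rw [mem_ball, mem_ball, dist_eq_norm, dist_eq_norm]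
      have h4 : y + l n - z n = y - (z n - l n) := by ring
      rw [h4]
    rwa [h3] at h2
  have hball : ∀ R' : ℝ, ∀ᶠ n in (𝒰 : Filter ℕ), ball 0 R' ⊆ ball (z n - l n) (ρ n) := by
    intro R'
    filter_upwards [Metric.tendsto_nhds.1 hw 1 one_pos, hρ.eventually_ge_atTop (R' + 1 + ‖w‖)] with n h2 h3
    refine ball_subset_ball' ?_
    have h4 : dist (0 : ℂ) (z n - l n) ≤ dist (0 : ℂ) w + dist w (z n - l n) := dist_triangle _ _ _
    have h5 : dist (0 : ℂ) w = ‖w‖ := dist_zero_left _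
    have h6 : dist w (z n - l n) = dist (z n - l n) w := dist_comm _ _
    linarith
  obtain ⟨f, hf, hf'⟩ := so_exists_lim E 𝒰 (fun n => ball (z n - l n) (ρ n)) hball (fun n y => F n (y + l n)) hFl
  refine ⟨l, w, f, hl, hwG, hwN, hw, hf, hFl, hf', ?_⟩
  have h2 := so_along E 𝒰 (fun n => ball (z n - l n) (ρ n)) hball (fun n y => F n (y + l n)) hFl hf'
    (Pool.Agent.H62.EL.gd_notMem hδ' hwG) hw
  refine h2.congr fun n => ?_
  show F n (z n - l n + l n) = F n (z n)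
  rw [hzl]

end Pool.Agent.H18.LU
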